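import Mathlib
import Pool.Agent.Work.MP_f1a024_nt.HP.Stmts2

set_option autoImplicit false

/-!
Definitions for the theorem EX of note 4874 on MP_f1a024_nt (helper70): many odd `n` for which
`zeta(n)/pi^n` has no rational multiple of small height in a given module.
`evr, Ez, JJ, Qz, FF, pp` are those of `HP/Defs.lean`, `G` that of `OddG/Core.lean`.
-/

namespace Pool.Agent.Work.MP_f1a024_nt.EX

open Real Polynomial MeasureTheory Finset Filter Topology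
open scoped Nat
open Pool.Agent.Work.MP_f1a024_nt.HP (evr Ez JJ Qz FF pp)

/-- `F(e^z, z)`: the outer variable of `F` is `z`, the inner variable is `e^z`. -/
noncomputable def ph (F : ℤ[X][X]) (z : ℝ) : ℝ :=
  F.eval₂ (Polynomial.eval₂RingHom (Int.castRingHom ℝ) (Real.exp z)) z

/-- The power series of `F(e^z, z)`. -/
noncomputable def ps (F : ℤ[X][X]) : PowerSeries ℚ :=
  F.eval₂ (Polynomial.eval₂RingHom (Int.castRingHom (PowerSeries ℚ)) (PowerSeries.exp ℚ))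
    PowerSeries.X

/-- `F = sum_(i <= ρ, s < a) f_is X^i Z^s`, where `f_is = (F.coeff s).coeff i`. -/
def Box (ρ a : ℕ) (F : ℤ[X][X]) : Prop := ∀ s i : ℕ, a ≤ s ∨ ρ < i → (F.coeff s).coeff i = 0

/-- The `l1` norm of the coefficients in the box. -/
noncomputable def nm (ρ a : ℕ) (F : ℤ[X][X]) : ℝ :=
  ∑ i ∈ range (ρ + 1), ∑ s ∈ range a, |(((F.coeff s).coeff i : ℤ) : ℝ)|

/-- The array `c_is = s! f_is`. -/
noncomputable def ct (F : ℤ[X][X]) (i s : ℕ) : ℤ := (s ! : ℤ) * (F.coeff s).coeff i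

/-- The moments of order `< D` of the array `c` vanish. -/
def Mom (r A D : ℕ) (c : ℕ → ℕ → ℤ) : Prop :=
  ∀ b : ℕ, b < D →
    ∑ i ∈ range (r + 1), ∑ s ∈ range A, c i s * (b.choose s : ℤ) * (i : ℤ) ^ (b - s) = 0

/-- `l(w) = log (w/(1-w))`. -/
noncomputable def lw (w : ℝ) : ℝ := Real.log (w / (1 - w))

/-- `g(w) = (1-w)^ρ F(e^l, l)`, `l = l(w)`. -/
noncomputable def gw (ρ : ℕ) (F : ℤ[X][X]) (w : ℝ) : ℝ := (1 - w) ^ ρ * ph F (lw w)

/-- The integrand of `Phi`. -/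
noncomputable def fw (ρ n K : ℕ) (F : ℤ[X][X]) (w : ℝ) : ℝ :=
  gw ρ F w ^ 2 / lw w ^ (n + 1) * (w * (1 - w)) ^ K

/-- `Phi_K = int_0^1 g(w)^2 l(w)^(-n-1) (w(1-w))^K dw`. -/
noncomputable def Phi (ρ n K : ℕ) (F : ℤ[X][X]) : ℝ := ∫ w in (0 : ℝ)..1, fw ρ n K F w

end Pool.Agent.Work.MP_f1a024_nt.EX
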