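import Mathlib
import Pool.Agent.Work.MP_f1a024_nt.EX.Defs

set_option autoImplicit false

/-!
Statements of the items of the block [f1a024 EX] (helper70). Each docstring contains the complete
proof of its item. An item may use any other statement of this file as a hypothesis (say which
ones in the name line).
-/

namespace Pool.Agent.Work.MP_f1a024_nt.EX

open Real Polynomial MeasureTheory Finset Filter Topology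
open scoped Nat
open Pool.Agent.Work.MP_f1a024_nt.HP (evr Ez JJ Qz FF pp)

/-! ### A. Algebra -/

/-- PSC. Coefficients of the power series of `F(e^z, z) = sum_(i,s) f_is z^s e^(iz)`:
the coefficient of `z^k` in `z^s e^(iz)` is `i^(k-s)/(k-s)!` for `s <= k`, and 0 for `k < s`; times
`k!` this is `k(k-1)..(k-s+1) i^(k-s)` (`Nat.descFactorial`, which is 0 for `k < s`).
Proof. `F = sum_(s<a) C(F_s) Z^s`, `F_s = sum_(i<=ρ) f_is X^i` (from `Box`), so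
`ps F = sum f_is exp^i X^s`; `PowerSeries.exp_pow_eq_rescale_exp`, `PowerSeries.coeff_mul_X_pow'`,
`PowerSeries.coeff_exp`. -/
def S_PSC : Prop :=
  ∀ (ρ a : ℕ) (F : ℤ[X][X]), Box ρ a F → ∀ k : ℕ,
    (k ! : ℚ) * PowerSeries.coeff k (ps F) =
      ∑ i ∈ range (ρ + 1), ∑ s ∈ range a,
        (k.descFactorial s : ℚ) * (i : ℚ) ^ (k - s) * ((F.coeff s).coeff i : ℚ)

/-- SIE. Siegel's lemma. `l(l+1)` unknowns `f_is` (`i <= l`, `s < l`), the `δ` equations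
`sum_(i,s) k(k-1)..(k-s+1) i^(k-s) f_is = 0` (`k < δ`, see PSC: they say `X^δ ∣ ps F`), the
coefficients are integers of absolute value `<= k^s i^(k-s) <= δ^l l^δ`. Use
`Int.Matrix.exists_ne_zero_int_vec_norm_le` (`(n max(1,‖A‖))^(m/(n-m))`, `n = l(l+1)`, `m = δ`) and
`F = sum_(i,s) C(C f_is X^i) Z^s`; the norm `nm` is at most `n` times the maximum. Proof uses PSC. -/
def S_SIE : Prop :=
  ∀ l δ : ℕ, 1 ≤ l → 1 ≤ δ → 2 * δ ≤ l * (l + 1) →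
    ∃ F : ℤ[X][X], F ≠ 0 ∧ Box l l F ∧ (PowerSeries.X : PowerSeries ℚ) ^ δ ∣ ps F ∧
      nm l l F ≤ (l * (l + 1) : ℝ) * ((l * (l + 1) : ℝ) * ((δ : ℝ) ^ l * (l : ℝ) ^ δ)) ^
        ((δ : ℝ) / (l * (l + 1) - δ))

/-- TOP. Multiplication by a power of `X` moves the highest power of `X` which occurs to `X^ρ`.
Proof. Let `i0 <= ρ` be the largest `i` with `f_is != 0` for some `s`, `t = ρ - i0`,
`F' = C (X^t) * F`. Then `f'_is = f_(i-t)s` for `t <= i` and `0` for `i < t`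
(`Polynomial.coeff_C_mul`, `Polynomial.coeff_X_pow_mul'`), `ps F' = exp^t * ps F`. -/
def S_TOP : Prop :=
  ∀ (ρ a δ : ℕ) (F : ℤ[X][X]), F ≠ 0 → Box ρ a F → (PowerSeries.X : PowerSeries ℚ) ^ δ ∣ ps F →
    ∃ F' : ℤ[X][X], Box ρ a F' ∧ (PowerSeries.X : PowerSeries ℚ) ^ δ ∣ ps F' ∧
      nm ρ a F' ≤ nm ρ a F ∧ ∃ s : ℕ, s < a ∧ (F'.coeff s).coeff ρ ≠ 0

/-- MOM. If `X^D` divides `ps G`, the moments of order `< D` of the array `s! g_is` vanish.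
Proof (PSC): `b! [z^b] ps G = sum b(b-1)..(b-s+1) i^(b-s) g_is` and
`b(b-1)..(b-s+1) = s! C(b,s)` (`Nat.descFactorial_eq_factorial_mul_choose`);
`PowerSeries.X_pow_dvd_iff`. Uses PSC. -/
def S_MOM : Prop :=
  ∀ (r A D : ℕ) (H : ℤ[X][X]), Box r A H → (PowerSeries.X : PowerSeries ℚ) ^ D ∣ ps H →
    Mom r A D (ct H)

/-- SQ. The square. The coefficients of `F^2` are
`sum_(i1+i2=i, s1+s2=s) f_(i1 s1) f_(i2 s2)`; `|c_is| = s! |..| <= (2a)! |..|` for `s < 2a-1`. -/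
def S_SQ : Prop :=
  ∀ (ρ a : ℕ) (F : ℤ[X][X]), 1 ≤ a → Box ρ a F →
    Box (2 * ρ) (2 * a - 1) (F ^ 2) ∧
    ∑ i ∈ range (2 * ρ + 1), ∑ s ∈ range (2 * a - 1), |(ct (F ^ 2) i s : ℝ)| ≤
      ((2 * a)! : ℝ) * nm ρ a F ^ 2

/-! ### B. The linear forms -/

/-- JEX. `z^(n+1) JJ(e^(zx)) = n! H(e^z, z)`. Proof: for `m = n - s`
`int_0^i (i-x)^m e^(zx) dx = m! z^(-m-1) (e^(iz) - sum_(b<=m) (iz)^b/b!)` (induction on `m`, by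
parts: `int_0^i (i-x)^(m+1) e^(zx) dx = -i^(m+1)/z + ((m+1)/z) int_0^i (i-x)^m e^(zx) dx`), and
`C(n,s) (n-s)! s! h_is = n! h_is`. So the left side is
`n! sum_is h_is z^s (e^(iz) - sum_(b<=n-s) (iz)^b/b!)`
`= n! H(e^z,z) - sum_(k<=n) z^k (n!/k!) sum_is s! h_is C(k,s) i^(k-s)` (`k = b+s`,
`k!/(k-s)! = s! C(k,s)`), and the last sums vanish by `Mom`. -/
def S_JEX : Prop :=
  ∀ (r A n : ℕ) (H : ℤ[X][X]), Box r A H → A ≤ n → Mom r A (n + 1) (ct H) →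
    ∀ z : ℝ, z ≠ 0 →
      z ^ (n + 1) * JJ r A n (ct H) (fun x => Real.exp (z * x)) = (n ! : ℝ) * ph H z

/-- EZG. The polynomials `E_i` add up to 0. The same proof as `HP/I_EZ0.lean` (which only uses the
moments of order `<= n`). -/
def S_EZG : Prop :=
  ∀ (r A n : ℕ) (c : ℕ → ℕ → ℤ), A ≤ n → Mom r A (n + 1) c →
    ∑ i ∈ range (r + 1), Ez A n c i = 0

/-- FRG. The linear form. The same proof as `HP/I_FRM.lean` (`FRM_pf`, which uses `PF` only for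
EZ0). Uses `HP.S_FOU`, `HP.S_QEV`, S_EZG. -/
def S_FRG : Prop :=
  ∀ (r A n K : ℕ) (c : ℕ → ℕ → ℤ), 1 ≤ r → A ≤ n → Mom r A (n + 1) c →
    FF r A n K c = π * ∑ j ∈ range (n + (r + 2 * K + 1) + 1),
      (-1) ^ j * (pp r A n K c j : ℝ) * (OddG.G (2 * j + 1) / (2 * (2 * j + 1)))

/-- PPG. Window and size of the coefficients. The same proof as `HP/I_PPW.lean`, with
`C(n,s) <= n^s <= n^A` instead of `C(n,s) <= 2^n`. Uses `HP.S_QEV`. -/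
def S_PPG : Prop :=
  ∀ (r A n K : ℕ) (c : ℕ → ℕ → ℤ), 1 ≤ A → A ≤ n → ∀ j : ℕ,
    (2 * j + 1 + A < n + 3 → pp r A n K c j = 0) ∧
    (n + (r + 2 * K + 1) + 1 < 2 * j + 1 → pp r A n K c j = 0) ∧
    |(pp r A n K c j : ℝ)| ≤ (r + K + 1 : ℝ) ^ (r + 2 * K + 1) * (n : ℝ) ^ A *
      ∑ i ∈ range (r + 1), ∑ s ∈ range A, |(c i s : ℝ)|

/-- BET. Beta integral: with `w^(x+K) (1-w)^(r+K-x) = (w(1-w))^K (1-w)^r e^(x l(w))` and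
`int_0^1 w^(x+K) (1-w)^(r+K-x) dw = Γ(x+K+1) Γ(r+K+1-x)/(r+2K+1)!`
(`Complex.Gamma_mul_Gamma_eq_betaIntegral` or `Real.Gamma` versions). Put `y = x-r-K`:
`Γ(x+K+1) = (x+K)(x+K-1)..(x-r-K) Γ(y) = Q(x) Γ(y)` (`r+2K+1` factors, induction with
`Real.Gamma_add_one`), `Γ(r+K+1-x) = Γ(1-y)`, `Γ(y) Γ(1-y) = π/sin(πy) = (-1)^(r+K) π/sin(πx)`
(`Real.Gamma_mul_Gamma_one_sub`). -/
def S_BET : Prop :=
  ∀ (r K : ℕ) (x : ℝ), 0 < x → x < r → (∀ k : ℤ, x ≠ (k : ℝ)) →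
    ((r + 2 * K + 1)! : ℝ) *
        ∫ w in (0 : ℝ)..1, (w * (1 - w)) ^ K * (1 - w) ^ r * Real.exp (x * lw w) =
      (-1) ^ (r + K) * (evr (Qz r K) x * (π / sin (π * x)))

/-- PHI. Fubini. For `i <= r`, `0 < x < i` put
`I_i(x,w) = E_i(x) (w(1-w))^K (1-w)^r e^(x l(w))`, `0 < w < 1`. Here
`(1-w)^r e^(x l(w)) = w^x (1-w)^(r-x) <= 1`, so `I_i` is bounded and measurable on a set of
finite measure. By BET (for the non-integers `x`) and Fubini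
`(-1)^(r+K) FF = (r+2K+1)! sum_i int_0^i int_0^1 I_i dw dx`
`= (r+2K+1)! int_0^1 (w(1-w))^K (1-w)^r JJ(e^(l(w) x)) dw`, and `JJ(e^(zx)) = n! z^(-n-1) ph H z` for
`z = l(w) != 0`, i.e. `w != 1/2` (JEX). The integrability of the last integrand is part of
Fubini's theorem. (`A = 0` is allowed, everything is 0.) Uses JEX, BET. -/
def S_PHI : Prop :=
  ∀ (r A n K : ℕ) (H : ℤ[X][X]), Box r A H → A ≤ n → Mom r A (n + 1) (ct H) →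
    IntervalIntegrable (fun w : ℝ => (1 - w) ^ r * ph H (lw w) / lw w ^ (n + 1) *
      (w * (1 - w)) ^ K) volume 0 1 ∧
    FF r A n K (ct H) = (-1) ^ (r + K) * (((r + 2 * K + 1)! : ℝ) * ((n ! : ℝ) *
      ∫ w in (0 : ℝ)..1, (1 - w) ^ r * ph H (lw w) / lw w ^ (n + 1) * (w * (1 - w)) ^ K))

/-! ### C. Bounds for `Phi` -/

/-- UBD. For `w >= 1/2` `e^(-l) = (1-w)/w`, so `w(1-w) = w^2 e^(-l)`, `1/4 <= w^2 <= 1`; for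
`w <= 1/2` by symmetry (`l(1-w) = -l(w)`). -/
def S_UBD : Prop :=
  ∀ w : ℝ, 0 < w → w < 1 →
    Real.exp (-|lw w|) / 4 ≤ w * (1 - w) ∧ w * (1 - w) ≤ Real.exp (-|lw w|)

/-- GWE. Expansion of `g` and the trivial bound. Proof: `e^(i l) = w^i/(1-w)^i`;
`w^i (1-w)^(ρ-i) <= 1`, `|l|^s <= (1+|l|)^a` for `s < a`. -/
def S_GWE : Prop :=
  ∀ (ρ a : ℕ) (F : ℤ[X][X]), Box ρ a F → ∀ w : ℝ, 0 < w → w < 1 →
    gw ρ F w = ∑ i ∈ range (ρ + 1), ∑ s ∈ range a,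
      ((F.coeff s).coeff i : ℝ) * (w ^ i * (1 - w) ^ (ρ - i) * lw w ^ s) ∧
    |gw ρ F w| ≤ nm ρ a F * (1 + |lw w|) ^ a

/-- PHB. Schwarz-type bound for `φ(z) = F(e^z,z) = O(z^δ)`, coefficient by coefficient. Proof: with
`p_k = [z^k] ps F = sum_is f_is [s<=k] i^(k-s)/(k-s)!` (PSC) and
`q_k = sum_is |f_is| [s<=k] i^(k-s)/(k-s)! >= |p_k|` one has `φ(z) = sum_(k>=δ) p_k z^k`, so
`|φ(z)| <= sum_(k>=δ) q_k |z|^k <= T^(-δ) sum_k q_k (T|z|)^k = T^(-δ) sum_is |f_is| (T|z|)^s e^(iT|z|)`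
(`HasSum` of the exponential series) `<= T^(-δ) nm (1+T|z|)^a e^(ρT|z|)`. Uses PSC. -/
def S_PHB : Prop :=
  ∀ (ρ a δ : ℕ) (F : ℤ[X][X]), Box ρ a F → (PowerSeries.X : PowerSeries ℚ) ^ δ ∣ ps F →
    ∀ T z : ℝ, 1 ≤ T →
      |ph F z| ≤ nm ρ a F * (1 + T * |z|) ^ a * Real.exp (ρ * (T * |z|)) / T ^ δ

/-- PW1. Tail, pointwise: `g^2 <= nm^2 (1+|l|)^(2a) <= nm^2 4^a |l|^(2a) <= nm^2 4^a |l|^(n+1)`
(GWE, `|l| >= 1`), `(w(1-w))^K <= e^(-K|l|)` (UBD), `l^(n+1) = |l|^(n+1)` since `n` is odd. -/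
def S_PW1 : Prop :=
  ∀ (ρ a n K : ℕ) (F : ℤ[X][X]), Box ρ a F → Odd n → 2 * a ≤ n + 1 →
    ∀ w : ℝ, 0 < w → w < 1 → 1 ≤ |lw w| →
      fw ρ n K F w ≤ nm ρ a F ^ 2 * 4 ^ a * Real.exp (-(K * |lw w|))

/-- PW2. Middle, pointwise. For `l != 0` PHB with `T = τ/|l| >= 1` gives
`|g| <= |φ(l)| <= nm (1+τ)^a e^(ρτ) (|l|/τ)^δ`, so with `M = 2δ-n-1`
`g^2 l^(-n-1) (w(1-w))^K <= nm^2 (1+τ)^(2a) e^(2ρτ) τ^(-2δ) |l|^M e^(-K|l|)` (UBD) and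
`|l|^M e^(-K|l|) <= M!/K^M` (`x^M/M! <= e^x`). For `l = 0` the left side is 0. Uses PHB, UBD. -/
def S_PW2 : Prop :=
  ∀ (ρ a δ n K : ℕ) (F : ℤ[X][X]) (τ : ℝ), Box ρ a F →
    (PowerSeries.X : PowerSeries ℚ) ^ δ ∣ ps F → Odd n → n + 1 ≤ 2 * δ → 1 ≤ K → 0 < τ →
    ∀ w : ℝ, 0 < w → w < 1 → |lw w| ≤ τ →
      fw ρ n K F w ≤ nm ρ a F ^ 2 * (1 + τ) ^ (2 * a) * Real.exp (2 * ρ * τ) / τ ^ (2 * δ) *
        (((2 * δ - n - 1)! : ℝ) / (K : ℝ) ^ (2 * δ - n - 1))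

/-- UPP. Upper bound for `Phi_K`: by PW1 (for `|l| > τ >= 1`) and PW2 (for `|l| <= τ`) the integrand
is everywhere at most the maximum. (If it is not integrable, the integral is 0.) -/
def S_UPP : Prop :=
  ∀ (ρ a δ n K : ℕ) (F : ℤ[X][X]) (τ : ℝ), Box ρ a F →
    (PowerSeries.X : PowerSeries ℚ) ^ δ ∣ ps F → Odd n → 2 * a ≤ n + 1 → n + 1 ≤ 2 * δ →
    1 ≤ K → 1 ≤ τ →
      Phi ρ n K F ≤ max (nm ρ a F ^ 2 * (1 + τ) ^ (2 * a) * Real.exp (2 * ρ * τ) / τ ^ (2 * δ) *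
        (((2 * δ - n - 1)! : ℝ) / (K : ℝ) ^ (2 * δ - n - 1)))
        (nm ρ a F ^ 2 * 4 ^ a * Real.exp (-(K * τ)))

/-- STP. From `K` to `K+1`. Let `c = nm^2 4^a e^(-K z2)`. Pointwise
`f_(K+1) >= (e^(-z2)/4) (f_K - c)`: if `|l| <= z2` because `f_(K+1) = w(1-w) f_K`,
`w(1-w) >= e^(-z2)/4` (UBD) and `f_K >= 0` (`n+1` is even); if `|l| > z2` because `f_K <= c` (PW1)
and `f_(K+1) >= 0`. Integrate: `Phi_(K+1) >= (e^(-z2)/4) (Phi_K - c) >= (e^(-z2)/8) Phi_K`. -/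
def S_STP : Prop :=
  ∀ (ρ a n K : ℕ) (F : ℤ[X][X]) (z2 : ℝ), Box ρ a F → Odd n → 2 * a ≤ n + 1 → 1 ≤ z2 →
    IntervalIntegrable (fw ρ n K F) volume 0 1 →
    IntervalIntegrable (fw ρ n (K + 1) F) volume 0 1 →
    nm ρ a F ^ 2 * 4 ^ a * Real.exp (-(K * z2)) ≤ Phi ρ n K F / 2 →
      Real.exp (-z2) / 8 * Phi ρ n K F ≤ Phi ρ n (K + 1) F

/-- LGW. Lower bound for `|g|` near an integer point. Proof. Let `p(t) = sum_(s<a) f_ρs t^s`, a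
non-zero integer polynomial of degree `< a`; it has at most `a-1` roots, so there is an integer
`l0` with `z1 <= l0 <= z1+a-1` and `|p(l0)| >= 1`. Put `z = z1+a`. Let `l0 <= l <= l0 + ε`,
`ε = 1/(4 nm a z^a) <= 1` (`nm >= 1`), so `1 <= l <= z`. Mean value theorem: `|p'| <= nm a z^a` on
`[0,z]`, so `|p(l)| >= 3/4`. As `1-w = e^(-l) w`, GWE gives
`g(w) = w^ρ (p(l) + sum_(i<ρ) e^(-(ρ-i)l) sum_s f_is l^s)`; the second term is at most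
`e^(-l) nm z^a <= 1/16`, and `w^ρ = (1+e^(-l))^(-ρ) >= 1 - ρ e^(-l) >= 1/2`. So
`|g| >= (1/2)(3/4-1/16) >= 1/4`. Uses GWE. -/
def S_LGW : Prop :=
  ∀ (ρ a z1 : ℕ) (F : ℤ[X][X]), Box ρ a F → (∃ s : ℕ, s < a ∧ (F.coeff s).coeff ρ ≠ 0) →
    1 ≤ z1 → nm ρ a F * ((z1 + a : ℕ) : ℝ) ^ a * Real.exp (-z1) ≤ 1 / 16 →
    ρ * Real.exp (-z1) ≤ 1 / 2 →
    ∃ l0 : ℕ, z1 ≤ l0 ∧ l0 + 1 ≤ z1 + a ∧ ∀ w : ℝ, 0 < w → w < 1 → (l0 : ℝ) ≤ lw w →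
      lw w ≤ l0 + 1 / (4 * nm ρ a F * a * ((z1 + a : ℕ) : ℝ) ^ a) → 1 / 4 ≤ |gw ρ F w|

/-- LOW. Lower bound for `Phi_K`. Proof. Take `l0`, `ε`, `z` of LGW. The set of the `w` with
`l0 <= l(w) <= l0+ε` is `[σ(l0), σ(l0+ε)]`, `σ(l) = 1/(1+e^(-l))`, of length `>= ε e^(-z)/4`
(`σ' = σ(1-σ) >= e^(-l)/4`, UBD, or directly). On it the integrand is at least
`(1/16) z^(-n-1) (e^(-z)/4)^K`, elsewhere it is `>= 0`. Uses LGW, UBD. -/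
def S_LOW : Prop :=
  ∀ (ρ a n K z1 : ℕ) (F : ℤ[X][X]), Box ρ a F → (∃ s : ℕ, s < a ∧ (F.coeff s).coeff ρ ≠ 0) →
    Odd n → 1 ≤ z1 → nm ρ a F * ((z1 + a : ℕ) : ℝ) ^ a * Real.exp (-z1) ≤ 1 / 16 →
    ρ * Real.exp (-z1) ≤ 1 / 2 → IntervalIntegrable (fw ρ n K F) volume 0 1 →
      1 / 16 / ((z1 + a : ℕ) : ℝ) ^ (n + 1) * (Real.exp (-((z1 + a : ℕ) : ℝ)) / 4) ^ K *
        (1 / (4 * nm ρ a F * a * ((z1 + a : ℕ) : ℝ) ^ a) *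
          (Real.exp (-((z1 + a : ℕ) : ℝ)) / 4)) ≤ Phi ρ n K F

/-! ### D. The criterion -/

/-- DI2. Dirichlet's theorem with different precisions (pigeonhole: for `0 <= t <= prod Q_i` the
vectors `(floor (Q_i frac(t x_i)))_i` take at most `prod Q_i` values). Model: `HP/I_DIR.lean`. -/
def S_DI2 : Prop :=
  ∀ (ι : Type) [Fintype ι] (x : ι → ℝ) (Q : ι → ℕ), (∀ i, 1 ≤ Q i) →
    ∃ t : ℕ, 1 ≤ t ∧ t ≤ ∏ i, Q i ∧ ∀ i, ∃ y : ℤ, |(t : ℝ) * x i - y| ≤ 1 / Q i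

/-- CRI. The criterion. Put `v_K = |sum_J P_Kj g_j|`, `V = Q1^m Q2^|E| R M`. Proof. DI2 for the
family `R ω_i` (precisions `1/Q1`), `R M g_j`, `j ∈ E` (precisions `1/Q2`) gives
`1 <= t <= Q1^m Q2^|E|`; put `S = t R M`, `R <= S <= V`. For `j ∈ J \ E`
`S g_j = sum_i A_i (t R ω_i)` is within `m A0/Q1` of an integer, for `j ∈ E` within `1/Q2`. So
`S sum_J P_Kj g_j` is within `e = |J| H (m A0/Q1 + 1/Q2) < θ/4` of an integer `Y_K`, for all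
`K1 <= K <= K2`. Since `S v_K1 >= R v_K1 >= 1/4` and `S v_K2 <= V v_K2 < 1/4` there is
`K1 <= K < K2` with `S v_K >= 1/4 > S v_(K+1)`; then `4 V v_K >= 1`, so
`S v_(K+1) >= θ S v_K >= θ/4`. So `0 < θ/4 - e <= |Y_(K+1)| <= 1/4 + e < 1`, a contradiction.
Uses DI2. -/
def S_CRI : Prop :=
  ∀ (m : ℕ) (J E : Finset ℕ) (g : ℕ → ℝ) (ω : Fin m → ℝ) (M R Q1 Q2 K1 K2 : ℕ)
    (P : ℕ → ℕ → ℤ) (H A0 θ : ℝ), 1 ≤ M → 1 ≤ R → 1 ≤ Q1 → 1 ≤ Q2 → K1 ≤ K2 →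
    0 < θ → θ ≤ 1 → 0 ≤ H → 0 ≤ A0 →
    (∀ j ∈ J, j ∉ E → ∃ A : Fin m → ℤ, (∀ i, |(A i : ℝ)| ≤ A0) ∧
      (M : ℝ) * g j = ∑ i, (A i : ℝ) * ω i) →
    (∀ K, K1 ≤ K → K ≤ K2 → ∀ j ∈ J, |(P K j : ℝ)| ≤ H) →
    1 ≤ 4 * (R * |∑ j ∈ J, (P K1 j : ℝ) * g j|) →
    4 * ((Q1 : ℝ) ^ m * (Q2 : ℝ) ^ E.card * R * M * |∑ j ∈ J, (P K2 j : ℝ) * g j|) < 1 →
    (∀ K, K1 ≤ K → K < K2 →
      1 ≤ 4 * ((Q1 : ℝ) ^ m * (Q2 : ℝ) ^ E.card * R * M * |∑ j ∈ J, (P K j : ℝ) * g j|) →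
      θ * |∑ j ∈ J, (P K j : ℝ) * g j| ≤ |∑ j ∈ J, (P (K + 1) j : ℝ) * g j|) →
    J.card * (H * (m * A0 / Q1 + 1 / Q2)) < θ / 4 → False

/-! ### E. Numbers. `l = log N`, `ρ = a = u^2`, `δ = u^3`, `K <= 16 u^2`. -/

/-- The standing numerical hypotheses: `40 u^2 <= N`, `3000 log N <= u`, `N log N <= u^3/60`,
`log N >= 10`. -/
structure Num (N u : ℕ) : Prop where
  hN : 2 ≤ N
  hu : 40 * u ^ 2 ≤ N
  hl : 10 ≤ Real.log N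
  hul : 3000 * Real.log N ≤ u
  hNl : N * Real.log N ≤ (u : ℝ) ^ 3 / 60

/-- NA. Choice of `u = Nat.sqrt (L/40)`: `40 u^2 <= L < 40 (u+1)^2`. Put `l = log N`,
`κ = 1/20000`. As `N >= L`, `m L l <= κ L^(3/2)`, so `m l <= κ sqrt L` (`L > 0`), and
`sqrt L >= 20000 log 2 >= 13000` , `u+1 > sqrt(L/40) >= 2000`, so `(u+1)^2 <= 1.1 u^2`,
`L <= 44 u^2`, `sqrt L <= 6.64 u`, so `3000 m l <= 3000 * 6.64 u/20000 <= u` and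
`m(α+N l) <= κ L^(3/2) <= 292 u^3/20000 <= u^3/60`. `N >= L >= 10^8`, so `l >= 10`. -/
def S_NA : Prop :=
  ∀ (N L m : ℕ) (α : ℝ), 2 ≤ N → L ≤ N → 1 ≤ m → 0 ≤ α →
    m * (α + N * Real.log N) ≤ 1 / 20000 * (L * √L) →
    ∃ u : ℕ, Num N u ∧ 40 * u ^ 2 ≤ L ∧ √L ≤ 20 / 3 * u ∧ 3000 * (m * Real.log N) ≤ u ∧
      m * (α + N * Real.log N) ≤ (u : ℝ) ^ 3 / 60

/-- NB. The norm of Siegel's lemma. `U = u^2(u^2+1) <= N^2`, `log U <= 2 l`; exponent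
`u^3/(U-u^3) = u/(u^2-u+1) <= 1.001/u` (`u >= 30000`); the logarithm of the base is
`log U + 3 u^2 log u + 2 u^3 log u <= 2l + 1.5 u^2 l + u^3 l` (`log u <= l/2`). So the logarithm of
the left side is `<= 2l + (1.001/u)(2l + 1.5u^2 l + u^3 l) <= 2 u^2 l`. -/
def S_NB : Prop :=
  ∀ N u : ℕ, Num N u →
    (((u ^ 2 : ℕ) : ℝ) * (((u ^ 2 : ℕ) : ℝ) + 1)) *
      ((((u ^ 2 : ℕ) : ℝ) * (((u ^ 2 : ℕ) : ℝ) + 1)) *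
        (((u ^ 3 : ℕ) : ℝ) ^ (u ^ 2) * ((u ^ 2 : ℕ) : ℝ) ^ (u ^ 3))) ^
        (((u ^ 3 : ℕ) : ℝ) / (((u ^ 2 : ℕ) : ℝ) * (((u ^ 2 : ℕ) : ℝ) + 1) - ((u ^ 3 : ℕ) : ℝ))) ≤
      Real.exp (2 * u ^ 2 * Real.log N)

/-- NC. The upper bound, `K = 16 u^2`, `τ = u`, `M = 2u^3-n-1`. In logarithms:
`n! <= N^N`: `N l`; `(34u^2+1)! <= (35u^2)^(35u^2)`: `35 u^2 l` (`35u^2 <= N`); `B^2`: `4u^2 l`.
First term: `(1+u)^(2u^2)`: `u^2 l` (`(1+u)^2 <= N`); `e^(2u^3)`; `u^(-2u^3)`; `M! <= M^M`, so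
`M!/(16u^2)^M <= (u/8)^M <= (u/8)^(2u^3)` (`M <= 2u^3`, `u >= 8`). Sum:
`N l + 40 u^2 l + 2u^3 - 2u^3 log 8 <= u^3/60 + 40u^3/3000 + 2u^3 (1 - 2.07) <= -u^3`.
Second term: `N l + 39 u^2 l + u^2 log 4 - 16u^3 <= -u^3`. -/
def S_NC : Prop :=
  ∀ (N u n : ℕ) (B : ℝ), Num N u → n ≤ N → n + 1 ≤ 2 * u ^ 3 → 0 ≤ B →
    B ≤ Real.exp (2 * u ^ 2 * Real.log N) →
    (n ! : ℝ) * (((2 * u ^ 2 + 2 * (16 * u ^ 2) + 1)! : ℝ) *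
      max (B ^ 2 * (1 + (u : ℝ)) ^ (2 * u ^ 2) * Real.exp (2 * ((u ^ 2 : ℕ) : ℝ) * u) /
          (u : ℝ) ^ (2 * u ^ 3) *
          (((2 * u ^ 3 - n - 1)! : ℝ) / ((16 * u ^ 2 : ℕ) : ℝ) ^ (2 * u ^ 3 - n - 1)))
        (B ^ 2 * 4 ^ (u ^ 2) * Real.exp (-(((16 * u ^ 2 : ℕ) : ℝ) * u)))) ≤
      Real.exp (-(u : ℝ) ^ 3)

/-- ND. The lower bound: `z1 = ⌈5 u^2 l⌉₊`, `z = z1+u^2 <= 6u^2 l <= N^2`, so `log z <= 2l`.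
(a) `2u^2 l + u^2 2l - z1 + log 16 <= 0`. (b) clear. (c) `n! z^(-n) >= e^(-z)` (`z^n/n! <= e^z`);
in logarithms the left side is at least
`-[z + log z + log 16 + K(z + log 4) + (log 4 + 2u^2 l + log(u^2) + 2u^2 l) + z + log 4]`
`>= -[6(K+2)u^2 l + 5u^2 l + 2l + 1.4K + 6] >= -7(K+4) u^2 l`. -/
def S_ND : Prop :=
  ∀ (N u : ℕ) (B : ℝ), Num N u → 1 ≤ B → B ≤ Real.exp (2 * u ^ 2 * Real.log N) →
    ∃ z1 : ℕ, 1 ≤ z1 ∧ B * ((z1 + u ^ 2 : ℕ) : ℝ) ^ (u ^ 2) * Real.exp (-z1) ≤ 1 / 16 ∧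
      ((u ^ 2 : ℕ) : ℝ) * Real.exp (-z1) ≤ 1 / 2 ∧
      ∀ n K : ℕ, Real.exp (-(7 * (K + 4) * (u ^ 2 * Real.log N))) ≤
        (n ! : ℝ) * (1 / 16 / ((z1 + u ^ 2 : ℕ) : ℝ) ^ (n + 1) *
          (Real.exp (-((z1 + u ^ 2 : ℕ) : ℝ)) / 4) ^ K *
          (1 / (4 * B * ((u ^ 2 : ℕ) : ℝ) * ((z1 + u ^ 2 : ℕ) : ℝ) ^ (u ^ 2)) *
            (Real.exp (-((z1 + u ^ 2 : ℕ) : ℝ)) / 4)))

/-- NE. The bound for the coefficients: `2u^2+K+1 <= 19u^2 <= N`, `q = 2u^2+2K+1 <= 35u^2`: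
`35u^2 l`; `n^(2u^2-1)`: `2u^2 l`; `(2u^2)! <= N^(2u^2)`: `2u^2 l`; `B^2`: `4u^2 l`. -/
def S_NE : Prop :=
  ∀ (N u n K : ℕ) (B : ℝ), Num N u → n ≤ N → K ≤ 16 * u ^ 2 → 0 ≤ B →
    B ≤ Real.exp (2 * u ^ 2 * Real.log N) →
    (((2 * u ^ 2 : ℕ) : ℝ) + K + 1) ^ (2 * u ^ 2 + 2 * K + 1) * (n : ℝ) ^ (2 * u ^ 2 - 1) *
      (((2 * u ^ 2)! : ℝ) * B ^ 2) ≤ Real.exp (43 * (u ^ 2 * Real.log N))

/-- NF. The tail condition, `z2 = 70 u^2 l`: if `n! (2u^2+2K+1)! Φ >= e^(-u^3)` and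
`K z2 >= (5/4) u^3`, then `B^2 4^(u^2) e^(-K z2) <= Φ/2`. In logarithms: left
`4u^2 l + u^2 log 4 - (5/4)u^3`, right `-u^3 - N l - 35u^2 l - log 2`
(`(2u^2+2K+1)! <= (35u^2)^(35u^2)`), and `40u^2 l + N l + 2u^2 + 1 <= u^3/4`. -/
def S_NF : Prop :=
  ∀ (N u n K : ℕ) (B Φ : ℝ), Num N u → n ≤ N → K ≤ 16 * u ^ 2 → 0 ≤ B →
    B ≤ Real.exp (2 * u ^ 2 * Real.log N) → 0 ≤ Φ →
    Real.exp (-(u : ℝ) ^ 3) ≤ (n ! : ℝ) * (((2 * u ^ 2 + 2 * K + 1)! : ℝ) * Φ) →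
    5 / 4 * (u : ℝ) ^ 3 ≤ K * (70 * (u ^ 2 * Real.log N)) →
    B ^ 2 * 4 ^ (u ^ 2) * Real.exp (-(K * (70 * (u ^ 2 * Real.log N)))) ≤ Φ / 2

/-- NG. Choice of `K1 = ⌈u/(56 l)⌉₊`: `K1 * 70 u^2 l >= (5/4) u^3`, and
`7 (K1+4) u^2 l <= 7 (u/(56 l) + 5) u^2 l = u^3/8 + 35 u^2 l <= u^3/4` (`280 l <= u`). -/
def S_NG : Prop :=
  ∀ N u : ℕ, Num N u → ∃ K1 : ℕ, K1 ≤ 16 * u ^ 2 ∧
    5 / 4 * (u : ℝ) ^ 3 ≤ K1 * (70 * (u ^ 2 * Real.log N)) ∧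
    7 * (K1 + 4) * (u ^ 2 * Real.log N) ≤ (u : ℝ) ^ 3 / 4

/-- NH. The last choice: `h = u^2 l`, `Q2 = ⌈e^(116h)⌉₊`, `Q1 = ⌈m M e^α e^(116h)⌉₊`,
`R = ⌈e^(u^3/4)⌉₊`. Proof: `Q2 <= e^(117h)`, `Q1 <= m M e^α e^(117h)`, `R <= 2 e^(u^3/4)`,
`log m <= l` (`m <= u`), `log M <= N + 18u^2 (2l + β)`, so the logarithm of `Q1^m Q2^e M` is at most
`m(l + α + 117h) + 117 e h + (m+1)(N + 36h + 18u^2 β)`
`<= m(α + N l) + 189 m h + 36 u^2 m β + 117 e h <= u^3/60 + (189+36+117) u^3/3000 <= u^3/4`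
(`m h <= u^3/3000`, `m β <= u/3000`, `e h <= u^3/3000`, `2N + l <= N l`). Error:
`18u^2 e^(43h) 2 e^(-116h) = 36 u^2 e^(-73h) < e^(-71h)/4`. -/
def S_NH : Prop :=
  ∀ (N L u m e M : ℕ) (α β : ℝ), Num N u → 1 ≤ m → 0 ≤ α → 0 ≤ β →
    3000 * (m * Real.log N) ≤ u → m * (α + N * Real.log N) ≤ (u : ℝ) ^ 3 / 60 →
    √L ≤ 20 / 3 * u → 20000 * (m * β) ≤ √L → 20000 * (e * Real.log N) ≤ √L →
    1 ≤ M → (M : ℝ) ≤ 2 ^ N * (2 * N * Real.exp β) ^ (18 * u ^ 2) →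
    ∃ Q1 Q2 R : ℕ, 1 ≤ Q1 ∧ 1 ≤ Q2 ∧ 1 ≤ R ∧ Real.exp ((u : ℝ) ^ 3 / 4) ≤ R ∧
      (Q1 : ℝ) ^ m * (Q2 : ℝ) ^ e * R * M ≤ Real.exp (7 / 8 * (u : ℝ) ^ 3) ∧
      ((18 * u ^ 2 : ℕ) : ℝ) * (Real.exp (43 * (u ^ 2 * Real.log N)) *
        (m * (M * Real.exp α) / Q1 + 1 / Q2)) < Real.exp (-(71 * (u ^ 2 * Real.log N))) / 4

/-! ### F. Assembly (captain; not open, except REX) -/

/-- The number `G_(2j+1)/(2(2j+1))`. -/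
noncomputable def gj (j : ℕ) : ℝ := OddG.G (2 * j + 1) / (2 * (2 * j + 1))

/-- `v = |sum_(j in J) P_j g_j|`, `J = [ν+2-u^2, ν+17u^2+1]`. -/
noncomputable def vv (u ν : ℕ) (P : ℕ → ℤ) : ℝ :=
  |∑ j ∈ Icc (ν + 2 - u ^ 2) (ν + 17 * u ^ 2 + 1), (P j : ℝ) * gj j|

/-- FAM. The family of linear forms (captain). -/
def S_FAM : Prop :=
  ∀ N u ν : ℕ, Num N u → 2 * ν + 34 * u ^ 2 + 3 ≤ N → u ^ 2 ≤ ν →
    ∃ (K1 : ℕ) (P : ℕ → ℕ → ℤ), K1 ≤ 16 * u ^ 2 ∧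
      (∀ K ≤ 16 * u ^ 2, ∀ j, |(P K j : ℝ)| ≤ Real.exp (43 * (u ^ 2 * Real.log N))) ∧
      Real.exp (-((u : ℝ) ^ 3 / 4)) ≤ π * vv u ν (P K1) ∧
      π * vv u ν (P (16 * u ^ 2)) ≤ Real.exp (-(u : ℝ) ^ 3) ∧
      ∀ K, K1 ≤ K → K < 16 * u ^ 2 → Real.exp (-(u : ℝ) ^ 3) ≤ π * vv u ν (P K) →
        Real.exp (-(71 * (u ^ 2 * Real.log N))) * vv u ν (P K) ≤ vv u ν (P (K + 1))

/-- MAG. The theorem for `G_n` (captain). -/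
def S_MAG : Prop :=
  ∀ (N L m : ℕ) (α : ℝ), 2 ≤ N → L ≤ N → 1 ≤ m → 0 ≤ α →
    m * (α + N * Real.log N) ≤ 1 / 20000 * (L * √L) →
    ∀ (ω : Fin m → ℝ) (E : Finset ℕ),
      (∀ k : ℕ, Odd k → 3 ≤ k → N ≤ k + L → k ≤ N → k ∉ E →
        ∃ (a : Fin m → ℤ) (b : ℕ), (∀ i, |(a i : ℝ)| ≤ Real.exp α) ∧ 1 ≤ b ∧
          (b : ℝ) ≤ Real.exp (√L / (20000 * m)) ∧
          (b : ℝ) * 2 ^ k * OddG.G k = ∑ i, (a i : ℝ) * ω i) →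
      √L / (20000 * Real.log N) ≤ E.card

/-- REX. For `t(k)`. The same proof as `HP/I_RE2.lean` (copy the lemma `key`): MAG with
`α' = α + 3 N log N`, `m (α' + N log N) <= 4 m (α + N log N)`; `2^k G_k = 4 k! (2^k-1) ζ(k)/π^k`, the
new coefficients are `+- c0 a_i`, `c0 = 4 k! (2^k-1) <= exp(3 N log N)`
(`4 <= N^N`, `k! <= N^N`, `2^k <= N^N`). Uses MAG. -/
def S_REX : Prop :=
  ∀ (N L m : ℕ) (α : ℝ), 2 ≤ N → L ≤ N → 1 ≤ m → 0 ≤ α →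
    m * (α + N * Real.log N) ≤ 1 / 100000 * (L * √L) →
    ∀ (ω : Fin m → ℝ) (E : Finset ℕ),
      (∀ k : ℕ, Odd k → 3 ≤ k → N ≤ k + L → k ≤ N → k ∉ E →
        ∃ (a : Fin m → ℤ) (b : ℕ), (∀ i, |(a i : ℝ)| ≤ Real.exp α) ∧ 1 ≤ b ∧
          (b : ℝ) ≤ Real.exp (√L / (100000 * m)) ∧
          riemannZeta (2 * k) / riemannZeta k ^ 2 * ((2 * k)! : ℂ) *
            (∑ i, (a i : ℂ) * (ω i : ℂ)) ^ 2 =
              2 ^ (2 * k - 1) * (bernoulli (2 * k) : ℂ) * b ^ 2) →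
      √L / (100000 * Real.log N) ≤ E.card

end Pool.Agent.Work.MP_f1a024_nt.EX
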