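import Mathlib
import Pool.Agent.Work.MP_f1a024_nt.EX.Stmts

set_option autoImplicit false

/-!
Second part of the block [f1a024 EX] (helper70): the general parameters `(l, δ)`,
`l^(3/2) <= δ <= l^2/(3000 log N)`, instead of `(u^2, u^3)`. Throughout
`h = ht N l δ = δ^2 log N / l^2`; the facts about `h` which are used everywhere are proved in
`Num2.facts`. The items NB2, NC2, ND2, NE2, NF2, NG2, NH2, NA2, REX2 replace the items NB, NC, ND,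
NE, NF, NG, NH, NA, REX of `Stmts.lean` (same proofs).
-/

namespace Pool.Agent.Work.MP_f1a024_nt.EX

open Real Polynomial MeasureTheory Finset Filter Topology
open scoped Nat
open Pool.Agent.Work.MP_f1a024_nt.HP (evr Ez JJ Qz FF pp)

/-- `h = δ^2 log N / l^2`. -/
noncomputable def ht (N l δ : ℕ) : ℝ := (δ : ℝ) ^ 2 * Real.log N / (l : ℝ) ^ 2

/-- The standing numerical hypotheses. -/
structure Num2 (N l δ : ℕ) : Prop where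
  hN : 2 ≤ N
  h1 : 1 ≤ l
  hlN : 40 * l ≤ N
  hlog : 10 ≤ Real.log N
  h32 : l ^ 3 ≤ δ ^ 2
  hd : 3000 * (δ * Real.log N) ≤ (l : ℝ) ^ 2
  hNl : N * Real.log N ≤ (δ : ℝ) / 60

/-- The facts used everywhere. -/
theorem Num2.facts {N l δ : ℕ} (H : Num2 N l δ) :
    (l : ℝ) * Real.log N ≤ ht N l δ ∧ 3000 * ht N l δ ≤ δ ∧ (l : ℝ) * 10 ≤ ht N l δ ∧
      (30000 : ℝ) * l ≤ δ ∧ (30000 : ℝ) * δ ≤ (l : ℝ) ^ 2 ∧ (900000000 : ℝ) ≤ l := by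
  have hl1 : (1 : ℝ) ≤ l := by exact_mod_cast H.h1
  have hl0 : (0 : ℝ) < l := by linarith
  have hlog := H.hlog
  have h32 : (l : ℝ) ^ 3 ≤ (δ : ℝ) ^ 2 := by exact_mod_cast H.h32
  have hδ0 : (0 : ℝ) ≤ δ := Nat.cast_nonneg _
  have hd := H.hd
  have h5 : (30000 : ℝ) * δ ≤ (l : ℝ) ^ 2 := by nlinarith
  have h6 : (900000000 : ℝ) ≤ l := by
    have e1 : ((30000 : ℝ) * δ) ^ 2 ≤ ((l : ℝ) ^ 2) ^ 2 := by gcongr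
    have e2 : (900000000 : ℝ) * (l : ℝ) ^ 3 ≤ l * (l : ℝ) ^ 3 := by nlinarith
    exact le_of_mul_le_mul_right e2 (by positivity)
  have h4 : (30000 : ℝ) * l ≤ δ := by
    have e1 : ((30000 : ℝ) * l) ^ 2 ≤ (δ : ℝ) ^ 2 := by
      refine le_trans ?_ h32
      have : (l : ℝ) ^ 3 = l * (l : ℝ) ^ 2 := by ring
      rw [this, mul_pow]
      have e3 : (0 : ℝ) ≤ (l : ℝ) ^ 2 := by positivity
      nlinarith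
    exact (pow_le_pow_iff_left₀ (by positivity) hδ0 (by norm_num)).1 e1
  have h1 : (l : ℝ) * Real.log N ≤ ht N l δ := by
    unfold ht
    rw [le_div_iff₀ (by positivity)]
    have : (l : ℝ) * Real.log N * (l : ℝ) ^ 2 = (l : ℝ) ^ 3 * Real.log N := by ring
    rw [this]
    gcongr
  refine ⟨h1, ?_, ?_, h4, h5, h6⟩
  · unfold ht
    rw [mul_div_assoc', div_le_iff₀ (by positivity)]
    nlinarith
  · refine le_trans ?_ h1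
    gcongr

/-- NB2. The norm of Siegel's lemma. `U = l(l+1) <= N^2`, `log U <= 2 log N`; exponent
`e = δ/(U-δ) <= 1.001 δ/l^2` (`30000 δ <= l^2`); the logarithm of the base is
`log U + l log δ + δ log l <= 2 log N + 2 l log N + δ log N` (`l <= N`, `δ <= l^2 <= N^2`), and
`30000 l <= δ`. So the logarithm of the left side is
`<= 2 log N + 1.001 (δ/l^2) (1.001 δ log N) <= 2 h` (`10 l <= h`, `log N <= l log N/l <= h/l`). -/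
def S_NB2 : Prop :=
  ∀ N l δ : ℕ, Num2 N l δ →
    ((l : ℝ) * ((l : ℝ) + 1)) * (((l : ℝ) * ((l : ℝ) + 1)) * ((δ : ℝ) ^ l * (l : ℝ) ^ δ)) ^
        ((δ : ℝ) / ((l : ℝ) * ((l : ℝ) + 1) - δ)) ≤ Real.exp (2 * ht N l δ)

/-- NC2. The upper bound, `K = 16 l`, `τ = δ/l`, `M = 2δ-n-1`. In logarithms (`λ = log N`):
`n! <= N^N`: `N λ`; `(34l+1)! <= (35l)^(35l)`: `35 l λ <= 35 h` (`35 l <= N`); `B^2`: `4h`.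
First term: `(1+δ/l)^(2l)`: `2 l λ <= 2h` (`1+δ/l <= l <= N`); `e^(2δ)`; `(δ/l)^(-2δ)`;
`M! <= M^M`, so `M!/(16l)^M <= (δ/(8l))^M <= (δ/(8l))^(2δ)` (`M <= 2δ`, `δ >= 8l`). Sum:
`N λ + 41 h + 2δ - 2δ log 8 <= δ/60 + 41δ/3000 + 2δ (1 - 2.07) <= -δ`.
Second term: `N λ + 39 h + l log 4 - 16δ <= -δ`. -/
def S_NC2 : Prop :=
  ∀ (N l δ n : ℕ) (B : ℝ), Num2 N l δ → n ≤ N → n + 1 ≤ 2 * δ → 0 ≤ B →
    B ≤ Real.exp (2 * ht N l δ) →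
    (n ! : ℝ) * (((2 * l + 2 * (16 * l) + 1)! : ℝ) *
      max (B ^ 2 * (1 + (δ : ℝ) / l) ^ (2 * l) * Real.exp (2 * l * ((δ : ℝ) / l)) /
          ((δ : ℝ) / l) ^ (2 * δ) *
          (((2 * δ - n - 1)! : ℝ) / ((16 * l : ℕ) : ℝ) ^ (2 * δ - n - 1)))
        (B ^ 2 * 4 ^ l * Real.exp (-(((16 * l : ℕ) : ℝ) * ((δ : ℝ) / l))))) ≤
      Real.exp (-(δ : ℝ))

/-- ND2. The lower bound: `z1 = ⌈5h⌉₊`, `z = z1+l <= 6h <= δ/500 <= N^2`, so `log z <= 2λ`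
(`λ = log N`). (a) `2h + 2lλ - z1 + log 16 <= 0`. (b) clear. (c) `n! z^(-n) >= e^(-z)`
(`z^n/n! <= e^z`); in logarithms the left side is at least
`-[z + log z + log 16 + K(z + log 4) + (log 4 + 2h + log l + 2lλ) + z + log 4]`
`>= -[6(K+2)h + 4h + 3λ + 1.4K + 6] >= -7(K+4) h`. -/
def S_ND2 : Prop :=
  ∀ (N l δ : ℕ) (B : ℝ), Num2 N l δ → 1 ≤ B → B ≤ Real.exp (2 * ht N l δ) →
    ∃ z1 : ℕ, 1 ≤ z1 ∧ B * ((z1 + l : ℕ) : ℝ) ^ l * Real.exp (-z1) ≤ 1 / 16 ∧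
      (l : ℝ) * Real.exp (-z1) ≤ 1 / 2 ∧
      ∀ n K : ℕ, Real.exp (-(7 * (K + 4) * ht N l δ)) ≤
        (n ! : ℝ) * (1 / 16 / ((z1 + l : ℕ) : ℝ) ^ (n + 1) *
          (Real.exp (-((z1 + l : ℕ) : ℝ)) / 4) ^ K *
          (1 / (4 * B * (l : ℝ) * ((z1 + l : ℕ) : ℝ) ^ l) *
            (Real.exp (-((z1 + l : ℕ) : ℝ)) / 4)))

/-- NE2. The bound for the coefficients: `2l+K+1 <= 19l <= N`, `q = 2l+2K+1 <= 35l`: `35lλ`;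
`n^(2l-1)`: `2lλ`; `(2l)! <= N^(2l)`: `2lλ`; `B^2`: `4h`; `lλ <= h`. -/
def S_NE2 : Prop :=
  ∀ (N l δ n K : ℕ) (B : ℝ), Num2 N l δ → n ≤ N → K ≤ 16 * l → 0 ≤ B →
    B ≤ Real.exp (2 * ht N l δ) →
    (((2 * l : ℕ) : ℝ) + K + 1) ^ (2 * l + 2 * K + 1) * (n : ℝ) ^ (2 * l - 1) *
      (((2 * l)! : ℝ) * B ^ 2) ≤ Real.exp (43 * ht N l δ)

/-- NF2. The tail condition, `z2 = 70h`: if `n! (2l+2K+1)! Φ >= e^(-δ)` and `K z2 >= (5/4) δ`, then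
`B^2 4^l e^(-K z2) <= Φ/2`. In logarithms: left `4h + l log 4 - (5/4)δ`, right
`-δ - Nλ - 35lλ - log 2` (`(2l+2K+1)! <= (35l)^(35l)`), and
`39h + Nλ + 2l + 1 <= δ/4` (`3000h <= δ`, `30000l <= δ`, `Nλ <= δ/60`). -/
def S_NF2 : Prop :=
  ∀ (N l δ n K : ℕ) (B Φ : ℝ), Num2 N l δ → n ≤ N → K ≤ 16 * l → 0 ≤ B →
    B ≤ Real.exp (2 * ht N l δ) → 0 ≤ Φ →
    Real.exp (-(δ : ℝ)) ≤ (n ! : ℝ) * (((2 * l + 2 * K + 1)! : ℝ) * Φ) →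
    5 / 4 * (δ : ℝ) ≤ K * (70 * ht N l δ) →
    B ^ 2 * 4 ^ l * Real.exp (-(K * (70 * ht N l δ))) ≤ Φ / 2

/-- NG2. Choice of `K1 = ⌈δ/(56h)⌉₊` (`δ/(56h) = l^2/(56δλ) <= l^2/(560 δ) <= l`):
`K1 * 70h >= (5/4) δ`, `7(K1+4)h <= 7(δ/(56h) + 5)h = δ/8 + 35h <= δ/4`. -/
def S_NG2 : Prop :=
  ∀ N l δ : ℕ, Num2 N l δ → ∃ K1 : ℕ, K1 ≤ 16 * l ∧
    5 / 4 * (δ : ℝ) ≤ K1 * (70 * ht N l δ) ∧ 7 * (K1 + 4) * ht N l δ ≤ (δ : ℝ) / 4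

/-- NH2. The last choice: `Q2 = ⌈e^(116h)⌉₊`, `Q1 = ⌈m M e^α e^(116h)⌉₊`, `R = ⌈e^(δ/4)⌉₊`.
Proof: `Q2 <= e^(117h)`, `Q1 <= m M e^α e^(117h)`, `R <= 2 e^(δ/4)`, `log m <= 2λ` (`m <= l^2 <= N^2`),
`log M <= N + 18l(2λ + β) <= N + 36h + 18lβ`, so the logarithm of `Q1^m Q2^e M` is at most
`m(2λ + α + 117h) + 117 e h + (m+1)(N + 36h + 18lβ) <= m(α + Nλ) + 189(m+e)h + 36 m l β`
`<= δ/60 + 189 δ/3000 + 36 δ/3000 <= δ/4` (`(m+e)h <= δ/3000` by the hypothesis, `2N + 2λ <= Nλ`).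
Error: `18l e^(43h) 2 e^(-116h) = 36 l e^(-73h) < e^(-71h)/4` (`h >= 10 l`). -/
def S_NH2 : Prop :=
  ∀ (N l δ m e M : ℕ) (α β : ℝ), Num2 N l δ → 1 ≤ m → 0 ≤ α → 0 ≤ β →
    m * (α + N * Real.log N) ≤ (δ : ℝ) / 60 →
    3000 * ((m + e) * (δ * Real.log N)) ≤ (l : ℝ) ^ 2 → 3000 * (m * (l * β)) ≤ δ →
    1 ≤ M → (M : ℝ) ≤ 2 ^ N * (2 * N * Real.exp β) ^ (18 * l) →
    ∃ Q1 Q2 R : ℕ, 1 ≤ Q1 ∧ 1 ≤ Q2 ∧ 1 ≤ R ∧ Real.exp ((δ : ℝ) / 4) ≤ R ∧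
      (Q1 : ℝ) ^ m * (Q2 : ℝ) ^ e * R * M ≤ Real.exp (7 / 8 * (δ : ℝ)) ∧
      ((18 * l : ℕ) : ℝ) * (Real.exp (43 * ht N l δ) *
        (m * (M * Real.exp α) / Q1 + 1 / Q2)) < Real.exp (-(71 * ht N l δ)) / 4

/-- NA2. Choice of `l = L/40`, `δ = ⌊V^3⌋₊`. Put `κ = 10^(-7)`, `λ = log N > 0`. `V > 0`, `L > 0`
(otherwise `N λ <= 0`). `Nλ <= κV^3` and `V^3 λ <= κL^2` give `Nλ^2 <= κ^2 L^2 <= κ^2 L N`, so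
`L >= 10^14 λ^2 >= 4*10^13`, `N >= L`, `λ >= 10`, `l >= L/41`, `V^3 >= 10^7 Nλ` is large,
`δ >= V^3 - 1 >= V^3/2`. `l^3 <= (L/40)^3 <= (V^2/20)^3 <= V^6/4 <= δ^2`.
`3000(m+e)δλ <= 3000 κ L^2 <= L^2/1681 <= l^2`. `m(α+Nλ) <= κV^3 <= δ/60`.
`3000 m l β <= 75 m L β <= 75 κ V^3 <= δ`. -/
def S_NA2 : Prop :=
  ∀ (N L m e : ℕ) (α β V : ℝ), 2 ≤ N → L ≤ N → 1 ≤ m → 0 ≤ α → 0 ≤ V →
    L ≤ 2 * V ^ 2 → m * (α + N * Real.log N) ≤ V ^ 3 / 10 ^ 7 →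
    (m + e) * (V ^ 3 * Real.log N) ≤ (L : ℝ) ^ 2 / 10 ^ 7 →
    m * (L * β) ≤ V ^ 3 / 10 ^ 7 →
    ∃ l δ : ℕ, Num2 N l δ ∧ 40 * l ≤ L ∧ m * (α + N * Real.log N) ≤ (δ : ℝ) / 60 ∧
      3000 * ((m + e) * (δ * Real.log N)) ≤ (l : ℝ) ^ 2 ∧ 3000 * (m * (l * β)) ≤ δ

/-! ### Assembly -/

/-- `v = |sum_(j in J) P_j g_j|`, `J = [ν+2-l, ν+17l+1]`. -/
noncomputable def vw (l ν : ℕ) (P : ℕ → ℤ) : ℝ :=
  |∑ j ∈ Icc (ν + 2 - l) (ν + 17 * l + 1), (P j : ℝ) * gj j|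

/-- FAM2. The family of linear forms (captain). -/
def S_FAM2 : Prop :=
  ∀ N l δ ν : ℕ, Num2 N l δ → 2 * ν + 34 * l + 3 ≤ N → l ≤ ν →
    ∃ (K1 : ℕ) (P : ℕ → ℕ → ℤ), K1 ≤ 16 * l ∧
      (∀ K ≤ 16 * l, ∀ j, |(P K j : ℝ)| ≤ Real.exp (43 * ht N l δ)) ∧
      Real.exp (-((δ : ℝ) / 4)) ≤ π * vw l ν (P K1) ∧
      π * vw l ν (P (16 * l)) ≤ Real.exp (-(δ : ℝ)) ∧
      ∀ K, K1 ≤ K → K < 16 * l → Real.exp (-(δ : ℝ)) ≤ π * vw l ν (P K) →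
        Real.exp (-(71 * ht N l δ)) * vw l ν (P K) ≤ vw l ν (P (K + 1))

/-- MAG2. The theorem for `G_n`, one block (captain). -/
def S_MAG2 : Prop :=
  ∀ (N L m : ℕ) (α V : ℝ) (ω : Fin m → ℝ) (T : Finset ℕ), 2 ≤ N → L ≤ N → 1 ≤ m → 0 ≤ α → 0 ≤ V →
    L ≤ 2 * V ^ 2 → m * (α + N * Real.log N) ≤ V ^ 3 / 10 ^ 7 →
    (m + T.card) * (V ^ 3 * Real.log N) ≤ (L : ℝ) ^ 2 / 10 ^ 7 →
    ∃ n : ℕ, n ∉ T ∧ Odd n ∧ 3 ≤ n ∧ N ≤ n + L ∧ n ≤ N ∧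
      ∀ (a : Fin m → ℤ) (b : ℕ), (∀ i, |(a i : ℝ)| ≤ Real.exp α) → 1 ≤ b →
        (b : ℝ) ≤ Real.exp (V ^ 3 / (10 ^ 7 * (m * L))) →
        (b : ℝ) * 2 ^ n * OddG.G n ≠ ∑ i, (a i : ℝ) * ω i

/-- REX2. The block theorem for `t(n)`. The same proof as `HP/I_RE2.lean` (copy the lemma `key`):
MAG2 with the same `V` and `α' = α + 3 N log N`, `m (α' + N log N) <= 4 m (α + N log N)`;
`2^n G_n = 4 n! (2^n-1) ζ(n)/π^n`, the new coefficients are `+- c0 a_i`,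
`c0 = 4 n! (2^n-1) <= exp(3 N log N)` (`4 <= N^N`, `n! <= N^N`, `2^n <= N^N`). Uses MAG2. -/
def S_REX2 : Prop :=
  ∀ (N L m : ℕ) (α V : ℝ) (ω : Fin m → ℝ) (T : Finset ℕ), 2 ≤ N → L ≤ N → 1 ≤ m → 0 ≤ α → 0 ≤ V →
    L ≤ 2 * V ^ 2 → m * (α + N * Real.log N) ≤ V ^ 3 / 10 ^ 8 →
    (m + T.card) * (V ^ 3 * Real.log N) ≤ (L : ℝ) ^ 2 / 10 ^ 8 →
    ∃ n : ℕ, n ∉ T ∧ Odd n ∧ 3 ≤ n ∧ N ≤ n + L ∧ n ≤ N ∧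
      ∀ (a : Fin m → ℤ) (b : ℕ), (∀ i, |(a i : ℝ)| ≤ Real.exp α) → 1 ≤ b →
        (b : ℝ) ≤ Real.exp (V ^ 3 / (10 ^ 8 * (m * L))) →
        riemannZeta (2 * n) / riemannZeta n ^ 2 * ((2 * n)! : ℂ) *
          (∑ i, (a i : ℂ) * (ω i : ℂ)) ^ 2 ≠ 2 ^ (2 * n - 1) * (bernoulli (2 * n) : ℂ) * b ^ 2

/-- SPL. The final theorem from REX2, by splitting the window. Put `κ = 10^(-9)`, `λ = log N > 0`.
Let `T` be a set with at most `e` elements; we find an exceptional `n ∉ T` (then the set `S` of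
all exceptional `n` of the window has more than `e` elements: take `T = S`).
Case `L <= 2V^2`: REX2; `κ max(V, V^3/L) <= 2κ V^3/L <= 10^(-8) V^3/L`.
Case `L > 2V^2`. `Nλ <= κV^3` and `V^3 λ <= κ L^2 <= κ N L`.. give `V >= 10^3`. Let `L' = ⌈V^2⌉₊`
(`V^2 <= L' <= V^2+1 <= 2V^2`), `q = L/(L'+1) >= 1`, `N_i = N - i(L'+1)` (`i < q`). The blocks
`[N_i - L', N_i]` are disjoint and contained in `[N-L, N]`, and `L' <= N_i`. One of them contains at most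
`e' = e/q` elements of `T` (pigeonhole). REX2 for `N_i, L'` and the part of `T` in the block:
`m(α + N_i log N_i) <= κ V^3`; `m V^3 λ <= (κ V^3/N) V^3 <= κ V^4 <= κ L'^2` (`N >= L >= 2V^2`);
`e' <= e/q <= 2e(L'+1)/L`, so `e' V^3 λ <= 2 (L'+1) (e V λ/L) V^2 <= 2κ(L'+1) L' <= 3κ L'^2`; sum
`<= 10 κ L'^2`. `κ max(V, V^3/L) = κV <= 2κ V^3/L' <= 10^(-8) V^3/L'`. Uses REX2. -/
def S_SPL : Prop :=
  ∀ (N L m e : ℕ) (α V : ℝ) (ω : Fin m → ℝ), 2 ≤ N → L ≤ N → 1 ≤ m → 0 ≤ α → 0 ≤ V →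
    m * (α + N * Real.log N) ≤ V ^ 3 / 10 ^ 9 →
    (m + e) * (V ^ 3 * Real.log N) ≤ (L : ℝ) ^ 2 / 10 ^ 9 →
    e * (V * Real.log N) ≤ L / 10 ^ 9 →
    ∃ S : Finset ℕ, e < S.card ∧ ∀ n ∈ S, Odd n ∧ 3 ≤ n ∧ N ≤ n + L ∧ n ≤ N ∧
      ∀ (a : Fin m → ℤ) (b : ℕ), (∀ i, |(a i : ℝ)| ≤ Real.exp α) → 1 ≤ b →
        (b : ℝ) ≤ Real.exp (max V (V ^ 3 / L) / (10 ^ 9 * m)) →
        riemannZeta (2 * n) / riemannZeta n ^ 2 * ((2 * n)! : ℂ) *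
          (∑ i, (a i : ℂ) * (ω i : ℂ)) ^ 2 ≠ 2 ^ (2 * n - 1) * (bernoulli (2 * n) : ℂ) * b ^ 2

end Pool.Agent.Work.MP_f1a024_nt.EX
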