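import Mathlib
import Pool.Agent.Work.MP_f1a024_nt.EX.Stmts2

set_option autoImplicit false

/-!
Assembly of the family of linear forms (block [f1a024 EX], helper70).
-/

namespace Pool.Agent.Work.MP_f1a024_nt.EX

open Real Polynomial MeasureTheory Finset Filter Topology
open scoped Nat
open Pool.Agent.Work.MP_f1a024_nt.HP (evr Ez JJ Qz FF pp)

namespace Fam

lemma ph_pow (F : ℤ[X][X]) (k : ℕ) (z : ℝ) : ph (F ^ k) z = ph F z ^ k := by
  unfold ph
  exact Polynomial.eval₂_pow _ _ _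

lemma ps_pow (F : ℤ[X][X]) (k : ℕ) : ps (F ^ k) = ps F ^ k := by
  unfold ps
  exact Polynomial.eval₂_pow _ _ _

lemma fw_eq (ρ n K : ℕ) (F : ℤ[X][X]) :
    (fun w : ℝ => (1 - w) ^ (2 * ρ) * ph (F ^ 2) (lw w) / lw w ^ (n + 1) * (w * (1 - w)) ^ K) =
      fw ρ n K F := by
  funext w
  unfold fw gw
  rw [ph_pow, mul_pow ((1 - w) ^ ρ), ← pow_mul, mul_comm ρ 2]

lemma fw_nonneg (ρ n K : ℕ) (F : ℤ[X][X]) (hn : Odd n) (w : ℝ) (h0 : 0 ≤ w) (h1 : w ≤ 1) :
    0 ≤ fw ρ n K F w := by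
  unfold fw
  have h2 : Even (n + 1) := hn.add_one
  have h3 : 0 ≤ lw w ^ (n + 1) := h2.pow_nonneg _
  have h4 : 0 ≤ w * (1 - w) := mul_nonneg h0 (by linarith)
  positivity

lemma Phi_nonneg (ρ n K : ℕ) (F : ℤ[X][X]) (hn : Odd n) : 0 ≤ Phi ρ n K F := by
  unfold Phi
  exact intervalIntegral.integral_nonneg (by norm_num)
    (fun w hw => fw_nonneg ρ n K F hn w hw.1 hw.2)

lemma one_le_nm (ρ a : ℕ) (F : ℤ[X][X]) (h : ∃ s : ℕ, s < a ∧ (F.coeff s).coeff ρ ≠ 0) :
    1 ≤ nm ρ a F := by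
  obtain ⟨s, hs, hne⟩ := h
  have h1 : (1 : ℝ) ≤ |(((F.coeff s).coeff ρ : ℤ) : ℝ)| := by
    have : (1 : ℤ) ≤ |(F.coeff s).coeff ρ| := Int.one_le_abs hne
    exact_mod_cast this
  unfold nm
  calc (1 : ℝ) ≤ |(((F.coeff s).coeff ρ : ℤ) : ℝ)| := h1
    _ ≤ ∑ s ∈ range a, |(((F.coeff s).coeff ρ : ℤ) : ℝ)| :=
        Finset.single_le_sum (f := fun s => |(((F.coeff s).coeff ρ : ℤ) : ℝ)|)
          (fun _ _ => abs_nonneg _) (Finset.mem_range.2 hs)
    _ ≤ _ :=
        Finset.single_le_sum (f := fun i => ∑ s ∈ range a, |(((F.coeff s).coeff i : ℤ) : ℝ)|)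
          (fun _ _ => Finset.sum_nonneg fun _ _ => abs_nonneg _)
          (Finset.mem_range.2 (Nat.lt_succ_self ρ))

end Fam

open Fam in
theorem FAM2_pf (hSIE : S_SIE) (hTOP : S_TOP) (hMOM : S_MOM) (hSQ : S_SQ) (hFRG : S_FRG)
    (hPPG : S_PPG) (hPHI : S_PHI) (hUPP : S_UPP) (hSTP : S_STP) (hLOW : S_LOW) (hNB : S_NB2)
    (hNC : S_NC2) (hND : S_ND2) (hNE : S_NE2) (hNF : S_NF2) (hNG : S_NG2) : S_FAM2 := by
  intro N l δ ν hN h1 h2
  obtain ⟨f1, f2, f3, f4, f5, f6⟩ := hN.facts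
  have hlog := hN.hlog
  have hl1 : 1 ≤ l := hN.h1
  have hl9 : 900000000 ≤ l := by exact_mod_cast f6
  have hδl : 30000 * l ≤ δ := by exact_mod_cast f4
  have hδ2 : 30000 * δ ≤ l ^ 2 := by exact_mod_cast f5
  have hδ1 : 1 ≤ δ := by omega
  -- the function F
  obtain ⟨F0, hF0, hbox0, hdvd0, hnm0⟩ := hSIE l δ hl1 hδ1 (by nlinarith)
  obtain ⟨F, hbox, hdvd, hnm, htop⟩ := hTOP l l δ F0 hF0 hbox0 hdvd0
  set B : ℝ := nm l l F with hB
  have hB1 : 1 ≤ B := one_le_nm _ _ _ htop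
  have hB0 : 0 ≤ B := by linarith
  have hBexp : B ≤ Real.exp (2 * ht N l δ) := (hnm.trans hnm0).trans (hNB N l δ hN)
  -- the numbers
  set n : ℕ := 2 * ν + 1 with hn
  have hodd : Odd n := ⟨ν, rfl⟩
  have hnN : n ≤ N := by omega
  have hNu : n + 1 ≤ 2 * δ := by
    have e1 : (N : ℝ) * 10 ≤ (δ : ℝ) / 60 := by
      refine le_trans ?_ hN.hNl
      gcongr
    have e3 : (N : ℝ) ≤ (δ : ℝ) := by
      have : (0:ℝ) ≤ (δ : ℝ) := by positivity
      linarith
    have e2 : N ≤ δ := by exact_mod_cast e3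
    omega
  have hA1 : 1 ≤ 2 * l - 1 := by omega
  have hAn : 2 * l - 1 ≤ n := by omega
  have h2a : 2 * l ≤ n + 1 := by omega
  obtain ⟨hbox2, hct⟩ := hSQ l l F hl1 hbox
  have hdvd2 : (PowerSeries.X : PowerSeries ℚ) ^ (2 * δ) ∣ ps (F ^ 2) := by
    rw [ps_pow, mul_comm, pow_mul]
    exact pow_dvd_pow_of_dvd hdvd 2
  have hmom : Mom (2 * l) (2 * l - 1) (n + 1) (ct (F ^ 2)) := by
    intro b hb
    exact hMOM _ _ _ _ hbox2 hdvd2 b (by omega)
  have hint : ∀ K, IntervalIntegrable (fw l n K F) volume 0 1 := by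
    intro K
    have := (hPHI (2 * l) (2 * l - 1) n K (F ^ 2) hbox2 hAn hmom).1
    rwa [fw_eq] at this
  have hPh0 : ∀ K, 0 ≤ Phi l n K F := fun K => Phi_nonneg _ _ _ _ hodd
  set y : ℕ → ℝ := fun K => (n ! : ℝ) * (((2 * l + 2 * K + 1)! : ℝ) * Phi l n K F)
    with hy
  have hFF : ∀ K, |FF (2 * l) (2 * l - 1) n K (ct (F ^ 2))| = y K := by
    intro K
    have h3 := (hPHI (2 * l) (2 * l - 1) n K (F ^ 2) hbox2 hAn hmom).2
    rw [fw_eq] at h3
    rw [h3, abs_mul, abs_pow, abs_neg, abs_one, one_pow, one_mul]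
    have h4 : 0 ≤ ∫ w in (0:ℝ)..1, fw l n K F w := hPh0 K
    rw [abs_of_nonneg (by positivity)]
    simp only [hy, Phi]
    ring
  set P : ℕ → ℕ → ℤ := fun K j =>
    (-1) ^ j * pp (2 * l) (2 * l - 1) n K (ct (F ^ 2)) j with hP
  have hv : ∀ K, K ≤ 16 * l → π * vw l ν (P K) = y K := by
    intro K hK
    rw [← hFF K, hFRG (2 * l) (2 * l - 1) n K (ct (F ^ 2)) (by omega) hAn hmom, abs_mul,
      abs_of_pos Real.pi_pos]
    congr 1
    unfold vw
    congr 1
    refine Finset.sum_congr_of_eq_on_inter ?_ ?_ ?_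
    · intro j hj1 hj2
      rw [Finset.mem_Icc] at hj1
      rw [Finset.mem_range, not_lt] at hj2
      have h5 := (hPPG (2 * l) (2 * l - 1) n K (ct (F ^ 2)) hA1 hAn j).2.1 (by omega)
      simp only [hP, h5]
      simp
    · intro j hj1 hj2
      rw [Finset.mem_Icc] at hj2
      rcases Nat.lt_or_ge j (ν + 2 - l) with h6 | h6
      · have h5 := (hPPG (2 * l) (2 * l - 1) n K (ct (F ^ 2)) hA1 hAn j).1 (by omega)
        rw [h5]
        simp
      · have h7 : ν + 17 * l + 1 < j := by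
          by_contra h8
          exact hj2 ⟨h6, by omega⟩
        have h5 := (hPPG (2 * l) (2 * l - 1) n K (ct (F ^ 2)) hA1 hAn j).2.1 (by omega)
        rw [h5]
        simp
    · intro j _ _
      simp only [hP, gj]
      push_cast
      ring
  -- heights
  have hH : ∀ K ≤ 16 * l, ∀ j, |(P K j : ℝ)| ≤ Real.exp (43 * ht N l δ) := by
    intro K hK j
    have h5 := (hPPG (2 * l) (2 * l - 1) n K (ct (F ^ 2)) hA1 hAn j).2.2
    have h6 := hNE N l δ n K B hN hnN hK hB0 hBexp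
    have h7 : |(P K j : ℝ)| = |(pp (2 * l) (2 * l - 1) n K (ct (F ^ 2)) j : ℝ)| := by
      simp only [hP]
      push_cast
      rw [abs_mul, abs_pow, abs_neg, abs_one, one_pow, one_mul]
    rw [h7]
    refine h5.trans (le_trans ?_ h6)
    exact mul_le_mul_of_nonneg_left hct (by positivity)
  obtain ⟨K1, hK1, hK1a, hK1b⟩ := hNG N l δ hN
  obtain ⟨z1, hz1, hza, hzb, hzc⟩ := hND N l δ B hN hB1 hBexp
  set h : ℝ := ht N l δ with hh
  have hh1 : 10 ≤ h := by
    have : (1:ℝ) ≤ (l : ℝ) := by exact_mod_cast hl1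
    linarith
  have hq1 : ∀ K, (1 : ℝ) ≤ ((2 * l + 2 * K + 1)! : ℝ) := by
    intro K
    exact_mod_cast Nat.one_le_iff_ne_zero.2 (Nat.factorial_ne_zero _)
  have hlow : ∀ K : ℕ, Real.exp (-(7 * (K + 4) * h)) ≤ y K := by
    intro K
    refine (hzc n K).trans ?_
    have h5 := hLOW l l n K z1 F hbox htop hodd hz1 hza hzb (hint K)
    simp only [hy]
    refine mul_le_mul_of_nonneg_left (h5.trans ?_) (by positivity)
    have := hq1 K
    have h6 := hPh0 K
    nlinarith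
  refine ⟨K1, P, hK1, hH, ?_, ?_, ?_⟩
  · rw [hv K1 hK1]
    refine le_trans ?_ (hlow K1)
    apply Real.exp_le_exp.mpr
    linarith
  · rw [hv _ le_rfl]
    have hτ : (1:ℝ) ≤ (δ : ℝ) / l := by
      have : (1:ℝ) ≤ (l : ℝ) := by exact_mod_cast hl1
      rw [le_div_iff₀ (by linarith)]
      linarith
    have h5 := hUPP l l δ n (16 * l) F ((δ : ℝ) / l) hbox hdvd hodd h2a hNu (by omega) hτ
    have h6 := hNC N l δ n B hN hnN hNu hB0 hBexp
    refine le_trans ?_ h6
    simp only [hy]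
    refine mul_le_mul_of_nonneg_left (mul_le_mul_of_nonneg_left h5 (by positivity))
      (by positivity)
  · intro K hK1K hK hyK
    rw [hv K (by omega)] at hyK
    have h5 := hNF N l δ n K B (Phi l n K F) hN hnN (by omega) hB0 hBexp (hPh0 K) hyK (by
      refine hK1a.trans ?_
      have : (K1 : ℝ) ≤ K := by exact_mod_cast hK1K
      gcongr)
    have h6 := hSTP l l n K F (70 * h) hbox hodd h2a (by linarith) (hint K)
      (hint (K + 1)) h5
    have h7 : Real.exp (-(70 * h)) / 8 * y K ≤ y (K + 1) := by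
      have e1 : ((2 * l + 2 * K + 1)! : ℝ) ≤ ((2 * l + 2 * (K + 1) + 1)! : ℝ) := by
        exact_mod_cast Nat.factorial_le (by omega)
      have e2 : (0:ℝ) ≤ Real.exp (-(70 * h)) / 8 := by positivity
      have e3 := hPh0 K
      have e4 := hPh0 (K + 1)
      calc Real.exp (-(70 * h)) / 8 * y K = (n ! : ℝ) * (((2 * l + 2 * K + 1)! : ℝ) *
            (Real.exp (-(70 * h)) / 8 * Phi l n K F)) := by
            simp only [hy]
            ring
        _ ≤ (n ! : ℝ) * (((2 * l + 2 * K + 1)! : ℝ) * Phi l n (K + 1) F) := by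
            gcongr
        _ ≤ (n ! : ℝ) * (((2 * l + 2 * (K + 1) + 1)! : ℝ) * Phi l n (K + 1) F) := by
            gcongr
        _ = y (K + 1) := by
            simp only [hy]
    have h8 : Real.exp (-(71 * h)) ≤ Real.exp (-(70 * h)) / 8 := by
      have e1 : Real.exp (-(71 * h)) = Real.exp (-(70 * h)) * Real.exp (-h) := by
        rw [← Real.exp_add]
        congr 1
        ring
      have e2 : Real.exp (-h) ≤ 1 / 8 := by
        rw [Real.exp_neg, inv_eq_one_div]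
        refine one_div_le_one_div_of_le (by norm_num) ?_
        have := Real.add_one_le_exp h
        linarith
      rw [e1]
      have e3 := Real.exp_pos (-(70 * h))
      nlinarith
    have hy0 : 0 ≤ y K := by
      simp only [hy]
      have := hPh0 K
      positivity
    have h9 : Real.exp (-(71 * h)) * y K ≤ y (K + 1) :=
      (mul_le_mul_of_nonneg_right h8 hy0).trans h7
    rw [← hv K (by omega), ← hv (K + 1) (by omega)] at h9
    have hpi := Real.pi_pos
    have h10 : π * (Real.exp (-(71 * h)) * vw l ν (P K)) ≤ π * vw l ν (P (K + 1)) := by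
      calc π * (Real.exp (-(71 * h)) * vw l ν (P K)) =
          Real.exp (-(71 * h)) * (π * vw l ν (P K)) := by ring
        _ ≤ _ := h9
    exact le_of_mul_le_mul_left h10 hpi

end Pool.Agent.Work.MP_f1a024_nt.EX
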