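import Pool.Agent.Work.MP_f1a024_nt.EX.Stmts

/-!
# Block EX, item BET: the beta integral
-/

set_option autoImplicit false

namespace Pool.Agent.Work.MP_f1a024_nt.EX

open Real Polynomial MeasureTheory Finset Filter Topology
open scoped Nat
open Pool.Agent.Work.MP_f1a024_nt.HP (evr Ez JJ Qz FF pp)

namespace I_BET

theorem gamma_add (y : ℝ) : ∀ N : ℕ, (∀ j ∈ range N, y + j ≠ 0) →
    Real.Gamma (y + N) = (∏ j ∈ range N, (y + j)) * Real.Gamma y := by
  intro N
  induction N with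
  | zero => intro _; simp
  | succ N ih =>
    intro h
    have h1 : y + (N + 1 : ℕ) = (y + N) + 1 := by push_cast; ring
    rw [h1, Real.Gamma_add_one (h N (self_mem_range_succ N)),
      ih (fun j hj => h j (mem_range.2 ((mem_range.1 hj).trans (Nat.lt_succ_self N)))),
      prod_range_succ]
    ring

theorem sin_shift (x : ℝ) (n : ℕ) : sin (π * (x - n)) = (-1) ^ n * sin (π * x) := by
  rw [show π * (x - n) = π * x - n * π by ring, Real.sin_sub_nat_mul_pi]

theorem evr_Qz (r K : ℕ) (x : ℝ) :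
    evr (Qz r K) x = ∏ j ∈ range (r + 2 * K + 1), (x + K - j) := by
  unfold evr Qz
  rw [Polynomial.map_prod, Polynomial.eval_prod]
  refine prod_congr rfl fun j _ => ?_
  simp

theorem integrand (r K : ℕ) (x w : ℝ) (hw0 : 0 < w) (hw1 : w < 1) :
    ((((w * (1 - w)) ^ K * (1 - w) ^ r * Real.exp (x * lw w) : ℝ)) : ℂ) =
      (w : ℂ) ^ (((x + K + 1 : ℝ) : ℂ) - 1) * (1 - (w : ℂ)) ^ (((r + K + 1 - x : ℝ) : ℂ) - 1) := by
  have h1 : 0 < 1 - w := by linarith
  have e1 : ((x + K + 1 : ℝ) : ℂ) - 1 = ((x + K : ℝ) : ℂ) := by push_cast; ring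
  have e2 : ((r + K + 1 - x : ℝ) : ℂ) - 1 = ((r + K - x : ℝ) : ℂ) := by push_cast; ring
  have e3 : (1 : ℂ) - (w : ℂ) = ((1 - w : ℝ) : ℂ) := by push_cast; ring
  rw [e1, e2, e3, ← Complex.ofReal_cpow hw0.le, ← Complex.ofReal_cpow h1.le, ← Complex.ofReal_mul]
  congr 1
  unfold lw
  rw [Real.log_div hw0.ne' h1.ne', Real.rpow_def_of_pos hw0, Real.rpow_def_of_pos h1, mul_pow]
  have e4 : w ^ K = Real.exp (Real.log w * K) := by
    rw [mul_comm, Real.exp_nat_mul, Real.exp_log hw0]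
  have e5 : ∀ n : ℕ, (1 - w) ^ n = Real.exp (Real.log (1 - w) * n) := by
    intro n
    rw [mul_comm, Real.exp_nat_mul, Real.exp_log h1]
  rw [e4, e5, e5, ← Real.exp_add, ← Real.exp_add, ← Real.exp_add, ← Real.exp_add]
  congr 1
  ring

theorem integral_eq (r K : ℕ) (x : ℝ) (hx0 : 0 < x) (hxr : x < r) :
    ∫ w in (0 : ℝ)..1, (w * (1 - w)) ^ K * (1 - w) ^ r * Real.exp (x * lw w) =
      Real.Gamma (x + K + 1) * Real.Gamma (r + K + 1 - x) / ((r + 2 * K + 1)! : ℝ) := by
  have hα : 0 < x + K + 1 := by positivity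
  have hβ : 0 < (r : ℝ) + K + 1 - x := by
    have : (0 : ℝ) ≤ K := Nat.cast_nonneg K
    linarith
  have h1 := ProbabilityTheory.beta_eq_betaIntegralReal (x + K + 1) (r + K + 1 - x) hα hβ
  have h2 : ((∫ w in (0 : ℝ)..1, (w * (1 - w)) ^ K * (1 - w) ^ r * Real.exp (x * lw w) : ℝ) : ℂ) =
      Complex.betaIntegral ((x + K + 1 : ℝ) : ℂ) ((r + K + 1 - x : ℝ) : ℂ) := by
    rw [← intervalIntegral.integral_ofReal, Complex.betaIntegral,
      intervalIntegral.integral_of_le zero_le_one, intervalIntegral.integral_of_le zero_le_one,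
      MeasureTheory.integral_Ioc_eq_integral_Ioo, MeasureTheory.integral_Ioc_eq_integral_Ioo]
    refine MeasureTheory.setIntegral_congr_fun measurableSet_Ioo fun w hw => ?_
    exact integrand r K x w hw.1 hw.2
  rw [← h2, Complex.ofReal_re] at h1
  rw [← h1]
  unfold ProbabilityTheory.beta
  congr 1
  rw [← Real.Gamma_nat_eq_factorial]
  congr 1
  push_cast
  ring

end I_BET

open I_BET in
theorem BET_pf : S_BET := by
  intro r K x hx0 hxr hx
  rw [integral_eq r K x hx0 hxr, mul_div_cancel₀ _ (Nat.cast_ne_zero.2 (Nat.factorial_ne_zero _)),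
    evr_Qz]
  set y : ℝ := x - r - K with hy
  have hne : ∀ j ∈ range (r + 2 * K + 1), y + j ≠ 0 := by
    intro j _ h
    apply hx ((r : ℤ) + K - j)
    push_cast
    rw [hy] at h
    linarith
  have h1 := gamma_add y (r + 2 * K + 1) hne
  have h2 : y + ((r + 2 * K + 1 : ℕ) : ℝ) = x + K + 1 := by
    rw [hy]
    push_cast
    ring
  rw [h2] at h1
  have h3 : ∏ j ∈ range (r + 2 * K + 1), (x + K - j) =
      ∏ j ∈ range (r + 2 * K + 1), (y + j) := by
    rw [← prod_range_reflect]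
    refine prod_congr rfl fun j hj => ?_
    have hj' := mem_range.1 hj
    have h4 : ((r + 2 * K + 1 - 1 - j : ℕ) : ℝ) = r + 2 * K - j := by
      rw [Nat.add_sub_cancel, Nat.cast_sub (by omega)]
      push_cast
      ring
    rw [h4, hy]
    ring
  have h5 : (r : ℝ) + K + 1 - x = 1 - y := by
    rw [hy]
    ring
  have h6 : sin (π * y) = (-1) ^ (r + K) * sin (π * x) := by
    rw [← sin_shift x (r + K), hy]
    congr 1
    push_cast
    ring
  rw [h1, h5, mul_assoc, Real.Gamma_mul_Gamma_one_sub, h3, h6]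
  have h7 : ((-1 : ℝ) ^ (r + K)) ≠ 0 := pow_ne_zero _ (by norm_num)
  have h8 : ((-1 : ℝ) ^ (r + K))⁻¹ = (-1) ^ (r + K) := by
    rw [← inv_pow]
    norm_num
  rw [div_mul_eq_div_div, div_right_comm, div_eq_mul_inv _ ((-1 : ℝ) ^ (r + K)), h8]
  ring

end Pool.Agent.Work.MP_f1a024_nt.EX
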