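import Pool.Agent.Work.MP_f1a024_nt.EX.Stmts

set_option autoImplicit false

/-!
# Block EX, item CRI: the criterion
-/

namespace Pool.Agent.Work.MP_f1a024_nt.EX

open Real Polynomial MeasureTheory Finset Filter Topology
open scoped Nat

namespace I_CRI

/-- a crossing -/
theorem cross (s : ℕ → ℝ) (c : ℝ) {K1 K2 : ℕ} (h12 : K1 ≤ K2) (h1 : c ≤ s K1) (h2 : s K2 < c) :
    ∃ K, K1 ≤ K ∧ K < K2 ∧ c ≤ s K ∧ s (K + 1) < c := by
  have hex : ∃ d : ℕ, s (K1 + d) < c := ⟨K2 - K1, by rw [Nat.add_sub_cancel' h12]; exact h2⟩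
  classical
  obtain ⟨d, hd⟩ : ∃ d, d = Nat.find hex := ⟨_, rfl⟩
  have hs : s (K1 + d) < c := by rw [hd]; exact Nat.find_spec hex
  have hmin : ∀ i < d, ¬ s (K1 + i) < c := by
    intro i hi
    rw [hd] at hi
    exact Nat.find_min hex hi
  have hd0 : d ≠ 0 := by
    rintro rfl
    rw [add_zero] at hs
    linarith
  have hdK : d ≤ K2 - K1 := by
    rw [hd]
    exact Nat.find_min' hex (by rw [Nat.add_sub_cancel' h12]; exact h2)
  refine ⟨K1 + (d - 1), by omega, by omega, ?_, ?_⟩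
  · exact not_lt.1 (hmin (d - 1) (by omega))
  · have : K1 + (d - 1) + 1 = K1 + d := by omega
    rw [this]
    exact hs

end I_CRI

open I_CRI in
/-- Item CRI. -/
theorem CRI_pf (hD : S_DI2) : S_CRI := by
  intro m J E g ω M R Q1 Q2 K1 K2 P H A0 θ hM hR hQ1 hQ2 h12 hθ hθ1 hH hA0 hA hP h1 h2 hst he
  -- Dirichlet
  obtain ⟨t, ht1, htV, hy⟩ := hD (Fin m ⊕ {j // j ∈ E})
    (Sum.elim (fun i => (R : ℝ) * ω i) (fun j => (R : ℝ) * M * g j))
    (Sum.elim (fun _ => Q1) (fun _ => Q2)) (by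
      rintro (i | j)
      · exact hQ1
      · exact hQ2)
  have hprod : ∏ i : Fin m ⊕ {j // j ∈ E}, (Sum.elim (fun _ => Q1) (fun _ => Q2)) i =
      Q1 ^ m * Q2 ^ E.card := by
    rw [Fintype.prod_sum_type]
    simp
  rw [hprod] at htV
  have hQ1R : (0 : ℝ) < Q1 := by exact_mod_cast hQ1
  have hQ2R : (0 : ℝ) < Q2 := by exact_mod_cast hQ2
  have hMR : (1 : ℝ) ≤ M := by exact_mod_cast hM
  have hRR : (1 : ℝ) ≤ R := by exact_mod_cast hR
  have htR : (1 : ℝ) ≤ t := by exact_mod_cast ht1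
  have htVR : (t : ℝ) ≤ (Q1 : ℝ) ^ m * (Q2 : ℝ) ^ E.card := by exact_mod_cast htV
  obtain ⟨S, hS⟩ : ∃ S : ℝ, S = t * R * M := ⟨_, rfl⟩
  have hSR : (R : ℝ) ≤ S := by
    rw [hS]
    have h3 : (R : ℝ) ≤ t * R := by nlinarith
    nlinarith
  have hS0 : 0 < S := by linarith
  obtain ⟨V, hV⟩ : ∃ V : ℝ, V = (Q1 : ℝ) ^ m * (Q2 : ℝ) ^ E.card * R * M := ⟨_, rfl⟩
  have hSV : S ≤ V := by
    rw [hS, hV]
    gcongr
  obtain ⟨ε, hε⟩ : ∃ ε : ℝ, ε = m * A0 / Q1 + 1 / Q2 := ⟨_, rfl⟩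
  have hε0 : 0 ≤ ε := by rw [hε]; positivity
  -- approximation of the `g j`
  have hZ : ∀ j : ℕ, ∃ Z : ℤ, j ∈ J → |S * g j - Z| ≤ ε := by
    intro j
    by_cases hj : j ∈ J
    · by_cases hjE : j ∈ E
      · obtain ⟨y, hy'⟩ := hy (Sum.inr ⟨j, hjE⟩)
        refine ⟨y, fun _ => ?_⟩
        simp only [Sum.elim_inr] at hy'
        have h3 : S * g j = (t : ℝ) * (R * M * g j) := by rw [hS]; ring
        rw [h3]
        refine hy'.trans ?_
        rw [hε]
        have : 0 ≤ m * A0 / Q1 := by positivity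
        linarith
      · obtain ⟨A, hA1, hA2⟩ := hA j hj hjE
        have hy1 : ∀ i : Fin m, ∃ y : ℤ, |(t : ℝ) * (R * ω i) - y| ≤ 1 / Q1 := by
          intro i
          obtain ⟨y, hy'⟩ := hy (Sum.inl i)
          exact ⟨y, by simpa only [Sum.elim_inl] using hy'⟩
        choose y hy' using hy1
        refine ⟨∑ i, A i * y i, fun _ => ?_⟩
        have h3 : S * g j = ∑ i, (A i : ℝ) * ((t : ℝ) * (R * ω i)) := by
          calc S * g j = t * R * (M * g j) := by rw [hS]; ring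
            _ = _ := by
              rw [hA2, Finset.mul_sum]
              refine Finset.sum_congr rfl fun i _ => ?_
              ring
        rw [h3]
        push_cast
        rw [← Finset.sum_sub_distrib]
        have h4 : ∀ i ∈ (Finset.univ : Finset (Fin m)),
            |(A i : ℝ) * ((t : ℝ) * (R * ω i)) - A i * y i| ≤ A0 * (1 / Q1) := by
          intro i _
          rw [← mul_sub, abs_mul]
          exact mul_le_mul (hA1 i) (hy' i) (abs_nonneg _) hA0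
        refine (Finset.abs_sum_le_sum_abs _ _).trans ((Finset.sum_le_sum h4).trans ?_)
        rw [Finset.sum_const, Finset.card_univ, Fintype.card_fin, nsmul_eq_mul, hε]
        have h5 : (m : ℝ) * (A0 * (1 / Q1)) = m * A0 / Q1 := by ring
        rw [h5]
        have : 0 ≤ 1 / (Q2 : ℝ) := by positivity
        linarith
    · exact ⟨0, fun h => absurd h hj⟩
  choose Z hZ using hZ
  -- the linear forms
  have hY : ∀ K, K1 ≤ K → K ≤ K2 →
      |S * (∑ j ∈ J, (P K j : ℝ) * g j) - ((∑ j ∈ J, P K j * Z j : ℤ) : ℝ)| ≤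
        J.card * (H * ε) := by
    intro K hK1 hK2
    push_cast
    rw [Finset.mul_sum, ← Finset.sum_sub_distrib]
    have h4 : ∀ j ∈ J, |S * ((P K j : ℝ) * g j) - P K j * Z j| ≤ H * ε := by
      intro j hj
      have h5 : S * ((P K j : ℝ) * g j) - P K j * Z j = P K j * (S * g j - Z j) := by ring
      rw [h5, abs_mul]
      exact mul_le_mul (hP K hK1 hK2 j hj) (hZ j hj) (abs_nonneg _) hH
    refine (Finset.abs_sum_le_sum_abs _ _).trans ((Finset.sum_le_sum h4).trans ?_)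
    rw [Finset.sum_const, nsmul_eq_mul]
  rw [← hε] at he
  -- the crossing
  obtain ⟨v, hv⟩ : ∃ v : ℕ → ℝ, v = fun K => |∑ j ∈ J, (P K j : ℝ) * g j| := ⟨_, rfl⟩
  have hvK : ∀ K, v K = |∑ j ∈ J, (P K j : ℝ) * g j| := fun K => by rw [hv]
  have hv0 : ∀ K, 0 ≤ v K := fun K => by rw [hvK]; exact abs_nonneg _
  rw [← hvK] at h1 h2
  rw [← hV] at h2
  have hc1 : 1 / 4 ≤ S * v K1 := by
    have := mul_le_mul_of_nonneg_right hSR (hv0 K1)
    linarith
  have hc2 : S * v K2 < 1 / 4 := by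
    have := mul_le_mul_of_nonneg_right hSV (hv0 K2)
    linarith
  obtain ⟨K, hK1, hK2, hKa, hKb⟩ := cross (fun K => S * v K) (1 / 4) h12 hc1 hc2
  have hstep : θ * v K ≤ v (K + 1) := by
    have h3 := hst K hK1 hK2
    rw [← hvK, ← hvK, ← hV] at h3
    apply h3
    have := mul_le_mul_of_nonneg_right hSV (hv0 K)
    have hKa' : 1 / 4 ≤ S * v K := hKa
    linarith
  have hlow : θ / 4 ≤ S * v (K + 1) := by
    have h3 : θ * (S * v K) ≤ S * v (K + 1) := by
      have := mul_le_mul_of_nonneg_left hstep hS0.le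
      linarith
    have h4 : θ * (1 / 4) ≤ θ * (S * v K) := mul_le_mul_of_nonneg_left hKa hθ.le
    linarith
  have hYK := hY (K + 1) (by omega) (by omega)
  obtain ⟨Y, hYd⟩ : ∃ Y : ℤ, Y = ∑ j ∈ J, P (K + 1) j * Z j := ⟨_, rfl⟩
  rw [← hYd] at hYK
  have habs : |S * (∑ j ∈ J, (P (K + 1) j : ℝ) * g j)| = S * v (K + 1) := by
    rw [abs_mul, abs_of_pos hS0, hvK]
  have hup : |(Y : ℝ)| ≤ S * v (K + 1) + J.card * (H * ε) := by
    rw [← habs]
    have h3 := abs_sub_abs_le_abs_sub (Y : ℝ) (S * (∑ j ∈ J, (P (K + 1) j : ℝ) * g j))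
    rw [abs_sub_comm] at h3
    linarith
  have hdn : S * v (K + 1) - J.card * (H * ε) ≤ |(Y : ℝ)| := by
    rw [← habs]
    have h3 := abs_sub_abs_le_abs_sub (S * (∑ j ∈ J, (P (K + 1) j : ℝ) * g j)) (Y : ℝ)
    linarith
  have hKb' : S * v (K + 1) < 1 / 4 := hKb
  have h5 : |(Y : ℝ)| < 1 := by linarith
  have h6 : 0 < |(Y : ℝ)| := by linarith
  have h7 : |Y| < 1 := by exact_mod_cast h5
  have h8 : 0 < |Y| := by exact_mod_cast h6
  omega

end Pool.Agent.Work.MP_f1a024_nt.EX
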