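import Pool.Agent.Work.MP_f1a024_nt.EX.Stmts

set_option autoImplicit false

/-!
# Item DI2: the theorem of Dirichlet with different precisions
-/

namespace Pool.Agent.Work.MP_f1a024_nt.EX

open Real Polynomial MeasureTheory Finset Filter Topology
open scoped Nat

namespace I_DI2

/-- the index of the box of `t x` -/
noncomputable def bx (Q : ℕ) (u : ℝ) : ℕ := ⌊(Q : ℝ) * Int.fract u⌋₊

lemma bx_lt {Q : ℕ} (hQ : 1 ≤ Q) (u : ℝ) : bx Q u < Q := by
  have hQ0 : (0 : ℝ) < Q := by exact_mod_cast hQ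
  unfold bx
  rw [Nat.floor_lt (mul_nonneg hQ0.le (Int.fract_nonneg u))]
  have := Int.fract_lt_one u
  nlinarith

lemma close {Q : ℕ} (hQ : 1 ≤ Q) (u v : ℝ) (h : bx Q u = bx Q v) :
    |Int.fract u - Int.fract v| ≤ 1 / Q := by
  have hQ0 : (0 : ℝ) < Q := by exact_mod_cast hQ
  unfold bx at h
  have h1 := Nat.floor_le (mul_nonneg hQ0.le (Int.fract_nonneg u))
  have h2 := Nat.lt_floor_add_one ((Q : ℝ) * Int.fract u)
  have h3 := Nat.floor_le (mul_nonneg hQ0.le (Int.fract_nonneg v))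
  have h4 := Nat.lt_floor_add_one ((Q : ℝ) * Int.fract v)
  rw [h] at h1 h2
  rw [le_div_iff₀ hQ0]
  rcases abs_cases (Int.fract u - Int.fract v) with ⟨ha, -⟩ | ⟨ha, -⟩ <;> rw [ha] <;> nlinarith

end I_DI2

open I_DI2 in
/-- DI2. -/
theorem DI2_pf : S_DI2 := by
  intro ι _ x Q hQ
  classical
  have hcard : Fintype.card ((i : ι) → Fin (Q i)) < Fintype.card (Fin (∏ i, Q i + 1)) := by
    rw [Fintype.card_pi, Fintype.card_fin]
    simp only [Fintype.card_fin]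
    exact Nat.lt_succ_self _
  obtain ⟨s, t, hst, hf⟩ := Fintype.exists_ne_map_eq_of_card_lt
    (fun (t : Fin (∏ i, Q i + 1)) (i : ι) => (⟨bx (Q i) ((t : ℕ) * x i), bx_lt (hQ i) _⟩ :
      Fin (Q i))) hcard
  have hbx : ∀ i, bx (Q i) (((s : ℕ) : ℝ) * x i) = bx (Q i) (((t : ℕ) : ℝ) * x i) := by
    intro i
    have := congrFun hf i
    simpa using congrArg Fin.val this
  have main : ∀ a b : ℕ, a < b → b ≤ ∏ i, Q i →
      (∀ i, bx (Q i) ((a : ℝ) * x i) = bx (Q i) ((b : ℝ) * x i)) →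
      ∃ t : ℕ, 1 ≤ t ∧ t ≤ ∏ i, Q i ∧ ∀ i, ∃ y : ℤ, |(t : ℝ) * x i - y| ≤ 1 / Q i := by
    intro a b hab hb h
    refine ⟨b - a, by omega, by omega, fun i => ⟨⌊(b : ℝ) * x i⌋ - ⌊(a : ℝ) * x i⌋, ?_⟩⟩
    have h1 := close (hQ i) _ _ (h i).symm
    have h2 : (((b - a : ℕ) : ℝ)) * x i - ((⌊(b : ℝ) * x i⌋ - ⌊(a : ℝ) * x i⌋ : ℤ) : ℝ) =
        Int.fract ((b : ℝ) * x i) - Int.fract ((a : ℝ) * x i) := by
      rw [Nat.cast_sub hab.le]
      unfold Int.fract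
      push_cast
      ring
    rw [h2]
    exact h1
  have hne : (s : ℕ) ≠ (t : ℕ) := fun h => hst (Fin.ext h)
  rcases lt_or_gt_of_ne hne with h | h
  · exact main s t h (Nat.lt_succ_iff.1 t.2) hbx
  · exact main t s h (Nat.lt_succ_iff.1 s.2) fun i => (hbx i).symm

end Pool.Agent.Work.MP_f1a024_nt.EX
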