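import Pool.Agent.Work.MP_f1a024_nt.EX.Stmts
import Pool.Agent.Work.MP_f1a024_nt.HP.I_FRM

set_option autoImplicit false

/-!
# Item FRG of the block EX
-/

namespace Pool.Agent.Work.MP_f1a024_nt.EX

open Real Polynomial MeasureTheory Finset Filter Topology
open scoped Nat
open Pool.Agent.Work.MP_f1a024_nt.HP (evr Ez JJ Qz FF pp)

open Pool.Agent.Work.MP_f1a024_nt.HP.I_FRM in
theorem FRG_pf (h1 : HP.S_FOU) (h2 : S_EZG) (h3 : HP.S_QEV) : S_FRG := by
  intro r A n K c hr hA hc
  obtain ⟨hdeg, hz, -, -⟩ := h3 r K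
  have hEZ : ∑ i ∈ range (r + 1), Ez A n c i = 0 := h2 r A n c hA hc
  set N := n + (r + 2 * K + 1) + 1 with hN
  set P : ℕ → ℝ[X] := fun i => (Qz r K * Ez A n c i).map (Int.castRingHom ℝ) with hP
  have hint : ∀ i ∈ range (r + 1), ∫ x in (0 : ℝ)..(i : ℝ), (P i).eval x / sin (π * x) =
      ∑ j ∈ range N, (-1) ^ j * ((derivative^[2 * j] (P i)).eval 0 -
        (-1) ^ i * (derivative^[2 * j] (P i)).eval (i : ℝ)) *
        (2 * OddG.lam (2 * j + 1) / π ^ (2 * j + 1)) := by
    intro i hi
    refine h1 (P i) i N ?_ ?_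
    · intro u hu
      have h4 : (Qz r K).eval (u : ℤ) = 0 := by
        refine hz u (by omega) ?_
        have : i < r + 1 := Finset.mem_range.1 hi
        omega
      have h5 : (P i).eval (u : ℝ) = (((Qz r K * Ez A n c i).eval (u : ℤ) : ℤ) : ℝ) := by
        have := eval_map_apply (p := Qz r K * Ez A n c i) (f := Int.castRingHom ℝ) (x := (u : ℤ))
        simpa [hP] using this
      rw [h5, eval_mul, h4, zero_mul, Int.cast_zero]
    · refine iterate_derivative_eq_zero ?_
      have h6 : (P i).natDegree ≤ (r + 2 * K + 1) + n := by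
        refine natDegree_map_le.trans ?_
        refine natDegree_mul_le.trans ?_
        have := natDegree_Ez_le A n c i
        omega
      omega
  have hFF : FF r A n K c = π * ∑ i ∈ range (r + 1),
      ∫ x in (0 : ℝ)..(i : ℝ), (P i).eval x / sin (π * x) := by
    unfold FF JJ
    rw [Finset.mul_sum]
    refine Finset.sum_congr rfl fun i _ => ?_
    rw [← intervalIntegral.integral_const_mul]
    refine intervalIntegral.integral_congr fun x _ => ?_
    simp only [hP, evr, Polynomial.map_mul, eval_mul]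
    ring
  rw [hFF, Finset.sum_congr rfl hint, Finset.sum_comm]
  congr 1
  refine Finset.sum_congr rfl fun j _ => ?_
  rw [← Finset.sum_mul, ← Finset.mul_sum]
  have h0 : ∑ i ∈ range (r + 1), (derivative^[2 * j] (P i)).eval 0 = 0 := by
    have : ∀ i ∈ range (r + 1), (derivative^[2 * j] (P i)).eval 0 =
        ((2 * j)! : ℝ) * (((hasseDeriv (2 * j) (Qz r K * Ez A n c i)).eval 0 : ℤ) : ℝ) := by
      intro i _
      have := deriv_map (Qz r K * Ez A n c i) (2 * j) 0
      simpa [hP] using this
    rw [Finset.sum_congr rfl this, ← Finset.mul_sum, ← Int.cast_sum, ← eval_finset_sum,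
      ← map_sum, ← Finset.mul_sum, hEZ]
    simp
  have hi : ∑ i ∈ range (r + 1), (-1 : ℝ) ^ i * (derivative^[2 * j] (P i)).eval (i : ℝ) =
      -(((2 * j)! : ℝ) * (pp r A n K c j : ℝ)) := by
    unfold pp
    push_cast
    rw [mul_neg, neg_neg, Finset.mul_sum]
    refine Finset.sum_congr rfl fun i _ => ?_
    have := deriv_map (Qz r K * Ez A n c i) (2 * j) i
    simp only [Int.cast_natCast] at this
    rw [show (P i) = (Qz r K * Ez A n c i).map (Int.castRingHom ℝ) from rfl, this]
    ring
  rw [Finset.sum_sub_distrib, h0, hi]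
  unfold OddG.G
  rw [show (2 * j + 1)! = (2 * j + 1) * (2 * j)! from Nat.factorial_succ (2 * j)]
  push_cast
  have hp : (2 * (j : ℝ) + 1) ≠ 0 := by positivity
  have hpi : (π : ℝ) ^ (2 * j + 1) ≠ 0 := by positivity
  field_simp
  ring

end Pool.Agent.Work.MP_f1a024_nt.EX
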