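import Pool.Agent.Work.MP_f1a024_nt.EX.Stmts

/-!
# MP_f1a024_nt, block EX, item JEX
-/

set_option autoImplicit false

namespace Pool.Agent.Work.MP_f1a024_nt.EX

open Real Polynomial MeasureTheory Finset Filter Topology
open scoped Nat
open Pool.Agent.Work.MP_f1a024_nt.HP (evr Ez JJ Qz FF pp)

namespace I_JEX

/-- recursion by parts -/
theorem rec_int (z : ℝ) (i : ℝ) (m : ℕ) :
    z * ∫ x in (0 : ℝ)..i, (i - x) ^ (m + 1) * Real.exp (z * x) =
      -i ^ (m + 1) + (m + 1 : ℝ) * ∫ x in (0 : ℝ)..i, (i - x) ^ m * Real.exp (z * x) := by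
  have h1 : ∀ x ∈ Set.uIcc (0 : ℝ) i, HasDerivAt (fun x : ℝ => (i - x) ^ (m + 1))
      (-((m + 1 : ℝ) * (i - x) ^ m)) x := by
    intro x _
    have := ((hasDerivAt_id x).const_sub i).pow (m + 1)
    refine this.congr_deriv ?_
    simp only [Nat.add_sub_cancel, id]
    push_cast
    ring
  have h2 : ∀ x ∈ Set.uIcc (0 : ℝ) i, HasDerivAt (fun x : ℝ => Real.exp (z * x))
      (Real.exp (z * x) * z) x := by
    intro x _
    have := ((hasDerivAt_id x).const_mul z).exp
    refine this.congr_deriv ?_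
    simp only [id, mul_one]
  have h3 := intervalIntegral.integral_mul_deriv_eq_deriv_mul h1 h2
    (Continuous.intervalIntegrable (by fun_prop) _ _)
    (Continuous.intervalIntegrable (by fun_prop) _ _)
  have h4 : ∫ x in (0 : ℝ)..i, (i - x) ^ (m + 1) * (Real.exp (z * x) * z) =
      z * ∫ x in (0 : ℝ)..i, (i - x) ^ (m + 1) * Real.exp (z * x) := by
    rw [← intervalIntegral.integral_const_mul]
    exact intervalIntegral.integral_congr fun x _ => by ring
  have h5 : ∫ x in (0 : ℝ)..i, -((m + 1 : ℝ) * (i - x) ^ m) * Real.exp (z * x) =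
      -((m + 1 : ℝ) * ∫ x in (0 : ℝ)..i, (i - x) ^ m * Real.exp (z * x)) := by
    rw [← intervalIntegral.integral_const_mul, ← intervalIntegral.integral_neg]
    exact intervalIntegral.integral_congr fun x _ => by ring
  rw [h4, h5] at h3
  rw [h3]
  simp

theorem int0 (z : ℝ) (i : ℝ) : z * ∫ x in (0 : ℝ)..i, Real.exp (z * x) = Real.exp (z * i) - 1 := by
  have h2 : ∀ x ∈ Set.uIcc (0 : ℝ) i, HasDerivAt (fun x : ℝ => Real.exp (z * x))
      (Real.exp (z * x) * z) x := by
    intro x _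
    have := ((hasDerivAt_id x).const_mul z).exp
    refine this.congr_deriv ?_
    simp only [id, mul_one]
  have h3 := intervalIntegral.integral_eq_sub_of_hasDerivAt h2
    (Continuous.intervalIntegrable (by fun_prop) _ _)
  rw [← intervalIntegral.integral_const_mul]
  rw [mul_zero, Real.exp_zero] at h3
  rw [← h3]
  exact intervalIntegral.integral_congr fun x _ => by ring

theorem main_int (z : ℝ) (i : ℝ) (m : ℕ) :
    z ^ (m + 1) * ∫ x in (0 : ℝ)..i, (i - x) ^ m * Real.exp (z * x) =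
      (m ! : ℝ) * (Real.exp (z * i) - ∑ b ∈ range (m + 1), (z * i) ^ b / (b ! : ℝ)) := by
  induction m with
  | zero =>
    have := int0 z i
    simp only [pow_zero, one_mul, zero_add, pow_one, Nat.factorial_zero, Nat.cast_one,
      Finset.sum_range_one, div_one]
    exact this
  | succ m ih =>
    have hf : ((m + 1)! : ℝ) ≠ 0 := by exact_mod_cast (Nat.factorial_ne_zero _)
    rw [pow_succ, mul_assoc, rec_int, mul_add, mul_left_comm, ih, Finset.sum_range_succ _ (m + 1)]
    have h1 : ((m + 1)! : ℝ) * ((z * i) ^ (m + 1) / ((m + 1)! : ℝ)) = (z * i) ^ (m + 1) := by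
      field_simp
    have h2 : ((m + 1)! : ℝ) = (m + 1 : ℝ) * (m ! : ℝ) := by
      rw [Nat.factorial_succ]
      push_cast
      ring
    rw [show ((m + 1)! : ℝ) * (Real.exp (z * i) - (∑ b ∈ range (m + 1), (z * i) ^ b / (b ! : ℝ) +
      (z * i) ^ (m + 1) / ((m + 1)! : ℝ))) = ((m + 1)! : ℝ) * (Real.exp (z * i) -
        ∑ b ∈ range (m + 1), (z * i) ^ b / (b ! : ℝ)) -
        ((m + 1)! : ℝ) * ((z * i) ^ (m + 1) / ((m + 1)! : ℝ)) by ring, h1, h2]
    ring

theorem eval_sum {R : Type*} [CommRing R] (f : R →+* ℝ) (z : ℝ) (p : R[X]) (A : ℕ)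
    (hp : ∀ s, A ≤ s → p.coeff s = 0) : p.eval₂ f z = ∑ s ∈ range A, f (p.coeff s) * z ^ s := by
  rw [Polynomial.eval₂_eq_sum, Polynomial.sum_def]
  refine Finset.sum_subset (fun s hs => ?_) fun s _ hs => ?_
  · rw [Finset.mem_range]
    by_contra h
    exact (Polynomial.mem_support_iff.1 hs) (hp s (not_lt.1 h))
  · rw [Polynomial.notMem_support_iff.1 hs, map_zero, zero_mul]

theorem ph_eq (r A : ℕ) (H : ℤ[X][X]) (hB : Box r A H) (z : ℝ) :
    ph H z = ∑ i ∈ range (r + 1), ∑ s ∈ range A,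
      (((H.coeff s).coeff i : ℤ) : ℝ) * z ^ s * Real.exp (z * i) := by
  unfold ph
  rw [eval_sum _ z H A fun s hs => Polynomial.ext fun i => by
    rw [hB s i (Or.inl hs), Polynomial.coeff_zero], Finset.sum_comm]
  refine Finset.sum_congr rfl fun s _ => ?_
  rw [Polynomial.coe_eval₂RingHom, eval_sum _ _ (H.coeff s) (r + 1) fun i hi => hB s i (Or.inr hi),
    Finset.sum_mul]
  refine Finset.sum_congr rfl fun i _ => ?_
  rw [← Real.exp_nat_mul, mul_comm (i : ℝ) z]
  simp only [Int.coe_castRingHom]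
  ring

theorem evr_Ez (A n : ℕ) (c : ℕ → ℕ → ℤ) (i : ℕ) (x : ℝ) :
    evr (Ez A n c i) x = ∑ s ∈ range A, (n.choose s : ℝ) * (c i s : ℝ) * ((i : ℝ) - x) ^ (n - s) := by
  unfold evr Ez
  rw [Polynomial.map_sum, Polynomial.eval_finset_sum]
  refine Finset.sum_congr rfl fun s _ => ?_
  simp

/-- one term of the sum of the exponential polynomials -/
theorem term (z : ℝ) (n s i : ℕ) (h : ℝ) (hs : s ≤ n) :
    h * z ^ s * ∑ b ∈ range (n - s + 1), (z * i) ^ b / (b ! : ℝ) =
      ∑ k ∈ range (n + 1), z ^ k / (k ! : ℝ) * ((s ! : ℝ) * h * (k.choose s : ℝ) *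
        (i : ℝ) ^ (k - s)) := by
  obtain ⟨d, rfl⟩ := Nat.exists_eq_add_of_le hs
  rw [Nat.add_sub_cancel_left, add_assoc, Finset.sum_range_add _ s (d + 1)]
  have h0 : ∑ k ∈ range s, z ^ k / (k ! : ℝ) * ((s ! : ℝ) * h * (k.choose s : ℝ) *
        (i : ℝ) ^ (k - s)) = 0 := by
    refine Finset.sum_eq_zero fun k hk => ?_
    rw [Nat.choose_eq_zero_of_lt (Finset.mem_range.1 hk)]
    simp
  rw [h0, zero_add, Finset.mul_sum]
  refine Finset.sum_congr rfl fun b _ => ?_
  have h1 : (((s + b).choose s : ℕ) : ℝ) * (s ! : ℝ) * (b ! : ℝ) = ((s + b)! : ℝ) := by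
    have h2 := Nat.choose_mul_factorial_mul_factorial (Nat.le_add_right s b)
    rw [Nat.add_sub_cancel_left] at h2
    exact_mod_cast h2
  have hb : (b ! : ℝ) ≠ 0 := by exact_mod_cast Nat.factorial_ne_zero b
  have hsb : ((s + b)! : ℝ) ≠ 0 := by exact_mod_cast Nat.factorial_ne_zero (s + b)
  rw [Nat.add_sub_cancel_left, div_mul_eq_mul_div, eq_div_iff hsb, ← h1]
  field_simp
  ring

end I_JEX

open I_JEX in
theorem JEX_pf : S_JEX := by
  intro r A n H hB hA hM z hz
  have hvan : ∑ i ∈ range (r + 1), ∑ s ∈ range A, (((H.coeff s).coeff i : ℤ) : ℝ) * z ^ s *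
      ∑ b ∈ range (n - s + 1), (z * i) ^ b / (b ! : ℝ) = 0 := by
    have h1 : ∀ i ∈ range (r + 1), ∑ s ∈ range A, (((H.coeff s).coeff i : ℤ) : ℝ) * z ^ s *
        ∑ b ∈ range (n - s + 1), (z * i) ^ b / (b ! : ℝ) =
        ∑ k ∈ range (n + 1), ∑ s ∈ range A, z ^ k / (k ! : ℝ) *
          ((s ! : ℝ) * (((H.coeff s).coeff i : ℤ) : ℝ) * (k.choose s : ℝ) * (i : ℝ) ^ (k - s)) := by
      intro i _
      rw [Finset.sum_comm]
      refine Finset.sum_congr rfl fun s hs => ?_
      exact term z n s i _ ((Finset.mem_range.1 hs).le.trans hA)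
    rw [Finset.sum_congr rfl h1, Finset.sum_comm]
    refine Finset.sum_eq_zero fun k hk => ?_
    have h2 := hM k (Finset.mem_range.1 hk)
    have h3 : ∑ i ∈ range (r + 1), ∑ s ∈ range A, z ^ k / (k ! : ℝ) *
        ((s ! : ℝ) * (((H.coeff s).coeff i : ℤ) : ℝ) * (k.choose s : ℝ) * (i : ℝ) ^ (k - s)) =
        z ^ k / (k ! : ℝ) * ((∑ i ∈ range (r + 1), ∑ s ∈ range A,
          ct H i s * (k.choose s : ℤ) * (i : ℤ) ^ (k - s) : ℤ) : ℝ) := by
      push_cast
      rw [Finset.mul_sum]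
      refine Finset.sum_congr rfl fun i _ => ?_
      rw [Finset.mul_sum]
      refine Finset.sum_congr rfl fun s _ => ?_
      unfold ct
      push_cast
      ring
    rw [h3, h2, Int.cast_zero, mul_zero]
  have hint : ∀ i ∈ range (r + 1), z ^ (n + 1) *
      ∫ x in (0 : ℝ)..(i : ℝ), evr (Ez A n (ct H) i) x * Real.exp (z * x) =
      (n ! : ℝ) * ∑ s ∈ range A, ((((H.coeff s).coeff i : ℤ) : ℝ) * z ^ s * Real.exp (z * i) -
        (((H.coeff s).coeff i : ℤ) : ℝ) * z ^ s *
          ∑ b ∈ range (n - s + 1), (z * i) ^ b / (b ! : ℝ)) := by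
    intro i _
    have h1 : ∫ x in (0 : ℝ)..(i : ℝ), evr (Ez A n (ct H) i) x * Real.exp (z * x) =
        ∑ s ∈ range A, (n.choose s : ℝ) * (ct H i s : ℝ) *
          ∫ x in (0 : ℝ)..(i : ℝ), ((i : ℝ) - x) ^ (n - s) * Real.exp (z * x) := by
      rw [show (fun x : ℝ => evr (Ez A n (ct H) i) x * Real.exp (z * x)) = fun x =>
        ∑ s ∈ range A, (n.choose s : ℝ) * (ct H i s : ℝ) *
          (((i : ℝ) - x) ^ (n - s) * Real.exp (z * x)) from funext fun x => by
            rw [evr_Ez, Finset.sum_mul]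
            exact Finset.sum_congr rfl fun s _ => by ring]
      rw [intervalIntegral.integral_finset_sum fun s _ =>
        Continuous.intervalIntegrable (by fun_prop) _ _]
      exact Finset.sum_congr rfl fun s _ => intervalIntegral.integral_const_mul _ _
    rw [h1, Finset.mul_sum, Finset.mul_sum]
    refine Finset.sum_congr rfl fun s hs => ?_
    have hsn : s ≤ n := (Finset.mem_range.1 hs).le.trans hA
    have h2 := main_int z i (n - s)
    have h3 : z ^ (n + 1) = z ^ s * z ^ (n - s + 1) := by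
      rw [← pow_add]
      congr 1
      omega
    have h4 : (n.choose s : ℝ) * (s ! : ℝ) * ((n - s)! : ℝ) = (n ! : ℝ) := by
      exact_mod_cast Nat.choose_mul_factorial_mul_factorial hsn
    have h5 : (ct H i s : ℝ) = (s ! : ℝ) * (((H.coeff s).coeff i : ℤ) : ℝ) := by
      unfold ct
      push_cast
      ring
    calc z ^ (n + 1) * ((n.choose s : ℝ) * (ct H i s : ℝ) *
          ∫ x in (0 : ℝ)..(i : ℝ), ((i : ℝ) - x) ^ (n - s) * Real.exp (z * x))
        = z ^ s * ((n.choose s : ℝ) * (ct H i s : ℝ)) * (z ^ (n - s + 1) *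
          ∫ x in (0 : ℝ)..(i : ℝ), ((i : ℝ) - x) ^ (n - s) * Real.exp (z * x)) := by
          rw [h3]
          ring
      _ = z ^ s * ((n.choose s : ℝ) * (ct H i s : ℝ)) * (((n - s)! : ℝ) * (Real.exp (z * i) -
          ∑ b ∈ range (n - s + 1), (z * i) ^ b / (b ! : ℝ))) := by rw [h2]
      _ = ((n.choose s : ℝ) * (s ! : ℝ) * ((n - s)! : ℝ)) *
          ((((H.coeff s).coeff i : ℤ) : ℝ) * z ^ s * (Real.exp (z * i) -
          ∑ b ∈ range (n - s + 1), (z * i) ^ b / (b ! : ℝ))) := by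
          rw [h5]
          ring
      _ = _ := by
          rw [h4]
          ring
  unfold JJ
  rw [Finset.mul_sum, Finset.sum_congr rfl hint, ← Finset.mul_sum, ph_eq r A H hB z]
  congr 1
  simp only [Finset.sum_sub_distrib]
  rw [hvan, sub_zero]

end Pool.Agent.Work.MP_f1a024_nt.EX
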