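import Mathlib
import Pool.Agent.Work.MP_f1a024_nt.EX.Stmts

set_option autoImplicit false

/-!
Block [f1a024 EX], item LGW: lower bound for `|g|` near an integer point.
-/

namespace Pool.Agent.Work.MP_f1a024_nt.EX

open Real Polynomial MeasureTheory Finset Filter Topology
open scoped Nat
open Pool.Agent.Work.MP_f1a024_nt.HP (evr Ez JJ Qz FF pp)

namespace I_LGW

theorem exl0 (a z1 : ℕ) (q : ℕ → ℤ) (h : ∃ s : ℕ, s < a ∧ q s ≠ 0) :
    ∃ l0 : ℕ, z1 ≤ l0 ∧ l0 + 1 ≤ z1 + a ∧ ∑ s ∈ range a, q s * (l0 : ℤ) ^ s ≠ 0 := by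
  by_contra hcon
  obtain ⟨s, hs, hq⟩ := h
  have hcon' : ∀ l0 : ℕ, z1 ≤ l0 → l0 + 1 ≤ z1 + a →
      ∑ s ∈ range a, q s * (l0 : ℤ) ^ s = 0 := by
    intro l0 h1 h2
    by_contra h3
    exact hcon ⟨l0, h1, h2, h3⟩
  have hinj : Function.Injective (fun j : Fin a => ((z1 : ℤ) + ((j : ℕ) : ℤ))) := by
    intro i j hij
    have h1 : ((i : ℕ) : ℤ) = ((j : ℕ) : ℤ) := add_left_cancel hij
    exact Fin.ext (by exact_mod_cast h1)
  have h0 := Matrix.eq_zero_of_forall_index_sum_pow_mul_eq_zero (v := fun i : Fin a => q i)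
    hinj (by
      intro j
      have hj := j.2
      have h1 := hcon' (z1 + (j : ℕ)) (by omega) (by omega)
      rw [Finset.sum_range] at h1
      rw [← h1]
      refine Finset.sum_congr rfl fun i _ => ?_
      push_cast
      ring)
  exact hq (congrFun h0 ⟨s, hs⟩)

theorem powdiff (x y z : ℝ) (hx : 0 ≤ x) (hxy : x ≤ y) (hyz : y ≤ z) (hz : 1 ≤ z) (s : ℕ) :
    y ^ s - x ^ s ≤ (y - x) * (s * z ^ s) := by
  have h0 : 0 ≤ y - x := by linarith
  have hy : 0 ≤ y := hx.trans hxy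
  induction s with
  | zero => simp
  | succ s ih =>
    have h1 : x ^ s ≤ z ^ s := pow_le_pow_left₀ hx (hxy.trans hyz) s
    have h2 : z ^ s ≤ z ^ (s + 1) := pow_le_pow_right₀ hz (Nat.le_succ s)
    have hzs : 0 ≤ z ^ s := pow_nonneg (by linarith) s
    have h3 : y * (y ^ s - x ^ s) ≤ z * ((y - x) * (s * z ^ s)) := by
      have h4 : y * (y ^ s - x ^ s) ≤ y * ((y - x) * (s * z ^ s)) :=
        mul_le_mul_of_nonneg_left ih hy
      have h5 : y * ((y - x) * (s * z ^ s)) ≤ z * ((y - x) * (s * z ^ s)) :=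
        mul_le_mul_of_nonneg_right hyz (mul_nonneg h0 (mul_nonneg (Nat.cast_nonneg s) hzs))
      exact h4.trans h5
    have h6 : x ^ s * (y - x) ≤ z ^ (s + 1) * (y - x) :=
      mul_le_mul_of_nonneg_right (h1.trans h2) h0
    calc y ^ (s + 1) - x ^ (s + 1) = y * (y ^ s - x ^ s) + x ^ s * (y - x) := by ring
      _ ≤ z * ((y - x) * (s * z ^ s)) + z ^ (s + 1) * (y - x) := add_le_add h3 h6
      _ = (y - x) * (((s + 1 : ℕ) : ℝ) * z ^ (s + 1)) := by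
        push_cast
        ring

theorem absdiff (x y z : ℝ) (hx : 0 ≤ x) (hxy : x ≤ y) (hyz : y ≤ z) (hz : 1 ≤ z) (s a : ℕ)
    (hs : s < a) : |y ^ s - x ^ s| ≤ (y - x) * (a * z ^ a) := by
  have h1 : x ^ s ≤ y ^ s := pow_le_pow_left₀ hx hxy s
  rw [abs_of_nonneg (by linarith)]
  refine (powdiff x y z hx hxy hyz hz s).trans ?_
  refine mul_le_mul_of_nonneg_left ?_ (by linarith)
  refine mul_le_mul ?_ (pow_le_pow_right₀ hz hs.le) (pow_nonneg (by linarith) s)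
    (Nat.cast_nonneg a)
  exact_mod_cast hs.le

theorem main (ρ a z1 l0 : ℕ) (c : ℕ → ℕ → ℝ) (B : ℝ)
    (hB : B = ∑ i ∈ range (ρ + 1), ∑ s ∈ range a, |c i s|) (hB1 : 1 ≤ B) (hz1 : 1 ≤ z1)
    (h1 : z1 ≤ l0) (h2 : l0 + 1 ≤ z1 + a) (hp : 1 ≤ |∑ s ∈ range a, c ρ s * (l0 : ℝ) ^ s|)
    (h16 : B * ((z1 + a : ℕ) : ℝ) ^ a * Real.exp (-z1) ≤ 1 / 16)
    (hρ : ρ * Real.exp (-z1) ≤ 1 / 2) (w l : ℝ) (hw0 : 0 < w) (hw1 : w < 1)
    (hl : l = Real.log (w / (1 - w))) (hl0 : (l0 : ℝ) ≤ l)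
    (hl1 : l ≤ l0 + 1 / (4 * B * a * ((z1 + a : ℕ) : ℝ) ^ a)) :
    1 / 4 ≤ |∑ i ∈ range (ρ + 1), ∑ s ∈ range a, c i s * (w ^ i * (1 - w) ^ (ρ - i) * l ^ s)| := by
  have ha : 1 ≤ a := by omega
  have haR : (1 : ℝ) ≤ a := by exact_mod_cast ha
  set z : ℝ := ((z1 + a : ℕ) : ℝ) with hz
  have hz1' : (1 : ℝ) ≤ z := by
    rw [hz]
    exact_mod_cast (by omega : 1 ≤ z1 + a)
  have hza : 1 ≤ z ^ a := one_le_pow₀ hz1'
  have hz1R : (1 : ℝ) ≤ z1 := by exact_mod_cast hz1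
  have hl0R : (z1 : ℝ) ≤ l0 := by exact_mod_cast h1
  have hl0z : (l0 : ℝ) + 1 ≤ z := by
    rw [hz]
    exact_mod_cast h2
  have hD : 1 ≤ B * a * z ^ a := by
    have e1 : 1 ≤ B * a := one_le_mul_of_one_le_of_one_le hB1 haR
    exact one_le_mul_of_one_le_of_one_le e1 hza
  have hε : 1 / (4 * B * a * z ^ a) ≤ 1 := by
    rw [div_le_one (by nlinarith)]
    nlinarith
  have hlz : l ≤ z := by linarith
  have hlpos : 0 < l := by linarith
  -- the polynomial at `l`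
  have hpl : 3 / 4 ≤ |∑ s ∈ range a, c ρ s * l ^ s| := by
    have hd : |(∑ s ∈ range a, c ρ s * (l0 : ℝ) ^ s) - ∑ s ∈ range a, c ρ s * l ^ s| ≤ 1 / 4 := by
      rw [← Finset.sum_sub_distrib]
      have e1 : ∀ s ∈ range a, |c ρ s * (l0 : ℝ) ^ s - c ρ s * l ^ s| ≤
          |c ρ s| * ((l - l0) * (a * z ^ a)) := by
        intro s hs
        rw [← mul_sub, abs_mul, abs_sub_comm]
        exact mul_le_mul_of_nonneg_left
          (absdiff l0 l z (by positivity) hl0 hlz hz1' s a (Finset.mem_range.1 hs)) (abs_nonneg _)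
      have e2 : ∑ s ∈ range a, |c ρ s| ≤ B := by
        rw [hB]
        exact Finset.single_le_sum (f := fun i => ∑ s ∈ range a, |c i s|)
          (fun i _ => Finset.sum_nonneg fun s _ => abs_nonneg _)
          (Finset.mem_range.2 (Nat.lt_succ_self ρ))
      have e3 : 0 ≤ (l - l0) * (a * z ^ a) := mul_nonneg (by linarith) (by positivity)
      calc |∑ s ∈ range a, (c ρ s * (l0 : ℝ) ^ s - c ρ s * l ^ s)|
          ≤ ∑ s ∈ range a, |c ρ s * (l0 : ℝ) ^ s - c ρ s * l ^ s| :=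
            Finset.abs_sum_le_sum_abs _ _
        _ ≤ ∑ s ∈ range a, |c ρ s| * ((l - l0) * (a * z ^ a)) := Finset.sum_le_sum e1
        _ = (∑ s ∈ range a, |c ρ s|) * ((l - l0) * (a * z ^ a)) := by rw [Finset.sum_mul]
        _ ≤ B * ((l - l0) * (a * z ^ a)) := mul_le_mul_of_nonneg_right e2 e3
        _ = (l - l0) * (B * a * z ^ a) := by ring
        _ ≤ (1 / (4 * B * a * z ^ a)) * (B * a * z ^ a) :=
            mul_le_mul_of_nonneg_right (by linarith) (by linarith)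
        _ = 1 / 4 := by
            have : B * a * z ^ a ≠ 0 := by positivity
            field_simp
    have := abs_sub_abs_le_abs_sub (∑ s ∈ range a, c ρ s * (l0 : ℝ) ^ s)
      (∑ s ∈ range a, c ρ s * l ^ s)
    linarith
  -- `1 - w = w exp (-l)`
  have hw' : 0 < 1 - w := by linarith
  have hexp : Real.exp (-l) = (1 - w) / w := by
    rw [Real.exp_neg, hl, Real.exp_log (div_pos hw0 hw'), inv_div]
  have h1w : 1 - w = w * Real.exp (-l) := by
    rw [hexp]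
    field_simp
  have hexpz : Real.exp (-l) ≤ Real.exp (-z1) := Real.exp_le_exp.2 (by linarith)
  have hexp1 : Real.exp (-l) ≤ 1 := by
    rw [Real.exp_le_one_iff]
    linarith
  have hexp0 : 0 < Real.exp (-l) := Real.exp_pos _
  -- `w ^ ρ` is at least one half
  have hwρ : 1 / 2 ≤ w ^ ρ := by
    have e1 := one_add_mul_le_pow (a := w - 1) (by linarith) ρ
    have e2 : (1 : ℝ) + (w - 1) = w := by ring
    rw [e2] at e1
    have e3 : 1 - w ≤ Real.exp (-z1) := by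
      rw [h1w]
      calc w * Real.exp (-l) ≤ 1 * Real.exp (-l) :=
            mul_le_mul_of_nonneg_right hw1.le hexp0.le
        _ ≤ Real.exp (-z1) := by rw [one_mul]; exact hexpz
    have e4 : (ρ : ℝ) * (1 - w) ≤ ρ * Real.exp (-z1) :=
      mul_le_mul_of_nonneg_left e3 (Nat.cast_nonneg ρ)
    have e5 : (1 : ℝ) + ρ * (w - 1) = 1 - ρ * (1 - w) := by ring
    rw [e5] at e1
    linarith
  have hwρ0 : 0 ≤ w ^ ρ := by linarith
  -- split the sum
  rw [Finset.sum_range_succ]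
  have hlast : ∑ s ∈ range a, c ρ s * (w ^ ρ * (1 - w) ^ (ρ - ρ) * l ^ s) =
      w ^ ρ * ∑ s ∈ range a, c ρ s * l ^ s := by
    rw [Finset.mul_sum]
    refine Finset.sum_congr rfl fun s _ => ?_
    rw [Nat.sub_self, pow_zero]
    ring
  rw [hlast]
  have hrest : |∑ i ∈ range ρ, ∑ s ∈ range a, c i s * (w ^ i * (1 - w) ^ (ρ - i) * l ^ s)| ≤
      w ^ ρ * (1 / 16) := by
    have e1 : ∀ i ∈ range ρ, ∀ s ∈ range a,
        |c i s * (w ^ i * (1 - w) ^ (ρ - i) * l ^ s)| ≤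
          |c i s| * (w ^ ρ * (z ^ a * Real.exp (-z1))) := by
      intro i hi s hs
      rw [Finset.mem_range] at hi hs
      rw [abs_mul]
      refine mul_le_mul_of_nonneg_left ?_ (abs_nonneg _)
      have f1 : w ^ i * (1 - w) ^ (ρ - i) = w ^ ρ * Real.exp (-l) ^ (ρ - i) := by
        rw [h1w, mul_pow, ← mul_assoc, ← pow_add]
        congr 2
        omega
      rw [f1, abs_of_nonneg (by positivity)]
      have f2 : Real.exp (-l) ^ (ρ - i) ≤ Real.exp (-z1) := by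
        calc Real.exp (-l) ^ (ρ - i) ≤ Real.exp (-l) ^ 1 :=
              pow_le_pow_of_le_one hexp0.le hexp1 (by omega)
          _ ≤ Real.exp (-z1) := by rw [pow_one]; exact hexpz
      have f3 : l ^ s ≤ z ^ a := by
        calc l ^ s ≤ z ^ s := pow_le_pow_left₀ hlpos.le hlz s
          _ ≤ z ^ a := pow_le_pow_right₀ hz1' hs.le
      calc w ^ ρ * Real.exp (-l) ^ (ρ - i) * l ^ s
          = w ^ ρ * (Real.exp (-l) ^ (ρ - i) * l ^ s) := by ring
        _ ≤ w ^ ρ * (Real.exp (-z1) * z ^ a) :=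
            mul_le_mul_of_nonneg_left
              (mul_le_mul f2 f3 (pow_nonneg hlpos.le s) (Real.exp_pos _).le) hwρ0
        _ = w ^ ρ * (z ^ a * Real.exp (-z1)) := by ring
    have e2 : ∑ i ∈ range ρ, ∑ s ∈ range a, |c i s| ≤ B := by
      rw [hB, Finset.sum_range_succ]
      have : 0 ≤ ∑ s ∈ range a, |c ρ s| := Finset.sum_nonneg fun s _ => abs_nonneg _
      linarith
    calc |∑ i ∈ range ρ, ∑ s ∈ range a, c i s * (w ^ i * (1 - w) ^ (ρ - i) * l ^ s)|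
        ≤ ∑ i ∈ range ρ, |∑ s ∈ range a, c i s * (w ^ i * (1 - w) ^ (ρ - i) * l ^ s)| :=
          Finset.abs_sum_le_sum_abs _ _
      _ ≤ ∑ i ∈ range ρ, ∑ s ∈ range a, |c i s * (w ^ i * (1 - w) ^ (ρ - i) * l ^ s)| :=
          Finset.sum_le_sum fun i _ => Finset.abs_sum_le_sum_abs _ _
      _ ≤ ∑ i ∈ range ρ, ∑ s ∈ range a, |c i s| * (w ^ ρ * (z ^ a * Real.exp (-z1))) :=
          Finset.sum_le_sum fun i hi => Finset.sum_le_sum fun s hs => e1 i hi s hs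
      _ = (∑ i ∈ range ρ, ∑ s ∈ range a, |c i s|) * (w ^ ρ * (z ^ a * Real.exp (-z1))) := by
          rw [Finset.sum_mul]
          refine Finset.sum_congr rfl fun i _ => ?_
          rw [Finset.sum_mul]
      _ ≤ B * (w ^ ρ * (z ^ a * Real.exp (-z1))) :=
          mul_le_mul_of_nonneg_right e2 (by positivity)
      _ = w ^ ρ * (B * z ^ a * Real.exp (-z1)) := by ring
      _ ≤ w ^ ρ * (1 / 16) := mul_le_mul_of_nonneg_left h16 hwρ0
  set X := ∑ i ∈ range ρ, ∑ s ∈ range a, c i s * (w ^ i * (1 - w) ^ (ρ - i) * l ^ s) with hX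
  set Y := ∑ s ∈ range a, c ρ s * l ^ s with hY
  have g1 : |w ^ ρ * Y| - |X| ≤ |X + w ^ ρ * Y| := by
    have := abs_sub_abs_le_abs_sub (w ^ ρ * Y) (-X)
    rw [abs_neg, sub_neg_eq_add, add_comm (w ^ ρ * Y)] at this
    exact this
  have g2 : |w ^ ρ * Y| = w ^ ρ * |Y| := by rw [abs_mul, abs_of_nonneg hwρ0]
  have g3 : w ^ ρ * (3 / 4) ≤ w ^ ρ * |Y| := mul_le_mul_of_nonneg_left hpl hwρ0
  rw [g2] at g1
  linarith

theorem one_le_nm (ρ a : ℕ) (F : ℤ[X][X]) (h : ∃ s : ℕ, s < a ∧ (F.coeff s).coeff ρ ≠ 0) :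
    1 ≤ nm ρ a F := by
  obtain ⟨s, hs, hne⟩ := h
  have h1 : (1 : ℝ) ≤ |(((F.coeff s).coeff ρ : ℤ) : ℝ)| := by
    have : (1 : ℤ) ≤ |(F.coeff s).coeff ρ| := Int.one_le_abs hne
    exact_mod_cast this
  refine h1.trans ?_
  unfold nm
  refine le_trans ?_ (Finset.single_le_sum
    (f := fun i => ∑ s ∈ range a, |(((F.coeff s).coeff i : ℤ) : ℝ)|)
    (fun i _ => Finset.sum_nonneg fun s _ => abs_nonneg _)
    (Finset.mem_range.2 (Nat.lt_succ_self ρ)))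
  exact Finset.single_le_sum (f := fun s => |(((F.coeff s).coeff ρ : ℤ) : ℝ)|)
    (fun s _ => abs_nonneg _) (Finset.mem_range.2 hs)

end I_LGW

theorem LGW_pf (h1 : S_GWE) : S_LGW := by
  intro ρ a z1 F hF hex hz1 h16 hρ
  obtain ⟨l0, hl1, hl2, hne⟩ := I_LGW.exl0 a z1 (fun s => (F.coeff s).coeff ρ) hex
  refine ⟨l0, hl1, hl2, fun w hw0 hw1 hwl hwu => ?_⟩
  rw [(h1 ρ a F hF w hw0 hw1).1]
  have hp : (1 : ℝ) ≤ |∑ s ∈ range a, (((F.coeff s).coeff ρ : ℤ) : ℝ) * (l0 : ℝ) ^ s| := by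
    have h2 : (1 : ℤ) ≤ |∑ s ∈ range a, (F.coeff s).coeff ρ * (l0 : ℤ) ^ s| :=
      Int.one_le_abs hne
    have h3 : ((1 : ℤ) : ℝ) ≤ ((|∑ s ∈ range a, (F.coeff s).coeff ρ * (l0 : ℤ) ^ s| : ℤ) : ℝ) := by
      exact_mod_cast h2
    push_cast at h3
    exact h3
  exact I_LGW.main ρ a z1 l0 (fun i s => (((F.coeff s).coeff i : ℤ) : ℝ)) (nm ρ a F) rfl
    (I_LGW.one_le_nm ρ a F hex) hz1 hl1 hl2 hp h16 hρ w (lw w) hw0 hw1 rfl hwl hwu

end Pool.Agent.Work.MP_f1a024_nt.EX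

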