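import Pool.Agent.Work.MP_f1a024_nt.EX.Stmts

set_option autoImplicit false

/-!
Block EX, item LOW: lower bound for `Phi_K`.
-/

namespace Pool.Agent.Work.MP_f1a024_nt.EX

open Real Polynomial MeasureTheory Finset Filter Topology
open scoped Nat

namespace I_LOW

theorem one_le_nm (ρ a : ℕ) (F : ℤ[X][X]) (s : ℕ) (hs : s < a) (h : (F.coeff s).coeff ρ ≠ 0) :
    1 ≤ nm ρ a F := by
  unfold nm
  have h1 : (1 : ℝ) ≤ |(((F.coeff s).coeff ρ : ℤ) : ℝ)| := by
    rw [← Int.cast_abs]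
    exact_mod_cast Int.one_le_abs h
  have h2 : |(((F.coeff s).coeff ρ : ℤ) : ℝ)| ≤
      ∑ s ∈ range a, |(((F.coeff s).coeff ρ : ℤ) : ℝ)| :=
    Finset.single_le_sum (f := fun s => |(((F.coeff s).coeff ρ : ℤ) : ℝ)|)
      (fun _ _ => abs_nonneg _) (Finset.mem_range.2 hs)
  have h3 : ∑ s ∈ range a, |(((F.coeff s).coeff ρ : ℤ) : ℝ)| ≤
      ∑ i ∈ range (ρ + 1), ∑ s ∈ range a, |(((F.coeff s).coeff i : ℤ) : ℝ)| :=
    Finset.single_le_sum (f := fun i => ∑ s ∈ range a, |(((F.coeff s).coeff i : ℤ) : ℝ)|)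
      (fun _ _ => Finset.sum_nonneg fun _ _ => abs_nonneg _) (Finset.mem_range.2 (by omega))
  linarith

/-- the logistic function -/
noncomputable def sg (l : ℝ) : ℝ := 1 / (1 + Real.exp (-l))

theorem sg_pos (l : ℝ) : 0 < sg l := by
  unfold sg
  positivity

theorem sg_lt_one (l : ℝ) : sg l < 1 := by
  unfold sg
  rw [div_lt_one (by positivity)]
  have := Real.exp_pos (-l)
  linarith

theorem lw_ge {l w : ℝ} (hw1 : w < 1) (h : sg l ≤ w) : l ≤ lw w := by
  have hw0 : 0 < w := (sg_pos l).trans_le h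
  have h1 : 0 < 1 - w := by linarith
  unfold sg at h
  rw [div_le_iff₀ (by positivity)] at h
  unfold lw
  rw [Real.le_log_iff_exp_le (by positivity), le_div_iff₀ h1]
  have h2 : 1 - w ≤ w * Real.exp (-l) := by linarith
  calc Real.exp l * (1 - w) ≤ Real.exp l * (w * Real.exp (-l)) :=
        mul_le_mul_of_nonneg_left h2 (Real.exp_pos l).le
    _ = w * (Real.exp l * Real.exp (-l)) := by ring
    _ = w := by rw [← Real.exp_add, add_neg_cancel, Real.exp_zero, mul_one]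

theorem lw_le {l w : ℝ} (hw0 : 0 < w) (h : w ≤ sg l) : lw w ≤ l := by
  have hw1 : w < 1 := h.trans_lt (sg_lt_one l)
  have h1 : 0 < 1 - w := by linarith
  unfold sg at h
  rw [le_div_iff₀ (by positivity)] at h
  unfold lw
  rw [Real.log_le_iff_le_exp (by positivity), div_le_iff₀ h1]
  have h2 : w * Real.exp (-l) ≤ 1 - w := by linarith
  calc w = w * (Real.exp l * Real.exp (-l)) := by
        rw [← Real.exp_add, add_neg_cancel, Real.exp_zero, mul_one]
    _ = Real.exp l * (w * Real.exp (-l)) := by ring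
    _ ≤ Real.exp l * (1 - w) := mul_le_mul_of_nonneg_left h2 (Real.exp_pos l).le

theorem sg_len {l ε z : ℝ} (hl : 0 ≤ l) (hε : 0 ≤ ε) (hz : l + ε ≤ z) :
    ε * (Real.exp (-z) / 4) ≤ sg (l + ε) - sg l := by
  have e1 : Real.exp (-l) ≤ 1 := by
    rw [Real.exp_le_one_iff]
    linarith
  have e2 : Real.exp (-(l + ε)) ≤ 1 := by
    rw [Real.exp_le_one_iff]
    linarith
  have e3 := Real.exp_pos (-l)
  have e4 := Real.exp_pos (-(l + ε))
  have e5 : Real.exp (-l) = Real.exp (-(l + ε)) * Real.exp ε := by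
    rw [← Real.exp_add]
    congr 1
    ring
  have e6 := Real.add_one_le_exp ε
  have e7 : Real.exp (-z) ≤ Real.exp (-(l + ε)) := Real.exp_le_exp.2 (by linarith)
  have e8 : ε * Real.exp (-(l + ε)) ≤ Real.exp (-l) - Real.exp (-(l + ε)) := by
    rw [e5]
    nlinarith [mul_le_mul_of_nonneg_left e6 e4.le]
  have e9 : sg (l + ε) - sg l = (Real.exp (-l) - Real.exp (-(l + ε))) /
      ((1 + Real.exp (-(l + ε))) * (1 + Real.exp (-l))) := by
    unfold sg
    rw [div_sub_div _ _ (by positivity) (by positivity)]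
    congr 1
    ring
  rw [e9, le_div_iff₀ (by positivity)]
  have f1 : (1 + Real.exp (-(l + ε))) * (1 + Real.exp (-l)) ≤ 4 := by nlinarith
  have f2 : 0 ≤ ε * (Real.exp (-z) / 4) := by positivity
  calc ε * (Real.exp (-z) / 4) * ((1 + Real.exp (-(l + ε))) * (1 + Real.exp (-l)))
      ≤ ε * (Real.exp (-z) / 4) * 4 := mul_le_mul_of_nonneg_left f1 f2
    _ = ε * Real.exp (-z) := by ring
    _ ≤ ε * Real.exp (-(l + ε)) := mul_le_mul_of_nonneg_left e7 hε
    _ ≤ _ := e8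

theorem fw_nonneg {ρ n K : ℕ} (F : ℤ[X][X]) (hn : Odd n) {w : ℝ} (h0 : 0 ≤ w) (h1 : w ≤ 1) :
    0 ≤ fw ρ n K F w := by
  unfold fw
  have h2 : 0 ≤ lw w ^ (n + 1) := (hn.add_one).pow_nonneg _
  have h3 : 0 ≤ w * (1 - w) := mul_nonneg h0 (by linarith)
  positivity

end I_LOW

open I_LOW in
theorem LOW_pf (h1 : S_LGW) (h2 : S_UBD) : S_LOW := by
  intro ρ a n K z1 F hB hs hn hz1 hnm hρ hint
  obtain ⟨l0, hl0, hl1, hg⟩ := h1 ρ a z1 F hB hs hz1 hnm hρ
  obtain ⟨s, hsa, hs0⟩ := hs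
  have hN := one_le_nm ρ a F s hsa hs0
  have ha1 : (1 : ℝ) ≤ a := by exact_mod_cast (by omega : 1 ≤ a)
  have hz : (1 : ℝ) ≤ ((z1 + a : ℕ) : ℝ) := by exact_mod_cast (by omega : 1 ≤ z1 + a)
  set z : ℝ := ((z1 + a : ℕ) : ℝ) with hzdef
  have hza : 1 ≤ z ^ a := one_le_pow₀ hz
  have hD : 1 ≤ 4 * nm ρ a F * a * z ^ a := by
    have k1 : 1 ≤ nm ρ a F * a := one_le_mul_of_one_le_of_one_le hN ha1
    have k2 : 1 ≤ nm ρ a F * a * z ^ a := one_le_mul_of_one_le_of_one_le k1 hza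
    nlinarith
  set ε : ℝ := 1 / (4 * nm ρ a F * a * z ^ a) with hε
  have hε0 : 0 < ε := by
    rw [hε]
    positivity
  have hε1 : ε ≤ 1 := by
    rw [hε, div_le_one (by linarith)]
    exact hD
  have hl0R : (1 : ℝ) ≤ l0 := by exact_mod_cast hz1.trans hl0
  have hl1R : (l0 : ℝ) + 1 ≤ z := by
    rw [hzdef]
    exact_mod_cast hl1
  have hlez : (l0 : ℝ) + ε ≤ z := by linarith
  have hlen := sg_len (l := (l0 : ℝ)) (ε := ε) (z := z) (by linarith) hε0.le hlez
  have huv : sg (l0 : ℝ) ≤ sg ((l0 : ℝ) + ε) := by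
    have : 0 ≤ ε * (Real.exp (-z) / 4) := by positivity
    linarith
  set c : ℝ := 1 / 16 / z ^ (n + 1) * (Real.exp (-z) / 4) ^ K with hc
  have hc0 : 0 ≤ c := by
    rw [hc]
    positivity
  have hpt : ∀ w ∈ Set.Icc (sg (l0 : ℝ)) (sg ((l0 : ℝ) + ε)), c ≤ fw ρ n K F w := by
    intro w hw
    have hw0 : 0 < w := (sg_pos _).trans_le hw.1
    have hw1 : w < 1 := hw.2.trans_lt (sg_lt_one _)
    have k1 : (l0 : ℝ) ≤ lw w := lw_ge hw1 hw.1
    have k2 : lw w ≤ l0 + ε := lw_le hw0 hw.2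
    have k3 := hg w hw0 hw1 k1 k2
    have k4 : (0 : ℝ) < lw w := by linarith
    have k5 : lw w ≤ z := by linarith
    have k6 : 1 / 16 ≤ gw ρ F w ^ 2 := by
      rw [← sq_abs]
      nlinarith
    have k7 : lw w ^ (n + 1) ≤ z ^ (n + 1) := pow_le_pow_left₀ k4.le k5 _
    have k8 : 0 < lw w ^ (n + 1) := by positivity
    have k9 : Real.exp (-z) / 4 ≤ w * (1 - w) := by
      refine le_trans ?_ (h2 w hw0 hw1).1
      rw [abs_of_pos k4]
      have := Real.exp_le_exp.2 (show -z ≤ -lw w by linarith)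
      linarith
    rw [hc]
    unfold fw
    refine mul_le_mul ?_ (pow_le_pow_left₀ (by positivity) k9 K) (by positivity) (by positivity)
    exact div_le_div₀ (by positivity) k6 k8 k7
  have hsub : Set.uIcc (sg (l0 : ℝ)) (sg ((l0 : ℝ) + ε)) ⊆ Set.uIcc (0 : ℝ) 1 := by
    rw [Set.uIcc_of_le huv, Set.uIcc_of_le zero_le_one]
    exact Set.Icc_subset_Icc (sg_pos _).le (sg_lt_one _).le
  have hint' : IntervalIntegrable (fw ρ n K F) volume (sg (l0 : ℝ)) (sg ((l0 : ℝ) + ε)) :=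
    hint.mono_set hsub
  have hA : ∫ w in (sg (l0 : ℝ))..(sg ((l0 : ℝ) + ε)), fw ρ n K F w ≤ Phi ρ n K F := by
    unfold Phi
    refine intervalIntegral.integral_mono_interval (sg_pos _).le huv (sg_lt_one _).le ?_ hint
    refine (ae_restrict_iff' measurableSet_Ioc).2 (Eventually.of_forall fun w hw => ?_)
    exact fw_nonneg F hn hw.1.le hw.2
  have hBd : (sg ((l0 : ℝ) + ε) - sg (l0 : ℝ)) * c ≤
      ∫ w in (sg (l0 : ℝ))..(sg ((l0 : ℝ) + ε)), fw ρ n K F w := by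
    have k1 := intervalIntegral.integral_mono_on huv
      (intervalIntegrable_const (c := c) (μ := volume)) hint' hpt
    rw [intervalIntegral.integral_const, smul_eq_mul] at k1
    exact k1
  calc c * (ε * (Real.exp (-z) / 4)) ≤ c * (sg ((l0 : ℝ) + ε) - sg (l0 : ℝ)) :=
        mul_le_mul_of_nonneg_left hlen hc0
    _ = (sg ((l0 : ℝ) + ε) - sg (l0 : ℝ)) * c := mul_comm _ _
    _ ≤ Phi ρ n K F := hBd.trans hA

end Pool.Agent.Work.MP_f1a024_nt.EX
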