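import Pool.Agent.Work.MP_f1a024_nt.EX.Stmts

set_option autoImplicit false

/-!
Item MOM of the block [f1a024 EX]: the moments of the array `s! g_is` vanish.
-/

namespace Pool.Agent.Work.MP_f1a024_nt.EX

open Polynomial Finset
open scoped Nat

theorem MOM_pf (h1 : S_PSC) : S_MOM := by
  intro r A D H hB hd b hb
  have h2 := h1 r A H hB b
  rw [PowerSeries.X_pow_dvd_iff.mp hd b hb, mul_zero] at h2
  have h3 : ((∑ i ∈ range (r + 1), ∑ s ∈ range A,
      ct H i s * (b.choose s : ℤ) * (i : ℤ) ^ (b - s) : ℤ) : ℚ) = 0 := by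
    rw [h2]
    push_cast
    refine Finset.sum_congr rfl fun i _ => Finset.sum_congr rfl fun s _ => ?_
    unfold ct
    rw [Nat.descFactorial_eq_factorial_mul_choose]
    push_cast
    ring
  exact_mod_cast h3

end Pool.Agent.Work.MP_f1a024_nt.EX
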