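import Pool.Agent.Work.MP_f1a024_nt.EX.Stmts2

set_option autoImplicit false

/-!
Block [f1a024 EX], item NA2: choice of the parameters.
-/

namespace Pool.Agent.Work.MP_f1a024_nt.EX

open Real Polynomial MeasureTheory Finset Filter Topology
open scoped Nat

theorem NA2_pf : S_NA2 := by
  intro N L m e α β V hN hLN hm hα hV hLV h1 h2 h3
  obtain ⟨lam, hlam⟩ : ∃ lam : ℝ, lam = Real.log N := ⟨_, rfl⟩
  rw [← hlam] at h1 h2 ⊢
  have hN2 : (2 : ℝ) ≤ N := by exact_mod_cast hN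
  have hN0 : (0 : ℝ) < N := by linarith
  have hlam0 : (0.69 : ℝ) ≤ lam := by
    have h := Real.log_le_log (by norm_num) hN2
    have h' := Real.log_two_gt_d9
    rw [hlam]
    linarith
  have hm1 : (1 : ℝ) ≤ m := by exact_mod_cast hm
  have he0 : (0 : ℝ) ≤ e := Nat.cast_nonneg e
  have hL0 : (0 : ℝ) ≤ L := Nat.cast_nonneg L
  have hLN' : (L : ℝ) ≤ N := by exact_mod_cast hLN
  have hNl0 : (0 : ℝ) < N * lam := mul_pos hN0 (by linarith)
  -- the powers of V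
  have hV30 : (0 : ℝ) ≤ V ^ 3 := by positivity
  have a1 : (N : ℝ) * lam ≤ V ^ 3 / 10 ^ 7 := by
    have e1 : 1 * (α + N * lam) ≤ m * (α + N * lam) :=
      mul_le_mul_of_nonneg_right hm1 (by linarith)
    linarith
  have a2 : V ^ 3 * lam ≤ (L : ℝ) ^ 2 / 10 ^ 7 := by
    have e1 : 1 * (V ^ 3 * lam) ≤ (m + e) * (V ^ 3 * lam) :=
      mul_le_mul_of_nonneg_right (by linarith) (mul_nonneg hV30 (by linarith))
    linarith
  have a3 : (N : ℝ) * lam ^ 2 ≤ (L : ℝ) ^ 2 / 10 ^ 14 := by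
    have e1 : (N : ℝ) * lam * lam ≤ V ^ 3 / 10 ^ 7 * lam :=
      mul_le_mul_of_nonneg_right a1 (by linarith)
    have e2 : (N : ℝ) * lam ^ 2 = N * lam * lam := by ring
    have e3 : V ^ 3 / 10 ^ 7 * lam = V ^ 3 * lam / 10 ^ 7 := by ring
    have e4 : (L : ℝ) ^ 2 / 10 ^ 14 = (L : ℝ) ^ 2 / 10 ^ 7 / 10 ^ 7 := by
      rw [div_div]
      norm_num
    rw [e2, e4]
    rw [e3] at e1
    refine e1.trans ?_
    gcongr
  have a4 : lam ^ 2 ≤ (L : ℝ) / 10 ^ 14 := by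
    have e1 : (N : ℝ) * lam ^ 2 ≤ N * ((L : ℝ) / 10 ^ 14) := by
      refine a3.trans ?_
      have e2 : (L : ℝ) ^ 2 ≤ N * L := by nlinarith
      have e3 : (N : ℝ) * ((L : ℝ) / 10 ^ 14) = N * L / 10 ^ 14 := by ring
      rw [e3]
      gcongr
    exact le_of_mul_le_mul_left e1 hN0
  have a5 : (4 * 10 ^ 13 : ℝ) ≤ L := by
    have e1 : (0.4 : ℝ) ≤ lam ^ 2 := by nlinarith
    have e2 : (0.4 : ℝ) ≤ (L : ℝ) / 10 ^ 14 := e1.trans a4
    rw [le_div_iff₀ (by norm_num)] at e2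
    linarith
  have a5' : (2000 : ℝ) ≤ L := le_trans (by norm_num) a5
  have a6 : (10 : ℝ) ≤ lam := by
    rw [hlam, Real.le_log_iff_exp_le hN0]
    have e1 : Real.exp 1 < 2.7182818286 := Real.exp_one_lt_d9
    have e2 : Real.exp 10 = Real.exp 1 ^ (10 : ℕ) := by
      rw [← Real.exp_nat_mul]
      norm_num
    rw [e2]
    calc Real.exp 1 ^ (10 : ℕ) ≤ 3 ^ (10 : ℕ) :=
          pow_le_pow_left₀ (Real.exp_pos 1).le (by linarith) _
      _ ≤ (N : ℝ) := by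
        refine le_trans ?_ hLN'
        refine le_trans ?_ a5
        norm_num
  have a7 : (2 : ℝ) ≤ V ^ 3 := by
    have e1 : (20 : ℝ) ≤ N * lam := by
      calc (20 : ℝ) = 2 * 10 := by norm_num
        _ ≤ N * lam := mul_le_mul hN2 a6 (by norm_num) hN0.le
    have e2 := e1.trans a1
    rw [le_div_iff₀ (by norm_num)] at e2
    linarith
  -- the integers
  obtain ⟨l, hl⟩ : ∃ l : ℕ, l = L / 40 := ⟨_, rfl⟩
  obtain ⟨δ, hδ⟩ : ∃ δ : ℕ, δ = ⌊V ^ 3⌋₊ := ⟨_, rfl⟩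
  have l1 : 40 * l ≤ L := by omega
  have l2 : L ≤ 40 * l + 39 := by omega
  have l1' : 40 * (l : ℝ) ≤ L := by exact_mod_cast l1
  have l2' : (L : ℝ) ≤ 40 * l + 39 := by exact_mod_cast l2
  have d1 : (δ : ℝ) ≤ V ^ 3 := by rw [hδ]; exact Nat.floor_le hV30
  have d2 : V ^ 3 < δ + 1 := by rw [hδ]; exact Nat.lt_floor_add_one _
  have d3 : V ^ 3 / 2 ≤ δ := by linarith
  have l3 : (L : ℝ) / 41 ≤ l := by
    rw [div_le_iff₀ (by norm_num)]
    linarith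
  have l4 : (L : ℝ) ^ 2 / 1681 ≤ (l : ℝ) ^ 2 := by
    have e1 : ((L : ℝ) / 41) ^ 2 ≤ (l : ℝ) ^ 2 := pow_le_pow_left₀ (by positivity) l3 2
    have e2 : ((L : ℝ) / 41) ^ 2 = (L : ℝ) ^ 2 / 1681 := by ring
    linarith
  have hl0 : (0 : ℝ) ≤ l := Nat.cast_nonneg l
  have hδ0 : (0 : ℝ) ≤ δ := Nat.cast_nonneg δ
  have c1 : 3000 * ((m + e) * (δ * lam)) ≤ (l : ℝ) ^ 2 := by
    have e1 : ((m : ℝ) + e) * (δ * lam) ≤ (m + e) * (V ^ 3 * lam) :=
      mul_le_mul_of_nonneg_left (mul_le_mul_of_nonneg_right d1 (by linarith)) (by linarith)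
    have e2 := e1.trans h2
    have e3 : (0 : ℝ) ≤ (L : ℝ) ^ 2 := by positivity
    have e4 : 3000 * ((L : ℝ) ^ 2 / 10 ^ 7) ≤ (L : ℝ) ^ 2 / 1681 := by
      have e5 : 3000 * ((L : ℝ) ^ 2 / 10 ^ 7) = (L : ℝ) ^ 2 * (3000 / 10 ^ 7) := by ring
      have e6 : (L : ℝ) ^ 2 / 1681 = (L : ℝ) ^ 2 * (1 / 1681) := by ring
      rw [e5, e6]
      exact mul_le_mul_of_nonneg_left (by norm_num) e3
    linarith
  have c2 : (m : ℝ) * (α + N * lam) ≤ (δ : ℝ) / 60 := by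
    refine h1.trans ?_
    have e1 : V ^ 3 / 10 ^ 7 ≤ V ^ 3 / 2 / 60 := by
      have e5 : V ^ 3 / 10 ^ 7 = V ^ 3 * (1 / 10 ^ 7) := by ring
      have e6 : V ^ 3 / 2 / 60 = V ^ 3 * (1 / 120) := by ring
      rw [e5, e6]
      exact mul_le_mul_of_nonneg_left (by norm_num) hV30
    linarith
  refine ⟨l, δ, ⟨hN, ?_, l1.trans hLN, ?_, ?_, ?_, ?_⟩, l1, c2, c1, ?_⟩
  · have e1 : (1 : ℝ) ≤ l := by
      refine le_trans ?_ l3
      rw [le_div_iff₀ (by norm_num)]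
      linarith
    exact_mod_cast e1
  · rw [← hlam]; exact a6
  · -- h32
    have e1 : (l : ℝ) ≤ V ^ 2 / 20 := by linarith
    have e2 : (l : ℝ) ^ 3 ≤ (V ^ 2 / 20) ^ 3 := pow_le_pow_left₀ hl0 e1 3
    have e3 : (V ^ 3 / 2) ^ 2 ≤ (δ : ℝ) ^ 2 := pow_le_pow_left₀ (by positivity) d3 2
    have e4 : (V ^ 2 / 20) ^ 3 ≤ (V ^ 3 / 2) ^ 2 := by
      have e5 : (V ^ 2 / 20) ^ 3 = V ^ 6 * (1 / 8000) := by ring
      have e6 : (V ^ 3 / 2) ^ 2 = V ^ 6 * (1 / 4) := by ring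
      rw [e5, e6]
      exact mul_le_mul_of_nonneg_left (by norm_num) (by positivity)
    have e7 : (l : ℝ) ^ 3 ≤ (δ : ℝ) ^ 2 := e2.trans (e4.trans e3)
    exact_mod_cast e7
  · -- hd
    rw [← hlam]
    have e1 : 1 * ((δ : ℝ) * lam) ≤ (m + e) * (δ * lam) :=
      mul_le_mul_of_nonneg_right (by linarith) (mul_nonneg hδ0 (by linarith))
    linarith
  · -- hNl
    rw [← hlam]
    have e1 : 1 * (α + N * lam) ≤ m * (α + N * lam) :=
      mul_le_mul_of_nonneg_right hm1 (by linarith)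
    linarith
  · rcases le_total β 0 with hβ | hβ
    · have e1 : (m : ℝ) * (l * β) ≤ 0 :=
        mul_nonpos_of_nonneg_of_nonpos (by linarith) (mul_nonpos_of_nonneg_of_nonpos hl0 hβ)
      linarith
    · have e1 : (m : ℝ) * (40 * l * β) ≤ m * (L * β) :=
        mul_le_mul_of_nonneg_left (mul_le_mul_of_nonneg_right l1' hβ) (by linarith)
      have e2 : (m : ℝ) * (40 * l * β) = 40 * (m * (l * β)) := by ring
      rw [e2] at e1
      have e3 := e1.trans h3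
      have e5 : V ^ 3 / 10 ^ 7 = V ^ 3 * (1 / 10 ^ 7) := by ring
      rw [e5] at e3
      norm_num at e3
      linarith

end Pool.Agent.Work.MP_f1a024_nt.EX
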