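import Mathlib
import Pool.Agent.Work.MP_f1a024_nt.EX.Stmts2

/-!
Item NB2 of the block [f1a024 EX]: the norm of Siegel's lemma, general parameters.
-/

set_option autoImplicit false

namespace Pool.Agent.Work.MP_f1a024_nt.EX

open Real Finset

namespace I_NB2

/-- The inequality in logarithms. -/
theorem logs (x d l lx ld lU e h : ℝ) (hx : 900000000 ≤ x) (hl : 10 ≤ l) (hlx : lx ≤ l)
    (hld : ld ≤ 2 * l) (hlU : lU ≤ 2 * l) (hxd : 30000 * x ≤ d) (hh : h = d ^ 2 * l / x ^ 2)
    (hxl : x * l ≤ h) (he : e ≤ 1.001 * (d / x ^ 2)) (he0 : 0 ≤ e) :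
    lU + e * (lU + (x * ld + d * lx)) ≤ 2 * h := by
  have hx0 : 0 < x := by linarith
  have hd0 : 0 < d := by linarith
  have h0 : 0 ≤ h := le_trans (by positivity) hxl
  have h5 : lU + (x * ld + d * lx) ≤ 2 * l + (x * (2 * l) + d * l) := by
    have a1 : x * ld ≤ x * (2 * l) := by gcongr
    have a2 : d * lx ≤ d * l := by gcongr
    linarith
  have h6 : 2 * l + (x * (2 * l) + d * l) ≤ 1.001 * (d * l) := by
    have a1 : 30000 * x * l ≤ d * l := by gcongr
    have a2 : 900000000 * l ≤ x * l := by gcongr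
    nlinarith
  have h7 : e * (lU + (x * ld + d * lx)) ≤ 1.001 * (d / x ^ 2) * (1.001 * (d * l)) := by
    refine (mul_le_mul_of_nonneg_left (h5.trans h6) he0).trans ?_
    exact mul_le_mul_of_nonneg_right he (by positivity)
  have h8 : 1.001 * (d / x ^ 2) * (1.001 * (d * l)) = 1.001 * 1.001 * h := by
    rw [hh]
    ring
  have h9 : 900000000 * l ≤ x * l := by gcongr
  rw [h8] at h7
  linarith

end I_NB2

theorem NB2_pf : S_NB2 := by
  intro N l δ H
  obtain ⟨f1, f2, f3, f4, f5, f6⟩ := H.facts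
  have hN : (2 : ℝ) ≤ N := by exact_mod_cast H.hN
  have hlN : 40 * (l : ℝ) ≤ N := by exact_mod_cast H.hlN
  have hlog := H.hlog
  have hh : ht N l δ = (δ : ℝ) ^ 2 * Real.log N / (l : ℝ) ^ 2 := rfl
  generalize ht N l δ = h at *
  set x : ℝ := (l : ℝ) with hxd
  set d : ℝ := (δ : ℝ) with hdd
  set lN : ℝ := Real.log N with hld
  have hx0 : 0 < x := by linarith
  have hd0 : 0 < d := by linarith
  have hU : 0 < x * (x + 1) := by positivity
  have hlx : Real.log x ≤ lN := Real.log_le_log hx0 (by linarith)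
  have hx1 : x * (x + 1) ≤ (N : ℝ) ^ 2 := by
    have a1 : x ≤ N := by linarith
    have a2 : x + 1 ≤ N := by linarith
    calc x * (x + 1) ≤ N * N := by gcongr
      _ = (N : ℝ) ^ 2 := by ring
  have hlU : Real.log (x * (x + 1)) ≤ 2 * lN := by
    have := Real.log_le_log hU hx1
    rw [Real.log_pow] at this
    push_cast at this
    exact this
  have hld' : Real.log d ≤ 2 * lN := by
    have a1 : d ≤ x * (x + 1) := by nlinarith
    have := Real.log_le_log hd0 (a1.trans hx1)
    rw [Real.log_pow] at this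
    push_cast at this
    exact this
  have hD : 0 < x * (x + 1) - d := by nlinarith
  have he : d / (x * (x + 1) - d) ≤ 1.001 * (d / x ^ 2) := by
    rw [div_le_iff₀ hD]
    have a1 : x ^ 2 * (29999 / 30000) ≤ x * (x + 1) - d := by nlinarith
    have a2 : 1.001 * (d / x ^ 2) * (x ^ 2 * (29999 / 30000)) ≤
        1.001 * (d / x ^ 2) * (x * (x + 1) - d) := by gcongr
    refine le_trans ?_ a2
    have a3 : 1.001 * (d / x ^ 2) * (x ^ 2 * (29999 / 30000)) =
        d * (1.001 * (29999 / 30000)) := by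
      field_simp
    rw [a3]
    nlinarith
  have hB : 0 < x * (x + 1) * (d ^ l * x ^ δ) := by positivity
  have hlB : Real.log (x * (x + 1) * (d ^ l * x ^ δ)) =
      Real.log (x * (x + 1)) + (x * Real.log d + d * Real.log x) := by
    have c1 : Real.log (d ^ l * x ^ δ) = x * Real.log d + d * Real.log x := by
      rw [Real.log_mul (by positivity) (by positivity), Real.log_pow, Real.log_pow]
    rw [Real.log_mul hU.ne' (by positivity), c1]
  have hkey := I_NB2.logs x d lN (Real.log x) (Real.log d) (Real.log (x * (x + 1)))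
    (d / (x * (x + 1) - d)) h f6 hlog hlx hld' hlU f4 hh f1 he (by positivity)
  rw [← hlB] at hkey
  have h1 : x * (x + 1) * (x * (x + 1) * (d ^ l * x ^ δ)) ^ (d / (x * (x + 1) - d)) =
      Real.exp (Real.log (x * (x + 1)) + d / (x * (x + 1) - d) *
        Real.log (x * (x + 1) * (d ^ l * x ^ δ))) := by
    rw [Real.exp_add, Real.exp_log hU, Real.rpow_def_of_pos hB,
      mul_comm (d / (x * (x + 1) - d))]
  rw [h1]
  exact Real.exp_le_exp.mpr hkey

end Pool.Agent.Work.MP_f1a024_nt.EX
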