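import Pool.Agent.Work.MP_f1a024_nt.EX.Stmts2

/-!
Item NC2 of the block [f1a024 EX]: the upper bound in numbers, general parameters.
-/

set_option autoImplicit false

namespace Pool.Agent.Work.MP_f1a024_nt.EX

open Real Polynomial MeasureTheory Finset Filter Topology
open scoped Nat

namespace I_NC2

theorem pow_eq_exp (N K : ℕ) (hN : 0 < N) : (N : ℝ) ^ K = Real.exp (K * Real.log N) := by
  rw [Real.exp_nat_mul, Real.exp_log (by exact_mod_cast hN)]

theorem fact_le (k K N : ℕ) (hN : 0 < N) (hk : k ≤ K) (hK : K ≤ N) :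
    (k ! : ℝ) ≤ Real.exp (K * Real.log N) := by
  rw [← pow_eq_exp N K hN]
  have h1 : k ! ≤ N ^ K :=
    ((Nat.factorial_le hk).trans (Nat.factorial_le_pow K)).trans (Nat.pow_le_pow_left hK K)
  exact_mod_cast h1

theorem log8 : (2.07 : ℝ) ≤ Real.log 8 := by
  have h : Real.log 8 = 3 * Real.log 2 := by
    rw [show (8 : ℝ) = 2 ^ 3 by norm_num, Real.log_pow]
    norm_num
  rw [h]
  have := Real.log_two_gt_d9
  norm_num at this ⊢
  linarith

theorem ratio (l δ M : ℕ) (hl : 0 < l) (h8 : (8 : ℝ) ≤ (δ : ℝ) / l) (hM : M ≤ 2 * δ) :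
    ((M ! : ℕ) : ℝ) / ((16 * l : ℕ) : ℝ) ^ M ≤ ((δ : ℝ) / l / 8) ^ (2 * δ) := by
  have hl0 : (0 : ℝ) < l := by exact_mod_cast hl
  have h1 : ((M ! : ℕ) : ℝ) ≤ ((2 : ℝ) * δ) ^ M := by
    have h2 : M ! ≤ (2 * δ) ^ M :=
      (Nat.factorial_le_pow M).trans (Nat.pow_le_pow_left hM M)
    exact_mod_cast h2
  have h3 : ((2 : ℝ) * δ) ^ M / ((16 * l : ℕ) : ℝ) ^ M = ((δ : ℝ) / l / 8) ^ M := by
    rw [← div_pow]
    congr 1
    push_cast
    field_simp
    ring
  have h88 : (1 : ℝ) ≤ (δ : ℝ) / l / 8 := by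
    rw [le_div_iff₀ (by norm_num)]
    linarith
  calc ((M ! : ℕ) : ℝ) / ((16 * l : ℕ) : ℝ) ^ M
      ≤ ((2 : ℝ) * δ) ^ M / ((16 * l : ℕ) : ℝ) ^ M := by
        gcongr
    _ = ((δ : ℝ) / l / 8) ^ M := h3
    _ ≤ ((δ : ℝ) / l / 8) ^ (2 * δ) := pow_le_pow_right₀ h88 hM

end I_NC2

theorem NC2_pf : S_NC2 := by
  intro N l δ n B H hn hnu hB0 hB
  obtain ⟨hh1, hh2, hh3, hh4, hh5, hh6⟩ := H.facts
  have hN := H.hN
  have hl1 := H.h1
  have hlN := H.hlN
  have hNl := H.hNl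
  have hN0 : 0 < N := by omega
  set h : ℝ := ht N l δ with hhdef
  set lam : ℝ := Real.log N with hlam
  have hl0 : (0 : ℝ) < l := by exact_mod_cast hl1
  have hδ0 : (0 : ℝ) < δ := by linarith
  have hh0 : 0 < h := by linarith
  set τ : ℝ := (δ : ℝ) / l with hτ
  have hτ8 : (8 : ℝ) ≤ τ := by
    rw [hτ, le_div_iff₀ hl0]
    linarith
  have hτ0 : 0 < τ := by linarith
  have hτN : 1 + τ ≤ (N : ℝ) := by
    have h1 : τ ≤ l / 30000 := by
      rw [hτ, div_le_div_iff₀ hl0 (by norm_num)]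
      nlinarith
    have h2 : (40 : ℝ) * l ≤ N := by exact_mod_cast hlN
    linarith
  have hlτ : (l : ℝ) * τ = δ := by
    rw [hτ]
    field_simp
  -- the factorials
  have E1 : (n ! : ℝ) ≤ Real.exp (N * lam) := I_NC2.fact_le n N N hN0 hn le_rfl
  have E2 : ((2 * l + 2 * (16 * l) + 1)! : ℝ) ≤ Real.exp (35 * h) := by
    have h1 := I_NC2.fact_le (2 * l + 2 * (16 * l) + 1) (35 * l) N hN0 (by omega)
      (by omega)
    refine h1.trans (Real.exp_le_exp.2 ?_)
    push_cast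
    have : (l : ℝ) * lam ≤ h := hh1
    linarith
  have a1 : B ^ 2 ≤ Real.exp (4 * h) := by
    have h1 : B ^ 2 ≤ Real.exp (2 * h) ^ 2 := pow_le_pow_left₀ hB0 hB 2
    have h2 : Real.exp (2 * h) ^ 2 = Real.exp (4 * h) := by
      rw [← Real.exp_nat_mul]
      congr 1
      push_cast
      ring
    rw [← h2]
    exact h1
  have a2 : (1 + τ) ^ (2 * l) ≤ Real.exp (2 * h) := by
    have h3 : (N : ℝ) ^ (2 * l) = Real.exp (((2 * l : ℕ) : ℝ) * lam) :=
      I_NC2.pow_eq_exp N (2 * l) hN0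
    calc (1 + τ) ^ (2 * l) ≤ (N : ℝ) ^ (2 * l) := pow_le_pow_left₀ (by positivity) hτN _
      _ = Real.exp (((2 * l : ℕ) : ℝ) * lam) := h3
      _ ≤ Real.exp (2 * h) := by
        apply Real.exp_le_exp.2
        push_cast
        have : (l : ℝ) * lam ≤ h := hh1
        linarith
  have a3 := I_NC2.ratio l δ (2 * δ - n - 1) (by omega) hτ8 (by omega)
  have a4 : ((1 : ℝ) / 8) ^ (2 * δ) = Real.exp (-(2 * (δ : ℝ) * Real.log 8)) := by
    rw [one_div, inv_pow, Real.exp_neg]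
    congr 1
    have := I_NC2.pow_eq_exp 8 (2 * δ) (by norm_num)
    push_cast at this
    exact this
  have T1 : B ^ 2 * (1 + τ) ^ (2 * l) * Real.exp (2 * l * τ) / τ ^ (2 * δ) *
      (((2 * δ - n - 1)! : ℝ) / ((16 * l : ℕ) : ℝ) ^ (2 * δ - n - 1)) ≤
      Real.exp (-(N * lam) - 35 * h - δ) := by
    have e2 : 2 * (l : ℝ) * τ = 2 * δ := by rw [mul_assoc, hlτ]
    rw [e2]
    calc B ^ 2 * (1 + τ) ^ (2 * l) * Real.exp (2 * δ) / τ ^ (2 * δ) *
          (((2 * δ - n - 1)! : ℝ) / ((16 * l : ℕ) : ℝ) ^ (2 * δ - n - 1))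
        ≤ Real.exp (4 * h) * Real.exp (2 * h) * Real.exp (2 * δ) / τ ^ (2 * δ) *
          (τ / 8) ^ (2 * δ) := by
          gcongr
      _ = Real.exp (4 * h) * Real.exp (2 * h) * Real.exp (2 * δ) * ((1 : ℝ) / 8) ^ (2 * δ) := by
          have h : (τ / 8) ^ (2 * δ) = τ ^ (2 * δ) * ((1 : ℝ) / 8) ^ (2 * δ) := by
            rw [← mul_pow]
            congr 1
            ring
          rw [h]
          have h0 : τ ^ (2 * δ) ≠ 0 := by positivity
          field_simp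
      _ = Real.exp (4 * h + 2 * h + 2 * δ + -(2 * (δ : ℝ) * Real.log 8)) := by
          rw [a4, ← Real.exp_add, ← Real.exp_add, ← Real.exp_add]
      _ ≤ _ := by
          apply Real.exp_le_exp.2
          have h8 : (δ : ℝ) * 2.07 ≤ (δ : ℝ) * Real.log 8 :=
            mul_le_mul_of_nonneg_left I_NC2.log8 hδ0.le
          norm_num at h8
          linarith
  have T2 : B ^ 2 * 4 ^ l * Real.exp (-(((16 * l : ℕ) : ℝ) * τ)) ≤
      Real.exp (-(N * lam) - 35 * h - δ) := by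
    have h4 : (4 : ℝ) ^ l ≤ Real.exp (2 * (l : ℝ)) := by
      have h1 : (4 : ℝ) ≤ Real.exp 2 := by
        have h2 : Real.exp 2 = Real.exp 1 * Real.exp 1 := by
          rw [← Real.exp_add]
          norm_num
        rw [h2]
        have := Real.exp_one_gt_d9
        nlinarith
      have h3 : Real.exp (2 * (l : ℝ)) = Real.exp 2 ^ l := by
        rw [← Real.exp_nat_mul]
        congr 1
        ring
      rw [h3]
      exact pow_le_pow_left₀ (by norm_num) h1 _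
    have e16 : ((16 * l : ℕ) : ℝ) * τ = 16 * δ := by
      push_cast
      rw [mul_assoc, hlτ]
    rw [e16]
    calc B ^ 2 * 4 ^ l * Real.exp (-(16 * (δ : ℝ)))
        ≤ Real.exp (4 * h) * Real.exp (2 * (l : ℝ)) * Real.exp (-(16 * (δ : ℝ))) := by
          gcongr
      _ = Real.exp (4 * h + 2 * (l : ℝ) + -(16 * (δ : ℝ))) := by
          rw [← Real.exp_add, ← Real.exp_add]
      _ ≤ _ := by
          apply Real.exp_le_exp.2
          linarith
  calc (n ! : ℝ) * (((2 * l + 2 * (16 * l) + 1)! : ℝ) *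
      max (B ^ 2 * (1 + τ) ^ (2 * l) * Real.exp (2 * l * τ) / τ ^ (2 * δ) *
          (((2 * δ - n - 1)! : ℝ) / ((16 * l : ℕ) : ℝ) ^ (2 * δ - n - 1)))
        (B ^ 2 * 4 ^ l * Real.exp (-(((16 * l : ℕ) : ℝ) * τ))))
      ≤ Real.exp (N * lam) * (Real.exp (35 * h) *
        Real.exp (-(N * lam) - 35 * h - δ)) := by
        have hm := max_le T1 T2
        gcongr
    _ = Real.exp (-(δ : ℝ)) := by
        rw [← Real.exp_add, ← Real.exp_add]
        congr 1
        ring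

end Pool.Agent.Work.MP_f1a024_nt.EX
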