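import Mathlib
import Pool.Agent.Work.MP_f1a024_nt.EX.Stmts2

set_option autoImplicit false

/-!
NG2: choice of `K1 = ⌈δ/(56 h)⌉₊`, `h = ht N l δ`.
-/

namespace Pool.Agent.Work.MP_f1a024_nt.EX

open Real Polynomial MeasureTheory Finset Filter Topology
open scoped Nat

theorem NG2_pf : S_NG2 := by
  intro N l δ H
  obtain ⟨-, f2, f3, f4, -, f6⟩ := H.facts
  have hlog := H.hlog
  have hl0 : (0 : ℝ) < l := by linarith
  have hδ0 : (0 : ℝ) < δ := by linarith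
  have key : (δ : ℝ) ≤ 16 * l * (56 * ht N l δ) := by
    have e1 : ht N l δ * (l : ℝ) ^ 2 = (δ : ℝ) ^ 2 * Real.log N := by
      unfold ht
      field_simp
    have e2 : (30000 : ℝ) * l * δ * 10 ≤ (δ : ℝ) ^ 2 * Real.log N := by
      have : (30000 : ℝ) * l * δ ≤ (δ : ℝ) ^ 2 := by nlinarith
      calc (30000 : ℝ) * l * δ * 10 ≤ (δ : ℝ) ^ 2 * 10 := by linarith
        _ ≤ _ := by
          apply mul_le_mul_of_nonneg_left hlog
          positivity
    have e3 : (δ : ℝ) * l ≤ 16 * l * (56 * ht N l δ) * l := by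
      have : 16 * (l : ℝ) * (56 * ht N l δ) * l = 896 * (ht N l δ * (l : ℝ) ^ 2) := by ring
      rw [this, e1]
      have h0 : 0 < (δ : ℝ) * l := by positivity
      linarith
    exact le_of_mul_le_mul_right e3 hl0
  obtain ⟨h, hh⟩ : ∃ h : ℝ, h = ht N l δ := ⟨_, rfl⟩
  rw [← hh] at f2 f3 key ⊢
  have h0 : 0 < h := by linarith
  refine ⟨⌈(δ : ℝ) / (56 * h)⌉₊, ?_, ?_, ?_⟩
  · rw [Nat.ceil_le]
    push_cast
    rw [div_le_iff₀ (by positivity)]
    exact key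
  · have h1 : (δ : ℝ) / (56 * h) ≤ (⌈(δ : ℝ) / (56 * h)⌉₊ : ℝ) := Nat.le_ceil _
    calc 5 / 4 * (δ : ℝ) = (δ : ℝ) / (56 * h) * (70 * h) := by
          field_simp
          ring
      _ ≤ _ := mul_le_mul_of_nonneg_right h1 (by positivity)
  · have h1 : (⌈(δ : ℝ) / (56 * h)⌉₊ : ℝ) < (δ : ℝ) / (56 * h) + 1 :=
      Nat.ceil_lt_add_one (by positivity)
    have h3 : 7 * ((⌈(δ : ℝ) / (56 * h)⌉₊ : ℝ) + 4) * h ≤
        7 * ((δ : ℝ) / (56 * h) + 1 + 4) * h := by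
      apply mul_le_mul_of_nonneg_right _ h0.le
      linarith
    have h4 : 7 * ((δ : ℝ) / (56 * h) + 1 + 4) * h = (δ : ℝ) / 8 + 35 * h := by
      field_simp
      ring
    linarith

end Pool.Agent.Work.MP_f1a024_nt.EX
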