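import Pool.Agent.Work.MP_f1a024_nt.EX.Stmts2

/-!
Item NH2 of the block [f1a024 EX]: the last choice of the parameters.
-/

set_option autoImplicit false

namespace Pool.Agent.Work.MP_f1a024_nt.EX

open Real Polynomial MeasureTheory Finset Filter Topology
open scoped Nat

namespace I_NH2

theorem ceil_le (x h : ℝ) (hx : 1 ≤ x) (hh : 1 ≤ h) :
    ((⌈x * Real.exp (116 * h)⌉₊ : ℕ) : ℝ) ≤ x * Real.exp (117 * h) := by
  have e0 : 1 ≤ Real.exp (116 * h) := Real.one_le_exp (by linarith)
  have e1 : Real.exp (117 * h) = Real.exp (116 * h) * Real.exp h := by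
    rw [← Real.exp_add]
    congr 1
    ring
  have e2 : 2 ≤ Real.exp h := by
    have := Real.add_one_le_exp h
    linarith
  have e3 : 1 ≤ x * Real.exp (116 * h) := by nlinarith
  have e4 : ((⌈x * Real.exp (116 * h)⌉₊ : ℕ) : ℝ) < x * Real.exp (116 * h) + 1 :=
    Nat.ceil_lt_add_one (by linarith)
  rw [e1]
  have e5 : x * Real.exp (116 * h) * 2 ≤ x * Real.exp (116 * h) * Real.exp h :=
    mul_le_mul_of_nonneg_left e2 (by linarith)
  calc ((⌈x * Real.exp (116 * h)⌉₊ : ℕ) : ℝ) ≤ x * Real.exp (116 * h) + 1 := e4.le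
    _ ≤ x * Real.exp (116 * h) * 2 := by linarith
    _ ≤ x * Real.exp (116 * h) * Real.exp h := e5
    _ = x * (Real.exp (116 * h) * Real.exp h) := by ring

end I_NH2

theorem NH2_pf : S_NH2 := by
  intro N l δ m e M α β H hm hα hβ hA hB hC hM1 hM
  obtain ⟨f1, f2, f3, f4, f5, f6⟩ := H.facts
  have hN := H.hN
  have hlN := H.hlN
  have hlog := H.hlog
  set L : ℝ := Real.log N with hL
  have k0 : ht N l δ = (δ : ℝ) ^ 2 * L / (l : ℝ) ^ 2 := rfl
  set h : ℝ := ht N l δ with hh
  have hmR : (1 : ℝ) ≤ m := by exact_mod_cast hm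
  have heR : (0 : ℝ) ≤ e := Nat.cast_nonneg e
  have hl0 : (0 : ℝ) < l := by linarith
  have hδ0 : (0 : ℝ) < δ := by linarith
  have hh1 : 1 ≤ h := by linarith
  have hL0 : 0 < L := by linarith
  have hNR : (40 : ℝ) * l ≤ N := by exact_mod_cast hlN
  have hN0 : (0 : ℝ) < N := by linarith
  have hMR : (1 : ℝ) ≤ M := by exact_mod_cast hM1
  have k1 : (m : ℝ) * h + e * h ≤ δ / 3000 := by
    rw [← add_mul, k0, mul_div_assoc', div_le_iff₀ (by positivity)]
    have h1 := mul_le_mul_of_nonneg_left hB hδ0.le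
    have h2 : ((m : ℝ) + e) * ((δ : ℝ) ^ 2 * L) = δ * ((m + e) * (δ * L)) := by ring
    rw [h2]
    linarith
  have hNN : Real.exp (2 * L) = (N : ℝ) * N := by
    rw [two_mul, Real.exp_add, Real.exp_log hN0]
  have k2 : (m : ℝ) ≤ Real.exp (2 * L) := by
    have h1 : (m : ℝ) ≤ (l : ℝ) ^ 2 := by
      have h3 : (1 : ℝ) ≤ 3000 * (δ * L) := by nlinarith
      have h4 : (m : ℝ) * 1 ≤ m * (3000 * (δ * L)) :=
        mul_le_mul_of_nonneg_left h3 (by linarith)
      have h5 : 0 ≤ (e : ℝ) * (3000 * (δ * L)) := by positivity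
      have h6 : 3000 * (((m : ℝ) + e) * (δ * L)) =
        m * (3000 * (δ * L)) + e * (3000 * (δ * L)) := by ring
      linarith
    have h2 : (l : ℝ) ^ 2 ≤ (N : ℝ) * N := by
      have : (l : ℝ) ≤ N := by linarith
      nlinarith
    rw [hNN]
    exact h1.trans h2
  have k3 : (M : ℝ) ≤ Real.exp (N + 36 * h + 18 * (l * β)) := by
    have e1 : (2 : ℝ) ^ N ≤ Real.exp N := by
      have h1 : (2 : ℝ) ≤ Real.exp 1 := by
        have := Real.add_one_le_exp (1 : ℝ)
        linarith
      have h2 : Real.exp (N : ℝ) = Real.exp 1 ^ N := by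
        rw [← Real.exp_nat_mul, mul_one]
      rw [h2]
      exact pow_le_pow_left₀ (by norm_num) h1 _
    have e2 : 2 * (N : ℝ) * Real.exp β ≤ Real.exp (2 * L + β) := by
      rw [Real.exp_add, hNN]
      have h2 : (2 : ℝ) ≤ N := by exact_mod_cast hN
      gcongr
    have e3 : (2 * (N : ℝ) * Real.exp β) ^ (18 * l) ≤ Real.exp (18 * l * (2 * L + β)) := by
      have h2 : Real.exp (18 * (l : ℝ) * (2 * L + β)) = Real.exp (2 * L + β) ^ (18 * l) := by
        rw [← Real.exp_nat_mul]
        congr 1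
        push_cast
        ring
      rw [h2]
      exact pow_le_pow_left₀ (by positivity) e2 _
    calc (M : ℝ) ≤ 2 ^ N * (2 * N * Real.exp β) ^ (18 * l) := hM
      _ ≤ Real.exp N * Real.exp (18 * l * (2 * L + β)) := by gcongr
      _ = Real.exp (N + 18 * l * (2 * L + β)) := by rw [← Real.exp_add]
      _ ≤ _ := by
          apply Real.exp_le_exp.2
          have : 18 * (l : ℝ) * (2 * L + β) = 36 * (l * L) + 18 * (l * β) := by ring
          rw [this]
          linarith
  set X : ℝ := m * (M * Real.exp α) with hX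
  have hα1 : 1 ≤ Real.exp α := Real.one_le_exp hα
  have hX1 : 1 ≤ X := by
    rw [hX]
    have h1 : 1 ≤ (M : ℝ) * Real.exp α := one_le_mul_of_one_le_of_one_le hMR hα1
    exact one_le_mul_of_one_le_of_one_le hmR h1
  have hXle : X ≤ Real.exp (2 * L + (N + 36 * h + 18 * (l * β)) + α) := by
    rw [Real.exp_add, Real.exp_add, hX, mul_assoc]
    gcongr
  have e116 : 1 ≤ Real.exp (116 * h) := Real.one_le_exp (by linarith)
  have q1 := I_NH2.ceil_le X h hX1 hh1
  have q2 := I_NH2.ceil_le 1 h le_rfl hh1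
  have c1 : X * Real.exp (116 * h) ≤ ((⌈X * Real.exp (116 * h)⌉₊ : ℕ) : ℝ) := Nat.le_ceil _
  have c2 : 1 * Real.exp (116 * h) ≤ ((⌈1 * Real.exp (116 * h)⌉₊ : ℕ) : ℝ) := Nat.le_ceil _
  have c3 : Real.exp ((δ : ℝ) / 4) ≤ ((⌈Real.exp ((δ : ℝ) / 4)⌉₊ : ℕ) : ℝ) := Nat.le_ceil _
  have c0 : 1 ≤ X * Real.exp (116 * h) := one_le_mul_of_one_le_of_one_le hX1 e116
  have q3 : ((⌈Real.exp ((δ : ℝ) / 4)⌉₊ : ℕ) : ℝ) ≤ Real.exp (δ / 4 + 1) := by
    have h1 : 1 ≤ Real.exp ((δ : ℝ) / 4) := Real.one_le_exp (by positivity)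
    have h2 : ((⌈Real.exp ((δ : ℝ) / 4)⌉₊ : ℕ) : ℝ) < Real.exp ((δ : ℝ) / 4) + 1 :=
      Nat.ceil_lt_add_one (by linarith)
    have h3 : (2 : ℝ) ≤ Real.exp 1 := by
      have := Real.add_one_le_exp (1 : ℝ)
      linarith
    rw [Real.exp_add]
    nlinarith
  set Q1 : ℕ := ⌈X * Real.exp (116 * h)⌉₊ with hQ1
  set Q2 : ℕ := ⌈1 * Real.exp (116 * h)⌉₊ with hQ2
  set R : ℕ := ⌈Real.exp ((δ : ℝ) / 4)⌉₊ with hR
  have Q1pos : (1 : ℝ) ≤ Q1 := c0.trans c1
  have Q2pos : (1 : ℝ) ≤ Q2 := by
    rw [one_mul] at c2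
    exact e116.trans c2
  have Rpos : (1 : ℝ) ≤ R := (Real.one_le_exp (by positivity)).trans c3
  refine ⟨Q1, Q2, R, by exact_mod_cast Q1pos, by exact_mod_cast Q2pos, by exact_mod_cast Rpos,
    c3, ?_, ?_⟩
  · have r1 : (Q1 : ℝ) ^ m ≤
        Real.exp (m * (2 * L + (N + 36 * h + 18 * (l * β)) + α + 117 * h)) := by
      rw [Real.exp_nat_mul]
      refine pow_le_pow_left₀ (by positivity) (q1.trans ?_) _
      rw [Real.exp_add _ (117 * h)]
      gcongr
    have r2 : (Q2 : ℝ) ^ e ≤ Real.exp (e * (117 * h)) := by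
      rw [Real.exp_nat_mul]
      refine pow_le_pow_left₀ (by positivity) (q2.trans ?_) _
      rw [one_mul]
    calc (Q1 : ℝ) ^ m * (Q2 : ℝ) ^ e * R * M
        ≤ Real.exp (m * (2 * L + (N + 36 * h + 18 * (l * β)) + α + 117 * h)) *
          Real.exp (e * (117 * h)) * Real.exp (δ / 4 + 1) *
          Real.exp (N + 36 * h + 18 * (l * β)) := by gcongr
      _ = Real.exp (m * (2 * L + (N + 36 * h + 18 * (l * β)) + α + 117 * h) +
          e * (117 * h) + (δ / 4 + 1) + (N + 36 * h + 18 * (l * β))) := by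
          rw [← Real.exp_add, ← Real.exp_add, ← Real.exp_add]
      _ ≤ Real.exp (7 / 8 * (δ : ℝ)) := by
          apply Real.exp_le_exp.2
          have s1 : (N : ℝ) + 36 * h + 18 * (l * β) ≤ m * (N + 36 * h + 18 * (l * β)) := by
            have : 0 ≤ (N : ℝ) + 36 * h + 18 * (l * β) := by positivity
            nlinarith
          have s2 : (m : ℝ) * (2 * L + 2 * N) ≤ m * (N * L) := by
            refine mul_le_mul_of_nonneg_left ?_ (by linarith)
            have t1 : (N : ℝ) * 10 ≤ N * L := mul_le_mul_of_nonneg_left hlog hN0.le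
            have t2 : 4 * L ≤ N * L := mul_le_mul_of_nonneg_right (by linarith) hL0.le
            linarith
          have s3 : (m : ℝ) * (2 * L + (N + 36 * h + 18 * (l * β)) + α + 117 * h) +
              m * (N + 36 * h + 18 * (l * β)) =
              m * (2 * L + 2 * N) + m * α + 189 * (m * h) + 36 * (m * (l * β)) := by ring
          have s4 : (m : ℝ) * (α + N * L) = m * α + m * (N * L) := by ring
          have s5 : 0 ≤ (e : ℝ) * h := by positivity
          rw [s4] at hA
          linarith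
  · have hQ1' : X / Q1 ≤ Real.exp (-(116 * h)) := by
      rw [div_le_iff₀ (by linarith)]
      have h1 := mul_le_mul_of_nonneg_left c1 (Real.exp_pos (-(116 * h))).le
      have h2 : Real.exp (-(116 * h)) * (X * Real.exp (116 * h)) = X := by
        have : Real.exp (-(116 * h)) * Real.exp (116 * h) = 1 := by
          rw [← Real.exp_add]
          simp
        calc Real.exp (-(116 * h)) * (X * Real.exp (116 * h))
            = X * (Real.exp (-(116 * h)) * Real.exp (116 * h)) := by ring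
          _ = X := by rw [this, mul_one]
      linarith
    have hQ2' : 1 / (Q2 : ℝ) ≤ Real.exp (-(116 * h)) := by
      rw [Real.exp_neg, ← one_div]
      apply one_div_le_one_div_of_le (Real.exp_pos _)
      rwa [one_mul] at c2
    have hd : (144 : ℝ) * l < Real.exp (2 * h) := by
      have t1 : Real.exp (2 * h) = Real.exp h * Real.exp h := by
        rw [← Real.exp_add]
        congr 1
        ring
      have t2 := Real.add_one_le_exp h
      rw [t1]
      nlinarith
    have e5 : Real.exp (-(71 * h)) = Real.exp (43 * h) * Real.exp (-(116 * h)) * Real.exp (2 * h) := by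
      rw [← Real.exp_add, ← Real.exp_add]
      congr 1
      ring
    have e6 : 0 < Real.exp (43 * h) * Real.exp (-(116 * h)) := by positivity
    rw [e5]
    push_cast
    calc 18 * (l : ℝ) * (Real.exp (43 * h) * (X / Q1 + 1 / Q2))
        ≤ 18 * l * (Real.exp (43 * h) * (Real.exp (-(116 * h)) + Real.exp (-(116 * h)))) := by
          gcongr
      _ = (Real.exp (43 * h) * Real.exp (-(116 * h))) * (36 * l) := by ring
      _ < (Real.exp (43 * h) * Real.exp (-(116 * h))) * (Real.exp (2 * h) / 4) := by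
          apply mul_lt_mul_of_pos_left _ e6
          linarith
      _ = Real.exp (43 * h) * Real.exp (-(116 * h)) * Real.exp (2 * h) / 4 := by ring

end Pool.Agent.Work.MP_f1a024_nt.EX
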