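import Pool.Agent.Work.MP_f1a024_nt.EX.Stmts

set_option autoImplicit false

/-!
Item PHB of the block EX: a Schwarz type bound for `F(e^z, z) = O(z^δ)`, coefficient by
coefficient.
-/

namespace Pool.Agent.Work.MP_f1a024_nt.EX

open Real Polynomial MeasureTheory Finset Filter Topology
open scoped Nat

namespace I_PHB

/-- The coefficient of `z^k` in `z^s e^(iz)`. -/
noncomputable def cf (i s k : ℕ) : ℝ :=
  (k.descFactorial s : ℝ) * (i : ℝ) ^ (k - s) / (k ! : ℝ)

theorem cf_nonneg (i s k : ℕ) : 0 ≤ cf i s k := by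
  unfold cf
  positivity

theorem hcg {f g : ℕ → ℝ} {a : ℝ} (h : HasSum f a) (hfg : ∀ k, f k = g k) : HasSum g a := by
  rwa [show g = f from (funext hfg).symm]

theorem cf_shift (i s m : ℕ) : cf i s (m + s) = (i : ℝ) ^ m / (m ! : ℝ) := by
  have h5 : m ! * (m + s).descFactorial s = (m + s)! := by
    have h := Nat.factorial_mul_descFactorial (Nat.le_add_left s m)
    rwa [Nat.add_sub_cancel] at h
  have h4 : (((m + s)! : ℕ) : ℝ) = (m ! : ℝ) * ((m + s).descFactorial s : ℝ) := by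
    rw [← Nat.cast_mul, h5]
  have h6 : ((m + s).descFactorial s : ℝ) ≠ 0 := by
    have h7 : (m + s).descFactorial s ≠ 0 := by
      intro h8
      rw [Nat.descFactorial_eq_zero_iff_lt] at h8
      omega
    exact_mod_cast h7
  have h9 : (m ! : ℝ) ≠ 0 := by positivity
  unfold cf
  rw [h4, Nat.add_sub_cancel, mul_comm (m ! : ℝ), mul_div_mul_left _ _ h6]

theorem cf_hasSum (i s : ℕ) (z : ℝ) :
    HasSum (fun k => cf i s k * z ^ k) (z ^ s * Real.exp (i * z)) := by
  have h0 : ∑ k ∈ range s, cf i s k * z ^ k = 0 := by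
    refine Finset.sum_eq_zero fun k hk => ?_
    have h : k.descFactorial s = 0 :=
      Nat.descFactorial_eq_zero_iff_lt.mpr (Finset.mem_range.mp hk)
    simp [cf, h]
  have h2 : HasSum (fun m : ℕ => ((i : ℝ) * z) ^ m / (m ! : ℝ)) (Real.exp (i * z)) := by
    rw [Real.exp_eq_exp_ℝ]
    exact NormedSpace.expSeries_div_hasSum_exp _
  have h1 : HasSum (fun m => cf i s (m + s) * z ^ (m + s)) (z ^ s * Real.exp (i * z)) := by
    refine hcg (h2.mul_left (z ^ s)) fun m => ?_
    rw [cf_shift, mul_pow, pow_add]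
    ring
  have h3 := (hasSum_nat_add_iff (f := fun k => cf i s k * z ^ k) s).mp h1
  rw [h0, add_zero] at h3
  exact h3

theorem eval_box (ρ a : ℕ) (F : ℤ[X][X]) (hF : Box ρ a F) (z : ℝ) :
    ph F z = ∑ i ∈ range (ρ + 1), ∑ s ∈ range a,
      (((F.coeff s).coeff i : ℤ) : ℝ) * (z ^ s * Real.exp (i * z)) := by
  unfold ph
  have hd : F.natDegree ≤ a := by
    rw [Polynomial.natDegree_le_iff_coeff_eq_zero]
    intro N hN
    ext i
    rw [hF N i (Or.inl hN.le)]
    simp
  have hc : ∀ s, (F.coeff s).natDegree ≤ ρ := by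
    intro s
    rw [Polynomial.natDegree_le_iff_coeff_eq_zero]
    intro N hN
    exact hF s N (Or.inr hN)
  have ha : F.coeff a = 0 := by
    ext i
    rw [hF a i (Or.inl le_rfl)]
    simp
  rw [Polynomial.eval₂_eq_sum_range' _ (Nat.lt_succ_of_le hd), Finset.sum_range_succ, ha,
    map_zero, zero_mul, add_zero, Finset.sum_comm]
  refine Finset.sum_congr rfl fun s _ => ?_
  rw [Polynomial.coe_eval₂RingHom,
    Polynomial.eval₂_eq_sum_range' _ (Nat.lt_succ_of_le (hc s)), Finset.sum_mul]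
  refine Finset.sum_congr rfl fun i _ => ?_
  rw [← Real.exp_nat_mul, eq_intCast]
  ring

/-- The coefficients of the power series, as real numbers. -/
noncomputable def pk (ρ a : ℕ) (F : ℤ[X][X]) (k : ℕ) : ℝ :=
  ∑ i ∈ range (ρ + 1), ∑ s ∈ range a, (((F.coeff s).coeff i : ℤ) : ℝ) * cf i s k

theorem pk_zero (h1 : S_PSC) (ρ a δ : ℕ) (F : ℤ[X][X]) (hF : Box ρ a F)
    (hd : (PowerSeries.X : PowerSeries ℚ) ^ δ ∣ ps F) (k : ℕ) (hk : k < δ) : pk ρ a F k = 0 := by
  have h2 := h1 ρ a F hF k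
  rw [PowerSeries.X_pow_dvd_iff.mp hd k hk, mul_zero] at h2
  have h3 : ((∑ i ∈ range (ρ + 1), ∑ s ∈ range a,
      (k.descFactorial s : ℚ) * (i : ℚ) ^ (k - s) * ((F.coeff s).coeff i : ℚ) : ℚ) : ℝ) = 0 := by
    rw [← h2]
    simp
  have h4 : pk ρ a F k * (k ! : ℝ) = 0 := by
    rw [← h3, pk, Finset.sum_mul]
    push_cast
    refine Finset.sum_congr rfl fun i _ => ?_
    rw [Finset.sum_mul]
    refine Finset.sum_congr rfl fun s _ => ?_
    have h9 : (k ! : ℝ) ≠ 0 := by positivity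
    unfold cf
    field_simp
  have h9 : (k ! : ℝ) ≠ 0 := by positivity
  exact (mul_eq_zero.mp h4).resolve_right h9

end I_PHB

open I_PHB in
theorem PHB_pf (h1 : S_PSC) : S_PHB := by
  intro ρ a δ F hF hd T z hT
  have hT0 : (0 : ℝ) < T := by linarith
  have hsum : HasSum (fun k => pk ρ a F k * z ^ k) (ph F z) := by
    rw [eval_box ρ a F hF z]
    have h2 : ∀ i ∈ range (ρ + 1), HasSum (fun k => ∑ s ∈ range a,
        ((((F.coeff s).coeff i : ℤ) : ℝ) * (cf i s k * z ^ k)))
        (∑ s ∈ range a, (((F.coeff s).coeff i : ℤ) : ℝ) * (z ^ s * Real.exp (i * z))) := by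
      intro i _
      exact hasSum_sum fun s _ => (cf_hasSum i s z).mul_left _
    have h3 := hasSum_sum h2
    refine hcg h3 fun k => ?_
    rw [pk, Finset.sum_mul]
    refine Finset.sum_congr rfl fun i _ => ?_
    rw [Finset.sum_mul]
    refine Finset.sum_congr rfl fun s _ => ?_
    ring
  set x : ℝ := T * |z| with hx
  have hx0 : 0 ≤ x := by positivity
  have hsum2 : HasSum (fun k => (∑ i ∈ range (ρ + 1), ∑ s ∈ range a,
      |(((F.coeff s).coeff i : ℤ) : ℝ)| * (cf i s k * x ^ k)) / T ^ δ)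
      ((∑ i ∈ range (ρ + 1), ∑ s ∈ range a,
        |(((F.coeff s).coeff i : ℤ) : ℝ)| * (x ^ s * Real.exp (i * x))) / T ^ δ) := by
    refine HasSum.div_const ?_ _
    exact hasSum_sum fun i _ => hasSum_sum fun s _ => (cf_hasSum i s x).mul_left _
  have hb : ∀ k, ‖pk ρ a F k * z ^ k‖ ≤ (∑ i ∈ range (ρ + 1), ∑ s ∈ range a,
      |(((F.coeff s).coeff i : ℤ) : ℝ)| * (cf i s k * x ^ k)) / T ^ δ := by
    intro k
    rcases lt_or_ge k δ with hk | hk
    · rw [pk_zero h1 ρ a δ F hF hd k hk, zero_mul, norm_zero]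
      refine div_nonneg (Finset.sum_nonneg fun i _ => Finset.sum_nonneg fun s _ => ?_)
        (by positivity)
      have := cf_nonneg i s k
      positivity
    · rw [le_div_iff₀ (by positivity), Real.norm_eq_abs, abs_mul, abs_pow]
      have h2 : |pk ρ a F k| ≤ ∑ i ∈ range (ρ + 1), ∑ s ∈ range a,
          |(((F.coeff s).coeff i : ℤ) : ℝ)| * cf i s k := by
        refine (Finset.abs_sum_le_sum_abs _ _).trans (Finset.sum_le_sum fun i _ => ?_)
        refine (Finset.abs_sum_le_sum_abs _ _).trans (Finset.sum_le_sum fun s _ => ?_)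
        rw [abs_mul, abs_of_nonneg (cf_nonneg i s k)]
      have h3 : |z| ^ k * T ^ δ ≤ x ^ k := by
        rw [hx, mul_pow, mul_comm (T ^ k)]
        exact mul_le_mul_of_nonneg_left (pow_le_pow_right₀ hT hk) (by positivity)
      have h4 : 0 ≤ ∑ i ∈ range (ρ + 1), ∑ s ∈ range a,
          |(((F.coeff s).coeff i : ℤ) : ℝ)| * cf i s k :=
        Finset.sum_nonneg fun i _ => Finset.sum_nonneg fun s _ =>
          mul_nonneg (abs_nonneg _) (cf_nonneg i s k)
      calc |pk ρ a F k| * |z| ^ k * T ^ δ = |pk ρ a F k| * (|z| ^ k * T ^ δ) := by ring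
        _ ≤ (∑ i ∈ range (ρ + 1), ∑ s ∈ range a,
          |(((F.coeff s).coeff i : ℤ) : ℝ)| * cf i s k) * x ^ k :=
            mul_le_mul h2 h3 (by positivity) h4
        _ = _ := by
            rw [Finset.sum_mul]
            refine Finset.sum_congr rfl fun i _ => ?_
            rw [Finset.sum_mul]
            refine Finset.sum_congr rfl fun s _ => ?_
            ring
  have hmain := tsum_of_norm_bounded hsum2 hb
  rw [hsum.tsum_eq, Real.norm_eq_abs] at hmain
  refine hmain.trans ?_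
  refine div_le_div_of_nonneg_right ?_ (by positivity)
  have h5 : ∀ i ∈ range (ρ + 1), ∀ s ∈ range a,
      |(((F.coeff s).coeff i : ℤ) : ℝ)| * (x ^ s * Real.exp (i * x)) ≤
      |(((F.coeff s).coeff i : ℤ) : ℝ)| * ((1 + x) ^ a * Real.exp (ρ * x)) := by
    intro i hi s hs
    have hi' : (i : ℝ) ≤ ρ := by
      exact_mod_cast Nat.lt_succ_iff.mp (Finset.mem_range.mp hi)
    have e1 : x ^ s ≤ (1 + x) ^ a :=
      (pow_le_pow_left₀ hx0 (by linarith) s).trans
        (pow_le_pow_right₀ (by linarith) (Finset.mem_range.mp hs).le)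
    have e2 : Real.exp (i * x) ≤ Real.exp (ρ * x) :=
      Real.exp_le_exp.mpr (mul_le_mul_of_nonneg_right hi' hx0)
    exact mul_le_mul_of_nonneg_left (mul_le_mul e1 e2 (Real.exp_pos _).le (by positivity))
      (abs_nonneg _)
  calc _ ≤ ∑ i ∈ range (ρ + 1), ∑ s ∈ range a,
      |(((F.coeff s).coeff i : ℤ) : ℝ)| * ((1 + x) ^ a * Real.exp (ρ * x)) :=
        Finset.sum_le_sum fun i hi => Finset.sum_le_sum fun s hs => h5 i hi s hs
    _ = nm ρ a F * (1 + x) ^ a * Real.exp (ρ * x) := by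
        rw [nm, mul_assoc, Finset.sum_mul]
        refine Finset.sum_congr rfl fun i _ => ?_
        rw [Finset.sum_mul]

end Pool.Agent.Work.MP_f1a024_nt.EX
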