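import Pool.Agent.Work.MP_f1a024_nt.EX.Stmts

set_option autoImplicit false

namespace Pool.Agent.Work.MP_f1a024_nt.EX

open Real Polynomial MeasureTheory Finset Filter Topology
open scoped Nat
open Pool.Agent.Work.MP_f1a024_nt.HP (evr Ez JJ Qz FF pp)

namespace I_PHI

/-- The kernel of the beta integral. -/
noncomputable def ker (r K : ℕ) (x w : ℝ) : ℝ :=
  (w * (1 - w)) ^ K * (1 - w) ^ r * Real.exp (x * lw w)

lemma measurable_lw : Measurable lw := by
  unfold lw
  exact Real.measurable_log.comp (measurable_id.div (measurable_const.sub measurable_id))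

lemma ker_nonneg (r K : ℕ) {x w : ℝ} (hw0 : 0 < w) (hw1 : w ≤ 1) : 0 ≤ ker r K x w := by
  unfold ker
  have h1 : 0 ≤ 1 - w := by linarith
  positivity

lemma ker_le (r K : ℕ) {x w : ℝ} (hx0 : 0 ≤ x) (hxr : x ≤ r) (hw0 : 0 < w) (hw1 : w ≤ 1) :
    ker r K x w ≤ 1 := by
  unfold ker
  have h1 : 0 ≤ 1 - w := by linarith
  have hA : (w * (1 - w)) ^ K ≤ 1 := by
    apply pow_le_one₀ (by positivity)
    nlinarith
  have hB : (1 - w) ^ r * Real.exp (x * lw w) ≤ 1 := by
    rcases eq_or_lt_of_le hw1 with h | h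
    · subst h
      have : lw 1 = 0 := by
        unfold lw
        simp
      rw [this, mul_zero, Real.exp_zero, mul_one]
      exact pow_le_one₀ (by norm_num) (by norm_num)
    · have h1' : 0 < 1 - w := by linarith
      have e1 : (1 - w) ^ r = Real.exp (r * Real.log (1 - w)) := by
        rw [← Real.log_pow, Real.exp_log (by positivity)]
      have e2 : lw w = Real.log w - Real.log (1 - w) := by
        unfold lw
        rw [Real.log_div hw0.ne' h1'.ne']
      rw [e1, e2, ← Real.exp_add]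
      rw [Real.exp_le_one_iff]
      have l1 : Real.log w ≤ 0 := Real.log_nonpos hw0.le hw1
      have l2 : Real.log (1 - w) ≤ 0 := Real.log_nonpos h1 (by linarith)
      have : (r : ℝ) * Real.log (1 - w) + x * (Real.log w - Real.log (1 - w)) =
          x * Real.log w + (r - x) * Real.log (1 - w) := by ring
      rw [this]
      have a1 : x * Real.log w ≤ 0 := mul_nonpos_of_nonneg_of_nonpos hx0 l1
      have a2 : (r - x) * Real.log (1 - w) ≤ 0 :=
        mul_nonpos_of_nonneg_of_nonpos (by linarith) l2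
      linarith
  have hC : 0 ≤ (1 - w) ^ r * Real.exp (x * lw w) := by positivity
  rw [mul_assoc]
  calc (w * (1 - w)) ^ K * ((1 - w) ^ r * Real.exp (x * lw w)) ≤
      1 * ((1 - w) ^ r * Real.exp (x * lw w)) := mul_le_mul_of_nonneg_right hA hC
    _ ≤ 1 := by rw [one_mul]; exact hB

lemma measurable_ker (r K : ℕ) : Measurable (fun p : ℝ × ℝ => ker r K p.1 p.2) := by
  unfold ker
  have hl : Measurable (fun p : ℝ × ℝ => lw p.2) := measurable_lw.comp measurable_snd
  have h1 : Measurable (fun p : ℝ × ℝ => (p.2 * (1 - p.2)) ^ K * (1 - p.2) ^ r) := by fun_prop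
  have h2 : Measurable (fun p : ℝ × ℝ => Real.exp (p.1 * lw p.2)) :=
    Real.measurable_exp.comp (measurable_fst.mul hl)
  exact h1.mul h2

lemma continuous_evr (p : ℤ[X]) : Continuous (evr p) := by
  unfold Pool.Agent.Work.MP_f1a024_nt.HP.evr
  exact Polynomial.continuous _

lemma integrable_prod (r K i : ℕ) (hi : i ≤ r) (p : ℤ[X]) :
    Integrable (fun q : ℝ × ℝ => evr p q.1 * ker r K q.1 q.2)
      ((volume.restrict (Set.Ioc (0 : ℝ) (i : ℝ))).prod (volume.restrict (Set.Ioc (0 : ℝ) 1))) := by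
  obtain ⟨M, hM⟩ := (isCompact_Icc (a := (0 : ℝ)) (b := (i : ℝ))).exists_bound_of_continuousOn
    (continuous_evr p).continuousOn
  have hmeas : Measurable (fun q : ℝ × ℝ => evr p q.1 * ker r K q.1 q.2) :=
    ((continuous_evr p).measurable.comp measurable_fst).mul (measurable_ker r K)
  refine Integrable.mono' (g := fun _ => M) (integrable_const M) hmeas.aestronglyMeasurable ?_
  rw [Measure.prod_restrict]
  refine ae_restrict_of_forall_mem (measurableSet_Ioc.prod measurableSet_Ioc) ?_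
  rintro ⟨x, w⟩ ⟨hx, hw⟩
  simp only [Set.mem_Ioc] at hx hw
  have hxr : x ≤ r := hx.2.trans (by exact_mod_cast hi)
  have k0 := ker_nonneg r K (x := x) hw.1 hw.2
  have k1 := ker_le r K hx.1.le hxr hw.1 hw.2
  have hb := hM x ⟨hx.1.le, hx.2⟩
  show ‖evr p x * ker r K x w‖ ≤ M
  rw [norm_mul, Real.norm_of_nonneg k0]
  have : ‖evr p x‖ * ker r K x w ≤ ‖evr p x‖ * 1 := mul_le_mul_of_nonneg_left k1 (norm_nonneg _)
  linarith

end I_PHI

open I_PHI in
theorem PHI_pf (hB : S_BET) (hJ : S_JEX) : S_PHI := by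
  intro r A n K H hbox hAn hmom
  set c := ct H with hc
  -- the inner integrals
  have hswap : ∀ i ∈ range (r + 1),
      ∫ x in (0 : ℝ)..(i : ℝ), ∫ w in (0 : ℝ)..1, evr (Ez A n c i) x * ker r K x w =
      ∫ w in (0 : ℝ)..1, ∫ x in (0 : ℝ)..(i : ℝ), evr (Ez A n c i) x * ker r K x w := by
    intro i hi
    have hi' : i ≤ r := Nat.lt_succ_iff.mp (Finset.mem_range.mp hi)
    have h0i : (0 : ℝ) ≤ i := Nat.cast_nonneg i
    simp only [intervalIntegral.integral_of_le h0i, intervalIntegral.integral_of_le zero_le_one]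
    exact integral_integral_swap (integrable_prod r K i hi' (Ez A n c i))
  have hII : ∀ i ∈ range (r + 1), IntervalIntegrable
      (fun w => ∫ x in (0 : ℝ)..(i : ℝ), evr (Ez A n c i) x * ker r K x w) volume 0 1 := by
    intro i hi
    have hi' : i ≤ r := Nat.lt_succ_iff.mp (Finset.mem_range.mp hi)
    have h0i : (0 : ℝ) ≤ i := Nat.cast_nonneg i
    rw [intervalIntegrable_iff_integrableOn_Ioc_of_le zero_le_one]
    simp only [intervalIntegral.integral_of_le h0i]
    exact (integrable_prod r K i hi' (Ez A n c i)).integral_prod_right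
  -- pointwise in w
  have hpt : ∀ w : ℝ, 0 < w → w < 1 → w ≠ 1 / 2 →
      ∑ i ∈ range (r + 1), ∫ x in (0 : ℝ)..(i : ℝ), evr (Ez A n c i) x * ker r K x w =
      (n ! : ℝ) * ((1 - w) ^ r * ph H (lw w) / lw w ^ (n + 1) * (w * (1 - w)) ^ K) := by
    intro w hw0 hw1 hw2
    have h1w : 0 < 1 - w := by linarith
    have hz : lw w ≠ 0 := by
      unfold lw
      apply Real.log_ne_zero_of_pos_of_ne_one (by positivity)
      intro h
      rw [div_eq_one_iff_eq h1w.ne'] at h
      apply hw2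
      linarith
    have hj := hJ r A n H hbox hAn hmom (lw w) hz
    have hzp : lw w ^ (n + 1) ≠ 0 := pow_ne_zero _ hz
    have hj' : JJ r A n c (fun x => Real.exp (lw w * x)) = (n ! : ℝ) * ph H (lw w) / lw w ^ (n + 1) := by
      rw [eq_div_iff hzp, mul_comm]
      exact hj
    have e1 : ∀ i ∈ range (r + 1),
        ∫ x in (0 : ℝ)..(i : ℝ), evr (Ez A n c i) x * ker r K x w =
        ((w * (1 - w)) ^ K * (1 - w) ^ r) *
          ∫ x in (0 : ℝ)..(i : ℝ), evr (Ez A n c i) x * Real.exp (lw w * x) := by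
      intro i _
      rw [← intervalIntegral.integral_const_mul]
      congr 1
      ext x
      unfold I_PHI.ker
      rw [mul_comm (lw w) x]
      ring
    rw [Finset.sum_congr rfl e1, ← Finset.mul_sum]
    have e2 : ∑ i ∈ range (r + 1), ∫ x in (0 : ℝ)..(i : ℝ),
        evr (Ez A n c i) x * Real.exp (lw w * x) = JJ r A n c (fun x => Real.exp (lw w * x)) := rfl
    rw [e2, hj']
    ring
  have hae : ∀ᵐ w : ℝ, w ∈ Set.uIoc (0 : ℝ) 1 →
      ∑ i ∈ range (r + 1), ∫ x in (0 : ℝ)..(i : ℝ), evr (Ez A n c i) x * ker r K x w =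
      (n ! : ℝ) * ((1 - w) ^ r * ph H (lw w) / lw w ^ (n + 1) * (w * (1 - w)) ^ K) := by
    have h1 : ∀ᵐ w : ℝ, w ≠ 1 := by
      simp [ae_iff, measure_singleton]
    have h2 : ∀ᵐ w : ℝ, w ≠ 1 / 2 := by
      simp [ae_iff, measure_singleton]
    filter_upwards [h1, h2] with w hw1 hw2 hw
    rw [Set.uIoc_of_le zero_le_one, Set.mem_Ioc] at hw
    exact hpt w hw.1 (lt_of_le_of_ne hw.2 hw1) hw2
  have hsumI : IntervalIntegrable (fun w => ∑ i ∈ range (r + 1),
      ∫ x in (0 : ℝ)..(i : ℝ), evr (Ez A n c i) x * ker r K x w) volume 0 1 := by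
    have := IntervalIntegrable.sum (range (r + 1)) hII
    refine this.congr ?_
    intro w _
    simp [Finset.sum_apply]
  have hnI : IntervalIntegrable (fun w : ℝ => (n ! : ℝ) *
      ((1 - w) ^ r * ph H (lw w) / lw w ^ (n + 1) * (w * (1 - w)) ^ K)) volume 0 1 := by
    refine hsumI.congr_ae ?_
    rw [Filter.EventuallyEq, ae_restrict_iff' measurableSet_uIoc]
    exact hae
  have hn0 : (n ! : ℝ) ≠ 0 := by positivity
  refine ⟨?_, ?_⟩
  · have := hnI.const_mul ((n ! : ℝ)⁻¹)
    refine this.congr ?_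
    intro w _
    show (n ! : ℝ)⁻¹ * ((n ! : ℝ) *
      ((1 - w) ^ r * ph H (lw w) / lw w ^ (n + 1) * (w * (1 - w)) ^ K)) = _
    rw [← mul_assoc, inv_mul_cancel₀ hn0, one_mul]
  · -- FF
    have hFF : FF r A n K c = ∑ i ∈ range (r + 1), (-1) ^ (r + K) * (((r + 2 * K + 1)! : ℝ) *
        ∫ x in (0 : ℝ)..(i : ℝ), ∫ w in (0 : ℝ)..1, evr (Ez A n c i) x * ker r K x w) := by
      unfold Pool.Agent.Work.MP_f1a024_nt.HP.FF Pool.Agent.Work.MP_f1a024_nt.HP.JJ
      refine Finset.sum_congr rfl fun i hi => ?_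
      have hi' : i ≤ r := Nat.lt_succ_iff.mp (Finset.mem_range.mp hi)
      have h0i : (0 : ℝ) ≤ i := Nat.cast_nonneg i
      rw [← intervalIntegral.integral_const_mul, ← intervalIntegral.integral_const_mul]
      refine intervalIntegral.integral_congr_ae ?_
      have hZ : ∀ᵐ x : ℝ, x ∉ Set.range (fun k : ℤ => (k : ℝ)) :=
        (Set.countable_range (fun k : ℤ => (k : ℝ))).ae_notMem volume
      filter_upwards [hZ] with x hx hxi
      rw [Set.uIoc_of_le h0i, Set.mem_Ioc] at hxi
      have hk : ∀ k : ℤ, x ≠ (k : ℝ) := fun k h => hx ⟨k, h.symm⟩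
      have hxr : x < r := by
        have h1 : x ≤ r := hxi.2.trans (by exact_mod_cast hi')
        exact lt_of_le_of_ne h1 (by have := hk (r : ℤ); simpa using this)
      have hb := hB r K x hxi.1 hxr hk
      rw [intervalIntegral.integral_const_mul]
      have hs : ((-1 : ℝ) ^ (r + K)) * ((-1 : ℝ) ^ (r + K)) = 1 := by
        rw [← mul_pow]; norm_num
      have hker : (∫ w in (0 : ℝ)..1, ker r K x w) =
          ∫ w in (0 : ℝ)..1, (w * (1 - w)) ^ K * (1 - w) ^ r * Real.exp (x * lw w) := rfl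
      rw [hker]
      calc evr (Ez A n c i) x * (evr (Qz r K) x * (π / sin (π * x)))
          = evr (Ez A n c i) x * ((((-1 : ℝ) ^ (r + K)) * ((-1 : ℝ) ^ (r + K))) *
              (evr (Qz r K) x * (π / sin (π * x)))) := by rw [hs, one_mul]
        _ = evr (Ez A n c i) x * ((-1 : ℝ) ^ (r + K) * ((-1 : ℝ) ^ (r + K) *
              (evr (Qz r K) x * (π / sin (π * x))))) := by ring
        _ = evr (Ez A n c i) x * ((-1 : ℝ) ^ (r + K) * (((r + 2 * K + 1)! : ℝ) *
              ∫ w in (0 : ℝ)..1, (w * (1 - w)) ^ K * (1 - w) ^ r * Real.exp (x * lw w))) := by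
            rw [hb]
        _ = _ := by ring
    rw [hFF, ← Finset.mul_sum, ← Finset.mul_sum, Finset.sum_congr rfl hswap,
      ← intervalIntegral.integral_finsetSum hII, intervalIntegral.integral_congr_ae hae,
      intervalIntegral.integral_const_mul]

end Pool.Agent.Work.MP_f1a024_nt.EX
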