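import Pool.Agent.Work.MP_f1a024_nt.EX.Stmts

set_option autoImplicit false

/-!
Block EX, item PSC: coefficients of the power series of `F(e^z, z)`.
-/

namespace Pool.Agent.Work.MP_f1a024_nt.EX

open Real Polynomial MeasureTheory Finset Filter Topology
open scoped Nat

namespace I_PSC

theorem term (k i s : ℕ) (c : ℤ) :
    (k ! : ℚ) * PowerSeries.coeff k
      (((c : PowerSeries ℚ) * PowerSeries.exp ℚ ^ i) * PowerSeries.X ^ s) =
      (k.descFactorial s : ℚ) * (i : ℚ) ^ (k - s) * (c : ℚ) := by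
  rw [PowerSeries.coeff_mul_X_pow']
  have hc : (c : PowerSeries ℚ) = PowerSeries.C (c : ℚ) := by
    rw [map_intCast]
  split_ifs with h
  · rw [hc, PowerSeries.coeff_C_mul, PowerSeries.exp_pow_eq_rescale_exp, PowerSeries.coeff_rescale,
      PowerSeries.coeff_exp]
    have h1 : (((k - s) ! : ℕ) : ℚ) * (k.descFactorial s : ℚ) = (k ! : ℚ) := by
      exact_mod_cast Nat.factorial_mul_descFactorial h
    have h2 : (((k - s) ! : ℕ) : ℚ) ≠ 0 := by exact_mod_cast (Nat.factorial_ne_zero _)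
    rw [← h1]
    simp only [Algebra.algebraMap_self, RingHom.id_apply]
    field_simp
  · rw [Nat.descFactorial_of_lt (by omega)]
    simp

theorem inner {ρ : ℕ} (f : ℤ[X]) (hf : ∀ i, ρ < i → f.coeff i = 0) :
    Polynomial.eval₂RingHom (Int.castRingHom (PowerSeries ℚ)) (PowerSeries.exp ℚ) f =
      ∑ i ∈ range (ρ + 1), ((f.coeff i : ℤ) : PowerSeries ℚ) * PowerSeries.exp ℚ ^ i := by
  have hd : f.natDegree < ρ + 1 :=
    Nat.lt_succ_of_le (Polynomial.natDegree_le_iff_coeff_eq_zero.2 hf)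
  rw [Polynomial.coe_eval₂RingHom, Polynomial.eval₂_eq_sum_range' _ hd]
  rfl

end I_PSC

theorem PSC_pf : S_PSC := by
  intro ρ a F hB k
  have hd : F.natDegree < a + 1 := by
    refine Nat.lt_succ_of_le (Polynomial.natDegree_le_iff_coeff_eq_zero.2 fun s hs => ?_)
    ext i
    rw [hB s i (Or.inl hs.le), Polynomial.coeff_zero]
  have ha : F.coeff a = 0 := by
    ext i
    rw [hB a i (Or.inl le_rfl), Polynomial.coeff_zero]
  have e1 : ps F = ∑ s ∈ range a, ∑ i ∈ range (ρ + 1),
      ((((F.coeff s).coeff i : ℤ) : PowerSeries ℚ) * PowerSeries.exp ℚ ^ i) *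
        PowerSeries.X ^ s := by
    unfold ps
    rw [Polynomial.eval₂_eq_sum_range' _ hd, Finset.sum_range_succ, ha, map_zero, zero_mul,
      add_zero]
    refine Finset.sum_congr rfl fun s _ => ?_
    rw [I_PSC.inner (F.coeff s) (fun i hi => hB s i (Or.inr hi)), Finset.sum_mul]
  rw [e1, map_sum, Finset.mul_sum, Finset.sum_comm]
  refine Finset.sum_congr rfl fun s _ => ?_
  rw [map_sum, Finset.mul_sum]
  exact Finset.sum_congr rfl fun i _ => I_PSC.term k i s _

end Pool.Agent.Work.MP_f1a024_nt.EX
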