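import Pool.Agent.Work.MP_f1a024_nt.EX.Stmts

set_option autoImplicit false

/-!
Block EX, item PW1: the tail of the integral, pointwise.
-/

namespace Pool.Agent.Work.MP_f1a024_nt.EX

open Real Polynomial MeasureTheory Finset Filter Topology
open scoped Nat

theorem PW1_pf (hG : S_GWE) (hU : S_UBD) : S_PW1 := by
  intro ρ a n K F hF hn ha w hw0 hw1 hl
  obtain ⟨-, hg⟩ := hG ρ a F hF w hw0 hw1
  obtain ⟨-, hu⟩ := hU w hw0 hw1
  have h1 : gw ρ F w ^ 2 ≤ nm ρ a F ^ 2 * (1 + |lw w|) ^ (2 * a) := by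
    rw [← sq_abs]
    calc |gw ρ F w| ^ 2 ≤ (nm ρ a F * (1 + |lw w|) ^ a) ^ 2 :=
          pow_le_pow_left₀ (abs_nonneg _) hg 2
      _ = nm ρ a F ^ 2 * (1 + |lw w|) ^ (2 * a) := by
          rw [mul_pow, ← pow_mul, mul_comm a 2]
  have h2 : (1 + |lw w|) ^ (2 * a) ≤ 4 ^ a * |lw w| ^ (n + 1) := by
    calc (1 + |lw w|) ^ (2 * a) ≤ (2 * |lw w|) ^ (2 * a) :=
          pow_le_pow_left₀ (by linarith) (by linarith) _
      _ = 4 ^ a * |lw w| ^ (2 * a) := by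
          rw [mul_pow, pow_mul (2 : ℝ) 2 a]
          norm_num
      _ ≤ 4 ^ a * |lw w| ^ (n + 1) :=
          mul_le_mul_of_nonneg_left (pow_le_pow_right₀ hl ha) (by positivity)
  have hev : Even (n + 1) := hn.add_one
  have h3 : lw w ^ (n + 1) = |lw w| ^ (n + 1) := (hev.pow_abs _).symm
  have hpos : 0 < |lw w| ^ (n + 1) := pow_pos (by linarith) _
  have h4 : (w * (1 - w)) ^ K ≤ Real.exp (-(K * |lw w|)) := by
    calc (w * (1 - w)) ^ K ≤ Real.exp (-|lw w|) ^ K :=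
          pow_le_pow_left₀ (mul_nonneg hw0.le (by linarith)) hu K
      _ = Real.exp (-(K * |lw w|)) := by
          rw [← Real.exp_nat_mul, mul_neg]
  have h5 : gw ρ F w ^ 2 / lw w ^ (n + 1) ≤ nm ρ a F ^ 2 * 4 ^ a := by
    rw [h3, div_le_iff₀ hpos]
    calc gw ρ F w ^ 2 ≤ nm ρ a F ^ 2 * (1 + |lw w|) ^ (2 * a) := h1
      _ ≤ nm ρ a F ^ 2 * (4 ^ a * |lw w| ^ (n + 1)) :=
          mul_le_mul_of_nonneg_left h2 (sq_nonneg _)
      _ = nm ρ a F ^ 2 * 4 ^ a * |lw w| ^ (n + 1) := by ring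
  unfold fw
  exact mul_le_mul h5 h4 (pow_nonneg (mul_nonneg hw0.le (by linarith)) _) (by positivity)

end Pool.Agent.Work.MP_f1a024_nt.EX
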