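import Pool.Agent.Work.MP_f1a024_nt.EX.Stmts

set_option autoImplicit false

/-!
# Block EX, item PW2: the middle part, pointwise
-/

namespace Pool.Agent.Work.MP_f1a024_nt.EX

open Real Polynomial MeasureTheory Finset Filter Topology
open scoped Nat
open Pool.Agent.Work.MP_f1a024_nt.HP (evr Ez JJ Qz FF pp)

namespace I_PW2

theorem pow_exp_le (M K : ℕ) (hK : 1 ≤ K) (x : ℝ) (hx : 0 ≤ x) :
    x ^ M * Real.exp (-(K * x)) ≤ (M ! : ℝ) / (K : ℝ) ^ M := by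
  have hK0 : (0 : ℝ) < K := by exact_mod_cast hK
  have h1 := Real.pow_div_factorial_le_exp (x := (K : ℝ) * x) (by positivity) M
  have hf : (0 : ℝ) < (M ! : ℝ) := by exact_mod_cast Nat.factorial_pos _
  rw [div_le_iff₀ hf, mul_pow] at h1
  rw [Real.exp_neg, ← div_eq_mul_inv, div_le_div_iff₀ (Real.exp_pos _) (by positivity)]
  linarith

theorem nm_nonneg (ρ a : ℕ) (F : ℤ[X][X]) : 0 ≤ nm ρ a F :=
  Finset.sum_nonneg fun _ _ => Finset.sum_nonneg fun _ _ => abs_nonneg _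

end I_PW2

open I_PW2 in
/-- item PW2 -/
theorem PW2_pf (h1 : S_PHB) (h2 : S_UBD) : S_PW2 := by
  intro ρ a δ n K F τ hB hX hn hnδ hK hτ w hw0 hw1 hl
  have hN := nm_nonneg ρ a F
  have hK0 : (0 : ℝ) < K := by exact_mod_cast hK
  by_cases h0 : lw w = 0
  · have e0 : fw ρ n K F w = 0 := by
      unfold fw
      rw [h0, zero_pow (Nat.succ_ne_zero n), div_zero, zero_mul]
    rw [e0]
    positivity
  have hx : 0 < |lw w| := abs_pos.2 h0
  have hT : 1 ≤ τ / |lw w| := by rwa [le_div_iff₀ hx, one_mul]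
  have hP := h1 ρ a δ F hB hX (τ / |lw w|) (lw w) hT
  rw [div_mul_cancel₀ _ hx.ne'] at hP
  have hg : |gw ρ F w| ≤ nm ρ a F * (1 + τ) ^ a * Real.exp (ρ * τ) / (τ / |lw w|) ^ δ := by
    refine le_trans ?_ hP
    unfold gw
    rw [abs_mul, abs_of_nonneg (pow_nonneg (by linarith : (0 : ℝ) ≤ 1 - w) ρ)]
    exact mul_le_of_le_one_left (abs_nonneg _) (pow_le_one₀ (by linarith) (by linarith))
  have hg2 : gw ρ F w ^ 2 ≤
      (nm ρ a F * (1 + τ) ^ a * Real.exp (ρ * τ) / (τ / |lw w|) ^ δ) ^ 2 := by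
    rw [← sq_abs (gw ρ F w)]
    exact pow_le_pow_left₀ (abs_nonneg _) hg 2
  have hle : lw w ^ (n + 1) = |lw w| ^ (n + 1) := (Even.pow_abs hn.add_one _).symm
  have hw2 : 0 ≤ w * (1 - w) := mul_nonneg hw0.le (by linarith)
  have hU : (w * (1 - w)) ^ K ≤ Real.exp (-(K * |lw w|)) := by
    have e := pow_le_pow_left₀ hw2 (h2 w hw0 hw1).2 K
    rw [← Real.exp_nat_mul] at e
    refine e.trans_eq ?_
    congr 1
    ring
  have hU0 : 0 ≤ (w * (1 - w)) ^ K := pow_nonneg (mul_nonneg hw0.le (by linarith)) K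
  have hexp : Real.exp (ρ * τ) ^ 2 = Real.exp (2 * ρ * τ) := by
    rw [← Real.exp_nat_mul]
    congr 1
    push_cast
    ring
  obtain ⟨M, hM⟩ : ∃ M, M = 2 * δ - n - 1 := ⟨_, rfl⟩
  have hM2 : 2 * δ = M + (n + 1) := by omega
  rw [← hM]
  have e1 : (nm ρ a F * (1 + τ) ^ a * Real.exp (ρ * τ) / (τ / |lw w|) ^ δ) ^ 2 / |lw w| ^ (n + 1) =
      nm ρ a F ^ 2 * (1 + τ) ^ (2 * a) * Real.exp (2 * ρ * τ) / τ ^ (2 * δ) * |lw w| ^ M := by
    rw [div_pow, mul_pow, mul_pow, hexp, div_pow, div_pow, ← pow_mul, ← pow_mul, ← pow_mul,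
      mul_comm δ 2, mul_comm a 2]
    have e2 : |lw w| ^ (2 * δ) = |lw w| ^ M * |lw w| ^ (n + 1) := by rw [hM2, pow_add]
    rw [e2]
    have e3 : |lw w| ^ (n + 1) ≠ 0 := by positivity
    have e4 : |lw w| ^ M ≠ 0 := by positivity
    have e5 : τ ^ (2 * δ) ≠ 0 := by positivity
    field_simp
  unfold fw
  rw [hle]
  calc gw ρ F w ^ 2 / |lw w| ^ (n + 1) * (w * (1 - w)) ^ K
      ≤ (nm ρ a F * (1 + τ) ^ a * Real.exp (ρ * τ) / (τ / |lw w|) ^ δ) ^ 2 / |lw w| ^ (n + 1) *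
        Real.exp (-(K * |lw w|)) := by
        refine mul_le_mul (div_le_div_of_nonneg_right hg2 (by positivity)) hU hU0 ?_
        positivity
    _ = nm ρ a F ^ 2 * (1 + τ) ^ (2 * a) * Real.exp (2 * ρ * τ) / τ ^ (2 * δ) *
        (|lw w| ^ M * Real.exp (-(K * |lw w|))) := by rw [e1]; ring
    _ ≤ _ := by
        refine mul_le_mul_of_nonneg_left (pow_exp_le M K hK _ hx.le) ?_
        positivity

end Pool.Agent.Work.MP_f1a024_nt.EX
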