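import Pool.Agent.Work.MP_f1a024_nt.EX.Stmts2

set_option autoImplicit false

/-!
# Item REX2: the block theorem for `t(n)`
-/

namespace Pool.Agent.Work.MP_f1a024_nt.EX

open Real Polynomial MeasureTheory Finset Filter Topology
open scoped Nat
open Pool.Agent.Work.MP_f1a024_nt.HP (evr Ez JJ Qz FF pp)

namespace I_REX2

/-- From the equation for `t(n)` to the equation for `G n`. -/
lemma key (n b : ℕ) (hn : 3 ≤ n) (hodd : Odd n) (S : ℝ)
    (h : riemannZeta (2 * n) / riemannZeta n ^ 2 * ((2 * n)! : ℂ) * (S : ℂ) ^ 2 =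
      2 ^ (2 * n - 1) * (bernoulli (2 * n) : ℂ) * b ^ 2) :
    (4 * (n ! : ℝ) * (2 ^ n - 1) * S) ^ 2 = ((b : ℝ) * 2 ^ n * OddG.G n) ^ 2 := by
  have hz0 : riemannZeta n ≠ 0 := riemannZeta_ne_zero_of_one_le_re (by simp; omega)
  have hz2 : riemannZeta (2 * n) ≠ 0 := riemannZeta_ne_zero_of_one_le_re (by
    simp
    have : (3:ℝ) ≤ n := by exact_mod_cast hn
    linarith)
  have hl := OddG.link n (by omega) hodd
  have hch : ((2 * n).choose n : ℂ) * (n.factorial : ℂ) ^ 2 = ((2 * n).factorial : ℂ) := by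
    have := Nat.choose_mul_factorial_mul_factorial (n := 2 * n) (k := n) (by omega)
    rw [show 2 * n - n = n by omega] at this
    rw [← this]
    push_cast
    ring
  have hfac : ((2 * n)! : ℂ) ≠ 0 := by exact_mod_cast (Nat.factorial_pos _).ne'
  have hT : riemannZeta (2 * n) / riemannZeta n ^ 2 * ((2 * n)! : ℂ) ≠ 0 :=
    mul_ne_zero (div_ne_zero hz2 (pow_ne_zero _ hz0)) hfac
  have h2n : ((2:ℂ)) ^ (2 * n - 1) * 2 = 2 ^ n * 2 ^ n := by
    rw [← pow_succ, ← pow_add]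
    congr 1
    omega
  have e1 : riemannZeta (2 * n) / riemannZeta n ^ 2 * ((2 * n)! : ℂ) *
      (4 * (n ! : ℂ) * (2 ^ n - 1) * (S : ℂ)) ^ 2 =
      riemannZeta (2 * n) / riemannZeta n ^ 2 * ((2 * n)! : ℂ) *
      ((b : ℂ) * 2 ^ n * ((OddG.G n : ℝ) : ℂ)) ^ 2 := by
    have l1 : riemannZeta (2 * n) / riemannZeta n ^ 2 * ((2 * n)! : ℂ) *
        (4 * (n ! : ℂ) * (2 ^ n - 1) * (S : ℂ)) ^ 2 =
        (riemannZeta (2 * n) / riemannZeta n ^ 2 * ((2 * n)! : ℂ) * (S : ℂ) ^ 2) *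
        (4 * (n ! : ℂ) * (2 ^ n - 1)) ^ 2 := by ring
    have l2 : riemannZeta (2 * n) / riemannZeta n ^ 2 * ((2 * n)! : ℂ) *
        ((b : ℂ) * 2 ^ n * ((OddG.G n : ℝ) : ℂ)) ^ 2 =
        (riemannZeta (2 * n) / riemannZeta n ^ 2 * ((2 * n).choose n : ℂ) *
          ((OddG.G n : ℝ) : ℂ) ^ 2) * (n ! : ℂ) ^ 2 * (b : ℂ) ^ 2 * (2 ^ n * 2 ^ n) := by
      rw [← hch]
      ring
    rw [l1, l2, h, hl, ← h2n]
    ring
  have e2 := mul_left_cancel₀ hT e1
  exact_mod_cast e2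

lemma c0_le (n N : ℕ) (hN : 2 ≤ N) (hn : n ≤ N) :
    4 * (n ! : ℝ) * (2 ^ n - 1) ≤ Real.exp (3 * (N * Real.log N)) := by
  have hN2 : (2:ℝ) ≤ N := by exact_mod_cast hN
  have hE : Real.exp (N * Real.log N) = (N : ℝ) ^ N := by
    rw [Real.exp_nat_mul, Real.exp_log (by linarith)]
  have h3 : Real.exp (3 * (N * Real.log N)) =
      Real.exp (N * Real.log N) * Real.exp (N * Real.log N) * Real.exp (N * Real.log N) := by
    rw [← Real.exp_add, ← Real.exp_add]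
    congr 1
    ring
  rw [h3, hE]
  have hfac : (n ! : ℝ) ≤ (N : ℝ) ^ N := by
    have h1 : n ! ≤ N ! := Nat.factorial_le hn
    have h2 : N ! ≤ N ^ N := Nat.factorial_le_pow N
    exact_mod_cast h1.trans h2
  have h2n : (2:ℝ) ^ n - 1 ≤ (N : ℝ) ^ N := by
    have e1 : (2:ℝ) ^ n ≤ (N : ℝ) ^ N := by
      calc (2:ℝ) ^ n ≤ 2 ^ N := pow_le_pow_right₀ (by norm_num) hn
        _ ≤ (N : ℝ) ^ N := by gcongr
    linarith
  have h4 : (4:ℝ) ≤ (N : ℝ) ^ N := by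
    calc (4:ℝ) = 2 ^ 2 := by norm_num
      _ ≤ 2 ^ N := pow_le_pow_right₀ (by norm_num) hN
      _ ≤ (N : ℝ) ^ N := by gcongr
  have h2n0 : (0:ℝ) ≤ 2 ^ n - 1 := by
    have : (1:ℝ) ≤ 2 ^ n := one_le_pow₀ (by norm_num)
    linarith
  gcongr

end I_REX2

open I_REX2 in
/-- REX2. -/
theorem REX2_pf (h1 : S_MAG2) : S_REX2 := by
  intro N L m α V ω T hN hLN hm hα hV hLV hmain hT
  have hN2 : (2:ℝ) ≤ N := by exact_mod_cast hN
  have hlog : 0 < Real.log N := Real.log_pos (by linarith)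
  have hNlog : 0 ≤ N * Real.log N := by positivity
  have hm1 : (1:ℝ) ≤ m := by exact_mod_cast hm
  have hV3 : 0 ≤ V ^ 3 := by positivity
  have hmain' : m * (α + 3 * (N * Real.log N) + N * Real.log N) ≤ V ^ 3 / 10 ^ 7 := by
    have e1 : m * (α + 3 * (N * Real.log N) + N * Real.log N) ≤
        4 * (m * (α + N * Real.log N)) := by
      have : 0 ≤ m * α := by positivity
      nlinarith
    have e2 : 4 * (V ^ 3 / 10 ^ 8) ≤ V ^ 3 / 10 ^ 7 := by
      have : (0:ℝ) ≤ V ^ 3 := hV3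
      linarith
    linarith
  have hT' : (m + T.card) * (V ^ 3 * Real.log N) ≤ (L : ℝ) ^ 2 / 10 ^ 7 := by
    have : (0:ℝ) ≤ (L : ℝ) ^ 2 := by positivity
    linarith
  obtain ⟨n, hnT, hodd, hn3, hn1, hn2, hE⟩ :=
    h1 N L m (α + 3 * (N * Real.log N)) V ω T hN hLN hm (by positivity) hV hLV hmain' hT'
  refine ⟨n, hnT, hodd, hn3, hn1, hn2, ?_⟩
  intro a b ha hb1 hb2 heq
  have hcast : (∑ i, (a i : ℂ) * (ω i : ℂ)) = ((∑ i, (a i : ℝ) * ω i : ℝ) : ℂ) := by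
    push_cast
    rfl
  rw [hcast] at heq
  have hk := key n b hn3 hodd _ heq
  have hb3 : (b : ℝ) ≤ Real.exp (V ^ 3 / (10 ^ 7 * (m * L))) := by
    refine hb2.trans (Real.exp_le_exp.mpr ?_)
    rw [show (10:ℝ) ^ 8 * (m * L) = 10 ^ 7 * (m * L) * 10 by ring, ← div_div]
    exact div_le_self (by positivity) (by norm_num)
  set c0 : ℤ := 4 * (n ! : ℤ) * (2 ^ n - 1) with hc0
  have hc0r : (c0 : ℝ) = 4 * (n ! : ℝ) * (2 ^ n - 1) := by
    rw [hc0]
    push_cast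
    ring
  have hc0nn : 0 ≤ (c0 : ℝ) := by
    rw [hc0r]
    have : (1:ℝ) ≤ 2 ^ n := one_le_pow₀ (by norm_num)
    have : (0:ℝ) ≤ 2 ^ n - 1 := by linarith
    positivity
  have hbound : ∀ i, (c0 : ℝ) * |(a i : ℝ)| ≤ Real.exp (α + 3 * (N * Real.log N)) := by
    intro i
    rw [add_comm α, Real.exp_add]
    refine mul_le_mul ?_ (ha i) (abs_nonneg _) (Real.exp_pos _).le
    rw [hc0r]
    exact c0_le n N hN hn2
  rcases sq_eq_sq_iff_eq_or_eq_neg.mp hk with h5 | h5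
  · refine hE (fun i => c0 * a i) b ?_ hb1 hb3 ?_
    · intro i
      push_cast
      rw [abs_mul, abs_of_nonneg hc0nn]
      exact hbound i
    · push_cast
      rw [← h5, ← hc0r, Finset.mul_sum]
      refine Finset.sum_congr rfl (fun i _ => ?_)
      ring
  · refine hE (fun i => -(c0 * a i)) b ?_ hb1 hb3 ?_
    · intro i
      push_cast
      rw [abs_neg, abs_mul, abs_of_nonneg hc0nn]
      exact hbound i
    · push_cast
      have h6 : (b : ℝ) * 2 ^ n * OddG.G n =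
          -(4 * (n ! : ℝ) * (2 ^ n - 1) * ∑ i, (a i : ℝ) * ω i) := by linarith
      rw [h6, ← hc0r, Finset.mul_sum, ← Finset.sum_neg_distrib]
      refine Finset.sum_congr rfl (fun i _ => ?_)
      ring

end Pool.Agent.Work.MP_f1a024_nt.EX
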