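import Pool.Agent.Work.MP_f1a024_nt.EX.Stmts

set_option autoImplicit false

/-!
Item SQ of the block [f1a024 EX]: the coefficients of the square.
-/

namespace Pool.Agent.Work.MP_f1a024_nt.EX

open Real Polynomial MeasureTheory Finset Filter Topology
open scoped Nat
open Pool.Agent.Work.MP_f1a024_nt.HP (evr Ez JJ Qz FF pp)

namespace I_SQ

/-- The antidiagonal sums of a function supported in a square. -/
theorem anti (A : ℕ) (h : ℕ × ℕ → ℝ) (hA : 1 ≤ A)
    (h0 : ∀ p : ℕ × ℕ, A ≤ p.1 ∨ A ≤ p.2 → h p = 0) :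
    ∑ s ∈ range (2 * A - 1), ∑ p ∈ antidiagonal s, h p = ∑ p ∈ range A ×ˢ range A, h p := by
  rw [← Finset.sum_fiberwise_of_maps_to (s := range A ×ˢ range A) (t := range (2 * A - 1))
    (g := fun p => p.1 + p.2) (f := h)]
  · refine Finset.sum_congr rfl fun s _ => ?_
    symm
    refine Finset.sum_subset_zero_on_sdiff ?_ ?_ fun _ _ => rfl
    · intro p hp
      rw [mem_filter] at hp
      rw [HasAntidiagonal.mem_antidiagonal]
      exact hp.2
    · intro p hp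
      rw [Finset.mem_sdiff, HasAntidiagonal.mem_antidiagonal, mem_filter, mem_product, mem_range, mem_range] at hp
      apply h0
      by_contra hcon
      rw [not_or] at hcon
      exact hp.2 ⟨⟨by omega, by omega⟩, hp.1⟩
  · intro p hp
    rw [mem_product, mem_range, mem_range] at hp
    rw [mem_range]
    omega

/-- The coefficients of the square. -/
theorem coe (F : ℤ[X][X]) (s i : ℕ) :
    ((F ^ 2).coeff s).coeff i = ∑ p ∈ antidiagonal s, ∑ q ∈ antidiagonal i,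
      (F.coeff p.1).coeff q.1 * (F.coeff p.2).coeff q.2 := by
  rw [sq, Polynomial.coeff_mul, Polynomial.finsetSum_coeff]
  refine Finset.sum_congr rfl fun p _ => ?_
  rw [Polynomial.coeff_mul]

theorem box (ρ a : ℕ) (F : ℤ[X][X]) (ha : 1 ≤ a) (hB : Box ρ a F) :
    Box (2 * ρ) (2 * a - 1) (F ^ 2) := by
  intro s i hsi
  rw [coe]
  refine Finset.sum_eq_zero fun p hp => Finset.sum_eq_zero fun q hq => ?_
  rw [HasAntidiagonal.mem_antidiagonal] at hp hq
  have h : (a ≤ p.1 ∨ ρ < q.1) ∨ (a ≤ p.2 ∨ ρ < q.2) := by omega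
  rcases h with h | h
  · rw [hB _ _ h, zero_mul]
  · rw [hB _ _ h, mul_zero]

theorem sum (ρ a : ℕ) (F : ℤ[X][X]) (ha : 1 ≤ a) (hB : Box ρ a F) :
    ∑ i ∈ range (2 * ρ + 1), ∑ s ∈ range (2 * a - 1), ∑ p ∈ antidiagonal s,
      ∑ q ∈ antidiagonal i, |(((F.coeff p.1).coeff q.1 : ℤ) : ℝ)| *
        |(((F.coeff p.2).coeff q.2 : ℤ) : ℝ)| = nm ρ a F ^ 2 := by
  rw [Finset.sum_comm]
  have h1 : ∀ s ∈ range (2 * a - 1), (∑ i ∈ range (2 * ρ + 1), ∑ p ∈ antidiagonal s,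
      ∑ q ∈ antidiagonal i, |(((F.coeff p.1).coeff q.1 : ℤ) : ℝ)| *
        |(((F.coeff p.2).coeff q.2 : ℤ) : ℝ)|) = ∑ p ∈ antidiagonal s,
      (fun p : ℕ × ℕ => (∑ i ∈ range (ρ + 1), |(((F.coeff p.1).coeff i : ℤ) : ℝ)|) *
        (∑ i ∈ range (ρ + 1), |(((F.coeff p.2).coeff i : ℤ) : ℝ)|)) p := by
    intro s _
    rw [Finset.sum_comm]
    refine Finset.sum_congr rfl fun p _ => ?_
    have h2 := anti (ρ + 1) (fun q => |(((F.coeff p.1).coeff q.1 : ℤ) : ℝ)| *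
        |(((F.coeff p.2).coeff q.2 : ℤ) : ℝ)|) (by omega) (by
      intro q hq
      rcases hq with hq | hq
      · show |(((F.coeff p.1).coeff q.1 : ℤ) : ℝ)| * |(((F.coeff p.2).coeff q.2 : ℤ) : ℝ)| = 0
        rw [hB p.1 q.1 (Or.inr (by omega))]
        simp
      · show |(((F.coeff p.1).coeff q.1 : ℤ) : ℝ)| * |(((F.coeff p.2).coeff q.2 : ℤ) : ℝ)| = 0
        rw [hB p.2 q.2 (Or.inr (by omega))]
        simp)
    have e : 2 * (ρ + 1) - 1 = 2 * ρ + 1 := by omega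
    rw [e] at h2
    rw [h2, Finset.sum_product]
    exact (Finset.sum_mul_sum (range (ρ + 1)) (range (ρ + 1))
      (fun i => |(((F.coeff p.1).coeff i : ℤ) : ℝ)|)
      (fun i => |(((F.coeff p.2).coeff i : ℤ) : ℝ)|)).symm
  rw [Finset.sum_congr rfl h1, anti a _ ha, Finset.sum_product, sq]
  · have e : nm ρ a F = ∑ s ∈ range a, ∑ i ∈ range (ρ + 1),
        |(((F.coeff s).coeff i : ℤ) : ℝ)| := by
      unfold nm
      rw [Finset.sum_comm]
    rw [e]
    exact (Finset.sum_mul_sum (range a) (range a)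
      (fun s => ∑ i ∈ range (ρ + 1), |(((F.coeff s).coeff i : ℤ) : ℝ)|)
      (fun s => ∑ i ∈ range (ρ + 1), |(((F.coeff s).coeff i : ℤ) : ℝ)|)).symm
  · intro p hp
    rcases hp with hp | hp
    · have : ∑ i ∈ range (ρ + 1), |(((F.coeff p.1).coeff i : ℤ) : ℝ)| = 0 := by
        refine Finset.sum_eq_zero fun i _ => ?_
        rw [hB p.1 i (Or.inl hp)]
        simp
      show (∑ i ∈ range (ρ + 1), |(((F.coeff p.1).coeff i : ℤ) : ℝ)|) *
        (∑ i ∈ range (ρ + 1), |(((F.coeff p.2).coeff i : ℤ) : ℝ)|) = 0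
      rw [this, zero_mul]
    · have : ∑ i ∈ range (ρ + 1), |(((F.coeff p.2).coeff i : ℤ) : ℝ)| = 0 := by
        refine Finset.sum_eq_zero fun i _ => ?_
        rw [hB p.2 i (Or.inl hp)]
        simp
      show (∑ i ∈ range (ρ + 1), |(((F.coeff p.1).coeff i : ℤ) : ℝ)|) *
        (∑ i ∈ range (ρ + 1), |(((F.coeff p.2).coeff i : ℤ) : ℝ)|) = 0
      rw [this, mul_zero]

end I_SQ

theorem SQ_pf : S_SQ := by
  intro ρ a F ha hB
  refine ⟨I_SQ.box ρ a F ha hB, ?_⟩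
  rw [← I_SQ.sum ρ a F ha hB, Finset.mul_sum]
  refine Finset.sum_le_sum fun i _ => ?_
  rw [Finset.mul_sum]
  refine Finset.sum_le_sum fun s hs => ?_
  rw [mem_range] at hs
  have h1 : ((ct (F ^ 2) i s : ℤ) : ℝ) = (s ! : ℝ) * ((((F ^ 2).coeff s).coeff i : ℤ) : ℝ) := by
    unfold ct
    push_cast
    rfl
  rw [h1, abs_mul, Nat.abs_cast]
  refine mul_le_mul ?_ ?_ (abs_nonneg _) (by positivity)
  · exact_mod_cast Nat.factorial_le (by omega)
  · rw [I_SQ.coe]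
    push_cast
    refine (Finset.abs_sum_le_sum_abs _ _).trans (Finset.sum_le_sum fun p _ => ?_)
    refine (Finset.abs_sum_le_sum_abs _ _).trans (Finset.sum_le_sum fun q _ => ?_)
    rw [abs_mul]

end Pool.Agent.Work.MP_f1a024_nt.EX
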