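import Pool.Agent.Work.MP_f1a024_nt.EX.Stmts

set_option autoImplicit false

/-!
Item STP of the block [f1a024 EX]: from `K` to `K + 1`.
-/

namespace Pool.Agent.Work.MP_f1a024_nt.EX

open Real Polynomial MeasureTheory Finset Filter Topology
open scoped Nat
open Pool.Agent.Work.MP_f1a024_nt.HP (evr Ez JJ Qz FF pp)

namespace I_STP

theorem fw_nonneg (ρ n K : ℕ) (F : ℤ[X][X]) (hn : Odd n) (w : ℝ) (h0 : 0 < w) (h1 : w < 1) :
    0 ≤ fw ρ n K F w := by
  unfold fw
  have he : Even (n + 1) := hn.add_one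
  have h2 : 0 ≤ lw w ^ (n + 1) := he.pow_nonneg _
  have h3 : 0 ≤ w * (1 - w) := mul_nonneg h0.le (by linarith)
  exact mul_nonneg (div_nonneg (sq_nonneg _) h2) (pow_nonneg h3 K)

theorem fw_succ (ρ n K : ℕ) (F : ℤ[X][X]) (w : ℝ) :
    fw ρ n (K + 1) F w = w * (1 - w) * fw ρ n K F w := by
  unfold fw
  rw [pow_succ]
  ring

theorem nm_nonneg (ρ a : ℕ) (F : ℤ[X][X]) : 0 ≤ nm ρ a F :=
  Finset.sum_nonneg fun _ _ => Finset.sum_nonneg fun _ _ => abs_nonneg _

end I_STP

theorem STP_pf (h1 : S_UBD) (h2 : S_PW1) : S_STP := by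
  intro ρ a n K F z2 hB hn ha hz hI hI1 hc
  set c : ℝ := nm ρ a F ^ 2 * 4 ^ a * Real.exp (-(K * z2)) with hcdef
  have hc0 : 0 ≤ c := by
    have := I_STP.nm_nonneg ρ a F
    positivity
  have hpt : ∀ w ∈ Set.Ioo (0 : ℝ) 1,
      Real.exp (-z2) / 4 * (fw ρ n K F w - c) ≤ fw ρ n (K + 1) F w := by
    intro w hw
    have hf := I_STP.fw_nonneg ρ n K F hn w hw.1 hw.2
    have hf1 := I_STP.fw_nonneg ρ n (K + 1) F hn w hw.1 hw.2
    have he : 0 < Real.exp (-z2) := Real.exp_pos _
    by_cases hl : |lw w| ≤ z2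
    · have hu := (h1 w hw.1 hw.2).1
      have he2 : Real.exp (-z2) ≤ Real.exp (-|lw w|) := Real.exp_le_exp.2 (by linarith)
      rw [I_STP.fw_succ]
      calc Real.exp (-z2) / 4 * (fw ρ n K F w - c) ≤ Real.exp (-z2) / 4 * fw ρ n K F w :=
            mul_le_mul_of_nonneg_left (by linarith) (by positivity)
        _ ≤ w * (1 - w) * fw ρ n K F w :=
            mul_le_mul_of_nonneg_right (by linarith) hf
    · have hl' : z2 < |lw w| := not_le.1 hl
      have hp := h2 ρ a n K F hB hn ha w hw.1 hw.2 (by linarith)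
      have hle : fw ρ n K F w ≤ c := by
        refine hp.trans ?_
        rw [hcdef]
        apply mul_le_mul_of_nonneg_left
        · apply Real.exp_le_exp.2
          have : (K : ℝ) * z2 ≤ K * |lw w| := mul_le_mul_of_nonneg_left hl'.le (Nat.cast_nonneg K)
          linarith
        · positivity
      have : Real.exp (-z2) / 4 * (fw ρ n K F w - c) ≤ 0 :=
        mul_nonpos_of_nonneg_of_nonpos (by positivity) (by linarith)
      linarith
  have hint : ∫ w in (0 : ℝ)..1, Real.exp (-z2) / 4 * (fw ρ n K F w - c) =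
      Real.exp (-z2) / 4 * (Phi ρ n K F - c) := by
    rw [intervalIntegral.integral_const_mul, intervalIntegral.integral_sub hI
      intervalIntegrable_const, intervalIntegral.integral_const]
    simp [Phi]
  have hmono : Real.exp (-z2) / 4 * (Phi ρ n K F - c) ≤ Phi ρ n (K + 1) F := by
    rw [← hint]
    unfold Phi
    refine intervalIntegral.integral_mono_on_of_le_Ioo zero_le_one ?_ hI1 hpt
    exact (hI.sub intervalIntegrable_const).const_mul _
  refine le_trans ?_ hmono
  have he : 0 < Real.exp (-z2) := Real.exp_pos _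
  have h5 : Phi ρ n K F / 2 ≤ Phi ρ n K F - c := by linarith
  calc Real.exp (-z2) / 8 * Phi ρ n K F = Real.exp (-z2) / 4 * (Phi ρ n K F / 2) := by ring
    _ ≤ Real.exp (-z2) / 4 * (Phi ρ n K F - c) :=
        mul_le_mul_of_nonneg_left h5 (by positivity)

end Pool.Agent.Work.MP_f1a024_nt.EX
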