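import Pool.Agent.Work.MP_f1a024_nt.EX.Stmts

set_option autoImplicit false

/-! Item TOP of the block [f1a024 EX]: multiplication by a power of `X`. -/

namespace Pool.Agent.Work.MP_f1a024_nt.EX

open Polynomial Finset

namespace I_TOP

/-- the coefficients after multiplication with `X^t` -/
theorem cf (t : ℕ) (F : ℤ[X][X]) (s i : ℕ) :
    ((Polynomial.C (Polynomial.X ^ t) * F).coeff s).coeff i =
      if t ≤ i then (F.coeff s).coeff (i - t) else 0 := by
  rw [Polynomial.coeff_C_mul, Polynomial.coeff_X_pow_mul']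

theorem psm (t : ℕ) (F : ℤ[X][X]) :
    ps (Polynomial.C (Polynomial.X ^ t) * F) = PowerSeries.exp ℚ ^ t * ps F := by
  unfold ps
  rw [Polynomial.eval₂_mul, Polynomial.eval₂_C, Polynomial.coe_eval₂RingHom,
    Polynomial.eval₂_X_pow]

/-- a shift makes the sum smaller -/
theorem shf (t n : ℕ) (g : ℕ → ℝ) (hg : ∀ i, 0 ≤ g i) (ht : t ≤ n) :
    ∑ i ∈ range n, (if t ≤ i then g (i - t) else 0) ≤ ∑ i ∈ range n, g i := by
  obtain ⟨m, rfl⟩ := Nat.exists_eq_add_of_le ht
  rw [Finset.sum_range_add]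
  have h1 : ∑ i ∈ range t, (if t ≤ i then g (i - t) else 0) = 0 := by
    apply Finset.sum_eq_zero
    intro i hi
    rw [if_neg (not_le.mpr (Finset.mem_range.mp hi))]
  have h2 : ∑ i ∈ range m, (if t ≤ t + i then g (t + i - t) else 0) = ∑ i ∈ range m, g i := by
    apply Finset.sum_congr rfl
    intro i _
    rw [if_pos (Nat.le_add_right t i), Nat.add_sub_cancel_left]
  rw [h1, h2, zero_add]
  exact Finset.sum_le_sum_of_subset_of_nonneg
    (Finset.range_subset_range.mpr (Nat.le_add_left m t)) (fun i _ _ => hg i)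

end I_TOP

open I_TOP in
/-- Item TOP. -/
theorem TOP_pf : S_TOP := by
  intro ρ a δ F hF hB hd
  classical
  obtain ⟨S, hS⟩ : ∃ S : Finset ℕ, S = (range (ρ + 1)).filter
      (fun i => ∃ s, s < a ∧ (F.coeff s).coeff i ≠ 0) := ⟨_, rfl⟩
  have hSm : ∀ i, i ∈ S ↔ i ≤ ρ ∧ ∃ s, s < a ∧ (F.coeff s).coeff i ≠ 0 := by
    intro i
    rw [hS, Finset.mem_filter, Finset.mem_range, Nat.lt_succ_iff]
  have hne : S.Nonempty := by
    by_contra hem
    rw [Finset.not_nonempty_iff_eq_empty] at hem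
    apply hF
    ext s i
    rw [Polynomial.coeff_zero, Polynomial.coeff_zero]
    by_contra h0
    rcases Nat.lt_or_ge s a with hs | hs
    · rcases Nat.lt_or_ge ρ i with hi | hi
      · exact h0 (hB s i (Or.inr hi))
      · have : i ∈ S := (hSm i).mpr ⟨hi, s, hs, h0⟩
        rw [hem] at this
        exact Finset.notMem_empty _ this
    · exact h0 (hB s i (Or.inl hs))
  obtain ⟨i0, hi0⟩ : ∃ i0, i0 = S.max' hne := ⟨_, rfl⟩
  have hi0S : i0 ∈ S := hi0 ▸ S.max'_mem hne
  have hmax : ∀ i ∈ S, i ≤ i0 := fun i hi => hi0 ▸ S.le_max' i hi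
  obtain ⟨hi0ρ, s0, hs0, hne0⟩ := (hSm i0).mp hi0S
  have hzero : ∀ s i, i0 < i → (F.coeff s).coeff i = 0 := by
    intro s i hi
    by_contra h0
    rcases Nat.lt_or_ge s a with hs | hs
    · rcases Nat.lt_or_ge ρ i with hi' | hi'
      · exact h0 (hB s i (Or.inr hi'))
      · exact absurd (hmax i ((hSm i).mpr ⟨hi', s, hs, h0⟩)) (not_le.mpr hi)
    · exact h0 (hB s i (Or.inl hs))
  refine ⟨Polynomial.C (Polynomial.X ^ (ρ - i0)) * F, ?_, ?_, ?_, s0, hs0, ?_⟩
  · intro s i hsi
    rw [cf]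
    split_ifs with hti
    · rcases hsi with hs | hi
      · exact hB s _ (Or.inl hs)
      · exact hzero s _ (by omega)
    · rfl
  · rw [psm]
    exact Dvd.dvd.mul_left hd _
  · unfold nm
    rw [Finset.sum_comm, Finset.sum_comm (s := range (ρ + 1)) (t := range a)
      (f := fun i s => |(((F.coeff s).coeff i : ℤ) : ℝ)|)]
    apply Finset.sum_le_sum
    intro s _
    have h1 := shf (ρ - i0) (ρ + 1) (fun i => |(((F.coeff s).coeff i : ℤ) : ℝ)|)
      (fun i => abs_nonneg _) (by omega)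
    refine le_trans (le_of_eq ?_) h1
    apply Finset.sum_congr rfl
    intro i _
    rw [cf]
    split_ifs with hti
    · rfl
    · simp
  · rw [cf, if_pos (Nat.sub_le ρ i0)]
    have : ρ - (ρ - i0) = i0 := by omega
    rw [this]
    exact hne0

end Pool.Agent.Work.MP_f1a024_nt.EX
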