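import Pool.Agent.Work.MP_f1a024_nt.EX.Stmts

set_option autoImplicit false

namespace Pool.Agent.Work.MP_f1a024_nt.EX

namespace I_UBD

theorem half (w : ℝ) (h : 1 / 2 ≤ w) (h1 : w < 1) :
    Real.exp (-|lw w|) / 4 ≤ w * (1 - w) ∧ w * (1 - w) ≤ Real.exp (-|lw w|) := by
  have h0 : 0 < w := by linarith
  have h2 : 0 < 1 - w := by linarith
  have h3 : 1 ≤ w / (1 - w) := by rw [le_div_iff₀ h2]; linarith
  have h4 : 0 ≤ lw w := Real.log_nonneg h3
  have h5 : Real.exp (-|lw w|) = (1 - w) / w := by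
    rw [abs_of_nonneg h4, Real.exp_neg, lw, Real.exp_log (by positivity), inv_div]
  rw [h5]
  constructor
  · rw [div_div, div_le_iff₀ (by positivity)]
    nlinarith [mul_nonneg (mul_nonneg h2.le (by linarith : (0:ℝ) ≤ 2 * w - 1))
      (by linarith : (0:ℝ) ≤ 2 * w + 1)]
  · rw [le_div_iff₀ h0]
    nlinarith [mul_nonneg h2.le (mul_nonneg h2.le (by linarith : (0:ℝ) ≤ 1 + w))]

theorem lw_symm (w : ℝ) (h0 : 0 < w) (h1 : w < 1) : lw (1 - w) = -lw w := by
  have h2 : (0:ℝ) < 1 - w := by linarith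
  unfold lw
  rw [← Real.log_inv, inv_div]
  congr 2
  ring

end I_UBD

theorem UBD_pf : S_UBD := by
  intro w h0 h1
  rcases le_total (1 / 2) w with h | h
  · exact I_UBD.half w h h1
  · have := I_UBD.half (1 - w) (by linarith) (by linarith)
    rw [I_UBD.lw_symm w h0 h1, abs_neg] at this
    have e : (1 - w) * (1 - (1 - w)) = w * (1 - w) := by ring
    rwa [e] at this

end Pool.Agent.Work.MP_f1a024_nt.EX
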