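import Mathlib
import Pool.Agent.Work.MP_f1a024_nt.EX.Stmts

set_option autoImplicit false

/-!
Block EX, item UPP: the upper bound for the integral `Phi`.
-/

namespace Pool.Agent.Work.MP_f1a024_nt.EX

open Real Polynomial MeasureTheory Finset Filter Topology
open scoped Nat
open Pool.Agent.Work.MP_f1a024_nt.HP (evr Ez JJ Qz FF pp)

theorem UPP_pf (h1 : S_PW1) (h2 : S_PW2) : S_UPP := by
  intro ρ a δ n K F τ hB hX hn ha hδ hK hτ
  set A : ℝ := nm ρ a F ^ 2 * (1 + τ) ^ (2 * a) * Real.exp (2 * ρ * τ) / τ ^ (2 * δ) *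
        (((2 * δ - n - 1)! : ℝ) / (K : ℝ) ^ (2 * δ - n - 1)) with hA
  set B : ℝ := nm ρ a F ^ 2 * 4 ^ a * Real.exp (-(K * τ)) with hBd
  have hτ0 : 0 < τ := by linarith
  have hpt : ∀ w : ℝ, 0 < w → w < 1 → fw ρ n K F w ≤ max A B := by
    intro w hw0 hw1
    rcases le_or_gt |lw w| τ with h | h
    · exact (h2 ρ a δ n K F τ hB hX hn hδ hK hτ0 w hw0 hw1 h).trans (le_max_left _ _)
    · refine (h1 ρ a n K F hB hn ha w hw0 hw1 (by linarith)).trans
        (le_trans ?_ (le_max_right _ _))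
      rw [hBd]
      refine mul_le_mul_of_nonneg_left (Real.exp_le_exp.2 ?_) (by positivity)
      have hK0 : (0 : ℝ) ≤ K := Nat.cast_nonneg _
      nlinarith
  have hB0 : 0 ≤ B := by
    rw [hBd]
    positivity
  have hM0 : 0 ≤ max A B := hB0.trans (le_max_right _ _)
  unfold Phi
  by_cases hint : IntervalIntegrable (fw ρ n K F) volume 0 1
  · have h3 : ∫ w in (0 : ℝ)..1, fw ρ n K F w ≤ ∫ _ in (0 : ℝ)..1, max A B :=
      intervalIntegral.integral_mono_on_of_le_Ioo zero_le_one hint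
        intervalIntegrable_const fun w hw => hpt w hw.1 hw.2
    refine h3.trans (le_of_eq ?_)
    simp
  · rw [intervalIntegral.integral_undef hint]
    exact hM0

end Pool.Agent.Work.MP_f1a024_nt.EX
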