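import Mathlib
import Pool.Agent.Work.MP_f1a024_nt.EX.Stmts2

set_option autoImplicit false

/-!
Assembly of the theorem for `G_n`, one block (block [f1a024 EX], helper70).
-/

namespace Pool.Agent.Work.MP_f1a024_nt.EX

open Real Polynomial MeasureTheory Finset Filter Topology
open scoped Nat

theorem MAG2_pf (hFAM : S_FAM2) (hCRI : S_CRI) (hNA : S_NA2) (hNH : S_NH2) : S_MAG2 := by
  classical
  intro N L m α V ω T hN hLN hm hα hV hLV h1 h2
  by_contra hcon
  push Not at hcon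
  set β : ℝ := V ^ 3 / (10 ^ 7 * (m * L)) with hβdef
  have hm1 : (1 : ℝ) ≤ m := by exact_mod_cast hm
  have hL0 : (0 : ℝ) ≤ L := Nat.cast_nonneg L
  have hV3 : 0 ≤ V ^ 3 := by positivity
  have hβ0 : 0 ≤ β := by
    rw [hβdef]
    positivity
  have hβL : m * (L * β) ≤ V ^ 3 / 10 ^ 7 := by
    rcases Nat.eq_zero_or_pos L with hL | hL
    · rw [hL]
      simp only [Nat.cast_zero, zero_mul, mul_zero]
      positivity
    · have hLR : (0 : ℝ) < L := by exact_mod_cast hL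
      rw [hβdef]
      apply le_of_eq
      field_simp
  obtain ⟨l, δ, hNum, h40, hα', hme, hβ'⟩ :=
    hNA N L m T.card α β V hN hLN hm hα hV hLV h1 h2 hβL
  obtain ⟨f1, f2, f3, f4, f5, f6⟩ := hNum.facts
  have hl9 : 900000000 ≤ l := by exact_mod_cast f6
  have hδ1 : (8 : ℝ) ≤ δ := by linarith
  have hlN := hNum.hlN
  -- choice of the relations
  have hch : ∀ k : ℕ, ∃ (a : Fin m → ℤ) (b : ℕ), 1 ≤ b ∧ (b : ℝ) ≤ Real.exp β ∧
      (k ∉ T → Odd k → 3 ≤ k → N ≤ k + L → k ≤ N →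
        (∀ i, |(a i : ℝ)| ≤ Real.exp α) ∧ (b : ℝ) * 2 ^ k * OddG.G k = ∑ i, (a i : ℝ) * ω i) := by
    intro k
    by_cases hk : k ∉ T ∧ Odd k ∧ 3 ≤ k ∧ N ≤ k + L ∧ k ≤ N
    · obtain ⟨a, b, ha, hb1, hb2, hab⟩ := hcon k hk.1 hk.2.1 hk.2.2.1 hk.2.2.2.1 hk.2.2.2.2
      exact ⟨a, b, hb1, hb2, fun _ _ _ _ _ => ⟨ha, hab⟩⟩
    · refine ⟨0, 1, le_rfl, ?_, fun g1 g2 g3 g4 g5 => absurd ⟨g1, g2, g3, g4, g5⟩ hk⟩
      rw [Nat.cast_one]
      exact Real.one_le_exp hβ0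
  choose a b hb1 hb2 hab using hch
  set ν : ℕ := (N - 34 * l - 3) / 2 with hν
  have hν1 : 2 * ν + 34 * l + 3 ≤ N := by omega
  have hν2 : N ≤ 2 * ν + 34 * l + 4 := by omega
  have hν3 : l ≤ ν := by omega
  obtain ⟨K1, P, hK1, hH, hlow, hup, hstep⟩ := hFAM N l δ ν hNum hν1 hν3
  set J : Finset ℕ := Icc (ν + 2 - l) (ν + 17 * l + 1) with hJ
  have hJc : J.card = 18 * l := by
    rw [hJ, Nat.card_Icc]
    omega
  have hJk : ∀ j ∈ J, Odd (2 * j + 1) ∧ 3 ≤ 2 * j + 1 ∧ N ≤ 2 * j + 1 + L ∧ 2 * j + 1 ≤ N := by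
    intro j hj
    rw [hJ, Finset.mem_Icc] at hj
    refine ⟨⟨j, rfl⟩, by omega, by omega, by omega⟩
  set D : ℕ := ∏ j ∈ J, (2 * (2 * j + 1) * b (2 * j + 1)) with hD
  set M : ℕ := 2 ^ N * D with hM
  have hD1 : 1 ≤ D := by
    rw [hD]
    refine Nat.one_le_iff_ne_zero.2 (Finset.prod_ne_zero_iff.2 ?_)
    intro j _
    have := hb1 (2 * j + 1)
    positivity
  have hM1 : 1 ≤ M := by
    rw [hM]
    exact Nat.one_le_iff_ne_zero.2 (mul_ne_zero (by positivity) (by omega))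
  have hMle : (M : ℝ) ≤ 2 ^ N * (2 * N * Real.exp β) ^ (18 * l) := by
    rw [hM]
    push_cast
    refine mul_le_mul_of_nonneg_left ?_ (by positivity)
    rw [hD, ← hJc]
    push_cast
    rw [← Finset.prod_const]
    refine Finset.prod_le_prod ?_ ?_
    · intro j _
      positivity
    · intro j hj
      have e1 : (2 * (j : ℝ) + 1) ≤ N := by exact_mod_cast (hJk j hj).2.2.2
      have e2 := hb2 (2 * j + 1)
      have e3 : (0 : ℝ) ≤ (b (2 * j + 1) : ℝ) := Nat.cast_nonneg _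
      have e4 : (0 : ℝ) ≤ 2 * (j : ℝ) + 1 := by positivity
      calc 2 * (2 * (j : ℝ) + 1) * (b (2 * j + 1) : ℝ) ≤ 2 * N * (b (2 * j + 1) : ℝ) := by gcongr
        _ ≤ 2 * N * Real.exp β := by gcongr
  set E : Finset ℕ := J.filter (fun j => 2 * j + 1 ∈ T) with hE
  have hEc : E.card ≤ T.card := by
    refine Finset.card_le_card_of_injOn (fun j => 2 * j + 1) ?_ ?_
    · intro j hj
      have hj' : j ∈ E := hj
      rw [hE, Finset.mem_filter] at hj'
      exact hj'.2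
    · intro x _ y _ hxy
      have : 2 * x + 1 = 2 * y + 1 := hxy
      omega
  have hme' : 3000 * ((m + (E.card : ℝ)) * (δ * Real.log N)) ≤ (l : ℝ) ^ 2 := by
    refine le_trans ?_ hme
    have e1 : (E.card : ℝ) ≤ T.card := by exact_mod_cast hEc
    have e2 := hNum.hlog
    gcongr
  obtain ⟨Q1, Q2, R, hQ1, hQ2, hR, hRexp, hQ, herr⟩ :=
    hNH N l δ m E.card M α β hNum hm hα hβ0 hα' hme' hβ' hM1 hMle
  have hpi3 := Real.pi_gt_three
  have hpi4 := Real.pi_lt_four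
  have hv0 : ∀ K, 0 ≤ vw l ν (P K) := fun K => abs_nonneg _
  refine hCRI m J E gj ω M R Q1 Q2 K1 (16 * l) P (Real.exp (43 * ht N l δ)) (M * Real.exp α)
    (Real.exp (-(71 * ht N l δ))) hM1 hR hQ1 hQ2 hK1 (Real.exp_pos _) ?_ (Real.exp_pos _).le
    (by positivity) ?_ ?_ ?_ ?_ ?_ ?_
  · rw [Real.exp_le_one_iff]
    have : 0 ≤ ht N l δ := by
      have : (0 : ℝ) ≤ l := Nat.cast_nonneg _
      linarith
    linarith
  · -- the good indices
    intro j hj hjE
    obtain ⟨k1, k2, k3, k4⟩ := hJk j hj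
    have hjT : 2 * j + 1 ∉ T := by
      intro hc
      exact hjE (by rw [hE, Finset.mem_filter]; exact ⟨hj, hc⟩)
    obtain ⟨ha, hrel⟩ := hab (2 * j + 1) hjT k1 k2 k3 k4
    set D' : ℕ := ∏ i ∈ J.erase j, (2 * (2 * i + 1) * b (2 * i + 1)) with hD'
    have hDD : 2 * (2 * j + 1) * b (2 * j + 1) * D' = D := by
      rw [hD, hD']
      exact Finset.mul_prod_erase J (fun j => 2 * (2 * j + 1) * b (2 * j + 1)) hj
    have hD'D : D' ≤ D := by
      rw [← hDD]
      have : 1 ≤ 2 * (2 * j + 1) * b (2 * j + 1) := by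
        have := hb1 (2 * j + 1)
        nlinarith
      nlinarith
    refine ⟨fun i => ((2 ^ (N - (2 * j + 1)) * D' : ℕ) : ℤ) * a (2 * j + 1) i, ?_, ?_⟩
    · intro i
      push_cast
      rw [abs_mul, abs_of_nonneg (by positivity)]
      have e1 : (2 : ℝ) ^ (N - (2 * j + 1)) * (D' : ℝ) ≤ M := by
        have : 2 ^ (N - (2 * j + 1)) * D' ≤ M := by
          rw [hM]
          exact Nat.mul_le_mul (Nat.pow_le_pow_right (by norm_num) (by omega)) hD'D
        exact_mod_cast this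
      exact mul_le_mul e1 (ha i) (abs_nonneg _) (by positivity)
    · have e2 : (M : ℝ) * gj j = (2 : ℝ) ^ (N - (2 * j + 1)) * (D' : ℝ) *
          ((b (2 * j + 1) : ℝ) * 2 ^ (2 * j + 1) * OddG.G (2 * j + 1)) := by
        rw [hM, ← hDD]
        unfold gj
        push_cast
        have e3 : (2 : ℝ) ^ N = 2 ^ (N - (2 * j + 1)) * 2 ^ (2 * j + 1) := by
          rw [← pow_add]
          congr 1
          omega
        rw [e3]
        have e4 : (2 * (j : ℝ) + 1) ≠ 0 := by positivity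
        field_simp
      rw [e2, hrel, Finset.mul_sum]
      refine Finset.sum_congr rfl fun i _ => ?_
      push_cast
      ring
  · intro K _ hK j _
    exact hH K hK j
  · -- K1
    have e1 : Real.exp ((δ : ℝ) / 4) * Real.exp (-((δ : ℝ) / 4)) = 1 := by
      rw [← Real.exp_add, add_neg_cancel, Real.exp_zero]
    have e2 : 1 ≤ (R : ℝ) * (π * vw l ν (P K1)) := by
      rw [← e1]
      exact mul_le_mul hRexp hlow (Real.exp_pos _).le (by positivity)
    have e3 : (0 : ℝ) ≤ (R : ℝ) * vw l ν (P K1) := mul_nonneg (Nat.cast_nonneg _) (hv0 _)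
    change 1 ≤ 4 * ((R : ℝ) * vw l ν (P K1))
    nlinarith
  · -- 16 l
    change 4 * ((Q1 : ℝ) ^ m * (Q2 : ℝ) ^ E.card * R * M * vw l ν (P (16 * l))) < 1
    set X : ℝ := (Q1 : ℝ) ^ m * (Q2 : ℝ) ^ E.card * R * M with hX
    have hX0 : 0 ≤ X := by positivity
    have e1 : X * (π * vw l ν (P (16 * l))) ≤
        Real.exp (7 / 8 * (δ : ℝ)) * Real.exp (-(δ : ℝ)) :=
      mul_le_mul hQ hup (mul_nonneg Real.pi_pos.le (hv0 _)) (Real.exp_pos _).le
    have e2 : Real.exp (7 / 8 * (δ : ℝ)) * Real.exp (-(δ : ℝ)) = Real.exp (-((δ : ℝ) / 8)) := by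
      rw [← Real.exp_add]
      congr 1
      ring
    have e3 : Real.exp (-((δ : ℝ) / 8)) ≤ 1 / 2 := by
      rw [Real.exp_neg, inv_eq_one_div]
      refine one_div_le_one_div_of_le (by norm_num) ?_
      have := Real.add_one_le_exp ((δ : ℝ) / 8)
      linarith
    have e4 : 0 ≤ X * vw l ν (P (16 * l)) := mul_nonneg hX0 (hv0 _)
    rw [e2] at e1
    nlinarith
  · -- steps
    intro K hK1K hK hbig
    change 1 ≤ 4 * ((Q1 : ℝ) ^ m * (Q2 : ℝ) ^ E.card * R * M * vw l ν (P K)) at hbig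
    change Real.exp (-(71 * ht N l δ)) * vw l ν (P K) ≤ vw l ν (P (K + 1))
    refine hstep K hK1K hK ?_
    have e0 : 1 ≤ 4 * (Real.exp (7 / 8 * (δ : ℝ)) * vw l ν (P K)) := by
      refine hbig.trans ?_
      have := hv0 K
      gcongr
    have e1 : Real.exp (-(δ : ℝ)) * Real.exp (7 / 8 * (δ : ℝ)) = Real.exp (-((δ : ℝ) / 8)) := by
      rw [← Real.exp_add]
      congr 1
      ring
    have e3 : Real.exp (-((δ : ℝ) / 8)) ≤ 1 / 2 := by
      rw [Real.exp_neg, inv_eq_one_div]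
      refine one_div_le_one_div_of_le (by norm_num) ?_
      have := Real.add_one_le_exp ((δ : ℝ) / 8)
      linarith
    have e4 := Real.exp_pos (-(δ : ℝ))
    have e5 : Real.exp (-(δ : ℝ)) ≤
        4 * (Real.exp (-(δ : ℝ)) * Real.exp (7 / 8 * (δ : ℝ)) * vw l ν (P K)) := by
      nlinarith
    rw [e1] at e5
    have e6 := hv0 K
    nlinarith
  · rw [hJc]
    exact herr

end Pool.Agent.Work.MP_f1a024_nt.EX
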