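import Mathlib
import Pool.Agent.Work.MP_f1a024_nt.HP.I_FOU
import Pool.Agent.Work.MP_f1a024_nt.HP.I_QEV
import Pool.Agent.Work.MP_f1a024_nt.EX.Fam2
import Pool.Agent.Work.MP_f1a024_nt.EX.Mag2
import Pool.Agent.Work.MP_f1a024_nt.EX.I_BET
import Pool.Agent.Work.MP_f1a024_nt.EX.I_CRI
import Pool.Agent.Work.MP_f1a024_nt.EX.I_DI2
import Pool.Agent.Work.MP_f1a024_nt.EX.I_EZG
import Pool.Agent.Work.MP_f1a024_nt.EX.I_FRG
import Pool.Agent.Work.MP_f1a024_nt.EX.I_GWE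
import Pool.Agent.Work.MP_f1a024_nt.EX.I_JEX
import Pool.Agent.Work.MP_f1a024_nt.EX.I_LGW
import Pool.Agent.Work.MP_f1a024_nt.EX.I_LOW
import Pool.Agent.Work.MP_f1a024_nt.EX.I_MOM
import Pool.Agent.Work.MP_f1a024_nt.EX.I_NA2
import Pool.Agent.Work.MP_f1a024_nt.EX.I_NB2
import Pool.Agent.Work.MP_f1a024_nt.EX.I_NC2
import Pool.Agent.Work.MP_f1a024_nt.EX.I_ND2
import Pool.Agent.Work.MP_f1a024_nt.EX.I_NE2
import Pool.Agent.Work.MP_f1a024_nt.EX.I_NF2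
import Pool.Agent.Work.MP_f1a024_nt.EX.I_NG2
import Pool.Agent.Work.MP_f1a024_nt.EX.I_NH2
import Pool.Agent.Work.MP_f1a024_nt.EX.I_PHB
import Pool.Agent.Work.MP_f1a024_nt.EX.I_PHI
import Pool.Agent.Work.MP_f1a024_nt.EX.I_PPG
import Pool.Agent.Work.MP_f1a024_nt.EX.I_PSC
import Pool.Agent.Work.MP_f1a024_nt.EX.I_PW1
import Pool.Agent.Work.MP_f1a024_nt.EX.I_PW2
import Pool.Agent.Work.MP_f1a024_nt.EX.I_REX2
import Pool.Agent.Work.MP_f1a024_nt.EX.I_SIE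
import Pool.Agent.Work.MP_f1a024_nt.EX.I_SPL
import Pool.Agent.Work.MP_f1a024_nt.EX.I_SQ
import Pool.Agent.Work.MP_f1a024_nt.EX.I_STP
import Pool.Agent.Work.MP_f1a024_nt.EX.I_TOP
import Pool.Agent.Work.MP_f1a024_nt.EX.I_UBD
import Pool.Agent.Work.MP_f1a024_nt.EX.I_UPP

set_option autoImplicit false

/-!
Assembly of the block [f1a024 EX] (captain helper70).
-/

namespace Pool.Agent.Work.MP_f1a024_nt.EX

open Pool.Agent.Work.MP_f1a024_nt (HP.FOU_pf HP.QEV_pf)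

theorem LOW_ok : S_LOW := LOW_pf (LGW_pf GWE_pf) UBD_pf

theorem PW1_ok : S_PW1 := PW1_pf GWE_pf UBD_pf

theorem UPP_ok : S_UPP := UPP_pf PW1_ok (PW2_pf (PHB_pf PSC_pf) UBD_pf)

theorem FAM2_ok : S_FAM2 :=
  FAM2_pf (SIE_pf PSC_pf) TOP_pf (MOM_pf PSC_pf) SQ_pf (FRG_pf HP.FOU_pf EZG_pf HP.QEV_pf)
    (PPG_pf HP.QEV_pf) (PHI_pf BET_pf JEX_pf) UPP_ok (STP_pf UBD_pf PW1_ok) LOW_ok NB2_pf NC2_pf
    ND2_pf NE2_pf NF2_pf NG2_pf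

theorem MAG2_ok : S_MAG2 := MAG2_pf FAM2_ok (CRI_pf DI2_pf) NA2_pf NH2_pf

theorem REX2_ok : S_REX2 := REX2_pf MAG2_ok

theorem SPL_ok : S_SPL := SPL_pf REX2_ok

end Pool.Agent.Work.MP_f1a024_nt.EX
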