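import Mathlib
import Pool.Agent.Work.MP_f1a024_nt.EX.Stmts2

set_option autoImplicit false

/-!
Third part of the block [f1a024 EX] (helper70): Siegel's lemma in the binomial basis. The height of
the auxiliary polynomial is `exp (O(l log N + (δ^2/l^2) log (l^2/δ)))` instead of
`exp (O((δ^2/l^2) log N))`; the number `h` of part two becomes a free parameter (`Num3`). The items
NC3, ND3, NE3, NF3, NG3, NH3, REX3 are the items NC2, ND2, NE2, NF2, NG2, NH2, REX2 with `h` in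
place of `ht N l δ` (word for word the same proofs: they only use the facts in `Num3.facts`).
-/

namespace Pool.Agent.Work.MP_f1a024_nt.EX

open Real Polynomial MeasureTheory Finset Filter Topology
open scoped Nat
open Pool.Agent.Work.MP_f1a024_nt.HP (evr Ez JJ Qz FF pp)

/-! ### G. Siegel's lemma in the binomial basis -/

/-- The binomial polynomial `C(X,w)`. -/
noncomputable def bp (w : ℕ) : ℚ[X] := Polynomial.C (1 / (w ! : ℚ)) * descPochhammer ℚ w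

/-- `p_b = C(X,w)^(b/w) C(X, b mod w)`, a polynomial of degree `b`. -/
noncomputable def pb (w b : ℕ) : ℚ[X] := bp w ^ (b / w) * bp (b % w)

/-- The `l1` norm of the coefficients. -/
noncomputable def n1 (p : ℚ[X]) : ℝ := ∑ s ∈ range (p.natDegree + 1), |((p.coeff s : ℚ) : ℝ)|

/-- PBD. `p_b` has degree `b` (`descPochhammer` is monic of degree `w`; `w (b/w) + b mod w = b`). -/
def S_PBD : Prop := ∀ w b : ℕ, 1 ≤ w → (pb w b).natDegree = b ∧ pb w b ≠ 0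

/-- LIN. The functional `L(p) = sum_(i,s) f_is p^(s)(i)` is linear in `p` and
`L(x^k) = k! [z^k] ps F` (PSC; `(x^k)^(s) = k(k-1)..(k-s+1) x^(k-s)`,
`Polynomial.iterate_derivative_X_pow_eq_natCast_mul`). If it vanishes on polynomials `p_b` of degree
exactly `b`, `b < δ`, then by strong induction on `k < δ` also `L(x^k) = 0`
(`p_k = c x^k + lower terms`, `c != 0`). So `X^δ ∣ ps F`. Uses PSC. -/
def S_LIN : Prop :=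
  ∀ (ρ a δ : ℕ) (F : ℤ[X][X]) (p : ℕ → ℚ[X]), Box ρ a F →
    (∀ b < δ, (p b).natDegree = b ∧ p b ≠ 0) →
    (∀ b < δ, ∑ i ∈ range (ρ + 1), ∑ s ∈ range a,
      ((F.coeff s).coeff i : ℚ) * (derivative^[s] (p b)).eval (i : ℚ) = 0) →
    (PowerSeries.X : PowerSeries ℚ) ^ δ ∣ ps F

/-- NMU. The norm is submultiplicative, bounds the coefficients, and is subadditive. -/
def S_NMU : Prop :=
  (∀ p q : ℚ[X], n1 (p * q) ≤ n1 p * n1 q) ∧ (∀ p q : ℚ[X], n1 (p + q) ≤ n1 p + n1 q) ∧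
    (∀ (p : ℚ[X]) (s : ℕ), |((p.coeff s : ℚ) : ℝ)| ≤ n1 p)

/-- VDM. Vandermonde: `C(i+y, v) = sum_(t<=v) C(i,v-t) C(y,t)` as polynomials in `y` (both sides
agree at all natural numbers `y`, `Nat.add_choose_eq`). -/
def S_VDM : Prop :=
  ∀ v i : ℕ, taylor (i : ℚ) (bp v) =
    ∑ t ∈ range (v + 1), Polynomial.C ((i.choose (v - t) : ℚ)) * bp t

/-- BI. Denominators: `d^s [y^s] C(i+y,v)` is an integer, `d = lcm(1..w)`, `v <= w`. By VDM it is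
enough for `C(y,t) = (y/t) prod_(1<=j<t) (y/j - 1)`, `1 <= t <= w`; after `y = d η` this is
`(d/t) η prod ((d/j) η - 1)`, with integer coefficients. Uses VDM. -/
def S_BI : Prop :=
  ∀ w v i : ℕ, v ≤ w → ∀ s : ℕ, ∃ z : ℤ,
    (Nat.lcmUpto w : ℚ) ^ s * (taylor (i : ℚ) (bp v)).coeff s = z

/-- BN. The norm of `C(i+y,v)`, `v <= w <= l`, `i <= l`. The norm of `C(y,t)` is at most
`(1/t) prod_(1<=j<t) (1/j+1) = 1`, so by VDM the norm is at most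
`sum_(u<=v) C(i,u) <= sum_(u<=w) C(l,u) <= (e l/w)^w`; the last step:
`(w/l)^w sum_(u<=w) C(l,u) <= sum_(u<=w) C(l,u) (w/l)^u <= (1+w/l)^l <= e^w`. Uses VDM, NMU. -/
def S_BN : Prop :=
  ∀ l w v i : ℕ, 1 ≤ w → w ≤ l → v ≤ w → i ≤ l →
    n1 (taylor (i : ℚ) (bp v)) ≤ (Real.exp 1 * l / w) ^ w

/-- PBI. The Taylor coefficients of `p_b` at `i <= l`: products of BI and BN
(`taylor` is multiplicative, `b/w + 1` factors). Uses BI, BN, NMU. -/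
def S_PBI : Prop :=
  ∀ l w b i : ℕ, 1 ≤ w → w ≤ l → i ≤ l → ∀ s : ℕ,
    (∃ z : ℤ, (Nat.lcmUpto w : ℚ) ^ s * (taylor (i : ℚ) (pb w b)).coeff s = z) ∧
    |(((taylor (i : ℚ) (pb w b)).coeff s : ℚ) : ℝ)| ≤ (Real.exp 1 * l / w) ^ (w * (b / w + 1))

/-- SI3. Siegel's lemma: model `I_SIE.lean`. The `l(l+1)` unknowns `f_is` (`i <= l`, `s < l`), the
`δ` equations `sum_(i,s) f_is d^l p_b^(s)(i) = 0`, `b < δ`, `d = lcm(1..w)`. The coefficients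
`d^l p_b^(s)(i) = d^(l-s) s! (d^s [y^s] p_b(i+y))` are integers (PBI) of absolute value at most
`d^l l! (e l/w)^(w(δ/w+1))` (`e l/w >= 1`, `b/w <= δ/w`). A solution satisfies `X^δ ∣ ps F` by LIN,
PBD. Uses PBI, LIN, PBD. -/
def S_SI3 : Prop :=
  ∀ l δ w : ℕ, 1 ≤ w → w ≤ l → 1 ≤ δ → 2 * δ ≤ l ^ 2 →
    ∃ F : ℤ[X][X], F ≠ 0 ∧ Box l l F ∧ (PowerSeries.X : PowerSeries ℚ) ^ δ ∣ ps F ∧
      nm l l F ≤ (l * (l + 1) : ℝ) * ((l * (l + 1) : ℝ) *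
        ((Nat.lcmUpto w : ℝ) ^ l * (l ! : ℝ) * (Real.exp 1 * l / w) ^ (w * (δ / w + 1)))) ^
          ((δ : ℝ) / (l * (l + 1) - δ))

/-! ### H. Numbers with a free `h` -/

/-- The standing numerical hypotheses. -/
structure Num3 (N l δ : ℕ) (h : ℝ) : Prop where
  hN : 2 ≤ N
  h1 : 1 ≤ l
  hlN : 40 * l ≤ N
  hlog : 10 ≤ Real.log N
  hh : 2 * ((δ : ℝ) ^ 2 / (l : ℝ) ^ 2) * (7 + Real.log ((l : ℝ) ^ 2 / δ)) + l * Real.log N ≤ h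
  hδ : 2 * δ ≤ l ^ 2
  hd : 3000 * h ≤ δ
  hNl : N * Real.log N ≤ (δ : ℝ) / 60

/-- The facts used everywhere. -/
theorem Num3.facts {N l δ : ℕ} {h : ℝ} (H : Num3 N l δ h) :
    (l : ℝ) * Real.log N ≤ h ∧ 3000 * h ≤ δ ∧ (l : ℝ) * 10 ≤ h ∧
      (30000 : ℝ) * l ≤ δ ∧ (2 : ℝ) * δ ≤ (l : ℝ) ^ 2 ∧ (60000 : ℝ) ≤ l := by
  have hl1 : (1 : ℝ) ≤ l := by exact_mod_cast H.h1
  have hl0 : (0 : ℝ) < l := by linarith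
  have hlog := H.hlog
  have hd := H.hd
  have hδ2 : (2 : ℝ) * δ ≤ (l : ℝ) ^ 2 := by exact_mod_cast H.hδ
  have hNl := H.hNl
  have hN : (2 : ℝ) ≤ N := by exact_mod_cast H.hN
  have hδ0 : (0 : ℝ) < δ := by
    have : (0 : ℝ) < N * Real.log N := by
      have : (0 : ℝ) < N := by linarith
      positivity
    linarith
  have h1 : (l : ℝ) * Real.log N ≤ h := by
    refine le_trans ?_ H.hh
    have e1 : (0 : ℝ) ≤ Real.log ((l : ℝ) ^ 2 / δ) := by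
      apply Real.log_nonneg
      rw [le_div_iff₀ hδ0]
      linarith
    have e2 : (0 : ℝ) ≤ 2 * ((δ : ℝ) ^ 2 / (l : ℝ) ^ 2) * (7 + Real.log ((l : ℝ) ^ 2 / δ)) := by
      positivity
    linarith
  have h3 : (l : ℝ) * 10 ≤ h := by
    refine le_trans ?_ h1
    gcongr
  have h4 : (30000 : ℝ) * l ≤ δ := by linarith
  have h6 : (60000 : ℝ) ≤ l := by
    have : (60000 : ℝ) * l ≤ l * l := by nlinarith
    exact le_of_mul_le_mul_right this hl0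
  exact ⟨h1, hd, h3, h4, hδ2, h6⟩

/-- NB3. The norm of SI3 with `w = δ/l + 1` (natural division; `δ/l < w`, `w l <= δ+l <= 2δ`,
`w <= l`, `w <= δ`). `log lcm(1..w) <= 6w` (see `HP/I_NUM.lean`, `Chebyshev`), so
`l log lcm <= 6 w l <= 12 δ`; `log l! <= l log N`; `w(δ/w+1) <= δ+w <= 2δ` and
`1 + log(l/w) <= 1 + Λ`, `Λ = log(l^2/δ) >= 0`; `log(l(l+1)) <= 2 log N`; `δ/(l(l+1)-δ) <= 2δ/l^2`. So
the logarithm of the left side is at most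
`2λ + (2δ/l^2)(2λ + 14δ + 2δΛ + lλ) <= (l+4)λ + 4(δ^2/l^2)(7+Λ) <= 2h` (`λ = log N`,
`2δ <= l^2`, `l >= 4`). -/
def S_NB3 : Prop :=
  ∀ (N l δ : ℕ) (h : ℝ), Num3 N l δ h →
    (l * (l + 1) : ℝ) * ((l * (l + 1) : ℝ) *
      ((Nat.lcmUpto (δ / l + 1) : ℝ) ^ l * (l ! : ℝ) *
        (Real.exp 1 * l / ((δ / l + 1 : ℕ) : ℝ)) ^ ((δ / l + 1) * (δ / (δ / l + 1) + 1)))) ^
          ((δ : ℝ) / (l * (l + 1) - δ)) ≤ Real.exp (2 * h)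

/-- NC3. As NC2 (`I_NC2.lean`). -/
def S_NC3 : Prop :=
  ∀ (N l δ n : ℕ) (B h : ℝ), Num3 N l δ h → n ≤ N → n + 1 ≤ 2 * δ → 0 ≤ B →
    B ≤ Real.exp (2 * h) →
    (n ! : ℝ) * (((2 * l + 2 * (16 * l) + 1)! : ℝ) *
      max (B ^ 2 * (1 + (δ : ℝ) / l) ^ (2 * l) * Real.exp (2 * l * ((δ : ℝ) / l)) /
          ((δ : ℝ) / l) ^ (2 * δ) *
          (((2 * δ - n - 1)! : ℝ) / ((16 * l : ℕ) : ℝ) ^ (2 * δ - n - 1)))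
        (B ^ 2 * 4 ^ l * Real.exp (-(((16 * l : ℕ) : ℝ) * ((δ : ℝ) / l))))) ≤
      Real.exp (-(δ : ℝ))

/-- ND3. As ND2 (`I_ND2.lean`; `6h <= δ/500 <= l^2 <= N^2`). -/
def S_ND3 : Prop :=
  ∀ (N l δ : ℕ) (B h : ℝ), Num3 N l δ h → 1 ≤ B → B ≤ Real.exp (2 * h) →
    ∃ z1 : ℕ, 1 ≤ z1 ∧ B * ((z1 + l : ℕ) : ℝ) ^ l * Real.exp (-z1) ≤ 1 / 16 ∧
      (l : ℝ) * Real.exp (-z1) ≤ 1 / 2 ∧
      ∀ n K : ℕ, Real.exp (-(7 * (K + 4) * h)) ≤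
        (n ! : ℝ) * (1 / 16 / ((z1 + l : ℕ) : ℝ) ^ (n + 1) *
          (Real.exp (-((z1 + l : ℕ) : ℝ)) / 4) ^ K *
          (1 / (4 * B * (l : ℝ) * ((z1 + l : ℕ) : ℝ) ^ l) *
            (Real.exp (-((z1 + l : ℕ) : ℝ)) / 4)))

/-- NE3. As NE2. -/
def S_NE3 : Prop :=
  ∀ (N l δ n K : ℕ) (B h : ℝ), Num3 N l δ h → n ≤ N → K ≤ 16 * l → 0 ≤ B →
    B ≤ Real.exp (2 * h) →
    (((2 * l : ℕ) : ℝ) + K + 1) ^ (2 * l + 2 * K + 1) * (n : ℝ) ^ (2 * l - 1) *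
      (((2 * l)! : ℝ) * B ^ 2) ≤ Real.exp (43 * h)

/-- NF3. As NF2. -/
def S_NF3 : Prop :=
  ∀ (N l δ n K : ℕ) (B Φ h : ℝ), Num3 N l δ h → n ≤ N → K ≤ 16 * l → 0 ≤ B →
    B ≤ Real.exp (2 * h) → 0 ≤ Φ →
    Real.exp (-(δ : ℝ)) ≤ (n ! : ℝ) * (((2 * l + 2 * K + 1)! : ℝ) * Φ) →
    5 / 4 * (δ : ℝ) ≤ K * (70 * h) →
    B ^ 2 * 4 ^ l * Real.exp (-(K * (70 * h))) ≤ Φ / 2

/-- NG3. As NG2: `K1 = ⌈δ/(56h)⌉₊ <= δ/(560 l) + 1 <= 16 l`. -/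
def S_NG3 : Prop :=
  ∀ (N l δ : ℕ) (h : ℝ), Num3 N l δ h → ∃ K1 : ℕ, K1 ≤ 16 * l ∧
    5 / 4 * (δ : ℝ) ≤ K1 * (70 * h) ∧ 7 * (K1 + 4) * h ≤ (δ : ℝ) / 4

/-- NH3. As NH2 (`m <= δ <= l^2 <= N^2` from `3000 (m+e) h <= δ`, `h >= 1`). -/
def S_NH3 : Prop :=
  ∀ (N l δ m e M : ℕ) (α β h : ℝ), Num3 N l δ h → 1 ≤ m → 0 ≤ α → 0 ≤ β →
    m * (α + N * Real.log N) ≤ (δ : ℝ) / 60 →
    3000 * ((m + e) * h) ≤ δ → 3000 * (m * (l * β)) ≤ δ →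
    1 ≤ M → (M : ℝ) ≤ 2 ^ N * (2 * N * Real.exp β) ^ (18 * l) →
    ∃ Q1 Q2 R : ℕ, 1 ≤ Q1 ∧ 1 ≤ Q2 ∧ 1 ≤ R ∧ Real.exp ((δ : ℝ) / 4) ≤ R ∧
      (Q1 : ℝ) ^ m * (Q2 : ℝ) ^ e * R * M ≤ Real.exp (7 / 8 * (δ : ℝ)) ∧
      ((18 * l : ℕ) : ℝ) * (Real.exp (43 * h) *
        (m * (M * Real.exp α) / Q1 + 1 / Q2)) < Real.exp (-(71 * h)) / 4

/-- NA3. Choice of the parameters: `l = L/40`, `δ = ⌊V^3⌋₊`,
`h = lλ + 2(δ^2/l^2)(7 + log(l^2/δ))`, `λ = log N > 0`. Let `x = L^2/V^3` (`V > 0`, `L > 0`, otherwise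
`Nλ <= 0`). The second hypothesis gives `x >= 10^9 (m+e) log(3+x) >= 10^9`, the first
`V^3 >= 10^9 m N λ`. So `L^2 = x V^3 >= 10^18 N λ >= 10^18 L λ`: `L >= 10^17`, `λ >= 10`, and also
`L >= 10^8 √N`; `l >= L/41`, `V^3/2 <= δ <= V^3`; `2δ <= 2L^2/10^9 <= L^2/1681 <= l^2`.
(1) `(m+e) 2(δ^2/l^2)(7+log(l^2/δ)) <= (m+e) 3362 (V^3/x) 8 log(3+x) <= 26896 V^3/10^9 <= V^3/12000`
(`l^2/δ <= x`). (2) `(m+e) l λ <= V^3/12000`: as `(m+e) <= x/(10^9 log(3+x))` and `V^3 = L^2/x` it is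
enough that `x^2 λ <= 3*10^6 L log(3+x)`. If `log(3+x) >= λ/5` this follows from
`x^2/L = L^3/V^6 <= 8` (`L <= 2V^2`). Otherwise `x < N^(1/5)`, `x^2 λ <= 10 N^(2/5) N^(1/10) = 10 √N <= L`
(`λ = 10 log(N^(1/10)) <= 10 N^(1/10)`). So `3000(m+e)h <= V^3/2 <= δ`; the rest is clear
(`3000 m l β <= 75 m L β <= 75 V^3/10^9 <= δ`). -/
def S_NA3 : Prop :=
  ∀ (N L m e : ℕ) (α β V : ℝ), 2 ≤ N → L ≤ N → 1 ≤ m → 0 ≤ α → 0 ≤ β → 0 ≤ V →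
    L ≤ 2 * V ^ 2 → m * (α + N * Real.log N) ≤ V ^ 3 / 10 ^ 9 →
    (m + e) * (V ^ 3 * Real.log (3 + (L : ℝ) ^ 2 / V ^ 3)) ≤ (L : ℝ) ^ 2 / 10 ^ 9 →
    m * (L * β) ≤ V ^ 3 / 10 ^ 9 →
    ∃ (l δ : ℕ) (h : ℝ), Num3 N l δ h ∧ 40 * l ≤ L ∧ m * (α + N * Real.log N) ≤ (δ : ℝ) / 60 ∧
      3000 * ((m + e) * h) ≤ δ ∧ 3000 * (m * (l * β)) ≤ δ

/-! ### I. Assembly -/

/-- FAM3. The family of linear forms (captain). -/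
def S_FAM3 : Prop :=
  ∀ (N l δ ν : ℕ) (h : ℝ), Num3 N l δ h → 2 * ν + 34 * l + 3 ≤ N → l ≤ ν →
    ∃ (K1 : ℕ) (P : ℕ → ℕ → ℤ), K1 ≤ 16 * l ∧
      (∀ K ≤ 16 * l, ∀ j, |(P K j : ℝ)| ≤ Real.exp (43 * h)) ∧
      Real.exp (-((δ : ℝ) / 4)) ≤ π * vw l ν (P K1) ∧
      π * vw l ν (P (16 * l)) ≤ Real.exp (-(δ : ℝ)) ∧
      ∀ K, K1 ≤ K → K < 16 * l → Real.exp (-(δ : ℝ)) ≤ π * vw l ν (P K) →
        Real.exp (-(71 * h)) * vw l ν (P K) ≤ vw l ν (P (K + 1))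

/-- MAG3. The theorem for `G_n`, one block (captain). -/
def S_MAG3 : Prop :=
  ∀ (N L m : ℕ) (α V : ℝ) (ω : Fin m → ℝ) (T : Finset ℕ), 2 ≤ N → L ≤ N → 1 ≤ m → 0 ≤ α → 0 ≤ V →
    L ≤ 2 * V ^ 2 → m * (α + N * Real.log N) ≤ V ^ 3 / 10 ^ 9 →
    (m + T.card) * (V ^ 3 * Real.log (3 + (L : ℝ) ^ 2 / V ^ 3)) ≤ (L : ℝ) ^ 2 / 10 ^ 9 →
    ∃ n : ℕ, n ∉ T ∧ Odd n ∧ 3 ≤ n ∧ N ≤ n + L ∧ n ≤ N ∧
      ∀ (a : Fin m → ℤ) (b : ℕ), (∀ i, |(a i : ℝ)| ≤ Real.exp α) → 1 ≤ b →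
        (b : ℝ) ≤ Real.exp (V ^ 3 / (10 ^ 9 * (m * L))) →
        (b : ℝ) * 2 ^ n * OddG.G n ≠ ∑ i, (a i : ℝ) * ω i

/-- REX3. The block theorem for `t(n)`: as REX2 (`I_REX2.lean`), with MAG3. Uses MAG3. -/
def S_REX3 : Prop :=
  ∀ (N L m : ℕ) (α V : ℝ) (ω : Fin m → ℝ) (T : Finset ℕ), 2 ≤ N → L ≤ N → 1 ≤ m → 0 ≤ α → 0 ≤ V →
    L ≤ 2 * V ^ 2 → m * (α + N * Real.log N) ≤ V ^ 3 / 10 ^ 10 →
    (m + T.card) * (V ^ 3 * Real.log (3 + (L : ℝ) ^ 2 / V ^ 3)) ≤ (L : ℝ) ^ 2 / 10 ^ 10 →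
    ∃ n : ℕ, n ∉ T ∧ Odd n ∧ 3 ≤ n ∧ N ≤ n + L ∧ n ≤ N ∧
      ∀ (a : Fin m → ℤ) (b : ℕ), (∀ i, |(a i : ℝ)| ≤ Real.exp α) → 1 ≤ b →
        (b : ℝ) ≤ Real.exp (V ^ 3 / (10 ^ 10 * (m * L))) →
        riemannZeta (2 * n) / riemannZeta n ^ 2 * ((2 * n)! : ℂ) *
          (∑ i, (a i : ℂ) * (ω i : ℂ)) ^ 2 ≠ 2 ^ (2 * n - 1) * (bernoulli (2 * n) : ℂ) * b ^ 2

/-- SPL3. The final theorem from REX3: as SPL (`I_SPL.lean`), with `κ = 10^(-11)`.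
Case `L <= 2V^2`: REX3 as it is. Case `L > 2V^2` (blocks of length `L' = ⌈V^2⌉₊ <= 2V^2`): here
`L'^2/V^3 <= 4V` and `V^2 < N/2`, so `log(3 + L'^2/V^3) <= log N` (`V >= 1000`), and the second
hypothesis of REX3 follows from `(m+e') V^3 log N <= 4κ L'^2` exactly as in `I_SPL.lean` (there the
second hypothesis of the theorem is not used in this case). Uses REX3. -/
def S_SPL3 : Prop :=
  ∀ (N L m e : ℕ) (α V : ℝ) (ω : Fin m → ℝ), 2 ≤ N → L ≤ N → 1 ≤ m → 0 ≤ α → 0 ≤ V →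
    m * (α + N * Real.log N) ≤ V ^ 3 / 10 ^ 11 →
    (m + e) * (V ^ 3 * Real.log (3 + (L : ℝ) ^ 2 / V ^ 3)) ≤ (L : ℝ) ^ 2 / 10 ^ 11 →
    e * (V * Real.log N) ≤ L / 10 ^ 11 →
    ∃ S : Finset ℕ, e < S.card ∧ ∀ n ∈ S, Odd n ∧ 3 ≤ n ∧ N ≤ n + L ∧ n ≤ N ∧
      ∀ (a : Fin m → ℤ) (b : ℕ), (∀ i, |(a i : ℝ)| ≤ Real.exp α) → 1 ≤ b →
        (b : ℝ) ≤ Real.exp (max V (V ^ 3 / L) / (10 ^ 11 * m)) →
        riemannZeta (2 * n) / riemannZeta n ^ 2 * ((2 * n)! : ℂ) *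
          (∑ i, (a i : ℂ) * (ω i : ℂ)) ^ 2 ≠ 2 ^ (2 * n - 1) * (bernoulli (2 * n) : ℂ) * b ^ 2

end Pool.Agent.Work.MP_f1a024_nt.EX
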