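import Pool.Agent.Work.MP_f1a024_nt.EX.Stmts3

/-!
# MP_f1a024_nt, block EX, item BI: denominators in the binomial basis
-/

set_option autoImplicit false

namespace Pool.Agent.Work.MP_f1a024_nt.EX

open Real Polynomial MeasureTheory Finset Filter Topology
open scoped Nat

namespace I_BI

/-- integral after scaling the variable by `d` -/
def It (d : ℕ) (p : ℚ[X]) : Prop := ∀ s : ℕ, ∃ z : ℤ, (d : ℚ) ^ s * p.coeff s = z

variable {d : ℕ}

theorem It.mul {p q : ℚ[X]} (hp : It d p) (hq : It d q) : It d (p * q) := by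
  intro s
  choose a ha using hp
  choose b hb using hq
  refine ⟨∑ x ∈ antidiagonal s, a x.1 * b x.2, ?_⟩
  rw [Polynomial.coeff_mul, Finset.mul_sum]
  push_cast
  refine Finset.sum_congr rfl fun x hx => ?_
  rw [← ha, ← hb, ← Finset.HasAntidiagonal.mem_antidiagonal.1 hx, pow_add]
  ring

theorem It.add {p q : ℚ[X]} (hp : It d p) (hq : It d q) : It d (p + q) := by
  intro s
  obtain ⟨a, ha⟩ := hp s
  obtain ⟨b, hb⟩ := hq s
  refine ⟨a + b, ?_⟩
  rw [Polynomial.coeff_add, mul_add, ha, hb]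
  push_cast
  rfl

theorem It.const (z : ℤ) : It d (Polynomial.C (z : ℚ)) := by
  intro s
  rw [Polynomial.coeff_C]
  split_ifs with h
  · refine ⟨z, ?_⟩
    rw [h, pow_zero, one_mul]
  · exact ⟨0, by simp⟩

theorem It.lin {t : ℕ} (ht : t ∣ d) (h0 : t ≠ 0) : It d (Polynomial.C (1 / (t : ℚ)) * X) := by
  intro s
  rw [Polynomial.coeff_C_mul, Polynomial.coeff_X]
  split_ifs with h
  · obtain ⟨k, rfl⟩ := ht
    refine ⟨k, ?_⟩
    rw [← h, pow_one]
    have : (t : ℚ) ≠ 0 := by exact_mod_cast h0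
    push_cast
    field_simp
  · exact ⟨0, by simp⟩

theorem It.sum {s : Finset ℕ} {f : ℕ → ℚ[X]} (h : ∀ i ∈ s, It d (f i)) : It d (∑ i ∈ s, f i) := by
  classical
  induction s using Finset.induction_on with
  | empty => simpa using It.const (d := d) 0
  | insert a s ha ih =>
    rw [Finset.sum_insert ha]
    exact (h a (Finset.mem_insert_self a s)).add (ih fun i hi => h i (Finset.mem_insert_of_mem hi))

theorem bp_form {w : ℕ} (hd : ∀ t, 1 ≤ t → t ≤ w → t ∣ d) (t : ℕ) (ht : 1 ≤ t) (htw : t ≤ w) :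
    ∃ q : ℚ[X], It d q ∧ bp t = Polynomial.C (1 / (t : ℚ)) * X * q := by
  induction t, ht using Nat.le_induction with
  | base =>
    refine ⟨1, by simpa using It.const (d := d) 1, ?_⟩
    unfold bp
    simp
  | succ t ht ih =>
    obtain ⟨q, hq, he⟩ := ih (by omega)
    have h0 : (t : ℚ) ≠ 0 := by
      have : t ≠ 0 := by omega
      exact_mod_cast this
    refine ⟨q * (Polynomial.C (1 / (t : ℚ)) * X + Polynomial.C ((-1 : ℤ) : ℚ)),
      hq.mul ((It.lin (hd t ht (by omega)) (by omega)).add (It.const _)), ?_⟩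
    have h1 : bp (t + 1) = bp t * (Polynomial.C (1 / ((t + 1 : ℕ) : ℚ)) * (X - (t : ℚ[X]))) := by
      unfold bp
      rw [descPochhammer_succ_right, Nat.factorial_succ]
      have : (1 / (((t + 1) * t ! : ℕ) : ℚ)) = 1 / (t ! : ℚ) * (1 / ((t + 1 : ℕ) : ℚ)) := by
        rw [Nat.cast_mul, one_div_mul_one_div, mul_comm]
      rw [this, Polynomial.C_mul]
      ring
    have h2 : (Polynomial.C (1 / (t : ℚ)) : ℚ[X]) * (t : ℚ[X]) = 1 := by
      rw [← Polynomial.C_eq_natCast, ← Polynomial.C_mul, one_div_mul_cancel h0, Polynomial.C_1]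
    rw [h1, he]
    have h3 : (Polynomial.C ((-1 : ℤ) : ℚ) : ℚ[X]) = -(Polynomial.C (1 / (t : ℚ)) * (t : ℚ[X])) := by
      rw [h2]
      simp
    rw [h3]
    ring

end I_BI

open I_BI in
theorem BI_pf (h1 : S_VDM) : S_BI := by
  intro w v i hvw
  have hd : ∀ t, 1 ≤ t → t ≤ w → t ∣ Nat.lcmUpto w := fun t ht htw =>
    Finset.dvd_lcm (f := id) (Finset.mem_Icc.2 ⟨ht, htw⟩)
  have hb : ∀ t, t ≤ w → It (Nat.lcmUpto w) (bp t) := by
    intro t ht
    rcases Nat.eq_zero_or_pos t with rfl | h0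
    · have : bp 0 = Polynomial.C ((1 : ℤ) : ℚ) := by
        unfold bp
        simp
      rw [this]
      exact It.const _
    · obtain ⟨q, hq, he⟩ := bp_form hd t h0 ht
      rw [he]
      exact (It.lin (hd t h0 ht) (by omega)).mul hq
  show It (Nat.lcmUpto w) (taylor (i : ℚ) (bp v))
  rw [h1 v i]
  refine It.sum fun t ht => ?_
  have ht' := Finset.mem_range.1 ht
  have hc : It (Nat.lcmUpto w) (Polynomial.C ((i.choose (v - t) : ℚ))) := by
    have := It.const (d := Nat.lcmUpto w) ((i.choose (v - t) : ℕ) : ℤ)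
    simpa using this
  exact hc.mul (hb t (by omega))

end Pool.Agent.Work.MP_f1a024_nt.EX
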