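import Pool.Agent.Work.MP_f1a024_nt.EX.Stmts3

set_option autoImplicit false

/-!
Item BN of the block [f1a024 EX]: the norm of the translated binomial polynomials.
-/

namespace Pool.Agent.Work.MP_f1a024_nt.EX

open Real Polynomial MeasureTheory Finset Filter Topology
open scoped Nat
open Pool.Agent.Work.MP_f1a024_nt.HP (evr Ez JJ Qz FF pp)

namespace I_BN

theorem n1_eq (p : ℚ[X]) (N : ℕ) (h : p.natDegree ≤ N) :
    n1 p = ∑ s ∈ range (N + 1), |((p.coeff s : ℚ) : ℝ)| := by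
  unfold n1
  apply Finset.sum_subset
  · intro s hs
    rw [mem_range] at *
    omega
  · intro s _ hs
    rw [mem_range] at hs
    rw [coeff_eq_zero_of_natDegree_lt (by omega)]
    simp

theorem n1_C (c : ℚ) : n1 (Polynomial.C c) = |(c : ℝ)| := by
  rw [n1_eq _ 0 (by simp)]
  simp

theorem n1_zero : n1 0 = 0 := by
  have := n1_C 0
  simpa using this

theorem n1_nonneg (p : ℚ[X]) : 0 ≤ n1 p := Finset.sum_nonneg fun _ _ => abs_nonneg _

theorem n1_lin (a b : ℚ) :
    n1 (Polynomial.C a * X + Polynomial.C b) = |(a : ℝ)| + |(b : ℝ)| := by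
  rw [n1_eq _ 1 natDegree_linear_le, Finset.sum_range_succ, Finset.sum_range_one]
  have e0 : (Polynomial.C a * X + Polynomial.C b).coeff 0 = b := by simp
  have e1 : (Polynomial.C a * X + Polynomial.C b).coeff 1 = a := by
    simp [coeff_C_succ]
  rw [e0, e1]
  ring

theorem bp_succ (t : ℕ) : bp (t + 1) =
    (Polynomial.C (1 / ((t : ℚ) + 1)) * X + Polynomial.C (-(t : ℚ) / (t + 1))) * bp t := by
  unfold bp
  rw [descPochhammer_succ_right]
  have ht : (t : ℚ) + 1 ≠ 0 := by positivity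
  have hf : ((t ! : ℕ) : ℚ) ≠ 0 := by positivity
  have e1 : (1 / (((t + 1)! : ℕ) : ℚ)) = (1 / ((t : ℚ) + 1)) * (1 / ((t ! : ℕ) : ℚ)) := by
    rw [Nat.factorial_succ]
    push_cast
    field_simp
  have e2 : (-(t : ℚ) / (t + 1)) = (1 / ((t : ℚ) + 1)) * (-(t : ℚ)) := by
    field_simp
  have e3 : ((t : ℕ) : ℚ[X]) = Polynomial.C (t : ℚ) := by simp
  rw [e1, e2, e3, Polynomial.C_mul, Polynomial.C_mul, Polynomial.C_neg]
  ring

theorem bp_norm (h2 : S_NMU) (t : ℕ) : n1 (bp t) ≤ 1 := by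
  induction t with
  | zero =>
    have e : bp 0 = Polynomial.C 1 := by
      unfold bp
      simp
    rw [e, n1_C]
    simp
  | succ t ih =>
    rw [bp_succ]
    refine (h2.1 _ _).trans ?_
    rw [n1_lin]
    have ht : (0 : ℝ) < (t : ℝ) + 1 := by positivity
    have e : |(((1 / ((t : ℚ) + 1) : ℚ)) : ℝ)| + |(((-(t : ℚ) / (t + 1) : ℚ)) : ℝ)| = 1 := by
      push_cast
      rw [neg_div, abs_neg, abs_of_nonneg (by positivity), abs_of_nonneg (by positivity)]
      field_simp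
      ring
    rw [e, one_mul]
    exact ih

theorem n1_sum (h2 : S_NMU) (s : Finset ℕ) (f : ℕ → ℚ[X]) :
    n1 (∑ t ∈ s, f t) ≤ ∑ t ∈ s, n1 (f t) := by
  classical
  induction s using Finset.induction_on with
  | empty => simp [n1_zero]
  | insert a s ha ih =>
    rw [Finset.sum_insert ha, Finset.sum_insert ha]
    exact (h2.2.1 _ _).trans (by linarith)

theorem tay (h1 : S_VDM) (h2 : S_NMU) (v i : ℕ) :
    n1 (taylor (i : ℚ) (bp v)) ≤ ∑ u ∈ range (v + 1), ((i.choose u : ℕ) : ℝ) := by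
  rw [h1 v i]
  refine (n1_sum h2 _ _).trans ?_
  have e : ∑ u ∈ range (v + 1), ((i.choose u : ℕ) : ℝ) =
      ∑ t ∈ range (v + 1), ((i.choose (v - t) : ℕ) : ℝ) := by
    rw [← Finset.sum_range_reflect]
    refine Finset.sum_congr rfl fun t ht => ?_
    rw [show v + 1 - 1 - t = v - t by omega]
  rw [e]
  refine Finset.sum_le_sum fun t _ => ?_
  refine (h2.1 _ _).trans ?_
  rw [n1_C]
  have h3 : |((((i.choose (v - t) : ℕ) : ℚ)) : ℝ)| = ((i.choose (v - t) : ℕ) : ℝ) := by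
    push_cast
    exact abs_of_nonneg (by positivity)
  rw [h3]
  exact mul_le_of_le_one_right (by positivity) (bp_norm h2 t)

theorem chs (l w : ℕ) (hw : 1 ≤ w) (hl : w ≤ l) :
    ∑ u ∈ range (w + 1), ((l.choose u : ℕ) : ℝ) ≤ (Real.exp 1 * l / w) ^ w := by
  have hw0 : (0 : ℝ) < w := by exact_mod_cast hw
  have hl0 : (0 : ℝ) < l := by exact_mod_cast (show 0 < l by omega)
  have hr0 : (0 : ℝ) < (w : ℝ) / l := by positivity
  have hr1 : (w : ℝ) / l ≤ 1 := by
    rw [div_le_one hl0]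
    exact_mod_cast hl
  have a1 : ((w : ℝ) / l) ^ w * ∑ u ∈ range (w + 1), ((l.choose u : ℕ) : ℝ) ≤
      ∑ u ∈ range (w + 1), ((l.choose u : ℕ) : ℝ) * ((w : ℝ) / l) ^ u := by
    rw [Finset.mul_sum]
    refine Finset.sum_le_sum fun u hu => ?_
    rw [mem_range] at hu
    rw [mul_comm]
    exact mul_le_mul_of_nonneg_left (pow_le_pow_of_le_one hr0.le hr1 (by omega)) (by positivity)
  have a2 : ∑ u ∈ range (w + 1), ((l.choose u : ℕ) : ℝ) * ((w : ℝ) / l) ^ u ≤
      ∑ u ∈ range (l + 1), ((l.choose u : ℕ) : ℝ) * ((w : ℝ) / l) ^ u := by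
    refine Finset.sum_le_sum_of_subset_of_nonneg ?_ fun u _ _ => by positivity
    intro u hu
    rw [mem_range] at *
    omega
  have a3 : ∑ u ∈ range (l + 1), ((l.choose u : ℕ) : ℝ) * ((w : ℝ) / l) ^ u =
      (1 + (w : ℝ) / l) ^ l := by
    rw [add_comm (1 : ℝ) ((w : ℝ) / l), add_pow]
    refine Finset.sum_congr rfl fun u _ => ?_
    rw [one_pow, mul_one, mul_comm]
  have a4 : (1 + (w : ℝ) / l) ^ l ≤ Real.exp w := by
    have h1 : 1 + (w : ℝ) / l ≤ Real.exp ((w : ℝ) / l) := by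
      rw [add_comm]
      exact Real.add_one_le_exp _
    calc (1 + (w : ℝ) / l) ^ l ≤ Real.exp ((w : ℝ) / l) ^ l :=
          pow_le_pow_left₀ (by positivity) h1 l
      _ = Real.exp w := by
          rw [← Real.exp_nat_mul]
          congr 1
          field_simp
  have a5 : ((w : ℝ) / l) ^ w * ∑ u ∈ range (w + 1), ((l.choose u : ℕ) : ℝ) ≤ Real.exp w :=
    a1.trans (a2.trans (a3.le.trans a4))
  have a6 : (Real.exp 1 * l / w) ^ w = Real.exp w / ((w : ℝ) / l) ^ w := by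
    have e1 : Real.exp 1 * l / w = Real.exp 1 / ((w : ℝ) / l) := by
      field_simp
    rw [e1, div_pow, ← Real.exp_nat_mul, mul_one]
  rw [a6, le_div_iff₀ (by positivity), mul_comm]
  exact a5

end I_BN

theorem BN_pf (h1 : S_VDM) (h2 : S_NMU) : S_BN := by
  intro l w v i hw hwl hvw hil
  refine (I_BN.tay h1 h2 v i).trans (le_trans ?_ (I_BN.chs l w hw hwl))
  have a1 : ∑ u ∈ range (v + 1), ((i.choose u : ℕ) : ℝ) ≤
      ∑ u ∈ range (v + 1), ((l.choose u : ℕ) : ℝ) := by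
    refine Finset.sum_le_sum fun u _ => ?_
    exact_mod_cast Nat.choose_le_choose u hil
  refine a1.trans ?_
  refine Finset.sum_le_sum_of_subset_of_nonneg ?_ fun u _ _ => by positivity
  intro u hu
  rw [mem_range] at *
  omega

end Pool.Agent.Work.MP_f1a024_nt.EX
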