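import Pool.Agent.Work.MP_f1a024_nt.EX.Stmts3

set_option autoImplicit false

/-!
Item LIN of the block [f1a024 EX]: the linear conditions in any basis of polynomials of degree `b`.
-/

namespace Pool.Agent.Work.MP_f1a024_nt.EX

open Polynomial Finset
open scoped Nat

namespace I_LIN

/-- The functional `L`. -/
noncomputable def Lm (ρ a : ℕ) (F : ℤ[X][X]) : ℚ[X] →ₗ[ℚ] ℚ :=
  ∑ i ∈ range (ρ + 1), ∑ s ∈ range a, ((F.coeff s).coeff i : ℚ) •
    (Polynomial.leval (i : ℚ)).comp ((Polynomial.derivative : Module.End ℚ ℚ[X]) ^ s)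

theorem Lm_apply (ρ a : ℕ) (F : ℤ[X][X]) (p : ℚ[X]) :
    Lm ρ a F p = ∑ i ∈ range (ρ + 1), ∑ s ∈ range a,
      ((F.coeff s).coeff i : ℚ) * (derivative^[s] p).eval (i : ℚ) := by
  unfold Lm
  rw [LinearMap.sum_apply]
  refine Finset.sum_congr rfl fun i _ => ?_
  rw [LinearMap.sum_apply]
  refine Finset.sum_congr rfl fun s _ => ?_
  rw [LinearMap.smul_apply, LinearMap.comp_apply, Module.End.pow_apply, smul_eq_mul]
  rfl

theorem Lm_X_pow (h1 : S_PSC) (ρ a : ℕ) (F : ℤ[X][X]) (hF : Box ρ a F) (k : ℕ) :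
    Lm ρ a F (X ^ k) = (k ! : ℚ) * PowerSeries.coeff k (ps F) := by
  rw [Lm_apply, h1 ρ a F hF k]
  refine Finset.sum_congr rfl fun i _ => Finset.sum_congr rfl fun s _ => ?_
  rw [Polynomial.iterate_derivative_X_pow_eq_natCast_mul]
  rw [Polynomial.eval_mul, Polynomial.eval_pow, Polynomial.eval_X, Polynomial.eval_natCast]
  ring

theorem zero (ρ a δ : ℕ) (F : ℤ[X][X]) (p : ℕ → ℚ[X])
    (hp : ∀ b < δ, (p b).natDegree = b ∧ p b ≠ 0) (hL : ∀ b < δ, Lm ρ a F (p b) = 0) :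
    ∀ k < δ, Lm ρ a F (X ^ k) = 0 := by
  intro k
  induction k using Nat.strong_induction_on with
  | _ k ih =>
    intro hk
    have h0 := hL k hk
    have hdeg := (hp k hk).1
    have hc : (p k).coeff k ≠ 0 := by
      have h2 : (p k).leadingCoeff ≠ 0 := Polynomial.leadingCoeff_ne_zero.mpr (hp k hk).2
      rwa [Polynomial.leadingCoeff, hdeg] at h2
    rw [Polynomial.as_sum_range_C_mul_X_pow (p k), map_sum, hdeg, Finset.sum_range_succ] at h0
    have h3 : ∀ j, Lm ρ a F (C ((p k).coeff j) * X ^ j) = (p k).coeff j * Lm ρ a F (X ^ j) := by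
      intro j
      rw [← Polynomial.smul_eq_C_mul, map_smul, smul_eq_mul]
    rw [h3 k] at h0
    have h4 : ∑ j ∈ range k, Lm ρ a F (C ((p k).coeff j) * X ^ j) = 0 := by
      refine Finset.sum_eq_zero fun j hj => ?_
      have hjk : j < k := Finset.mem_range.mp hj
      rw [h3 j, ih j hjk (lt_trans hjk hk), mul_zero]
    rw [h4, zero_add] at h0
    exact (mul_eq_zero.mp h0).resolve_left hc

end I_LIN

theorem LIN_pf (h1 : S_PSC) : S_LIN := by
  intro ρ a δ F p hF hp hL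
  have hL' : ∀ b < δ, I_LIN.Lm ρ a F (p b) = 0 := fun b hb => by
    rw [I_LIN.Lm_apply]
    exact hL b hb
  rw [PowerSeries.X_pow_dvd_iff]
  intro k hk
  have h2 := I_LIN.zero ρ a δ F p hp hL' k hk
  rw [I_LIN.Lm_X_pow h1 ρ a F hF k] at h2
  exact (mul_eq_zero.mp h2).resolve_left (by exact_mod_cast Nat.factorial_ne_zero k)

end Pool.Agent.Work.MP_f1a024_nt.EX
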