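import Pool.Agent.Work.MP_f1a024_nt.EX.Stmts3

set_option autoImplicit false

/-!
Block [f1a024 EX], item NA3: choice of the parameters.
-/

namespace Pool.Agent.Work.MP_f1a024_nt.EX

open Real Polynomial MeasureTheory Finset Filter Topology
open scoped Nat

/-- The main inequality of NA3 for `x = L^2 / V^3`. -/
private theorem NA3_key (lam x L V : ℝ) (hlam : 10 ≤ lam) (hx : 1 ≤ x) (hL : 0 < L)
    (hV : 0 < V) (hxL : x * V ^ 3 = L ^ 2) (hLV : L ≤ 2 * V ^ 2)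
    (hLN : 10 ^ 8 * Real.exp (lam / 2) ≤ L) :
    x ^ 2 * lam ≤ 3 * 10 ^ 6 * (L * Real.log (3 + x)) := by
  have hlog1 : 1 ≤ Real.log (3 + x) := by
    rw [Real.le_log_iff_exp_le (by linarith)]
    have := Real.exp_one_lt_d9
    linarith
  rcases le_total (lam / 5) (Real.log (3 + x)) with hc | hc
  · have e1 : x ^ 2 ≤ 8 * L := by
      have e2 : L ^ 3 ≤ (2 * V ^ 2) ^ 3 := pow_le_pow_left₀ hL.le hLV 3
      have e3 : (x * V ^ 3) ^ 2 = (L ^ 2) ^ 2 := by rw [hxL]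
      have hV6 : 0 < V ^ 6 := by positivity
      have e4 : x ^ 2 * V ^ 6 ≤ 8 * L * V ^ 6 := by
        have e5 : x ^ 2 * V ^ 6 = L * L ^ 3 := by
          calc x ^ 2 * V ^ 6 = (x * V ^ 3) ^ 2 := by ring
            _ = (L ^ 2) ^ 2 := e3
            _ = L * L ^ 3 := by ring
        rw [e5]
        calc L * L ^ 3 ≤ L * (2 * V ^ 2) ^ 3 := mul_le_mul_of_nonneg_left e2 hL.le
          _ = 8 * L * V ^ 6 := by ring
      exact le_of_mul_le_mul_right e4 hV6
    have e6 : x ^ 2 * lam ≤ 8 * L * lam := mul_le_mul_of_nonneg_right e1 (by linarith)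
    have e7 : 8 * L * lam ≤ 8 * L * (5 * Real.log (3 + x)) :=
      mul_le_mul_of_nonneg_left (by linarith) (by positivity)
    have e8 : 8 * L * (5 * Real.log (3 + x)) = 40 * (L * Real.log (3 + x)) := by ring
    have e9 : 0 ≤ L * Real.log (3 + x) := mul_nonneg hL.le (by linarith)
    linarith
  · have e1 : x ≤ Real.exp (lam / 5) := by
      have e2 : 3 + x ≤ Real.exp (lam / 5) := by
        rw [← Real.exp_log (show (0 : ℝ) < 3 + x by linarith)]
        exact Real.exp_le_exp.2 hc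
      linarith
    have e2 : x ^ 2 ≤ Real.exp (lam / 5) ^ 2 := pow_le_pow_left₀ (by linarith) e1 2
    have e3 : lam ≤ 10 * Real.exp (lam / 10) := by
      have := Real.add_one_le_exp (lam / 10)
      linarith
    have e4 : x ^ 2 * lam ≤ Real.exp (lam / 5) ^ 2 * (10 * Real.exp (lam / 10)) :=
      mul_le_mul e2 e3 (by linarith) (by positivity)
    have e5 : Real.exp (lam / 5) ^ 2 * (10 * Real.exp (lam / 10)) = 10 * Real.exp (lam / 2) := by
      rw [← Real.exp_nat_mul]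
      have : Real.exp ((2 : ℕ) * (lam / 5)) * (10 * Real.exp (lam / 10)) =
          10 * (Real.exp ((2 : ℕ) * (lam / 5)) * Real.exp (lam / 10)) := by ring
      rw [this, ← Real.exp_add]
      congr 2
      push_cast
      ring
    rw [e5] at e4
    have e6 : L * 1 ≤ L * Real.log (3 + x) := mul_le_mul_of_nonneg_left hlog1 hL.le
    have e7 := Real.exp_pos (lam / 2)
    linarith

theorem NA3_pf : S_NA3 := by
  intro N L m e α β V hN hLN hm hα hβ hV hLV h1 h2 h3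
  obtain ⟨lam, hlam⟩ : ∃ lam : ℝ, lam = Real.log N := ⟨_, rfl⟩
  rw [← hlam] at h1 ⊢
  have hN2 : (2 : ℝ) ≤ N := by exact_mod_cast hN
  have hN0 : (0 : ℝ) < N := by linarith
  have hlam0 : (0.69 : ℝ) ≤ lam := by
    have h := Real.log_le_log (by norm_num) hN2
    have h' := Real.log_two_gt_d9
    rw [hlam]
    linarith
  have hm1 : (1 : ℝ) ≤ m := by exact_mod_cast hm
  have he0 : (0 : ℝ) ≤ e := Nat.cast_nonneg e
  have hLN' : (L : ℝ) ≤ N := by exact_mod_cast hLN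
  have hNl0 : (0 : ℝ) < N * lam := mul_pos hN0 (by linarith)
  have hL00 : (0 : ℝ) ≤ L := Nat.cast_nonneg L
  have a1 : (N : ℝ) * lam ≤ V ^ 3 / 10 ^ 9 := by
    have e1 : 1 * (α + N * lam) ≤ m * (α + N * lam) :=
      mul_le_mul_of_nonneg_right hm1 (by linarith)
    linarith
  have hV30 : (0 : ℝ) < V ^ 3 := by
    have : 0 < V ^ 3 / 10 ^ 9 := lt_of_lt_of_le hNl0 a1
    by_contra hh
    rw [not_lt] at hh
    have : V ^ 3 / 10 ^ 9 ≤ 0 := div_nonpos_of_nonpos_of_nonneg hh (by norm_num)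
    linarith
  have hV0 : 0 < V := by
    rcases hV.eq_or_lt with h | h
    · rw [← h] at hV30
      norm_num at hV30
    · exact h
  obtain ⟨x, hx⟩ : ∃ x : ℝ, x = (L : ℝ) ^ 2 / V ^ 3 := ⟨_, rfl⟩
  rw [← hx] at h2
  have hx0 : 0 ≤ x := by rw [hx]; positivity
  have hxL : x * V ^ 3 = (L : ℝ) ^ 2 := by
    rw [hx]
    field_simp
  have hlog1 : 1 ≤ Real.log (3 + x) := by
    rw [Real.le_log_iff_exp_le (by linarith)]
    have := Real.exp_one_lt_d9
    linarith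
  -- x is large
  have b1 : ((m : ℝ) + e) * Real.log (3 + x) ≤ x / 10 ^ 9 := by
    have e1 : ((m : ℝ) + e) * Real.log (3 + x) * V ^ 3 ≤ x / 10 ^ 9 * V ^ 3 := by
      have e2 : ((m : ℝ) + e) * Real.log (3 + x) * V ^ 3 =
          (m + e) * (V ^ 3 * Real.log (3 + x)) := by ring
      have e3 : x / 10 ^ 9 * V ^ 3 = x * V ^ 3 / 10 ^ 9 := by ring
      rw [e2, e3, hxL]
      exact h2
    exact le_of_mul_le_mul_right e1 hV30
  have b2 : (10 ^ 9 : ℝ) ≤ x := by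
    have e1 : (1 : ℝ) * 1 ≤ ((m : ℝ) + e) * Real.log (3 + x) :=
      mul_le_mul (by linarith) hlog1 (by norm_num) (by linarith)
    have e2 : (1 : ℝ) ≤ x / 10 ^ 9 := by linarith
    rw [le_div_iff₀ (by norm_num)] at e2
    linarith
  have hL0 : (0 : ℝ) < L := by
    rcases hL00.eq_or_lt with h | h
    · rw [← h] at hxL
      have : 0 < x * V ^ 3 := mul_pos (by linarith) hV30
      norm_num at hxL
      rcases hxL with h' | h'
      · linarith
      · linarith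
    · exact h
  have b3 : 10 ^ 18 * ((N : ℝ) * lam) ≤ (L : ℝ) ^ 2 := by
    rw [← hxL]
    have e1 : (10 ^ 9 : ℝ) * (N * lam) ≤ V ^ 3 := by
      rw [le_div_iff₀ (by norm_num)] at a1
      linarith
    calc 10 ^ 18 * ((N : ℝ) * lam) = 10 ^ 9 * (10 ^ 9 * (N * lam)) := by ring
      _ ≤ 10 ^ 9 * V ^ 3 := mul_le_mul_of_nonneg_left e1 (by norm_num)
      _ ≤ x * V ^ 3 := mul_le_mul_of_nonneg_right b2 hV30.le
  have b4 : (10 ^ 17 : ℝ) ≤ L := by
    have e1 : (L : ℝ) * (10 ^ 18 * lam) ≤ L * L := by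
      have e2 : (L : ℝ) * (10 ^ 18 * lam) ≤ N * (10 ^ 18 * lam) :=
        mul_le_mul_of_nonneg_right hLN' (by linarith)
      have e3 : (N : ℝ) * (10 ^ 18 * lam) = 10 ^ 18 * (N * lam) := by ring
      have e4 : (L : ℝ) ^ 2 = L * L := by ring
      linarith
    have e5 : 10 ^ 18 * lam ≤ L := le_of_mul_le_mul_left e1 hL0
    have e6 : (10 ^ 18 : ℝ) * 0.69 ≤ 10 ^ 18 * lam := mul_le_mul_of_nonneg_left hlam0 (by norm_num)
    have e7 : (10 ^ 17 : ℝ) ≤ 10 ^ 18 * 0.69 := by norm_num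
    exact e7.trans (e6.trans e5)
  have a6 : (10 : ℝ) ≤ lam := by
    rw [hlam, Real.le_log_iff_exp_le hN0]
    have e1 : Real.exp 1 < 2.7182818286 := Real.exp_one_lt_d9
    have e2 : Real.exp 10 = Real.exp 1 ^ (10 : ℕ) := by
      rw [← Real.exp_nat_mul]
      norm_num
    rw [e2]
    calc Real.exp 1 ^ (10 : ℕ) ≤ 3 ^ (10 : ℕ) :=
          pow_le_pow_left₀ (Real.exp_pos 1).le (by linarith) _
      _ ≤ (N : ℝ) := by
        refine le_trans ?_ hLN'
        refine le_trans ?_ b4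
        norm_num
  have b5 : 10 ^ 8 * Real.exp (lam / 2) ≤ L := by
    have e1 : Real.exp (lam / 2) ^ 2 = N := by
      rw [← Real.exp_nat_mul]
      have : ((2 : ℕ) : ℝ) * (lam / 2) = lam := by push_cast; ring
      rw [this, hlam, Real.exp_log hN0]
    have e2 : (10 ^ 8 * Real.exp (lam / 2)) ^ 2 ≤ (L : ℝ) ^ 2 := by
      rw [mul_pow, e1]
      refine le_trans ?_ b3
      have e3 : (N : ℝ) * 1 ≤ N * lam := mul_le_mul_of_nonneg_left (by linarith) hN0.le
      have e4 : ((10 : ℝ) ^ 8) ^ 2 * N ≤ 10 ^ 18 * N := by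
        apply mul_le_mul_of_nonneg_right _ hN0.le
        norm_num
      linarith
    exact (pow_le_pow_iff_left₀ (by positivity) hL0.le (by norm_num)).1 e2
  have key := NA3_key lam x L V a6 (le_trans (by norm_num) b2) hL0 hV0 hxL hLV b5
  have a7 : (2 : ℝ) ≤ V ^ 3 := by
    have e1 : (20 : ℝ) ≤ N * lam := by
      calc (20 : ℝ) = 2 * 10 := by norm_num
        _ ≤ N * lam := mul_le_mul hN2 a6 (by norm_num) hN0.le
    have e2 := e1.trans a1
    rw [le_div_iff₀ (by norm_num)] at e2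
    linarith
  -- the integers
  obtain ⟨l, hl⟩ : ∃ l : ℕ, l = L / 40 := ⟨_, rfl⟩
  obtain ⟨δ, hδ⟩ : ∃ δ : ℕ, δ = ⌊V ^ 3⌋₊ := ⟨_, rfl⟩
  have l1 : 40 * l ≤ L := by omega
  have l2 : L ≤ 40 * l + 39 := by omega
  have l1' : 40 * (l : ℝ) ≤ L := by exact_mod_cast l1
  have l2' : (L : ℝ) ≤ 40 * l + 39 := by exact_mod_cast l2
  have b4' : (2000 : ℝ) ≤ L := le_trans (by norm_num) b4
  have d1 : (δ : ℝ) ≤ V ^ 3 := by rw [hδ]; exact Nat.floor_le hV30.le
  have d2 : V ^ 3 < δ + 1 := by rw [hδ]; exact Nat.lt_floor_add_one _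
  have d3 : V ^ 3 / 2 ≤ δ := by linarith
  have hδ0 : (0 : ℝ) < δ := by linarith
  have l3 : (L : ℝ) / 41 ≤ l := by
    rw [div_le_iff₀ (by norm_num)]
    linarith
  have hl0 : (0 : ℝ) < l := lt_of_lt_of_le (by positivity) l3
  have l4 : (L : ℝ) ^ 2 / 1681 ≤ (l : ℝ) ^ 2 := by
    have e1 : ((L : ℝ) / 41) ^ 2 ≤ (l : ℝ) ^ 2 := pow_le_pow_left₀ (by positivity) l3 2
    have e2 : ((L : ℝ) / 41) ^ 2 = (L : ℝ) ^ 2 / 1681 := by ring
    linarith
  have l5 : (l : ℝ) ^ 2 ≤ (L : ℝ) ^ 2 / 1600 := by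
    have e1 : (l : ℝ) ≤ L / 40 := by linarith
    have e2 : (l : ℝ) ^ 2 ≤ ((L : ℝ) / 40) ^ 2 := pow_le_pow_left₀ hl0.le e1 2
    have e3 : ((L : ℝ) / 40) ^ 2 = (L : ℝ) ^ 2 / 1600 := by ring
    linarith
  have hδl : 2 * (δ : ℝ) ≤ (l : ℝ) ^ 2 := by
    have e1 : (10 ^ 9 : ℝ) * V ^ 3 ≤ (L : ℝ) ^ 2 := by
      rw [← hxL]
      exact mul_le_mul_of_nonneg_right b2 hV30.le
    have e2 : 2 * V ^ 3 ≤ (L : ℝ) ^ 2 / 1681 := by
      rw [le_div_iff₀ (by norm_num)]
      have : 2 * V ^ 3 * 1681 ≤ 10 ^ 9 * V ^ 3 := by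
        have e3 : 2 * V ^ 3 * 1681 = 3362 * V ^ 3 := by ring
        rw [e3]
        exact mul_le_mul_of_nonneg_right (by norm_num) hV30.le
      linarith
    linarith
  -- the logarithm
  have hLg0 : 0 ≤ Real.log ((l : ℝ) ^ 2 / δ) := by
    apply Real.log_nonneg
    rw [le_div_iff₀ hδ0]
    linarith
  have hLg1 : Real.log ((l : ℝ) ^ 2 / δ) ≤ Real.log (3 + x) := by
    apply Real.log_le_log (by positivity)
    rw [div_le_iff₀ hδ0]
    have e1 : (l : ℝ) ^ 2 ≤ x * V ^ 3 / 1600 := by rw [hxL]; exact l5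
    have e2 : x * (V ^ 3 / 2) ≤ x * δ := mul_le_mul_of_nonneg_left d3 hx0
    have e3 : 0 ≤ x * V ^ 3 := by positivity
    have e4 : (3 + x) * (δ : ℝ) = 3 * δ + x * δ := by ring
    rw [e4]
    linarith
  obtain ⟨A, hA⟩ : ∃ A : ℝ, A = 2 * ((δ : ℝ) ^ 2 / (l : ℝ) ^ 2) *
    (7 + Real.log ((l : ℝ) ^ 2 / δ)) := ⟨_, rfl⟩
  have hA0 : 0 ≤ A := by rw [hA]; positivity
  have hme : (0 : ℝ) < (m : ℝ) + e := by linarith
  -- first part of h
  have p1 : ((m : ℝ) + e) * A ≤ V ^ 3 / 12000 := by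
    have hxpos : 0 < x := by linarith
    have e1 : (δ : ℝ) ^ 2 / (l : ℝ) ^ 2 ≤ 1681 * V ^ 3 / x := by
      rw [div_le_div_iff₀ (by positivity) hxpos]
      have e2 : (δ : ℝ) ^ 2 ≤ (V ^ 3) ^ 2 := pow_le_pow_left₀ hδ0.le d1 2
      have e3 : (δ : ℝ) ^ 2 * x ≤ (V ^ 3) ^ 2 * x := mul_le_mul_of_nonneg_right e2 hx0
      have e4 : (V ^ 3) ^ 2 * x = V ^ 3 * (L : ℝ) ^ 2 := by rw [← hxL]; ring
      have e5 : V ^ 3 * (L : ℝ) ^ 2 ≤ V ^ 3 * (1681 * (l : ℝ) ^ 2) := by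
        apply mul_le_mul_of_nonneg_left _ hV30.le
        linarith
      calc (δ : ℝ) ^ 2 * x ≤ (V ^ 3) ^ 2 * x := e3
        _ = V ^ 3 * (L : ℝ) ^ 2 := e4
        _ ≤ V ^ 3 * (1681 * (l : ℝ) ^ 2) := e5
        _ = 1681 * V ^ 3 * (l : ℝ) ^ 2 := by ring
    have e6 : 7 + Real.log ((l : ℝ) ^ 2 / δ) ≤ 8 * Real.log (3 + x) := by linarith
    have e7 : A ≤ 2 * (1681 * V ^ 3 / x) * (8 * Real.log (3 + x)) := by
      rw [hA]
      apply mul_le_mul _ e6 (by linarith) (by positivity)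
      exact mul_le_mul_of_nonneg_left e1 (by norm_num)
    calc ((m : ℝ) + e) * A ≤ (m + e) * (2 * (1681 * V ^ 3 / x) * (8 * Real.log (3 + x))) :=
          mul_le_mul_of_nonneg_left e7 hme.le
      _ = 26896 * V ^ 3 / x * ((m + e) * Real.log (3 + x)) := by ring
      _ ≤ 26896 * V ^ 3 / x * (x / 10 ^ 9) := mul_le_mul_of_nonneg_left b1 (by positivity)
      _ = V ^ 3 * (26896 / 10 ^ 9) := by
        field_simp
      _ ≤ V ^ 3 * (1 / 12000) := mul_le_mul_of_nonneg_left (by norm_num) hV30.le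
      _ = V ^ 3 / 12000 := by ring
  -- second part of h
  have p2 : ((m : ℝ) + e) * (l * lam) ≤ V ^ 3 / 12000 := by
    have hG : 0 < x * Real.log (3 + x) := mul_pos (by linarith) (by linarith)
    have e1 : ((m : ℝ) + e) * (l * lam) * (x * Real.log (3 + x)) ≤
        V ^ 3 / 12000 * (x * Real.log (3 + x)) := by
      have e2 : ((m : ℝ) + e) * (l * lam) * (x * Real.log (3 + x)) =
          (m + e) * Real.log (3 + x) * (l * (x * lam)) := by ring
      have e3 : V ^ 3 / 12000 * (x * Real.log (3 + x)) =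
          (L : ℝ) ^ 2 / 12000 * Real.log (3 + x) := by
        rw [← hxL]; ring
      rw [e2, e3]
      have e4 : (0 : ℝ) ≤ x * lam := mul_nonneg hx0 (by linarith)
      have e5 : (l : ℝ) * (x * lam) ≤ L / 40 * (x * lam) :=
        mul_le_mul_of_nonneg_right (by linarith) e4
      calc ((m : ℝ) + e) * Real.log (3 + x) * (l * (x * lam))
          ≤ x / 10 ^ 9 * (L / 40 * (x * lam)) :=
            mul_le_mul b1 e5 (mul_nonneg hl0.le e4) (by positivity)
        _ = L / (40 * 10 ^ 9) * (x ^ 2 * lam) := by ring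
        _ ≤ L / (40 * 10 ^ 9) * (3 * 10 ^ 6 * (L * Real.log (3 + x))) :=
            mul_le_mul_of_nonneg_left key (by positivity)
        _ = (L : ℝ) ^ 2 * Real.log (3 + x) * (3 * 10 ^ 6 / (40 * 10 ^ 9)) := by ring
        _ ≤ (L : ℝ) ^ 2 * Real.log (3 + x) * (1 / 12000) := by
            apply mul_le_mul_of_nonneg_left (by norm_num)
            exact mul_nonneg (by positivity) (by linarith)
        _ = (L : ℝ) ^ 2 / 12000 * Real.log (3 + x) := by ring
    exact le_of_mul_le_mul_right e1 hG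
  have p3 : 3000 * (((m : ℝ) + e) * (l * lam + A)) ≤ δ := by
    have e1 : ((m : ℝ) + e) * (l * lam + A) = (m + e) * (l * lam) + (m + e) * A := by ring
    rw [e1]
    linarith
  have hh0 : 0 ≤ l * lam + A := add_nonneg (mul_nonneg hl0.le (by linarith)) hA0
  have c2 : (m : ℝ) * (α + N * lam) ≤ (δ : ℝ) / 60 := by
    refine h1.trans ?_
    have e1 : V ^ 3 / 10 ^ 9 ≤ V ^ 3 / 2 / 60 := by
      have e5 : V ^ 3 / 10 ^ 9 = V ^ 3 * (1 / 10 ^ 9) := by ring
      have e6 : V ^ 3 / 2 / 60 = V ^ 3 * (1 / 120) := by ring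
      rw [e5, e6]
      exact mul_le_mul_of_nonneg_left (by norm_num) hV30.le
    linarith
  refine ⟨l, δ, l * lam + A, ⟨hN, ?_, l1.trans hLN, ?_, ?_, ?_, ?_, ?_⟩, l1, c2, p3, ?_⟩
  · have e1 : (1 : ℝ) ≤ l := by
      refine le_trans ?_ l3
      rw [le_div_iff₀ (by norm_num)]
      linarith
    exact_mod_cast e1
  · rw [← hlam]; exact a6
  · rw [← hlam, ← hA]
    linarith
  · exact_mod_cast hδl
  · have e1 : 1 * (l * lam + A) ≤ ((m : ℝ) + e) * (l * lam + A) :=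
      mul_le_mul_of_nonneg_right (by linarith) hh0
    linarith
  · rw [← hlam]
    have e1 : 1 * (α + N * lam) ≤ m * (α + N * lam) :=
      mul_le_mul_of_nonneg_right hm1 (by linarith)
    linarith
  · have e1 : (m : ℝ) * (40 * l * β) ≤ m * (L * β) :=
      mul_le_mul_of_nonneg_left (mul_le_mul_of_nonneg_right l1' hβ) (by linarith)
    have e2 : (m : ℝ) * (40 * l * β) = 40 * (m * (l * β)) := by ring
    rw [e2] at e1
    have e3 := e1.trans h3
    have e5 : V ^ 3 / 10 ^ 9 = V ^ 3 * (1 / 10 ^ 9) := by ring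
    rw [e5] at e3
    norm_num at e3
    linarith

end Pool.Agent.Work.MP_f1a024_nt.EX
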