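import Mathlib
import Pool.Agent.Work.MP_f1a024_nt.EX.Stmts3

/-!
Item NB3 of the block [f1a024 EX] (helper60): the norm of Siegel's lemma in the binomial basis.
-/

set_option autoImplicit false

namespace Pool.Agent.Work.MP_f1a024_nt.EX

open Real Finset
open scoped Nat

namespace I_NB3

theorem lcm_le (r : ℕ) : (Nat.lcmUpto r : ℝ) ≤ Real.exp (6 * r) := by
  have h1 : Chebyshev.psi (r : ℝ) ≤ (Real.log 4 + 4) * r :=
    Chebyshev.psi_le_const_mul_self (by positivity)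
  rw [Chebyshev.psi_eq_log_lcmUpto] at h1
  have hpos : (0 : ℝ) < (Nat.lcmUpto r : ℝ) := by
    have : 0 < Nat.lcmUpto r := Nat.lcmUpto_pos r
    exact_mod_cast this
  have h4 : Real.log 4 ≤ 2 := by
    have : Real.log 4 = 2 * Real.log 2 := by
      rw [show (4 : ℝ) = 2 ^ 2 by norm_num, Real.log_pow]; norm_num
    rw [this]
    have := Real.log_two_lt_d9
    linarith
  have h2 : Real.log (Nat.lcmUpto r : ℝ) ≤ 6 * r := by
    have h3 : (Real.log 4 + 4) * (r : ℝ) ≤ 6 * r := by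
      have : (0 : ℝ) ≤ r := by positivity
      nlinarith
    exact h1.trans h3
  calc (Nat.lcmUpto r : ℝ) = Real.exp (Real.log (Nat.lcmUpto r : ℝ)) := (Real.exp_log hpos).symm
    _ ≤ Real.exp (6 * r) := Real.exp_le_exp.mpr h2

/-- The inequality in logarithms. -/
theorem logs (x d lam Lam r h : ℝ) (hx : 4 ≤ x) (hlam : 0 ≤ lam) (hLam : 0 ≤ Lam) (hd0 : 0 ≤ d)
    (h2d : 2 * d ≤ x ^ 2) (hr : r ≤ 2 * (d / x ^ 2))
    (hh : 2 * (d ^ 2 / x ^ 2) * (7 + Lam) + x * lam ≤ h) :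
    2 * lam + (2 * lam + (12 * d + x * lam + 2 * d * (1 + Lam))) * r ≤ 2 * h := by
  have hx0 : 0 < x ^ 2 := by positivity
  have hY : 0 ≤ 2 * lam + (12 * d + x * lam + 2 * d * (1 + Lam)) := by positivity
  have h1 := mul_le_mul_of_nonneg_left hr hY
  have h2 : 2 * (d / x ^ 2) ≤ 1 := by
    rw [← mul_div_assoc, div_le_one hx0]
    exact h2d
  have h3 : (2 * lam + (12 * d + x * lam + 2 * d * (1 + Lam))) * (2 * (d / x ^ 2)) =
      (2 * lam + x * lam) * (2 * (d / x ^ 2)) + 2 * (2 * (d ^ 2 / x ^ 2) * (7 + Lam)) := by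
    field_simp
    ring
  have h4 : (2 * lam + x * lam) * (2 * (d / x ^ 2)) ≤ (2 * lam + x * lam) * 1 :=
    mul_le_mul_of_nonneg_left h2 (by positivity)
  have h5 : 4 * lam ≤ x * lam := mul_le_mul_of_nonneg_right hx hlam
  rw [h3] at h1
  linarith

end I_NB3

open I_NB3 in
theorem NB3_pf : S_NB3 := by
  intro N l δ h H
  obtain ⟨f1, f2, f3, f4, f5, f6⟩ := H.facts
  have hN : (2 : ℝ) ≤ N := by exact_mod_cast H.hN
  have hlN : 40 * (l : ℝ) ≤ N := by exact_mod_cast H.hlN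
  have hlog := H.hlog
  have hh := H.hh
  have hl0 : (0 : ℝ) < l := by linarith
  have hδ0 : (0 : ℝ) < δ := by linarith
  have hN0 : (0 : ℝ) < N := by linarith
  have hl0' : 0 < l := by exact_mod_cast hl0
  have hlδ : l ≤ δ := by
    have : (l : ℝ) ≤ δ := by linarith
    exact_mod_cast this
  have h2δ := H.hδ
  have hdm := Nat.div_add_mod δ l
  have hml := Nat.mod_lt δ hl0'
  have hwe : (δ / l + 1) * l = l * (δ / l) + l := by ring
  have hw1 : δ < (δ / l + 1) * l := by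
    rw [hwe]
    omega
  have hw2 : (δ / l + 1) * l ≤ 2 * δ := by
    rw [hwe]
    omega
  have hw3 : δ / l + 1 ≤ l := by
    rw [Nat.succ_le_iff, Nat.div_lt_iff_lt_mul hl0']
    nlinarith
  generalize δ / l + 1 = w at hw1 hw2 hw3 ⊢
  have hw0 : 0 < w := by
    rcases Nat.eq_zero_or_pos w with h0 | h0
    · subst h0
      omega
    · exact h0
  have hm : w * (δ / w + 1) ≤ 2 * δ := by
    have h1 := Nat.mul_div_le δ w
    have h2 : w ≤ δ := hw3.trans hlδ
    rw [Nat.mul_add, Nat.mul_one]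
    omega
  generalize w * (δ / w + 1) = m at hm ⊢
  have hw1' : (δ : ℝ) ≤ w * l := by exact_mod_cast hw1.le
  have hw2' : (w : ℝ) * l ≤ 2 * δ := by exact_mod_cast hw2
  have hw3' : (w : ℝ) ≤ l := by exact_mod_cast hw3
  have hw0' : (0 : ℝ) < w := by exact_mod_cast hw0
  have hLam : 0 ≤ Real.log ((l : ℝ) ^ 2 / δ) := by
    apply Real.log_nonneg
    rw [le_div_iff₀ hδ0]
    linarith
  have hA : (l * (l + 1) : ℝ) ≤ Real.exp (2 * Real.log N) := by
    rw [two_mul, Real.exp_add, Real.exp_log hN0]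
    have a1 : (l : ℝ) ≤ N := by linarith
    have a2 : (l : ℝ) + 1 ≤ N := by linarith
    exact mul_le_mul a1 a2 (by positivity) hN0.le
  have hL : (Nat.lcmUpto w : ℝ) ^ l ≤ Real.exp (12 * δ) := by
    calc (Nat.lcmUpto w : ℝ) ^ l ≤ Real.exp (6 * w) ^ l :=
          pow_le_pow_left₀ (Nat.cast_nonneg _) (lcm_le w) l
      _ = Real.exp (l * (6 * w)) := (Real.exp_nat_mul _ _).symm
      _ ≤ Real.exp (12 * δ) := Real.exp_le_exp.2 (by linarith)
  have hF : (l ! : ℝ) ≤ Real.exp (l * Real.log N) := by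
    calc (l ! : ℝ) ≤ (l : ℝ) ^ l := by exact_mod_cast Nat.factorial_le_pow l
      _ ≤ (N : ℝ) ^ l := pow_le_pow_left₀ hl0.le (by linarith) l
      _ = Real.exp (l * Real.log N) := by rw [Real.exp_nat_mul, Real.exp_log hN0]
  have hE1 : 1 ≤ Real.exp 1 * l / w := by
    rw [le_div_iff₀ hw0', one_mul]
    have : (1 : ℝ) ≤ Real.exp 1 := Real.one_le_exp (by norm_num)
    nlinarith
  have hE2 : Real.exp 1 * l / w ≤ Real.exp (1 + Real.log ((l : ℝ) ^ 2 / δ)) := by
    rw [Real.exp_add, Real.exp_log (by positivity), mul_div_assoc]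
    refine mul_le_mul_of_nonneg_left ?_ (Real.exp_pos 1).le
    rw [div_le_div_iff₀ hw0' hδ0]
    nlinarith
  have hE : (Real.exp 1 * l / w) ^ m ≤
      Real.exp (2 * δ * (1 + Real.log ((l : ℝ) ^ 2 / δ))) := by
    calc (Real.exp 1 * l / w) ^ m ≤ (Real.exp 1 * l / w) ^ (2 * δ) := pow_le_pow_right₀ hE1 hm
      _ ≤ Real.exp (1 + Real.log ((l : ℝ) ^ 2 / δ)) ^ (2 * δ) :=
          pow_le_pow_left₀ (by linarith) hE2 _
      _ = Real.exp (2 * δ * (1 + Real.log ((l : ℝ) ^ 2 / δ))) := by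
          rw [← Real.exp_nat_mul]
          push_cast
          rfl
  have hden : (l : ℝ) ^ 2 / 2 ≤ l * (l + 1) - δ := by nlinarith
  have hden0 : (0 : ℝ) < (l : ℝ) ^ 2 / 2 := by positivity
  have hr0 : 0 ≤ (δ : ℝ) / (l * (l + 1) - δ) := div_nonneg hδ0.le (by linarith)
  have hr : (δ : ℝ) / (l * (l + 1) - δ) ≤ 2 * (δ / (l : ℝ) ^ 2) := by
    calc (δ : ℝ) / (l * (l + 1) - δ) ≤ δ / ((l : ℝ) ^ 2 / 2) :=
          div_le_div_of_nonneg_left hδ0.le hden0 hden
      _ = 2 * (δ / (l : ℝ) ^ 2) := by field_simp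
  generalize (δ : ℝ) / (l * (l + 1) - δ) = r at hr0 hr ⊢
  have hX : (l * (l + 1) : ℝ) * ((Nat.lcmUpto w : ℝ) ^ l * (l ! : ℝ) *
      (Real.exp 1 * l / w) ^ m) ≤ Real.exp (2 * Real.log N +
        (12 * δ + l * Real.log N + 2 * δ * (1 + Real.log ((l : ℝ) ^ 2 / δ)))) := by
    rw [Real.exp_add, Real.exp_add, Real.exp_add]
    gcongr
  calc (l * (l + 1) : ℝ) * ((l * (l + 1) : ℝ) * ((Nat.lcmUpto w : ℝ) ^ l * (l ! : ℝ) *
        (Real.exp 1 * l / w) ^ m)) ^ r
      ≤ Real.exp (2 * Real.log N) * Real.exp (2 * Real.log N +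
        (12 * δ + l * Real.log N + 2 * δ * (1 + Real.log ((l : ℝ) ^ 2 / δ)))) ^ r := by
        refine mul_le_mul hA (Real.rpow_le_rpow (by positivity) hX hr0) ?_ (Real.exp_pos _).le
        exact Real.rpow_nonneg (by positivity) _
    _ = Real.exp (2 * Real.log N + (2 * Real.log N +
        (12 * δ + l * Real.log N + 2 * δ * (1 + Real.log ((l : ℝ) ^ 2 / δ)))) * r) := by
        rw [← Real.exp_mul, ← Real.exp_add]
    _ ≤ Real.exp (2 * h) := by
        apply Real.exp_le_exp.2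
        exact logs l δ (Real.log N) (Real.log ((l : ℝ) ^ 2 / δ)) r h (by linarith) (by linarith)
          hLam hδ0.le f5 hr hh

end Pool.Agent.Work.MP_f1a024_nt.EX
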