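import Pool.Agent.Work.MP_f1a024_nt.EX.Stmts3

set_option autoImplicit false

/-! Item NE3 of the block [f1a024 EX]: the bound for the coefficients, general parameters. -/

namespace Pool.Agent.Work.MP_f1a024_nt.EX

open Real Polynomial MeasureTheory Finset Filter Topology
open scoped Nat

theorem NE3_pf : S_NE3 := by
  intro N l δ n K B h H hn hK hB0 hB
  have hlh := H.facts.1
  have hN2 := H.hN
  have hl1 := H.h1
  have hlN := H.hlN
  have hN0 : (0 : ℝ) < N := by exact_mod_cast (by omega : 0 < N)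
  have hN1 : (1 : ℝ) ≤ N := by exact_mod_cast (by omega : 1 ≤ N)
  have b1 : (((2 * l : ℕ) : ℝ) + K + 1) ^ (2 * l + 2 * K + 1) ≤ (N : ℝ) ^ (35 * l) := by
    have hb : ((2 * l : ℕ) : ℝ) + K + 1 ≤ N := by
      exact_mod_cast (by omega : 2 * l + K + 1 ≤ N)
    calc (((2 * l : ℕ) : ℝ) + K + 1) ^ (2 * l + 2 * K + 1)
        ≤ (N : ℝ) ^ (2 * l + 2 * K + 1) := by gcongr
      _ ≤ (N : ℝ) ^ (35 * l) := pow_le_pow_right₀ hN1 (by omega)
  have b2 : (n : ℝ) ^ (2 * l - 1) ≤ (N : ℝ) ^ (2 * l) := by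
    have hn' : (n : ℝ) ≤ N := by exact_mod_cast hn
    calc (n : ℝ) ^ (2 * l - 1) ≤ (N : ℝ) ^ (2 * l - 1) := by gcongr
      _ ≤ (N : ℝ) ^ (2 * l) := pow_le_pow_right₀ hN1 (by omega)
  have b3 : ((2 * l)! : ℝ) ≤ (N : ℝ) ^ (2 * l) := by
    have h1 : (2 * l)! ≤ N ^ (2 * l) :=
      (Nat.factorial_le_pow (2 * l)).trans (Nat.pow_le_pow_left (by omega) _)
    exact_mod_cast h1
  have b4 : B ^ 2 ≤ Real.exp (4 * h) := by
    calc B ^ 2 ≤ Real.exp (2 * h) ^ 2 := by gcongr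
      _ = Real.exp (4 * h) := by
        rw [← Real.exp_nat_mul]
        congr 1
        push_cast
        ring
  have b5 : (N : ℝ) ^ (39 * l) ≤ Real.exp (39 * h) := by
    have e1 : (N : ℝ) ^ (39 * l) = Real.exp (39 * (l * Real.log N)) := by
      have e2 : (39 : ℝ) * (l * Real.log N) = ((39 * l : ℕ) : ℝ) * Real.log N := by
        push_cast
        ring
      rw [e2, Real.exp_nat_mul, Real.exp_log hN0]
    rw [e1]
    exact Real.exp_le_exp.mpr (mul_le_mul_of_nonneg_left hlh (by norm_num))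
  calc (((2 * l : ℕ) : ℝ) + K + 1) ^ (2 * l + 2 * K + 1) * (n : ℝ) ^ (2 * l - 1) *
      (((2 * l)! : ℝ) * B ^ 2)
      ≤ (N : ℝ) ^ (35 * l) * (N : ℝ) ^ (2 * l) * ((N : ℝ) ^ (2 * l) * Real.exp (4 * h)) := by
        gcongr
    _ = (N : ℝ) ^ (39 * l) * Real.exp (4 * h) := by
        have e3 : 39 * l = 35 * l + 2 * l + 2 * l := by ring
        rw [e3, pow_add, pow_add]
        ring
    _ ≤ Real.exp (39 * h) * Real.exp (4 * h) := by gcongr
    _ = Real.exp (43 * h) := by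
        rw [← Real.exp_add]
        congr 1
        ring

end Pool.Agent.Work.MP_f1a024_nt.EX
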