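import Pool.Agent.Work.MP_f1a024_nt.EX.Stmts3

set_option autoImplicit false

/-!
Block [f1a024 EX], item NF3: the tail condition in numbers, general parameters.
-/

namespace Pool.Agent.Work.MP_f1a024_nt.EX

open Real Polynomial MeasureTheory Finset Filter Topology
open scoped Nat

namespace I_NF3

theorem fac_le (N m k : ℕ) (hN : 0 < N) (hm : m ≤ k) (hk : k ≤ N) :
    ((m ! : ℕ) : ℝ) ≤ Real.exp (k * Real.log N) := by
  have hNpos : (0 : ℝ) < N := by exact_mod_cast hN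
  have h1 : m ! ≤ N ^ k := by
    calc m ! ≤ k ! := Nat.factorial_le hm
      _ ≤ k ^ k := Nat.factorial_le_pow k
      _ ≤ N ^ k := Nat.pow_le_pow_left hk k
  have h2 : ((m ! : ℕ) : ℝ) ≤ (N : ℝ) ^ k := by exact_mod_cast h1
  rw [Real.exp_nat_mul, Real.exp_log hNpos]
  exact h2

end I_NF3

theorem NF3_pf : S_NF3 := by
  intro N l δ n K B Φ h H hn hK hB0 hB hΦ hlow hKz
  obtain ⟨g1, g2, g3, g4, g5, g6⟩ := H.facts
  have hN2 := H.hN
  have hl1 := H.h1
  have h40 := H.hlN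
  have hNl := H.hNl
  have f1 := I_NF3.fac_le N n N (by omega) hn le_rfl
  have f2 := I_NF3.fac_le N (2 * l + 2 * K + 1) (35 * l) (by omega) (by omega) (by omega)
  push_cast at f2
  have f3 : (((2 * l + 2 * K + 1)! : ℕ) : ℝ) ≤ Real.exp (35 * h) := by
    refine f2.trans (Real.exp_le_exp.2 ?_)
    linarith
  have f4 : ((n ! : ℕ) : ℝ) ≤ Real.exp ((δ : ℝ) / 60) := f1.trans (Real.exp_le_exp.2 hNl)
  -- the left side
  have b1 : B ^ 2 ≤ Real.exp (4 * h) := by
    calc B ^ 2 ≤ Real.exp (2 * h) ^ 2 := pow_le_pow_left₀ hB0 hB 2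
      _ = Real.exp (4 * h) := by
        rw [← Real.exp_nat_mul]
        congr 1
        push_cast
        ring
  have e1 : (2 : ℝ) ≤ Real.exp 1 := by
    have := Real.add_one_le_exp (1 : ℝ)
    linarith
  have b2 : (4 : ℝ) ^ l ≤ Real.exp (2 * l) := by
    have e2 : (4 : ℝ) ≤ Real.exp 2 := by
      have h : Real.exp 2 = Real.exp 1 * Real.exp 1 := by
        rw [← Real.exp_add]
        norm_num
      rw [h]
      have := mul_le_mul e1 e1 (by norm_num) (Real.exp_pos 1).le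
      linarith
    calc (4 : ℝ) ^ l ≤ Real.exp 2 ^ l := pow_le_pow_left₀ (by norm_num) e2 _
      _ = Real.exp (2 * l) := by
        rw [← Real.exp_nat_mul]
        congr 1
        push_cast
        ring
  have b3 : Real.exp (-(K * (70 * h))) ≤ Real.exp (-(5 / 4 * (δ : ℝ))) :=
    Real.exp_le_exp.2 (by linarith)
  have c1 : B ^ 2 * 4 ^ l * Real.exp (-(K * (70 * h))) ≤
      Real.exp (4 * h + 2 * l + -(5 / 4 * (δ : ℝ))) := by
    rw [Real.exp_add, Real.exp_add]
    refine mul_le_mul (mul_le_mul b1 b2 (by positivity) (Real.exp_pos _).le) b3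
      (Real.exp_pos _).le (by positivity)
  -- the right side
  have c2 : Real.exp (-(δ : ℝ)) ≤ Real.exp ((δ : ℝ) / 60) * (Real.exp (35 * h) * Φ) := by
    refine hlow.trans (mul_le_mul f4 (mul_le_mul_of_nonneg_right f3 hΦ) ?_ (Real.exp_pos _).le)
    exact mul_nonneg (Nat.cast_nonneg _) hΦ
  have c3 : Real.exp (-(δ : ℝ) - (δ : ℝ) / 60 - 35 * h) ≤ Φ := by
    have h' : Real.exp (-(δ : ℝ) - (δ : ℝ) / 60 - 35 * h) =
        Real.exp (-(δ : ℝ)) * (Real.exp (-((δ : ℝ) / 60)) * Real.exp (-(35 * h))) := by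
      rw [← Real.exp_add, ← Real.exp_add]
      congr 1
      ring
    rw [h']
    have h2 := mul_le_mul_of_nonneg_right c2
      (mul_pos (Real.exp_pos (-((δ : ℝ) / 60))) (Real.exp_pos (-(35 * h)))).le
    refine h2.trans (le_of_eq ?_)
    have h3 : Real.exp ((δ : ℝ) / 60) * Real.exp (-((δ : ℝ) / 60)) = 1 := by
      rw [← Real.exp_add, add_neg_cancel, Real.exp_zero]
    have h4 : Real.exp (35 * h) * Real.exp (-(35 * h)) = 1 := by
      rw [← Real.exp_add, add_neg_cancel, Real.exp_zero]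
    calc Real.exp ((δ : ℝ) / 60) * (Real.exp (35 * h) * Φ) *
          (Real.exp (-((δ : ℝ) / 60)) * Real.exp (-(35 * h)))
        = (Real.exp ((δ : ℝ) / 60) * Real.exp (-((δ : ℝ) / 60))) *
          (Real.exp (35 * h) * Real.exp (-(35 * h))) * Φ := by ring
      _ = Φ := by rw [h3, h4]; ring
  have c4 : Real.exp (-1) ≤ 1 / 2 := by
    rw [Real.exp_neg, one_div]
    exact inv_anti₀ (by norm_num) e1
  -- comparison of the exponents
  have c5 : Real.exp (4 * h + 2 * l + -(5 / 4 * (δ : ℝ))) ≤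
      Real.exp (-(δ : ℝ) - (δ : ℝ) / 60 - 35 * h) * Real.exp (-1) := by
    rw [← Real.exp_add]
    refine Real.exp_le_exp.2 ?_
    linarith
  calc B ^ 2 * 4 ^ l * Real.exp (-(K * (70 * h)))
      ≤ _ := c1
    _ ≤ _ := c5
    _ ≤ Φ * (1 / 2) := mul_le_mul c3 c4 (Real.exp_pos _).le hΦ
    _ = Φ / 2 := by ring

end Pool.Agent.Work.MP_f1a024_nt.EX
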