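import Mathlib
import Pool.Agent.Work.MP_f1a024_nt.EX.Stmts3

set_option autoImplicit false

/-!
NG3: choice of `K1 = ⌈δ/(56 h)⌉₊`, free `h`.
-/

namespace Pool.Agent.Work.MP_f1a024_nt.EX

open Real Polynomial MeasureTheory Finset Filter Topology
open scoped Nat

theorem NG3_pf : S_NG3 := by
  intro N l δ h H
  obtain ⟨-, f2, f3, f4, f5, f6⟩ := H.facts
  have hl0 : (0 : ℝ) < l := by linarith
  have hδ0 : (0 : ℝ) < δ := by linarith
  have h0 : 0 < h := by linarith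
  have key : (δ : ℝ) ≤ 16 * l * (56 * h) := by
    have e1 : (l : ℝ) * (l * 10) ≤ l * h := mul_le_mul_of_nonneg_left f3 hl0.le
    have e2 : (0 : ℝ) ≤ (l : ℝ) ^ 2 := by positivity
    have e3 : (l : ℝ) * (l * 10) = 10 * (l : ℝ) ^ 2 := by ring
    have e4 : 16 * (l : ℝ) * (56 * h) = 896 * (l * h) := by ring
    rw [e4]
    rw [e3] at e1
    linarith
  refine ⟨⌈(δ : ℝ) / (56 * h)⌉₊, ?_, ?_, ?_⟩
  · rw [Nat.ceil_le]
    push_cast
    rw [div_le_iff₀ (by positivity)]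
    exact key
  · have h1 : (δ : ℝ) / (56 * h) ≤ (⌈(δ : ℝ) / (56 * h)⌉₊ : ℝ) := Nat.le_ceil _
    calc 5 / 4 * (δ : ℝ) = (δ : ℝ) / (56 * h) * (70 * h) := by
          field_simp
          ring
      _ ≤ _ := mul_le_mul_of_nonneg_right h1 (by positivity)
  · have h1 : (⌈(δ : ℝ) / (56 * h)⌉₊ : ℝ) < (δ : ℝ) / (56 * h) + 1 :=
      Nat.ceil_lt_add_one (by positivity)
    have h3 : 7 * ((⌈(δ : ℝ) / (56 * h)⌉₊ : ℝ) + 4) * h ≤
        7 * ((δ : ℝ) / (56 * h) + 1 + 4) * h := by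
      apply mul_le_mul_of_nonneg_right _ h0.le
      linarith
    have h4 : 7 * ((δ : ℝ) / (56 * h) + 1 + 4) * h = (δ : ℝ) / 8 + 35 * h := by
      field_simp
      ring
    linarith

end Pool.Agent.Work.MP_f1a024_nt.EX
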