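import Pool.Agent.Work.MP_f1a024_nt.EX.Stmts3

set_option autoImplicit false

/-!
# Item NMU: the norm of the coefficients
-/

namespace Pool.Agent.Work.MP_f1a024_nt.EX

open Real Polynomial MeasureTheory Finset Filter Topology
open scoped Nat

namespace I_NMU

lemma n1_eq (p : ℚ[X]) (D : ℕ) (h : p.natDegree ≤ D) :
    n1 p = ∑ s ∈ range (D + 1), |((p.coeff s : ℚ) : ℝ)| := by
  unfold n1
  refine Finset.sum_subset (Finset.range_mono (by omega)) ?_
  intro s _ hs
  rw [Finset.mem_range, not_lt] at hs
  rw [Polynomial.coeff_eq_zero_of_natDegree_lt (by omega)]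
  simp

end I_NMU

open I_NMU in
/-- NMU. -/
theorem NMU_pf : S_NMU := by
  refine ⟨?_, ?_, ?_⟩
  · intro p q
    set D := p.natDegree + q.natDegree with hD
    rw [n1_eq (p * q) D natDegree_mul_le, n1_eq p D (by omega), n1_eq q D (by omega),
      Finset.sum_mul_sum, ← Finset.sum_product']
    have h1 : ∀ s ∈ range (D + 1), |(((p * q).coeff s : ℚ) : ℝ)| ≤
        ∑ x ∈ (range (D + 1) ×ˢ range (D + 1)).filter (fun x => x.1 + x.2 = s),
          |((p.coeff x.1 : ℚ) : ℝ)| * |((q.coeff x.2 : ℚ) : ℝ)| := by
      intro s hs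
      rw [Finset.mem_range] at hs
      have h2 : (range (D + 1) ×ˢ range (D + 1)).filter (fun x => x.1 + x.2 = s) =
          Finset.HasAntidiagonal.antidiagonal s := by
        ext x
        simp only [Finset.mem_filter, Finset.mem_product, Finset.mem_range,
          Finset.HasAntidiagonal.mem_antidiagonal]
        omega
      rw [h2, coeff_mul]
      push_cast
      refine (Finset.abs_sum_le_sum_abs _ _).trans (le_of_eq ?_)
      exact Finset.sum_congr rfl fun x _ => abs_mul _ _
    refine (Finset.sum_le_sum h1).trans ?_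
    rw [Finset.sum_fiberwise_eq_sum_filter (range (D + 1) ×ˢ range (D + 1)) (range (D + 1))
      (fun x : ℕ × ℕ => x.1 + x.2)
      (fun x => |((p.coeff x.1 : ℚ) : ℝ)| * |((q.coeff x.2 : ℚ) : ℝ)|)]
    exact Finset.sum_le_sum_of_subset_of_nonneg (Finset.filter_subset _ _)
      fun x _ _ => mul_nonneg (abs_nonneg _) (abs_nonneg _)
  · intro p q
    set D := max p.natDegree q.natDegree with hD
    rw [n1_eq (p + q) D (natDegree_add_le _ _), n1_eq p D (le_max_left _ _),
      n1_eq q D (le_max_right _ _), ← Finset.sum_add_distrib]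
    refine Finset.sum_le_sum fun s _ => ?_
    rw [coeff_add]
    push_cast
    exact abs_add_le _ _
  · intro p s
    rw [n1_eq p (max p.natDegree s) (le_max_left _ _)]
    exact Finset.single_le_sum (f := fun s => |((p.coeff s : ℚ) : ℝ)|)
      (fun i _ => abs_nonneg _) (Finset.mem_range.2 (by omega))

end Pool.Agent.Work.MP_f1a024_nt.EX
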