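import Pool.Agent.Work.MP_f1a024_nt.EX.Stmts3

/-!
# MP_f1a024_nt, block EX: item PBD
-/

set_option autoImplicit false

namespace Pool.Agent.Work.MP_f1a024_nt.EX

open Polynomial Finset

namespace I_PBD

theorem bp_ne (w : ℕ) : bp w ≠ 0 := by
  have h1 : (1 / ((w.factorial : ℕ) : ℚ)) ≠ 0 := by
    have := Nat.factorial_ne_zero w
    positivity
  exact mul_ne_zero (by simpa using Nat.factorial_ne_zero w) (monic_descPochhammer ℚ w).ne_zero

theorem bp_deg (w : ℕ) : (bp w).natDegree = w := by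
  have h1 : (1 / ((w.factorial : ℕ) : ℚ)) ≠ 0 := by
    have := Nat.factorial_ne_zero w
    positivity
  unfold bp
  rw [natDegree_C_mul h1, descPochhammer_natDegree]

end I_PBD

theorem PBD_pf : S_PBD := by
  intro w b hw
  have h1 : pb w b ≠ 0 := mul_ne_zero (pow_ne_zero _ (I_PBD.bp_ne w)) (I_PBD.bp_ne _)
  refine ⟨?_, h1⟩
  unfold pb
  rw [natDegree_mul (pow_ne_zero _ (I_PBD.bp_ne w)) (I_PBD.bp_ne _), natDegree_pow,
    I_PBD.bp_deg, I_PBD.bp_deg]
  have := Nat.div_add_mod b w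
  rw [mul_comm] at this
  exact this

end Pool.Agent.Work.MP_f1a024_nt.EX
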