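import Pool.Agent.Work.MP_f1a024_nt.EX.Stmts3

set_option autoImplicit false

namespace Pool.Agent.Work.MP_f1a024_nt.EX

open Real Polynomial MeasureTheory Finset Filter Topology
open scoped Nat

namespace I_PBI

def Gd (d : ℕ) (E : ℝ) (p : ℚ[X]) : Prop :=
  (∀ s : ℕ, ∃ z : ℤ, (d : ℚ) ^ s * p.coeff s = z) ∧ n1 p ≤ E

theorem n1_nonneg (p : ℚ[X]) : 0 ≤ n1 p := by
  unfold n1
  exact Finset.sum_nonneg fun _ _ => abs_nonneg _

theorem gd_mul (h3 : S_NMU) (d : ℕ) (E E' : ℝ) (p q : ℚ[X]) (hp : Gd d E p) (hq : Gd d E' q) :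
    Gd d (E * E') (p * q) := by
  refine ⟨fun s => ?_, ?_⟩
  · choose f hf using hp.1
    choose g hg using hq.1
    refine ⟨∑ x ∈ antidiagonal s, f x.1 * g x.2, ?_⟩
    rw [Polynomial.coeff_mul, Finset.mul_sum]
    push_cast
    refine Finset.sum_congr rfl fun x hx => ?_
    rw [← hf, ← hg, ← mem_antidiagonal.mp hx, pow_add]
    ring
  · refine (h3.1 p q).trans ?_
    have h0 : 0 ≤ E := (n1_nonneg p).trans hp.2
    exact mul_le_mul hp.2 hq.2 (n1_nonneg q) h0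

theorem gd_pow (h3 : S_NMU) (d : ℕ) (E E' : ℝ) (p q : ℚ[X]) (hp : Gd d E p) (hq : Gd d E' q)
    (k : ℕ) : Gd d (E ^ k * E') (p ^ k * q) := by
  induction k with
  | zero => simpa using hq
  | succ k ih =>
    have := gd_mul h3 d E (E ^ k * E') p (p ^ k * q) hp ih
    have e1 : p ^ (k + 1) * q = p * (p ^ k * q) := by ring
    have e2 : E ^ (k + 1) * E' = E * (E ^ k * E') := by ring
    rw [e1, e2]
    exact this

end I_PBI

open I_PBI in
theorem PBI_pf (h1 : S_BI) (h2 : S_BN) (h3 : S_NMU) : S_PBI := by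
  intro l w b i hw hwl hil s
  have hm : b % w ≤ w := (Nat.mod_lt b hw).le
  have hA : Gd (Nat.lcmUpto w) ((Real.exp 1 * l / w) ^ w) (taylor (i : ℚ) (bp w)) :=
    ⟨h1 w w i le_rfl, h2 l w w i hw hwl le_rfl hil⟩
  have hB : Gd (Nat.lcmUpto w) ((Real.exp 1 * l / w) ^ w) (taylor (i : ℚ) (bp (b % w))) :=
    ⟨h1 w (b % w) i hm, h2 l w (b % w) i hw hwl hm hil⟩
  have hC := gd_pow h3 _ _ _ _ _ hA hB (b / w)
  have e1 : taylor (i : ℚ) (pb w b) =
      taylor (i : ℚ) (bp w) ^ (b / w) * taylor (i : ℚ) (bp (b % w)) := by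
    unfold pb
    rw [taylor_mul, taylor_pow]
  have e2 : ((Real.exp 1 * l / w) ^ w) ^ (b / w) * (Real.exp 1 * l / w) ^ w =
      (Real.exp 1 * l / w) ^ (w * (b / w + 1)) := by
    rw [← pow_mul, ← pow_add]
    ring_nf
  rw [e1]
  rw [e2] at hC
  exact ⟨hC.1 s, (h3.2.2 _ s).trans hC.2⟩

end Pool.Agent.Work.MP_f1a024_nt.EX
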