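import Mathlib
import Pool.Agent.Work.MP_f1a024_nt.EX.Stmts3

set_option autoImplicit false

/-! Item SI3 (helper64): Siegel's lemma in the binomial basis. After `I_SIE.lean` of helper4. -/

namespace Pool.Agent.Work.MP_f1a024_nt.EX

open Real Polynomial Finset
open scoped Nat

namespace I_SI3

/-- the polynomial with the coefficients `f i s`, `i ≤ l`, `s < a` -/
noncomputable def pol (ρ a : ℕ) (f : ℕ → ℕ → ℤ) : ℤ[X][X] :=
  ∑ s ∈ range a, monomial s (∑ i ∈ range (ρ + 1), monomial i (f i s))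

theorem coeff_pol (ρ a : ℕ) (f : ℕ → ℕ → ℤ) (s i : ℕ) :
    ((pol ρ a f).coeff s).coeff i = if s < a ∧ i < ρ + 1 then f i s else 0 := by
  unfold pol
  rw [finsetSum_coeff]
  simp only [coeff_monomial]
  rw [Finset.sum_ite_eq' (range a) s]
  by_cases hs : s < a
  · rw [if_pos (Finset.mem_range.2 hs), finsetSum_coeff]
    simp only [coeff_monomial]
    rw [Finset.sum_ite_eq' (range (ρ + 1)) i]
    by_cases hi : i < ρ + 1
    · rw [if_pos (Finset.mem_range.2 hi), if_pos ⟨hs, hi⟩]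
    · rw [if_neg (fun h => hi (Finset.mem_range.1 h)), if_neg (fun h => hi h.2)]
  · rw [if_neg (fun h => hs (Finset.mem_range.1 h)), if_neg (fun h => hs h.1), coeff_zero]

section

attribute [local instance] Matrix.seminormedAddCommGroup

theorem siegel {α β : Type} [Fintype α] [Fintype β] (A : Matrix α β ℤ) (B : ℝ) (hB : 1 ≤ B)
    (hA : ∀ i j, |(A i j : ℝ)| ≤ B) (hm : 0 < Fintype.card α)
    (hn : Fintype.card α < Fintype.card β) :
    ∃ t : β → ℤ, t ≠ 0 ∧ A.mulVec t = 0 ∧ ∀ j, |(t j : ℝ)| ≤ ((Fintype.card β : ℝ) * B) ^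
      ((Fintype.card α : ℝ) / ((Fintype.card β : ℝ) - Fintype.card α)) := by
  obtain ⟨t, ht0, ht1, ht2⟩ := Int.Matrix.exists_ne_zero_int_vec_norm_le A hn hm
  refine ⟨t, ht0, ht1, fun j => ?_⟩
  have h1 : |(t j : ℝ)| ≤ ‖t‖ := by
    have := norm_le_pi_norm t j
    rwa [Int.norm_eq_abs] at this
  have hA2 : ‖A‖ ≤ B := by
    rw [Matrix.norm_le_iff (by linarith)]
    intro i j
    rw [Int.norm_eq_abs]
    exact hA i j
  have hmax : max 1 ‖A‖ ≤ B := max_le hB hA2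
  have hnR : (Fintype.card α : ℝ) < (Fintype.card β : ℝ) := by exact_mod_cast hn
  have h4 : (0 : ℝ) ≤ (Fintype.card β : ℝ) * max 1 ‖A‖ :=
    mul_nonneg (Nat.cast_nonneg _) (le_trans zero_le_one (le_max_left _ _))
  exact h1.trans (ht2.trans (Real.rpow_le_rpow h4 (mul_le_mul_of_nonneg_left hmax (Nat.cast_nonneg _))
    (div_nonneg (Nat.cast_nonneg _) (by linarith))))

end

theorem eval_deriv (p : ℚ[X]) (s i : ℕ) :
    (derivative^[s] p).eval (i : ℚ) = (s ! : ℚ) * (taylor (i : ℚ) p).coeff s := by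
  rw [taylor_coeff, ← factorial_smul_hasseDeriv]
  simp [nsmul_eq_mul]

theorem lcm_pos (w : ℕ) : (1 : ℝ) ≤ (Nat.lcmUpto w : ℝ) := by
  have h : 0 < Nat.lcmUpto w := Nat.lcmUpto_pos w
  exact_mod_cast h

end I_SI3

theorem SI3_pf (h1 : S_PBI) (h2 : S_LIN) (h3 : S_PBD) : S_SI3 := by
  classical
  intro l δ w hw hwl hδ h2δ
  have hl : 1 ≤ l := hw.trans hwl
  have hcard : δ < l * (l + 1) := by nlinarith
  have key : ∀ (b i s : ℕ), ∃ a : ℤ, b < δ → i ≤ l → s < l →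
      (a : ℚ) = (Nat.lcmUpto w : ℚ) ^ l * (derivative^[s] (pb w b)).eval (i : ℚ) ∧
      |(a : ℝ)| ≤ (Nat.lcmUpto w : ℝ) ^ l * (l ! : ℝ) *
        (Real.exp 1 * l / w) ^ (w * (δ / w + 1)) := by
    intro b i s
    by_cases hi : i ≤ l
    · obtain ⟨⟨z, hz⟩, hb⟩ := h1 l w b i hw hwl hi s
      refine ⟨(Nat.lcmUpto w : ℤ) ^ (l - s) * (s ! : ℤ) * z, fun hbδ _ hs => ⟨?_, ?_⟩⟩
      · push_cast
        rw [← hz, I_SI3.eval_deriv]
        have : (Nat.lcmUpto w : ℚ) ^ l = (Nat.lcmUpto w : ℚ) ^ (l - s) * (Nat.lcmUpto w : ℚ) ^ s := by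
          rw [← pow_add, Nat.sub_add_cancel hs.le]
        rw [this]
        ring
      · have hzR : (z : ℝ) = (Nat.lcmUpto w : ℝ) ^ s *
            (((taylor (i : ℚ) (pb w b)).coeff s : ℚ) : ℝ) := by
          have h4 : ((z : ℚ) : ℝ) = (((Nat.lcmUpto w : ℚ) ^ s *
            (taylor (i : ℚ) (pb w b)).coeff s : ℚ) : ℝ) := by rw [hz]
          push_cast at h4
          exact h4
        have hd := I_SI3.lcm_pos w
        have hd0 : (0 : ℝ) ≤ (Nat.lcmUpto w : ℝ) := by linarith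
        push_cast
        rw [hzR]
        have e1 : (Nat.lcmUpto w : ℝ) ^ (l - s) * (s ! : ℝ) * ((Nat.lcmUpto w : ℝ) ^ s *
            (((taylor (i : ℚ) (pb w b)).coeff s : ℚ) : ℝ)) = (Nat.lcmUpto w : ℝ) ^ l * (s ! : ℝ) *
            (((taylor (i : ℚ) (pb w b)).coeff s : ℚ) : ℝ) := by
          have : (Nat.lcmUpto w : ℝ) ^ l = (Nat.lcmUpto w : ℝ) ^ (l - s) * (Nat.lcmUpto w : ℝ) ^ s := by
            rw [← pow_add, Nat.sub_add_cancel hs.le]
          rw [this]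
          ring
        rw [e1, abs_mul, abs_of_nonneg (by positivity :
          (0 : ℝ) ≤ (Nat.lcmUpto w : ℝ) ^ l * (s ! : ℝ))]
        have hw0 : (0 : ℝ) < w := by exact_mod_cast hw
        have hwl' : (w : ℝ) ≤ l := by exact_mod_cast hwl
        have hbase : 1 ≤ Real.exp 1 * l / w := by
          rw [le_div_iff₀ hw0, one_mul]
          have h5 : (1 : ℝ) ≤ Real.exp 1 := Real.one_le_exp (by norm_num)
          nlinarith
        have hsl : (s ! : ℝ) ≤ (l ! : ℝ) := by exact_mod_cast Nat.factorial_le hs.le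
        have hexp : w * (b / w + 1) ≤ w * (δ / w + 1) :=
          Nat.mul_le_mul_left _ (Nat.add_le_add_right (Nat.div_le_div_right hbδ.le) _)
        have hb2 := hb.trans (pow_le_pow_right₀ hbase hexp)
        exact mul_le_mul (mul_le_mul_of_nonneg_left hsl (by positivity)) hb2 (abs_nonneg _)
          (by positivity)
    · exact ⟨0, fun _ h => absurd h hi⟩
  choose a ha using key
  let A : Matrix (Fin δ) (Fin (l + 1) × Fin l) ℤ := fun k p => a k p.1 p.2
  have hcb : Fintype.card (Fin (l + 1) × Fin l) = l * (l + 1) := by simp [mul_comm]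
  have hca : Fintype.card (Fin δ) = δ := by simp
  have hw0 : (0 : ℝ) < w := by exact_mod_cast hw
  have hwl' : (w : ℝ) ≤ l := by exact_mod_cast hwl
  have hbase : 1 ≤ Real.exp 1 * l / w := by
    rw [le_div_iff₀ hw0, one_mul]
    have h5 : (1 : ℝ) ≤ Real.exp 1 := Real.one_le_exp (by norm_num)
    nlinarith
  have hfl : (1 : ℝ) ≤ (l ! : ℝ) := by exact_mod_cast Nat.one_le_iff_ne_zero.2 (Nat.factorial_ne_zero l)
  have hB : (1 : ℝ) ≤ (Nat.lcmUpto w : ℝ) ^ l * (l ! : ℝ) *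
        (Real.exp 1 * l / w) ^ (w * (δ / w + 1)) :=
    one_le_mul_of_one_le_of_one_le (one_le_mul_of_one_le_of_one_le
      (one_le_pow₀ (I_SI3.lcm_pos w)) hfl) (one_le_pow₀ hbase)
  obtain ⟨t, ht0, ht1, ht2⟩ := I_SI3.siegel A _ hB
    (fun k p => (ha k p.1 p.2 k.2 (Nat.lt_succ_iff.1 p.1.2) p.2.2).2)
    (by rw [hca]; omega) (by rw [hca, hcb]; omega)
  rw [hca, hcb] at ht2
  set Bd : ℝ := (((l * (l + 1) : ℕ) : ℝ) * ((Nat.lcmUpto w : ℝ) ^ l * (l ! : ℝ) *
        (Real.exp 1 * l / w) ^ (w * (δ / w + 1)))) ^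
    ((δ : ℝ) / (((l * (l + 1) : ℕ) : ℝ) - δ)) with hBd
  let f : ℕ → ℕ → ℤ := fun i s => if h : i < l + 1 ∧ s < l then t (⟨i, h.1⟩, ⟨s, h.2⟩) else 0
  have hf : ∀ (i : Fin (l + 1)) (s : Fin l), f i s = t (i, s) := fun i s => dif_pos ⟨i.2, s.2⟩
  have hc : ∀ s i : ℕ, ((I_SI3.pol l l f).coeff s).coeff i = f i s := by
    intro s i
    rw [I_SI3.coeff_pol]
    by_cases h : s < l ∧ i < l + 1
    · rw [if_pos h]
    · rw [if_neg h]
      have h' : ¬ (i < l + 1 ∧ s < l) := fun h' => h ⟨h'.2, h'.1⟩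
      have h'' : f i s = 0 := by
        simp only [f]
        rw [dif_neg h']
      exact h''.symm
  have hBox : Box l l (I_SI3.pol l l f) := by
    intro s i h
    rw [I_SI3.coeff_pol, if_neg]
    rintro ⟨h3, h4⟩
    omega
  refine ⟨I_SI3.pol l l f, ?_, hBox, ?_, ?_⟩
  · intro h0
    apply ht0
    funext p
    have := hc p.2 p.1
    rw [h0, coeff_zero, coeff_zero, hf] at this
    exact this.symm
  · refine h2 l l δ _ (fun b => pb w b) hBox (fun b _ => h3 w b hw) ?_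
    intro b hb
    have h5 : (A.mulVec t) ⟨b, hb⟩ = 0 := by rw [ht1]; rfl
    rw [Matrix.mulVec, dotProduct, Fintype.sum_prod_type] at h5
    have h6 : ((∑ i : Fin (l + 1), ∑ s : Fin l, A ⟨b, hb⟩ (i, s) * t (i, s) : ℤ) : ℚ) = 0 := by
      rw [h5]; rfl
    have h7 : (Nat.lcmUpto w : ℚ) ^ l * ∑ i ∈ range (l + 1), ∑ s ∈ range l,
        (((I_SI3.pol l l f).coeff s).coeff i : ℚ) * (derivative^[s] (pb w b)).eval (i : ℚ) = 0 := by
      rw [← h6]
      push_cast
      rw [Finset.mul_sum, ← Fin.sum_univ_eq_sum_range (fun i => (Nat.lcmUpto w : ℚ) ^ l *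
        ∑ s ∈ range l, (((I_SI3.pol l l f).coeff s).coeff i : ℚ) *
          (derivative^[s] (pb w b)).eval (i : ℚ)) (l + 1)]
      refine Finset.sum_congr rfl fun i _ => ?_
      rw [Finset.mul_sum, ← Fin.sum_univ_eq_sum_range (fun s => (Nat.lcmUpto w : ℚ) ^ l *
        ((((I_SI3.pol l l f).coeff s).coeff (i : ℕ) : ℚ) *
          (derivative^[s] (pb w b)).eval ((i : ℕ) : ℚ))) l]
      refine Finset.sum_congr rfl fun s _ => ?_
      rw [hc, hf]
      have h8 : (A ⟨b, hb⟩ (i, s) : ℚ) = (Nat.lcmUpto w : ℚ) ^ l *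
          (derivative^[(s : ℕ)] (pb w b)).eval ((i : ℕ) : ℚ) :=
        (ha b i s hb (Nat.lt_succ_iff.1 i.2) s.2).1
      rw [h8]
      ring
    have h9 : (Nat.lcmUpto w : ℚ) ^ l ≠ 0 := by
      apply pow_ne_zero
      have := I_SI3.lcm_pos w
      have h10 : 1 ≤ Nat.lcmUpto w := by exact_mod_cast this
      exact_mod_cast (by omega : Nat.lcmUpto w ≠ 0)
    exact (mul_eq_zero.1 h7).resolve_left h9
  · have h3 : nm l l (I_SI3.pol l l f) ≤ ∑ i ∈ range (l + 1), ∑ s ∈ range l, Bd := by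
      refine Finset.sum_le_sum fun i hi => Finset.sum_le_sum fun s hs => ?_
      rw [hc]
      have h4 := hf ⟨i, Finset.mem_range.1 hi⟩ ⟨s, Finset.mem_range.1 hs⟩
      change f i s = _ at h4
      rw [h4]
      exact ht2 _
    have h5 : ∑ i ∈ range (l + 1), ∑ s ∈ range l, Bd = (l * (l + 1) : ℝ) * Bd := by
      rw [Finset.sum_const, Finset.sum_const, Finset.card_range, Finset.card_range, nsmul_eq_mul, nsmul_eq_mul]
      push_cast
      ring
    rw [h5] at h3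
    refine h3.trans (le_of_eq ?_)
    rw [hBd]
    push_cast
    rfl

end Pool.Agent.Work.MP_f1a024_nt.EX
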