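import Pool.Agent.Work.MP_f1a024_nt.EX.Stmts3

set_option autoImplicit false

/-!
# MP_f1a024_nt, block EX, item VDM: Vandermonde for the binomial polynomials
-/

namespace Pool.Agent.Work.MP_f1a024_nt.EX

open Real Polynomial MeasureTheory Finset Filter Topology
open scoped Nat

namespace I_VDM

theorem eval_bp (w n : ℕ) : (bp w).eval (n : ℚ) = (n.choose w : ℚ) := by
  unfold bp
  rw [Polynomial.eval_mul, Polynomial.eval_C, descPochhammer_eval_eq_descFactorial,
    Nat.descFactorial_eq_factorial_mul_choose]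
  have h : (w ! : ℚ) ≠ 0 := by exact_mod_cast Nat.factorial_ne_zero w
  push_cast
  field_simp

end I_VDM

open I_VDM in
theorem VDM_pf : S_VDM := by
  intro v i
  apply Polynomial.eq_of_infinite_eval_eq
  refine Set.infinite_of_injective_forall_mem (f := fun n : ℕ => (n : ℚ)) Nat.cast_injective ?_
  intro n
  show Polynomial.eval (n : ℚ) _ = Polynomial.eval (n : ℚ) _
  rw [Polynomial.taylor_eval, Polynomial.eval_finset_sum]
  have h1 : (n : ℚ) + (i : ℚ) = ((n + i : ℕ) : ℚ) := by push_cast; ring
  rw [h1, eval_bp, Nat.add_choose_eq, Finset.Nat.sum_antidiagonal_eq_sum_range_succ_mk,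
    Nat.cast_sum]
  refine Finset.sum_congr rfl fun t _ => ?_
  rw [Polynomial.eval_mul, Polynomial.eval_C, eval_bp, Nat.cast_mul, mul_comm]

end Pool.Agent.Work.MP_f1a024_nt.EX
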