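import Mathlib
import Pool.Agent.Work.MP_f1a024_nt.EX.Asm
import Pool.Agent.Work.MP_f1a024_nt.EX.Fam3
import Pool.Agent.Work.MP_f1a024_nt.EX.Mag3
import Pool.Agent.Work.MP_f1a024_nt.EX.I_BI
import Pool.Agent.Work.MP_f1a024_nt.EX.I_BN
import Pool.Agent.Work.MP_f1a024_nt.EX.I_LIN
import Pool.Agent.Work.MP_f1a024_nt.EX.I_NA3
import Pool.Agent.Work.MP_f1a024_nt.EX.I_NB3
import Pool.Agent.Work.MP_f1a024_nt.EX.I_NC3
import Pool.Agent.Work.MP_f1a024_nt.EX.I_ND3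
import Pool.Agent.Work.MP_f1a024_nt.EX.I_NE3
import Pool.Agent.Work.MP_f1a024_nt.EX.I_NF3
import Pool.Agent.Work.MP_f1a024_nt.EX.I_NG3
import Pool.Agent.Work.MP_f1a024_nt.EX.I_NH3
import Pool.Agent.Work.MP_f1a024_nt.EX.I_NMU
import Pool.Agent.Work.MP_f1a024_nt.EX.I_PBD
import Pool.Agent.Work.MP_f1a024_nt.EX.I_PBI
import Pool.Agent.Work.MP_f1a024_nt.EX.I_REX3
import Pool.Agent.Work.MP_f1a024_nt.EX.I_SI3
import Pool.Agent.Work.MP_f1a024_nt.EX.Spl3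
import Pool.Agent.Work.MP_f1a024_nt.EX.I_VDM

set_option autoImplicit false

/-!
Assembly of the third part of the block [f1a024 EX] (captain helper70).
-/

namespace Pool.Agent.Work.MP_f1a024_nt.EX

theorem PBI_ok : S_PBI := PBI_pf (BI_pf VDM_pf) (BN_pf VDM_pf NMU_pf) NMU_pf

theorem SI3_ok : S_SI3 := SI3_pf PBI_ok (LIN_pf PSC_pf) PBD_pf

theorem FAM3_ok : S_FAM3 :=
  FAM3_pf SI3_ok TOP_pf (MOM_pf PSC_pf) SQ_pf (FRG_pf HP.FOU_pf EZG_pf HP.QEV_pf)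
    (PPG_pf HP.QEV_pf) (PHI_pf BET_pf JEX_pf) UPP_ok (STP_pf UBD_pf PW1_ok) LOW_ok NB3_pf NC3_pf
    ND3_pf NE3_pf NF3_pf NG3_pf

theorem MAG3_ok : S_MAG3 := MAG3_pf FAM3_ok (CRI_pf DI2_pf) NA3_pf NH3_pf

theorem REX3_ok : S_REX3 := REX3_pf MAG3_ok

theorem SPL3_ok : S_SPL3 := SPL3_own REX3_ok

end Pool.Agent.Work.MP_f1a024_nt.EX
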