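import Pool.Agent.Work.MP_f1a024_nt.EX.Stmts

set_option autoImplicit false

/-!
Item GWE of the block [f1a024 EX]: expansion of `g` and the trivial bound.
-/

namespace Pool.Agent.Work.MP_f1a024_nt.EX

open Real Polynomial MeasureTheory Finset Filter Topology
open scoped Nat
open Pool.Agent.Work.MP_f1a024_nt.HP (evr Ez JJ Qz FF pp)

namespace I_GWE

theorem ev {R S : Type} [CommRing R] [CommRing S] (f : R →+* S) (x : S) (p : R[X]) (N : ℕ)
    (h : ∀ s, N ≤ s → p.coeff s = 0) :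
    p.eval₂ f x = ∑ s ∈ range N, f (p.coeff s) * x ^ s := by
  rw [Polynomial.eval₂_eq_sum_range' f (n := max (p.natDegree + 1) N)
    (lt_of_lt_of_le (Nat.lt_succ_self _) (le_max_left _ _)) x]
  symm
  refine Finset.sum_subset ?_ ?_
  · intro s hs
    exact Finset.mem_range.2 (lt_of_lt_of_le (Finset.mem_range.1 hs) (le_max_right _ _))
  · intro s _ hs
    rw [h s (by simpa using hs), map_zero, zero_mul]

theorem ph_eq (ρ a : ℕ) (F : ℤ[X][X]) (hF : Box ρ a F) (z : ℝ) :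
    ph F z = ∑ i ∈ range (ρ + 1), ∑ s ∈ range a,
      ((F.coeff s).coeff i : ℝ) * (Real.exp z ^ i * z ^ s) := by
  unfold ph
  rw [ev _ z F a (fun s hs => by
    ext i
    rw [hF s i (Or.inl hs), Polynomial.coeff_zero])]
  rw [Finset.sum_comm]
  refine Finset.sum_congr rfl fun s _ => ?_
  rw [Polynomial.coe_eval₂RingHom, ev (Int.castRingHom ℝ) (Real.exp z) (F.coeff s) (ρ + 1)
    (fun i hi => hF s i (Or.inr (by omega))), Finset.sum_mul]
  refine Finset.sum_congr rfl fun i _ => ?_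
  rw [Int.coe_castRingHom]
  ring

end I_GWE

/-- item GWE -/
theorem GWE_pf : S_GWE := by
  intro ρ a F hF w h0 h1
  have hw1 : 0 < 1 - w := by linarith
  have hexp : Real.exp (lw w) = w / (1 - w) := Real.exp_log (div_pos h0 hw1)
  have hg : gw ρ F w = ∑ i ∈ range (ρ + 1), ∑ s ∈ range a,
      ((F.coeff s).coeff i : ℝ) * (w ^ i * (1 - w) ^ (ρ - i) * lw w ^ s) := by
    unfold gw
    rw [I_GWE.ph_eq ρ a F hF, Finset.mul_sum]
    refine Finset.sum_congr rfl fun i hi => ?_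
    rw [Finset.mul_sum]
    refine Finset.sum_congr rfl fun s _ => ?_
    have hi' : i ≤ ρ := Nat.lt_succ_iff.1 (Finset.mem_range.1 hi)
    have h2 : (1 - w) ^ ρ = (1 - w) ^ (ρ - i) * (1 - w) ^ i := by
      rw [← pow_add, Nat.sub_add_cancel hi']
    have h3 : (1 - w) ^ i * (w / (1 - w)) ^ i = w ^ i := by
      rw [← mul_pow, mul_div_cancel₀ _ hw1.ne']
    rw [hexp, h2]
    calc (1 - w) ^ (ρ - i) * (1 - w) ^ i * (((F.coeff s).coeff i : ℝ) *
          ((w / (1 - w)) ^ i * lw w ^ s))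
        = ((F.coeff s).coeff i : ℝ) * (((1 - w) ^ i * (w / (1 - w)) ^ i) *
          (1 - w) ^ (ρ - i) * lw w ^ s) := by ring
      _ = _ := by rw [h3]
  refine ⟨hg, ?_⟩
  rw [hg]
  unfold nm
  rw [Finset.sum_mul]
  refine (Finset.abs_sum_le_sum_abs _ _).trans (Finset.sum_le_sum fun i _ => ?_)
  rw [Finset.sum_mul]
  refine (Finset.abs_sum_le_sum_abs _ _).trans (Finset.sum_le_sum fun s hs => ?_)
  rw [abs_mul]
  refine mul_le_mul_of_nonneg_left ?_ (abs_nonneg _)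
  rw [abs_mul, abs_mul, abs_pow, abs_pow, abs_pow, abs_of_pos h0, abs_of_pos hw1]
  have e1 : w ^ i ≤ 1 := pow_le_one₀ h0.le h1.le
  have e2 : (1 - w) ^ (ρ - i) ≤ 1 := pow_le_one₀ hw1.le (by linarith)
  have e3 : |lw w| ^ s ≤ (1 + |lw w|) ^ a := by
    have h4 : |lw w| ^ s ≤ (1 + |lw w|) ^ s :=
      pow_le_pow_left₀ (abs_nonneg _) (by linarith) s
    have h5 : (1 + |lw w|) ^ s ≤ (1 + |lw w|) ^ a :=
      pow_le_pow_right₀ (by linarith [abs_nonneg (lw w)]) (Finset.mem_range.1 hs).le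
    exact h4.trans h5
  have e4 : w ^ i * (1 - w) ^ (ρ - i) ≤ 1 := by
    calc w ^ i * (1 - w) ^ (ρ - i) ≤ 1 * 1 :=
          mul_le_mul e1 e2 (pow_nonneg hw1.le _) zero_le_one
      _ = 1 := one_mul 1
  calc w ^ i * (1 - w) ^ (ρ - i) * |lw w| ^ s ≤ 1 * (1 + |lw w|) ^ a :=
        mul_le_mul e4 e3 (pow_nonneg (abs_nonneg _) _) zero_le_one
    _ = _ := one_mul _

end Pool.Agent.Work.MP_f1a024_nt.EX
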