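import Pool.Agent.Work.MP_f1a024_nt.EX.Stmts

set_option autoImplicit false

/-!
Item NA of the block [f1a024 EX]: choice of `u`.
-/

namespace Pool.Agent.Work.MP_f1a024_nt.EX

open Real Polynomial MeasureTheory Finset Filter Topology
open scoped Nat
open Pool.Agent.Work.MP_f1a024_nt.HP (evr Ez JJ Qz FF pp)

/-- item NA -/
theorem NA_pf : S_NA := by
  intro N L m α hN hLN hm hα h
  have hNr : (2 : ℝ) ≤ N := by exact_mod_cast hN
  have hLr : (L : ℝ) ≤ N := by exact_mod_cast hLN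
  have hmr : (1 : ℝ) ≤ m := by exact_mod_cast hm
  have hL0 : (0 : ℝ) ≤ L := Nat.cast_nonneg L
  have hl2 : Real.log 2 ≤ Real.log N := Real.log_le_log (by norm_num) hNr
  have hlog2 := Real.log_two_gt_d9
  obtain ⟨l, hl⟩ : ∃ l : ℝ, l = Real.log N := ⟨_, rfl⟩
  rw [← hl] at hl2 h
  have hl69 : (0.69 : ℝ) ≤ l := by linarith
  obtain ⟨s, hs⟩ : ∃ s : ℝ, s = √(L : ℝ) := ⟨_, rfl⟩
  rw [← hs] at h
  have hs0 : 0 ≤ s := hs ▸ Real.sqrt_nonneg _
  have hss : s * s = L := by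
    rw [hs]
    exact Real.mul_self_sqrt hL0
  have hNl : 0 < (N : ℝ) * l := mul_pos (by linarith) (by linarith)
  have h1 : (m : ℝ) * (N * l) ≤ 1 / 20000 * (L * s) := by
    have h2 : 0 ≤ (m : ℝ) * α := mul_nonneg (by linarith) hα
    have h3 : (m : ℝ) * (α + N * l) = m * α + m * (N * l) := by ring
    linarith
  have hLpos : 0 < (L : ℝ) := by
    rcases eq_or_lt_of_le hL0 with h4 | h4
    · rw [← h4, zero_mul, mul_zero] at h1
      have h5 : 0 < (m : ℝ) * (N * l) := mul_pos (by linarith) hNl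
      linarith
    · exact h4
  have h2 : (m : ℝ) * l ≤ 1 / 20000 * s := by
    have h3 : (L : ℝ) * (m * l) ≤ N * (m * l) :=
      mul_le_mul_of_nonneg_right hLr (mul_nonneg (by linarith) (by linarith))
    have h4 : (L : ℝ) * (m * l) ≤ L * (1 / 20000 * s) := by
      calc (L : ℝ) * (m * l) ≤ N * (m * l) := h3
        _ = (m : ℝ) * (N * l) := by ring
        _ ≤ 1 / 20000 * (L * s) := h1
        _ = L * (1 / 20000 * s) := by ring
    exact le_of_mul_le_mul_left h4 hLpos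
  have hml : l ≤ m * l := by nlinarith
  have hs1 : 13000 ≤ s := by linarith
  obtain ⟨u, hu⟩ : ∃ u : ℕ, u = Nat.sqrt (L / 40) := ⟨_, rfl⟩
  have hu1 : u * u ≤ L / 40 := hu ▸ Nat.sqrt_le (L / 40)
  have hu2 : L / 40 < (u + 1) * (u + 1) := hu ▸ Nat.lt_succ_sqrt (L / 40)
  have hu3 : 40 * u ^ 2 ≤ L := by
    rw [pow_two]
    omega
  have hu4 : L < 40 * ((u + 1) * (u + 1)) := by omega
  have hu4r : (L : ℝ) < 40 * (((u : ℝ) + 1) * (u + 1)) := by exact_mod_cast hu4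
  have hu0 : (0 : ℝ) ≤ u := Nat.cast_nonneg u
  have hu5 : (100 : ℝ) ≤ u := by
    by_contra hc
    push Not at hc
    have h3 : ((u : ℝ) + 1) * (u + 1) ≤ 101 * 101 :=
      mul_le_mul (by linarith) (by linarith) (by linarith) (by norm_num)
    have h4 : 13000 * 13000 ≤ s * s := mul_le_mul hs1 hs1 (by norm_num) hs0
    linarith
  have hLu : (L : ℝ) ≤ 400 / 9 * (u : ℝ) ^ 2 := by nlinarith
  have hsu : s ≤ 20 / 3 * u := by
    by_contra hc
    push Not at hc
    have h3 : (20 / 3 * (u : ℝ)) * (20 / 3 * u) < s * s :=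
      mul_lt_mul'' hc hc (by positivity) (by positivity)
    nlinarith
  have hml3 : 3000 * ((m : ℝ) * l) ≤ u := by linarith
  have hfin : (m : ℝ) * (α + N * l) ≤ (u : ℝ) ^ 3 / 60 := by
    have h3 : (L : ℝ) * s ≤ (400 / 9 * (u : ℝ) ^ 2) * (20 / 3 * u) :=
      mul_le_mul hLu hsu hs0 (by positivity)
    have h4 : (400 / 9 * (u : ℝ) ^ 2) * (20 / 3 * u) = 8000 / 27 * (u : ℝ) ^ 3 := by ring
    have h5 : 0 ≤ (u : ℝ) ^ 3 := by positivity
    linarith
  have hNl60 : (N : ℝ) * l ≤ (u : ℝ) ^ 3 / 60 := by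
    have h3 : (N : ℝ) * l ≤ m * (α + N * l) := by nlinarith
    linarith
  have hl10 : 10 ≤ l := by
    have h3 : Real.exp 10 ≤ N := by
      have h4 : Real.exp 10 = Real.exp 1 ^ 10 := by
        rw [← Real.exp_nat_mul]
        norm_num
      have h5 : Real.exp 1 ^ 10 ≤ (2.7182818286 : ℝ) ^ 10 :=
        pow_le_pow_left₀ (Real.exp_pos 1).le Real.exp_one_lt_d9.le 10
      have h6 : (2.7182818286 : ℝ) ^ 10 ≤ 100000 := by norm_num
      have h7 : 13000 * 13000 ≤ s * s := mul_le_mul hs1 hs1 (by norm_num) hs0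
      linarith
    rw [hl]
    exact (Real.le_log_iff_exp_le (by linarith)).2 h3
  refine ⟨u, ⟨hN, hu3.trans hLN, ?_, ?_, ?_⟩, hu3, ?_, ?_, ?_⟩
  · rw [← hl]
    exact hl10
  · rw [← hl]
    linarith
  · rw [← hl]
    exact hNl60
  · rw [← hs]
    exact hsu
  · rw [← hl]
    exact hml3
  · rw [← hl]
    exact hfin

end Pool.Agent.Work.MP_f1a024_nt.EX
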