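import Pool.Agent.Work.MP_f1a024_nt.EX.Stmts

/-!
Item NB of the block [f1a024 EX]: the norm of Siegel's lemma.
-/

set_option autoImplicit false

namespace Pool.Agent.Work.MP_f1a024_nt.EX

open Real Finset

namespace I_NB

/-- The inequality in logarithms. -/
theorem logs (x l lx lU e : ℝ) (hx : 30000 ≤ x) (hl : 10 ≤ l) (hlx : lx ≤ l / 2)
    (hlU : lU ≤ 2 * l) (he : e * (x ^ 2 + 1 - x) = x) (he0 : 0 ≤ e) :
    lU + e * (lU + (x ^ 2 * (3 * lx) + x ^ 3 * (2 * lx))) ≤ 2 * x ^ 2 * l := by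
  have h1 : e * x ≤ 3 / 2 := by
    by_contra hc
    push Not at hc
    have h2 : x * (e * (x ^ 2 + 1 - x)) = x * x := by rw [he]
    have h3 : x * (e * (x ^ 2 + 1 - x)) = (e * x) * (x ^ 2 + 1 - x) := by ring
    have h4 : 3 / 2 * (x ^ 2 + 1 - x) < (e * x) * (x ^ 2 + 1 - x) := by
      apply mul_lt_mul_of_pos_right hc
      nlinarith
    nlinarith
  have hxx : 0 ≤ x ^ 2 := by positivity
  have h5 : lU + (x ^ 2 * (3 * lx) + x ^ 3 * (2 * lx)) ≤ 2 * l + (x ^ 2 * (3 * (l / 2)) +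
      x ^ 3 * (2 * (l / 2))) := by
    have a1 : x ^ 2 * (3 * lx) ≤ x ^ 2 * (3 * (l / 2)) := by gcongr
    have a2 : x ^ 3 * (2 * lx) ≤ x ^ 3 * (2 * (l / 2)) := by gcongr
    linarith
  have h6 : e * (lU + (x ^ 2 * (3 * lx) + x ^ 3 * (2 * lx))) ≤
      e * (2 * l + (x ^ 2 * (3 * (l / 2)) + x ^ 3 * (2 * (l / 2)))) :=
    mul_le_mul_of_nonneg_left h5 he0
  have h7 : e * (2 * l + (x ^ 2 * (3 * (l / 2)) + x ^ 3 * (2 * (l / 2)))) ≤
      (e * x) * ((2 + 3 / 2 * x + x ^ 2) * l) := by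
    have b1 : 2 * l + (x ^ 2 * (3 * (l / 2)) + x ^ 3 * (2 * (l / 2))) ≤
        x * ((2 + 3 / 2 * x + x ^ 2) * l) := by
      have : x * ((2 + 3 / 2 * x + x ^ 2) * l) -
        (2 * l + (x ^ 2 * (3 * (l / 2)) + x ^ 3 * (2 * (l / 2)))) = 2 * (x - 1) * l := by ring
      have h8 : 0 ≤ 2 * (x - 1) * l := by
        apply mul_nonneg
        · linarith
        · linarith
      linarith
    calc e * (2 * l + (x ^ 2 * (3 * (l / 2)) + x ^ 3 * (2 * (l / 2))))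
        ≤ e * (x * ((2 + 3 / 2 * x + x ^ 2) * l)) := mul_le_mul_of_nonneg_left b1 he0
      _ = _ := by ring
  have h9 : (e * x) * ((2 + 3 / 2 * x + x ^ 2) * l) ≤ 3 / 2 * ((2 + 3 / 2 * x + x ^ 2) * l) := by
    apply mul_le_mul_of_nonneg_right h1
    positivity
  have h10 : 2 * l + 3 / 2 * ((2 + 3 / 2 * x + x ^ 2) * l) ≤ 2 * x ^ 2 * l := by
    have : 2 * x ^ 2 * l - (2 * l + 3 / 2 * ((2 + 3 / 2 * x + x ^ 2) * l)) =
      (x ^ 2 / 2 - 9 / 4 * x - 5) * l := by ring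
    have h11 : 0 ≤ (x ^ 2 / 2 - 9 / 4 * x - 5) * l := by
      apply mul_nonneg
      · nlinarith
      · linarith
    linarith
  linarith

end I_NB

theorem NB_pf : S_NB := by
  intro N u h
  have hx : (30000 : ℝ) ≤ u := by
    have h1 := h.hul
    have h2 := h.hl
    linarith
  have hN : (2 : ℝ) ≤ N := by exact_mod_cast h.hN
  have hNu : 40 * (u : ℝ) ^ 2 ≤ N := by exact_mod_cast h.hu
  have hl := h.hl
  push_cast
  set x : ℝ := (u : ℝ) with hxd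
  set l : ℝ := Real.log N with hld
  have hx0 : 0 < x := by linarith
  have hU : 0 < x ^ 2 * (x ^ 2 + 1) := by positivity
  have hlx : Real.log x ≤ l / 2 := by
    have : Real.log (x ^ 2) ≤ Real.log N := by
      apply Real.log_le_log (by positivity)
      nlinarith
    rw [Real.log_pow] at this
    push_cast at this
    linarith
  have hlU : Real.log (x ^ 2 * (x ^ 2 + 1)) ≤ 2 * l := by
    have : Real.log (x ^ 2 * (x ^ 2 + 1)) ≤ Real.log ((N : ℝ) ^ 2) := by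
      apply Real.log_le_log hU
      have a1 : x ^ 2 ≤ N := by nlinarith
      have a2 : x ^ 2 + 1 ≤ N := by nlinarith
      calc x ^ 2 * (x ^ 2 + 1) ≤ N * N := by gcongr
        _ = (N : ℝ) ^ 2 := by ring
    rw [Real.log_pow] at this
    push_cast at this
    exact this
  have hD : 0 < x ^ 2 + 1 - x := by nlinarith
  have he : x ^ 3 / (x ^ 2 * (x ^ 2 + 1) - x ^ 3) = x / (x ^ 2 + 1 - x) := by
    have : x ^ 2 * (x ^ 2 + 1) - x ^ 3 = x ^ 2 * (x ^ 2 + 1 - x) := by ring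
    rw [this]
    rw [show x ^ 3 = x ^ 2 * x by ring]
    exact mul_div_mul_left _ _ (by positivity)
  rw [he]
  have hB : 0 < x ^ 2 * (x ^ 2 + 1) * ((x ^ 3) ^ (u ^ 2) * (x ^ 2) ^ (u ^ 3)) := by positivity
  have hlB : Real.log (x ^ 2 * (x ^ 2 + 1) * ((x ^ 3) ^ (u ^ 2) * (x ^ 2) ^ (u ^ 3))) =
      Real.log (x ^ 2 * (x ^ 2 + 1)) + (x ^ 2 * (3 * Real.log x) + x ^ 3 * (2 * Real.log x)) := by
    have c1 : Real.log ((x ^ 3) ^ (u ^ 2) * (x ^ 2) ^ (u ^ 3)) =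
        x ^ 2 * (3 * Real.log x) + x ^ 3 * (2 * Real.log x) := by
      rw [Real.log_mul (by positivity) (by positivity),
        Real.log_pow (x ^ 3) (u ^ 2), Real.log_pow (x ^ 2) (u ^ 3), Real.log_pow x 3,
        Real.log_pow x 2]
      push_cast
      rfl
    rw [Real.log_mul hU.ne' (by positivity), c1]
  have hkey := I_NB.logs x l (Real.log x) (Real.log (x ^ 2 * (x ^ 2 + 1))) (x / (x ^ 2 + 1 - x))
    hx hl hlx hlU (div_mul_cancel₀ _ hD.ne') (by positivity)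
  rw [← hlB] at hkey
  have h1 : x ^ 2 * (x ^ 2 + 1) *
      (x ^ 2 * (x ^ 2 + 1) * ((x ^ 3) ^ (u ^ 2) * (x ^ 2) ^ (u ^ 3))) ^ (x / (x ^ 2 + 1 - x)) =
      Real.exp (Real.log (x ^ 2 * (x ^ 2 + 1)) + x / (x ^ 2 + 1 - x) *
        Real.log (x ^ 2 * (x ^ 2 + 1) * ((x ^ 3) ^ (u ^ 2) * (x ^ 2) ^ (u ^ 3)))) := by
    rw [Real.exp_add, Real.exp_log hU, Real.rpow_def_of_pos hB, mul_comm (x / (x ^ 2 + 1 - x))]
  rw [h1]
  exact Real.exp_le_exp.mpr hkey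

end Pool.Agent.Work.MP_f1a024_nt.EX
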