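import Pool.Agent.Work.MP_f1a024_nt.EX.Stmts

/-!
Item NC of the block [f1a024 EX]: the upper bound in numbers.
-/

set_option autoImplicit false

namespace Pool.Agent.Work.MP_f1a024_nt.EX

open Real Polynomial MeasureTheory Finset Filter Topology
open scoped Nat

namespace I_NC

theorem pow_eq_exp (N K : ℕ) (hN : 0 < N) : (N : ℝ) ^ K = Real.exp (K * Real.log N) := by
  rw [Real.exp_nat_mul, Real.exp_log (by exact_mod_cast hN)]

theorem fact_le (k K N : ℕ) (hN : 0 < N) (hk : k ≤ K) (hK : K ≤ N) :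
    (k ! : ℝ) ≤ Real.exp (K * Real.log N) := by
  rw [← pow_eq_exp N K hN]
  have h1 : k ! ≤ N ^ K :=
    ((Nat.factorial_le hk).trans (Nat.factorial_le_pow K)).trans (Nat.pow_le_pow_left hK K)
  exact_mod_cast h1

theorem log8 : (2.07 : ℝ) ≤ Real.log 8 := by
  have h : Real.log 8 = 3 * Real.log 2 := by
    rw [show (8 : ℝ) = 2 ^ 3 by norm_num, Real.log_pow]
    norm_num
  rw [h]
  have := Real.log_two_gt_d9
  norm_num at this ⊢
  linarith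

theorem ratio (u M : ℕ) (hu : 8 ≤ u) (hM : M ≤ 2 * u ^ 3) :
    ((M ! : ℕ) : ℝ) / ((16 * u ^ 2 : ℕ) : ℝ) ^ M ≤ ((u : ℝ) / 8) ^ (2 * u ^ 3) := by
  have hu0 : (0 : ℝ) < u := by
    have : 0 < u := by omega
    exact_mod_cast this
  have h1 : ((M ! : ℕ) : ℝ) ≤ ((2 : ℝ) * u ^ 3) ^ M := by
    have h2 : M ! ≤ (2 * u ^ 3) ^ M :=
      (Nat.factorial_le_pow M).trans (Nat.pow_le_pow_left hM M)
    exact_mod_cast h2
  have h3 : ((2 : ℝ) * u ^ 3) ^ M / ((16 * u ^ 2 : ℕ) : ℝ) ^ M = ((u : ℝ) / 8) ^ M := by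
    rw [← div_pow]
    congr 1
    push_cast
    field_simp
    ring
  have h8 : (1 : ℝ) ≤ (u : ℝ) / 8 := by
    rw [le_div_iff₀ (by norm_num)]
    have : (8 : ℝ) ≤ u := by exact_mod_cast hu
    linarith
  calc ((M ! : ℕ) : ℝ) / ((16 * u ^ 2 : ℕ) : ℝ) ^ M
      ≤ ((2 : ℝ) * u ^ 3) ^ M / ((16 * u ^ 2 : ℕ) : ℝ) ^ M := by
        gcongr
    _ = ((u : ℝ) / 8) ^ M := h3
    _ ≤ ((u : ℝ) / 8) ^ (2 * u ^ 3) := pow_le_pow_right₀ h8 hM

end I_NC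

theorem NC_pf : S_NC := by
  intro N u n B hNum hn hnu hB0 hB
  obtain ⟨hN, hu, hl, hul, hNl⟩ := hNum
  have hN0 : 0 < N := by omega
  set l : ℝ := Real.log N with hldef
  have hu30 : (30000 : ℝ) ≤ u := by linarith
  have hu0 : (0 : ℝ) < u := by linarith
  have hu8 : 8 ≤ u := by
    have : (8 : ℝ) ≤ u := by linarith
    exact_mod_cast this
  have hul2 : (u : ℝ) ^ 2 * l ≤ (u : ℝ) ^ 3 / 3000 := by
    have h1 : (u : ℝ) ^ 2 * (3000 * l) ≤ (u : ℝ) ^ 2 * u :=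
      mul_le_mul_of_nonneg_left hul (by positivity)
    have h2 : (u : ℝ) ^ 2 * u = (u : ℝ) ^ 3 := by ring
    linarith
  have hu23 : 2 * (u : ℝ) ^ 2 ≤ (u : ℝ) ^ 3 := by
    have h1 : (u : ℝ) ^ 2 * 2 ≤ (u : ℝ) ^ 2 * u :=
      mul_le_mul_of_nonneg_left (by linarith) (by positivity)
    have h2 : (u : ℝ) ^ 2 * u = (u : ℝ) ^ 3 := by ring
    linarith
  have hc0 : 0 < (u : ℝ) ^ 3 := by positivity
  -- the factorials
  have E1 : (n ! : ℝ) ≤ Real.exp (N * l) := I_NC.fact_le n N N hN0 hn le_rfl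
  have E2 : ((2 * u ^ 2 + 2 * (16 * u ^ 2) + 1)! : ℝ) ≤ Real.exp (35 * (u : ℝ) ^ 2 * l) := by
    have hu1 : 1 ≤ u ^ 2 := Nat.one_le_pow _ _ (by omega)
    have h := I_NC.fact_le (2 * u ^ 2 + 2 * (16 * u ^ 2) + 1) (35 * u ^ 2) N hN0 (by omega)
      (by omega)
    push_cast at h
    exact h
  have a1 : B ^ 2 ≤ Real.exp (4 * (u : ℝ) ^ 2 * l) := by
    have h1 : B ^ 2 ≤ Real.exp (2 * u ^ 2 * l) ^ 2 := pow_le_pow_left₀ hB0 hB 2
    have h2 : Real.exp (2 * (u : ℝ) ^ 2 * l) ^ 2 = Real.exp (4 * (u : ℝ) ^ 2 * l) := by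
      rw [← Real.exp_nat_mul]
      congr 1
      push_cast
      ring
    rw [← h2]
    exact h1
  have a2 : (1 + (u : ℝ)) ^ (2 * u ^ 2) ≤ Real.exp ((u : ℝ) ^ 2 * l) := by
    have h1 : (1 + (u : ℝ)) ^ 2 ≤ (N : ℝ) := by
      have h2 : (40 : ℝ) * u ^ 2 ≤ N := by exact_mod_cast hu
      nlinarith
    have h3 : (N : ℝ) ^ (u ^ 2) = Real.exp ((u : ℝ) ^ 2 * l) := by
      have := I_NC.pow_eq_exp N (u ^ 2) hN0
      push_cast at this
      exact this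
    rw [pow_mul, ← h3]
    exact pow_le_pow_left₀ (by positivity) h1 _
  have a3 := I_NC.ratio u (2 * u ^ 3 - n - 1) hu8 (by omega)
  have a4 : ((1 : ℝ) / 8) ^ (2 * u ^ 3) = Real.exp (-(2 * (u : ℝ) ^ 3 * Real.log 8)) := by
    rw [one_div, inv_pow, Real.exp_neg]
    congr 1
    have := I_NC.pow_eq_exp 8 (2 * u ^ 3) (by norm_num)
    push_cast at this
    exact this
  have T1 : B ^ 2 * (1 + (u : ℝ)) ^ (2 * u ^ 2) * Real.exp (2 * ((u ^ 2 : ℕ) : ℝ) * u) /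
      (u : ℝ) ^ (2 * u ^ 3) *
      (((2 * u ^ 3 - n - 1)! : ℝ) / ((16 * u ^ 2 : ℕ) : ℝ) ^ (2 * u ^ 3 - n - 1)) ≤
      Real.exp (-(N * l) - 35 * (u : ℝ) ^ 2 * l - (u : ℝ) ^ 3) := by
    calc B ^ 2 * (1 + (u : ℝ)) ^ (2 * u ^ 2) * Real.exp (2 * ((u ^ 2 : ℕ) : ℝ) * u) /
          (u : ℝ) ^ (2 * u ^ 3) *
          (((2 * u ^ 3 - n - 1)! : ℝ) / ((16 * u ^ 2 : ℕ) : ℝ) ^ (2 * u ^ 3 - n - 1))
        ≤ Real.exp (4 * (u : ℝ) ^ 2 * l) * Real.exp ((u : ℝ) ^ 2 * l) *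
          Real.exp (2 * ((u ^ 2 : ℕ) : ℝ) * u) / (u : ℝ) ^ (2 * u ^ 3) *
          ((u : ℝ) / 8) ^ (2 * u ^ 3) := by
          gcongr
      _ = Real.exp (4 * (u : ℝ) ^ 2 * l) * Real.exp ((u : ℝ) ^ 2 * l) *
          Real.exp (2 * ((u ^ 2 : ℕ) : ℝ) * u) * ((1 : ℝ) / 8) ^ (2 * u ^ 3) := by
          have h : ((u : ℝ) / 8) ^ (2 * u ^ 3) = (u : ℝ) ^ (2 * u ^ 3) * ((1 : ℝ) / 8) ^ (2 * u ^ 3) := by
            rw [← mul_pow]
            congr 1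
            ring
          rw [h]
          have h0 : (u : ℝ) ^ (2 * u ^ 3) ≠ 0 := by positivity
          field_simp
      _ = Real.exp (4 * (u : ℝ) ^ 2 * l + (u : ℝ) ^ 2 * l + 2 * ((u ^ 2 : ℕ) : ℝ) * u +
          -(2 * (u : ℝ) ^ 3 * Real.log 8)) := by
          rw [a4, ← Real.exp_add, ← Real.exp_add, ← Real.exp_add]
      _ ≤ _ := by
          apply Real.exp_le_exp.2
          have h8 : (u : ℝ) ^ 3 * 2.07 ≤ (u : ℝ) ^ 3 * Real.log 8 :=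
            mul_le_mul_of_nonneg_left I_NC.log8 hc0.le
          push_cast
          have h2 : 2 * (u : ℝ) ^ 2 * u = 2 * (u : ℝ) ^ 3 := by ring
          rw [h2]
          norm_num at h8
          linarith
  have T2 : B ^ 2 * 4 ^ (u ^ 2) * Real.exp (-(((16 * u ^ 2 : ℕ) : ℝ) * u)) ≤
      Real.exp (-(N * l) - 35 * (u : ℝ) ^ 2 * l - (u : ℝ) ^ 3) := by
    have h4 : (4 : ℝ) ^ (u ^ 2) ≤ Real.exp (2 * (u : ℝ) ^ 2) := by
      have h1 : (4 : ℝ) ≤ Real.exp 2 := by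
        have h2 : Real.exp 2 = Real.exp 1 * Real.exp 1 := by
          rw [← Real.exp_add]
          norm_num
        rw [h2]
        have := Real.exp_one_gt_d9
        nlinarith
      have h3 : Real.exp (2 * (u : ℝ) ^ 2) = Real.exp 2 ^ (u ^ 2) := by
        rw [← Real.exp_nat_mul]
        congr 1
        push_cast
        ring
      rw [h3]
      exact pow_le_pow_left₀ (by norm_num) h1 _
    calc B ^ 2 * 4 ^ (u ^ 2) * Real.exp (-(((16 * u ^ 2 : ℕ) : ℝ) * u))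
        ≤ Real.exp (4 * (u : ℝ) ^ 2 * l) * Real.exp (2 * (u : ℝ) ^ 2) *
          Real.exp (-(((16 * u ^ 2 : ℕ) : ℝ) * u)) := by
          gcongr
      _ = Real.exp (4 * (u : ℝ) ^ 2 * l + 2 * (u : ℝ) ^ 2 +
          -(((16 * u ^ 2 : ℕ) : ℝ) * u)) := by
          rw [← Real.exp_add, ← Real.exp_add]
      _ ≤ _ := by
          apply Real.exp_le_exp.2
          push_cast
          have h2 : 16 * (u : ℝ) ^ 2 * u = 16 * (u : ℝ) ^ 3 := by ring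
          rw [h2]
          linarith
  calc (n ! : ℝ) * (((2 * u ^ 2 + 2 * (16 * u ^ 2) + 1)! : ℝ) *
      max (B ^ 2 * (1 + (u : ℝ)) ^ (2 * u ^ 2) * Real.exp (2 * ((u ^ 2 : ℕ) : ℝ) * u) /
          (u : ℝ) ^ (2 * u ^ 3) *
          (((2 * u ^ 3 - n - 1)! : ℝ) / ((16 * u ^ 2 : ℕ) : ℝ) ^ (2 * u ^ 3 - n - 1)))
        (B ^ 2 * 4 ^ (u ^ 2) * Real.exp (-(((16 * u ^ 2 : ℕ) : ℝ) * u))))
      ≤ Real.exp (N * l) * (Real.exp (35 * (u : ℝ) ^ 2 * l) *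
        Real.exp (-(N * l) - 35 * (u : ℝ) ^ 2 * l - (u : ℝ) ^ 3)) := by
        have hm := max_le T1 T2
        gcongr
    _ = Real.exp (-(u : ℝ) ^ 3) := by
        rw [← Real.exp_add, ← Real.exp_add]
        congr 1
        ring

end Pool.Agent.Work.MP_f1a024_nt.EX
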