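import Pool.Agent.Work.MP_f1a024_nt.EX.Stmts3

set_option autoImplicit false

/-!
# MP_f1a024_nt, block EX, item ND3: the numbers in the lower bound, general parameters
-/

namespace Pool.Agent.Work.MP_f1a024_nt.EX

open Real Polynomial MeasureTheory Finset Filter Topology
open scoped Nat

namespace I_ND3

theorem exp3 : (16 : ℝ) ≤ Real.exp 3 := by
  have h1 : (2.7182818283 : ℝ) < Real.exp 1 := Real.exp_one_gt_d9
  have h2 : Real.exp 3 = Real.exp 1 ^ 3 := by
    rw [← Real.exp_nat_mul]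
    norm_num
  rw [h2]
  have h3 : (2.7 : ℝ) ^ 3 ≤ Real.exp 1 ^ 3 := by
    gcongr
    linarith
  norm_num at h3 ⊢
  linarith

theorem exp2 : (4 : ℝ) ≤ Real.exp 2 := by
  have h1 : (2.7182818283 : ℝ) < Real.exp 1 := Real.exp_one_gt_d9
  have h2 : Real.exp 2 = Real.exp 1 ^ 2 := by
    rw [← Real.exp_nat_mul]
    norm_num
  rw [h2]
  have h3 : (2.7 : ℝ) ^ 2 ≤ Real.exp 1 ^ 2 := by
    gcongr
    linarith
  norm_num at h3 ⊢
  linarith

end I_ND3

open I_ND3 in
theorem ND3_pf : S_ND3 := by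
  intro N l δ B W hNum hB1 hB
  obtain ⟨f1, f2, f3, f4, f5, f6⟩ := hNum.facts
  have hlog := hNum.hlog
  set lam : ℝ := Real.log N with hldef
  have hN0 : (0 : ℝ) < N := by
    have := hNum.hN
    exact_mod_cast (by omega : 0 < N)
  have hNl : (N : ℝ) = Real.exp lam := (Real.exp_log hN0).symm
  have h40 : (40 : ℝ) * (l : ℝ) ≤ N := by exact_mod_cast hNum.hlN
  have hlW : lam ≤ W := by
    refine le_trans ?_ f1
    nlinarith
  have hlN : (l : ℝ) ≤ N := by linarith
  set z1 : ℕ := ⌈5 * W⌉₊ with hz1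
  have hz1a : 5 * W ≤ z1 := Nat.le_ceil _
  have hz1b : (z1 : ℝ) < 5 * W + 1 := Nat.ceil_lt_add_one (by linarith)
  have hzc : ((z1 + l : ℕ) : ℝ) = (z1 : ℝ) + (l : ℝ) := by push_cast; ring
  set z : ℝ := ((z1 + l : ℕ) : ℝ) with hz
  have hz6 : z ≤ 6 * W := by
    rw [hzc]
    linarith
  have hz0 : 1 ≤ z := by
    rw [hzc]
    linarith
  have hzpos : 0 < z := by linarith
  have hzN : z ≤ Real.exp (2 * lam) := by
    have e1 : Real.exp (2 * lam) = (N : ℝ) * N := by
      rw [hNl, ← Real.exp_add]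
      congr 1
      ring
    rw [e1]
    have e2 : (l : ℝ) ^ 2 ≤ (N : ℝ) * N := by
      rw [sq]
      exact mul_le_mul hlN hlN (by linarith) hN0.le
    linarith
  have hzpow : z ^ l ≤ Real.exp (2 * W) := by
    calc z ^ l ≤ (Real.exp (2 * lam)) ^ l := pow_le_pow_left₀ hzpos.le hzN _
      _ = Real.exp (2 * (l * lam)) := by
          rw [← Real.exp_nat_mul]
          congr 1
          ring
      _ ≤ Real.exp (2 * W) := Real.exp_le_exp.2 (by linarith)
  refine ⟨z1, ?_, ?_, ?_, ?_⟩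
  · have : (1 : ℝ) ≤ z1 := by linarith
    exact_mod_cast this
  · have e1 : Real.exp (-(z1 : ℝ)) ≤ Real.exp (-(5 * W)) := Real.exp_le_exp.2 (by linarith)
    have e2 : B * z ^ l * Real.exp (-(z1 : ℝ)) ≤
        Real.exp (2 * W) * Real.exp (2 * W) * Real.exp (-(5 * W)) := by gcongr
    refine e2.trans ?_
    rw [← Real.exp_add, ← Real.exp_add]
    have e3 : 2 * W + 2 * W + -(5 * W) = -W := by ring
    rw [e3, Real.exp_neg, ← one_div]
    have e4 : (16 : ℝ) ≤ Real.exp W := by
      linarith [Real.add_one_le_exp W]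
    exact one_div_le_one_div_of_le (by norm_num) e4
  · have e1 : 2 * (l : ℝ) ≤ Real.exp z1 := by
      linarith [Real.add_one_le_exp (z1 : ℝ)]
    rw [Real.exp_neg, ← div_eq_mul_inv, div_le_iff₀ (Real.exp_pos _)]
    linarith
  · intro n K
    have hfac : (0 : ℝ) < (n ! : ℝ) := by exact_mod_cast Nat.factorial_pos n
    have h1 : Real.exp (-z) ≤ (n ! : ℝ) / z ^ n := by
      have e1 : z ^ n / (n ! : ℝ) ≤ Real.exp z := Real.pow_div_factorial_le_exp z hzpos.le n
      rw [Real.exp_neg, ← one_div, div_le_div_iff₀ (Real.exp_pos _) (by positivity), one_mul]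
      rw [div_le_iff₀ hfac] at e1
      linarith
    have h2 : Real.exp (-(3 + 2 * lam)) ≤ 1 / (16 * z) := by
      rw [Real.exp_neg, ← one_div]
      refine one_div_le_one_div_of_le (by positivity) ?_
      rw [Real.exp_add]
      exact mul_le_mul exp3 hzN hzpos.le (Real.exp_pos _).le
    have h3 : Real.exp (-(z + 2)) ≤ Real.exp (-z) / 4 := by
      rw [le_div_iff₀ (by norm_num)]
      have e1 : Real.exp (-z) = Real.exp (-(z + 2)) * Real.exp 2 := by
        rw [← Real.exp_add]
        congr 1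
        ring
      rw [e1]
      exact mul_le_mul_of_nonneg_left exp2 (Real.exp_pos _).le
    have hw0 : (0 : ℝ) < (l : ℝ) := by linarith
    have hwl : (l : ℝ) ≤ Real.exp lam := by
      rw [← hNl]
      linarith
    have h4 : Real.exp (-(2 + 4 * W + lam)) ≤ 1 / (4 * B * (l : ℝ) * z ^ l) := by
      rw [Real.exp_neg, ← one_div]
      refine one_div_le_one_div_of_le (by positivity) ?_
      have e1 : Real.exp (2 + 4 * W + lam) =
          Real.exp 2 * Real.exp (2 * W) * Real.exp lam * Real.exp (2 * W) := by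
        rw [← Real.exp_add, ← Real.exp_add, ← Real.exp_add]
        congr 1
        ring
      rw [e1]
      have e2 := exp2
      have e3 : (0 : ℝ) < B := by linarith
      gcongr
    have hK : (0 : ℝ) ≤ (K : ℝ) := Nat.cast_nonneg K
    have key : Real.exp (-(7 * (K + 4) * W)) ≤ Real.exp (-z) * Real.exp (-(3 + 2 * lam)) *
        Real.exp (-(z + 2)) ^ K * Real.exp (-(2 + 4 * W + lam)) * Real.exp (-(z + 2)) := by
      rw [← Real.exp_nat_mul, ← Real.exp_add, ← Real.exp_add, ← Real.exp_add, ← Real.exp_add]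
      refine Real.exp_le_exp.2 ?_
      have e1 : (K : ℝ) * z ≤ K * (6 * W) := mul_le_mul_of_nonneg_left hz6 hK
      have e2 : (K : ℝ) * 2 ≤ K * W := mul_le_mul_of_nonneg_left (by linarith) hK
      nlinarith
    have hid : (n ! : ℝ) * (1 / 16 / z ^ (n + 1) * (Real.exp (-z) / 4) ^ K *
        (1 / (4 * B * (l : ℝ) * z ^ l) * (Real.exp (-z) / 4))) =
        ((n ! : ℝ) / z ^ n) * (1 / (16 * z)) * (Real.exp (-z) / 4) ^ K *
          (1 / (4 * B * (l : ℝ) * z ^ l)) * (Real.exp (-z) / 4) := by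
      have e1 : (1 : ℝ) / 16 / z ^ (n + 1) = 1 / z ^ n * (1 / (16 * z)) := by
        rw [pow_succ]
        field_simp
      rw [e1]
      ring
    rw [hid]
    refine key.trans ?_
    have e3 : (0 : ℝ) < B := by linarith
    gcongr

end Pool.Agent.Work.MP_f1a024_nt.EX
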