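import Pool.Agent.Work.MP_f1a024_nt.EX.Stmts

set_option autoImplicit false

/-! Item NE of the block [f1a024 EX]: the bound for the coefficients. -/

namespace Pool.Agent.Work.MP_f1a024_nt.EX

open Real Polynomial MeasureTheory Finset Filter Topology
open scoped Nat

theorem NE_pf : S_NE := by
  intro N u n K B hNum hn hK hB0 hB
  obtain ⟨hN, hu, hl, hul, hNl⟩ := hNum
  have hN0 : (0 : ℝ) < N := by exact_mod_cast (by omega : 0 < N)
  have hN1 : (1 : ℝ) ≤ N := by exact_mod_cast (by omega : 1 ≤ N)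
  have hu1 : 1 ≤ u := by
    rcases Nat.eq_zero_or_pos u with h | h
    · subst h
      simp at hul
      linarith
    · exact h
  have hu2 : 1 ≤ u ^ 2 := Nat.one_le_pow _ _ hu1
  set v : ℕ := u ^ 2 with hv
  have hexp : ∀ k : ℕ, (N : ℝ) ^ k = Real.exp (k * Real.log N) := by
    intro k
    rw [Real.exp_nat_mul, Real.exp_log hN0]
  have e1 : Real.exp (43 * ((u : ℝ) ^ 2 * Real.log N)) = (N : ℝ) ^ (43 * v) := by
    rw [hexp, hv]
    push_cast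
    ring_nf
  have e2 : Real.exp (2 * (u : ℝ) ^ 2 * Real.log N) = (N : ℝ) ^ (2 * v) := by
    rw [hexp, hv]
    push_cast
    ring_nf
  rw [e1]
  rw [e2] at hB
  have b1 : (((2 * v : ℕ) : ℝ) + K + 1) ^ (2 * v + 2 * K + 1) ≤ (N : ℝ) ^ (35 * v) := by
    have hb : ((2 * v : ℕ) : ℝ) + K + 1 ≤ N := by
      exact_mod_cast (by omega : 2 * v + K + 1 ≤ N)
    calc (((2 * v : ℕ) : ℝ) + K + 1) ^ (2 * v + 2 * K + 1)
        ≤ (N : ℝ) ^ (2 * v + 2 * K + 1) := by gcongr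
      _ ≤ (N : ℝ) ^ (35 * v) := pow_le_pow_right₀ hN1 (by omega)
  have b2 : (n : ℝ) ^ (2 * v - 1) ≤ (N : ℝ) ^ (2 * v) := by
    have hn' : (n : ℝ) ≤ N := by exact_mod_cast hn
    calc (n : ℝ) ^ (2 * v - 1) ≤ (N : ℝ) ^ (2 * v - 1) := by gcongr
      _ ≤ (N : ℝ) ^ (2 * v) := pow_le_pow_right₀ hN1 (by omega)
  have b3 : ((2 * v)! : ℝ) ≤ (N : ℝ) ^ (2 * v) := by
    have h1 : (2 * v)! ≤ N ^ (2 * v) :=
      (Nat.factorial_le_pow (2 * v)).trans (Nat.pow_le_pow_left (by omega) _)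
    exact_mod_cast h1
  have b4 : B ^ 2 ≤ ((N : ℝ) ^ (2 * v)) ^ 2 := by gcongr
  calc (((2 * v : ℕ) : ℝ) + K + 1) ^ (2 * v + 2 * K + 1) * (n : ℝ) ^ (2 * v - 1) *
      (((2 * v)! : ℝ) * B ^ 2)
      ≤ (N : ℝ) ^ (35 * v) * (N : ℝ) ^ (2 * v) * ((N : ℝ) ^ (2 * v) * ((N : ℝ) ^ (2 * v)) ^ 2) := by
        gcongr
    _ = (N : ℝ) ^ (43 * v) := by
        rw [← pow_mul, ← pow_add, ← pow_add, ← pow_add]
        congr 1
        omega

end Pool.Agent.Work.MP_f1a024_nt.EX
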