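import Pool.Agent.Work.MP_f1a024_nt.EX.Stmts

set_option autoImplicit false

/-!
Block [f1a024 EX], item NF: the tail condition in numbers.
-/

namespace Pool.Agent.Work.MP_f1a024_nt.EX

open Real Polynomial MeasureTheory Finset Filter Topology
open scoped Nat

namespace I_NF

theorem fac_le (N m k : ℕ) (hN : 0 < N) (hm : m ≤ k) (hk : k ≤ N) :
    ((m ! : ℕ) : ℝ) ≤ Real.exp (k * Real.log N) := by
  have hNpos : (0 : ℝ) < N := by exact_mod_cast hN
  have h1 : m ! ≤ N ^ k := by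
    calc m ! ≤ k ! := Nat.factorial_le hm
      _ ≤ k ^ k := Nat.factorial_le_pow k
      _ ≤ N ^ k := Nat.pow_le_pow_left hk k
  have h2 : ((m ! : ℕ) : ℝ) ≤ (N : ℝ) ^ k := by exact_mod_cast h1
  rw [Real.exp_nat_mul, Real.exp_log hNpos]
  exact h2

end I_NF

theorem NF_pf : S_NF := by
  intro N u n K B Φ hN hn hK hB0 hB hΦ hlow hKz
  obtain ⟨hN2, hu40, hl, hul, hNl⟩ := hN
  obtain ⟨l, hl'⟩ : ∃ l : ℝ, l = Real.log N := ⟨_, rfl⟩
  have hu : (30000 : ℝ) ≤ u := by linarith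
  have huN : 1 ≤ u := by
    have : (1 : ℝ) ≤ u := by linarith
    exact_mod_cast this
  have hu2 : 1 ≤ u ^ 2 := Nat.one_le_pow _ _ huN
  have f1 := I_NF.fac_le N n N (by omega) hn le_rfl
  have f2 := I_NF.fac_le N (2 * u ^ 2 + 2 * K + 1) (35 * u ^ 2) (by omega) (by omega) (by omega)
  push_cast at f2
  rw [← hl'] at hl hul hNl hB hKz f1 f2 ⊢
  -- the left side
  have b1 : B ^ 2 ≤ Real.exp (4 * u ^ 2 * l) := by
    calc B ^ 2 ≤ Real.exp (2 * u ^ 2 * l) ^ 2 := pow_le_pow_left₀ hB0 hB 2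
      _ = Real.exp (4 * u ^ 2 * l) := by
        rw [← Real.exp_nat_mul]
        congr 1
        push_cast
        ring
  have e1 : (2 : ℝ) ≤ Real.exp 1 := by
    have := Real.add_one_le_exp (1 : ℝ)
    linarith
  have b2 : (4 : ℝ) ^ (u ^ 2) ≤ Real.exp (2 * u ^ 2) := by
    have e2 : (4 : ℝ) ≤ Real.exp 2 := by
      have h : Real.exp 2 = Real.exp 1 * Real.exp 1 := by
        rw [← Real.exp_add]
        norm_num
      rw [h]
      have := mul_le_mul e1 e1 (by norm_num) (Real.exp_pos 1).le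
      linarith
    calc (4 : ℝ) ^ (u ^ 2) ≤ Real.exp 2 ^ (u ^ 2) := pow_le_pow_left₀ (by norm_num) e2 _
      _ = Real.exp (2 * u ^ 2) := by
        rw [← Real.exp_nat_mul]
        congr 1
        push_cast
        ring
  have b3 : Real.exp (-(K * (70 * (u ^ 2 * l)))) ≤ Real.exp (-(5 / 4 * (u : ℝ) ^ 3)) :=
    Real.exp_le_exp.2 (by linarith)
  have c1 : B ^ 2 * 4 ^ (u ^ 2) * Real.exp (-(K * (70 * (u ^ 2 * l)))) ≤
      Real.exp (4 * u ^ 2 * l + 2 * u ^ 2 + -(5 / 4 * (u : ℝ) ^ 3)) := by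
    rw [Real.exp_add, Real.exp_add]
    refine mul_le_mul (mul_le_mul b1 b2 (by positivity) (Real.exp_pos _).le) b3
      (Real.exp_pos _).le (by positivity)
  -- the right side
  have c2 : Real.exp (-(u : ℝ) ^ 3) ≤ Real.exp (N * l) * (Real.exp (35 * u ^ 2 * l) * Φ) := by
    refine hlow.trans (mul_le_mul f1 (mul_le_mul_of_nonneg_right f2 hΦ) ?_ (Real.exp_pos _).le)
    exact mul_nonneg (Nat.cast_nonneg _) hΦ
  have c3 : Real.exp (-(u : ℝ) ^ 3 - N * l - 35 * u ^ 2 * l) ≤ Φ := by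
    have h : Real.exp (-(u : ℝ) ^ 3 - N * l - 35 * u ^ 2 * l) =
        Real.exp (-(u : ℝ) ^ 3) * (Real.exp (-(N * l)) * Real.exp (-(35 * u ^ 2 * l))) := by
      rw [← Real.exp_add, ← Real.exp_add]
      congr 1
      ring
    rw [h]
    have h2 := mul_le_mul_of_nonneg_right c2
      (mul_pos (Real.exp_pos (-(N * l))) (Real.exp_pos (-(35 * u ^ 2 * l)))).le
    refine h2.trans (le_of_eq ?_)
    have h3 : Real.exp (N * l) * Real.exp (-(N * l)) = 1 := by
      rw [← Real.exp_add, add_neg_cancel, Real.exp_zero]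
    have h4 : Real.exp (35 * u ^ 2 * l) * Real.exp (-(35 * u ^ 2 * l)) = 1 := by
      rw [← Real.exp_add, add_neg_cancel, Real.exp_zero]
    calc Real.exp (N * l) * (Real.exp (35 * u ^ 2 * l) * Φ) *
          (Real.exp (-(N * l)) * Real.exp (-(35 * u ^ 2 * l)))
        = (Real.exp (N * l) * Real.exp (-(N * l))) *
          (Real.exp (35 * u ^ 2 * l) * Real.exp (-(35 * u ^ 2 * l))) * Φ := by ring
      _ = Φ := by rw [h3, h4]; ring
  have c4 : Real.exp (-1) ≤ 1 / 2 := by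
    rw [Real.exp_neg, one_div]
    exact inv_anti₀ (by norm_num) e1
  -- comparison of the exponents
  have hu3 : (0 : ℝ) < (u : ℝ) ^ 2 := by positivity
  have d1 : 3000 * ((u : ℝ) ^ 2 * l) ≤ (u : ℝ) ^ 3 := by
    have := mul_le_mul_of_nonneg_left hul hu3.le
    nlinarith [this]
  have d2 : 30000 * (u : ℝ) ^ 2 ≤ (u : ℝ) ^ 3 := by
    have := mul_le_mul_of_nonneg_left hu hu3.le
    nlinarith [this]
  have d3 : (1 : ℝ) ≤ (u : ℝ) ^ 2 := by exact_mod_cast hu2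
  have c5 : Real.exp (4 * u ^ 2 * l + 2 * u ^ 2 + -(5 / 4 * (u : ℝ) ^ 3)) ≤
      Real.exp (-(u : ℝ) ^ 3 - N * l - 35 * u ^ 2 * l) * Real.exp (-1) := by
    rw [← Real.exp_add]
    refine Real.exp_le_exp.2 ?_
    nlinarith [d1, d2, d3, hNl]
  calc B ^ 2 * 4 ^ (u ^ 2) * Real.exp (-(K * (70 * (u ^ 2 * l))))
      ≤ _ := c1
    _ ≤ _ := c5
    _ ≤ Φ * (1 / 2) := mul_le_mul c3 c4 (Real.exp_pos _).le hΦ
    _ = Φ / 2 := by ring

end Pool.Agent.Work.MP_f1a024_nt.EX
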