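import Pool.Agent.Work.MP_f1a024_nt.EX.Stmts

set_option autoImplicit false

/-!
NG: choice of `K1 = ⌈u/(56 l)⌉₊`, `l = log N`.
-/

namespace Pool.Agent.Work.MP_f1a024_nt.EX

open Real Polynomial MeasureTheory Finset Filter Topology
open scoped Nat

theorem NG_pf : S_NG := by
  intro N u hNum
  have hl : 10 ≤ Real.log N := hNum.hl
  have hul : 3000 * Real.log N ≤ u := hNum.hul
  obtain ⟨l, hleq⟩ : ∃ l : ℝ, l = Real.log N := ⟨_, rfl⟩
  rw [← hleq] at hl hul ⊢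
  have hl0 : 0 < l := by linarith
  have hu0 : (30000 : ℝ) ≤ u := by linarith
  have hupos : (0 : ℝ) < u := by linarith
  refine ⟨⌈(u : ℝ) / (56 * l)⌉₊, ?_, ?_, ?_⟩
  · rw [Nat.ceil_le]
    push_cast
    rw [div_le_iff₀ (by positivity)]
    nlinarith [mul_pos hupos hl0, mul_pos (mul_pos hupos hupos) hl0,
      mul_le_mul_of_nonneg_left hl hupos.le]
  · have h1 : (u : ℝ) / (56 * l) ≤ (⌈(u : ℝ) / (56 * l)⌉₊ : ℝ) := Nat.le_ceil _
    have h2 : 0 ≤ 70 * ((u : ℝ) ^ 2 * l) := by positivity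
    calc 5 / 4 * (u : ℝ) ^ 3 = (u : ℝ) / (56 * l) * (70 * ((u : ℝ) ^ 2 * l)) := by
          field_simp
          ring
      _ ≤ _ := mul_le_mul_of_nonneg_right h1 h2
  · have h1 : (⌈(u : ℝ) / (56 * l)⌉₊ : ℝ) < (u : ℝ) / (56 * l) + 1 :=
      Nat.ceil_lt_add_one (by positivity)
    have h2 : 0 ≤ (u : ℝ) ^ 2 * l := by positivity
    have h3 : 7 * ((⌈(u : ℝ) / (56 * l)⌉₊ : ℝ) + 4) * ((u : ℝ) ^ 2 * l) ≤
        7 * ((u : ℝ) / (56 * l) + 1 + 4) * ((u : ℝ) ^ 2 * l) := by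
      apply mul_le_mul_of_nonneg_right _ h2
      linarith
    have h4 : 7 * ((u : ℝ) / (56 * l) + 1 + 4) * ((u : ℝ) ^ 2 * l) =
        (u : ℝ) ^ 3 / 8 + 35 * l * (u : ℝ) ^ 2 := by
      field_simp
      ring
    have h5 : 35 * l * (u : ℝ) ^ 2 ≤ (u : ℝ) / 8 * (u : ℝ) ^ 2 := by
      apply mul_le_mul_of_nonneg_right _ (by positivity)
      linarith
    calc _ ≤ _ := h3
      _ = _ := h4
      _ ≤ (u : ℝ) ^ 3 / 8 + (u : ℝ) / 8 * (u : ℝ) ^ 2 := by linarith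
      _ = (u : ℝ) ^ 3 / 4 := by ring

end Pool.Agent.Work.MP_f1a024_nt.EX
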