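import Mathlib
import Pool.Agent.Work.MP_f1a024_nt.EX.Stmts

/-! Item NH of the block [f1a024 EX]: the last choice of `Q1`, `Q2`, `R`. -/

set_option autoImplicit false

namespace Pool.Agent.Work.MP_f1a024_nt.EX

namespace I_NH

open Real

/-- Upper bound for the ceiling. -/
theorem ceil_le {x : ℝ} (hx : 1 ≤ x) : ((⌈x⌉₊ : ℕ) : ℝ) ≤ Real.exp 1 * x := by
  have h1 : ((⌈x⌉₊ : ℕ) : ℝ) < x + 1 := Nat.ceil_lt_add_one (by linarith)
  have h2 : (2 : ℝ) ≤ Real.exp 1 := by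
    have := Real.add_one_le_exp (1 : ℝ)
    linarith
  nlinarith

theorem one_le_ceil {x : ℝ} (hx : 1 ≤ x) : 1 ≤ ⌈x⌉₊ := by
  have : ((1 : ℕ) : ℝ) ≤ x := by simpa using hx
  exact_mod_cast this.trans (Nat.le_ceil x)

/-- The bound for `M`. -/
theorem M_le {N u : ℕ} {β M : ℝ} (hN : 2 ≤ N)
    (hM : M ≤ 2 ^ N * (2 * N * Real.exp β) ^ (18 * u ^ 2)) :
    M ≤ Real.exp (N + 36 * ((u : ℝ) ^ 2 * Real.log N) + 18 * (u : ℝ) ^ 2 * β) := by
  have hNr : (2 : ℝ) ≤ N := by exact_mod_cast hN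
  have hN0 : (0 : ℝ) < N := by linarith
  have h2 : (2 : ℝ) ≤ Real.exp 1 := by
    have := Real.add_one_le_exp (1 : ℝ)
    linarith
  have e1 : (2 : ℝ) ^ N ≤ Real.exp N := by
    calc (2 : ℝ) ^ N ≤ (Real.exp 1) ^ N := by gcongr
      _ = Real.exp N := by rw [← Real.exp_nat_mul]; simp
  have e2 : 2 * (N : ℝ) * Real.exp β ≤ Real.exp (2 * Real.log N + β) := by
    rw [Real.exp_add]
    have : Real.exp (2 * Real.log N) = (N : ℝ) * N := by
      rw [two_mul, Real.exp_add, Real.exp_log hN0]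
    rw [this]
    gcongr
  have e3 : (2 * (N : ℝ) * Real.exp β) ^ (18 * u ^ 2) ≤
      Real.exp (36 * ((u : ℝ) ^ 2 * Real.log N) + 18 * (u : ℝ) ^ 2 * β) := by
    calc (2 * (N : ℝ) * Real.exp β) ^ (18 * u ^ 2)
        ≤ (Real.exp (2 * Real.log N + β)) ^ (18 * u ^ 2) := by gcongr
      _ = Real.exp (36 * ((u : ℝ) ^ 2 * Real.log N) + 18 * (u : ℝ) ^ 2 * β) := by
          rw [← Real.exp_nat_mul]
          congr 1
          push_cast
          ring
  calc M ≤ 2 ^ N * (2 * N * Real.exp β) ^ (18 * u ^ 2) := hM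
    _ ≤ Real.exp N * Real.exp (36 * ((u : ℝ) ^ 2 * Real.log N) + 18 * (u : ℝ) ^ 2 * β) := by
        gcongr
    _ = _ := by rw [← Real.exp_add]; congr 1; ring

end I_NH

open Real in
theorem NH_pf : S_NH := by
  intro N L u m e M α β hnum hm hα hβ hml hmN hL hmb hel hM1 hM
  obtain ⟨hN, hu, hl, hul, hNl⟩ := hnum
  set l : ℝ := Real.log N with hldef
  have hNr : (2 : ℝ) ≤ N := by exact_mod_cast hN
  have hN0 : (0 : ℝ) < N := by linarith
  have hlN : l ≤ N := by
    have := Real.log_le_sub_one_of_pos hN0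
    linarith
  have hmr : (1 : ℝ) ≤ m := by exact_mod_cast hm
  have hMr : (1 : ℝ) ≤ M := by exact_mod_cast hM1
  have hu0 : (30000 : ℝ) ≤ u := by nlinarith
  have hN10 : (10 : ℝ) ≤ N := by linarith
  have huN : 40 * (u : ℝ) ^ 2 ≤ N := by exact_mod_cast hu
  have he0 : (0 : ℝ) ≤ e := by positivity
  set h : ℝ := (u : ℝ) ^ 2 * l with hh
  have hu2 : (0 : ℝ) ≤ (u : ℝ) ^ 2 := by positivity
  have hh1 : 10 * (u : ℝ) ^ 2 ≤ h := by
    rw [hh]; nlinarith
  have hu1 : (1 : ℝ) ≤ (u : ℝ) ^ 2 := by nlinarith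
  have hh0 : 1 ≤ h := by linarith
  have hpu : (0 : ℝ) ≤ (u : ℝ) ^ 3 := by positivity
  -- the small quantities
  have hmh : 3000 * (m * h) ≤ (u : ℝ) ^ 3 := by
    have : 3000 * (m * h) = (u : ℝ) ^ 2 * (3000 * (m * l)) := by rw [hh]; ring
    rw [this]
    calc (u : ℝ) ^ 2 * (3000 * (m * l)) ≤ (u : ℝ) ^ 2 * u := by gcongr
      _ = (u : ℝ) ^ 3 := by ring
  have hmb' : 3000 * ((u : ℝ) ^ 2 * (m * β)) ≤ (u : ℝ) ^ 3 := by
    have h1 : 3000 * (m * β) ≤ u := by linarith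
    calc 3000 * ((u : ℝ) ^ 2 * (m * β)) = (u : ℝ) ^ 2 * (3000 * (m * β)) := by ring
      _ ≤ (u : ℝ) ^ 2 * u := by gcongr
      _ = (u : ℝ) ^ 3 := by ring
  have heh : 3000 * (e * h) ≤ (u : ℝ) ^ 3 := by
    have h1 : 3000 * (e * l) ≤ u := by linarith
    calc 3000 * (e * h) = (u : ℝ) ^ 2 * (3000 * (e * l)) := by rw [hh]; ring
      _ ≤ (u : ℝ) ^ 2 * u := by gcongr
      _ = (u : ℝ) ^ 3 := by ring
  have hmN' : (m : ℝ) ≤ Real.exp l := by
    rw [hldef, Real.exp_log hN0]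
    have : (m : ℝ) * 10 ≤ m * l := by gcongr
    nlinarith
  have hMe := I_NH.M_le (u := u) (β := β) (M := (M : ℝ)) hN hM
  rw [← hldef, ← hh] at hMe
  set lM : ℝ := N + 36 * h + 18 * (u : ℝ) ^ 2 * β with hlM
  -- the choices
  have hE : 1 ≤ Real.exp (116 * h) := Real.one_le_exp (by linarith)
  have hEα : 1 ≤ Real.exp α := Real.one_le_exp hα
  have hx1 : 1 ≤ m * (M * Real.exp α) * Real.exp (116 * h) := by
    have h1 : 1 ≤ (M : ℝ) * Real.exp α := one_le_mul_of_one_le_of_one_le hMr hEα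
    have h2 : 1 ≤ (m : ℝ) * (M * Real.exp α) := one_le_mul_of_one_le_of_one_le hmr h1
    exact one_le_mul_of_one_le_of_one_le h2 hE
  have hx3 : 1 ≤ Real.exp ((u : ℝ) ^ 3 / 4) := Real.one_le_exp (by positivity)
  refine ⟨⌈m * (M * Real.exp α) * Real.exp (116 * h)⌉₊, ⌈Real.exp (116 * h)⌉₊,
    ⌈Real.exp ((u : ℝ) ^ 3 / 4)⌉₊, I_NH.one_le_ceil hx1, I_NH.one_le_ceil hE,
    I_NH.one_le_ceil hx3, Nat.le_ceil _, ?_, ?_⟩
  · have q1 := I_NH.ceil_le hx1
    have q2 := I_NH.ceil_le hE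
    have q3 := I_NH.ceil_le hx3
    set Q1 : ℝ := ((⌈m * (M * Real.exp α) * Real.exp (116 * h)⌉₊ : ℕ) : ℝ) with hQ1
    set Q2 : ℝ := ((⌈Real.exp (116 * h)⌉₊ : ℕ) : ℝ) with hQ2
    set R : ℝ := ((⌈Real.exp ((u : ℝ) ^ 3 / 4)⌉₊ : ℕ) : ℝ) with hR
    have b1 : Q1 ≤ Real.exp (1 + (l + (lM + α) + 116 * h)) := by
      calc Q1 ≤ Real.exp 1 * (m * (M * Real.exp α) * Real.exp (116 * h)) := q1
        _ ≤ Real.exp 1 * (Real.exp l * (Real.exp lM * Real.exp α) * Real.exp (116 * h)) := by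
            gcongr
        _ = _ := by simp only [Real.exp_add]
    have b2 : Q2 ≤ Real.exp (1 + 116 * h) := by
      rw [Real.exp_add]; exact q2
    have b3 : R ≤ Real.exp (1 + (u : ℝ) ^ 3 / 4) := by
      rw [Real.exp_add]; exact q3
    have p1 : Q1 ^ m ≤ Real.exp (m * (1 + (l + (lM + α) + 116 * h))) := by
      rw [Real.exp_nat_mul]
      gcongr
    have p2 : Q2 ^ e ≤ Real.exp (e * (1 + 116 * h)) := by
      rw [Real.exp_nat_mul]
      gcongr
    calc Q1 ^ m * Q2 ^ e * R * M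
        ≤ Real.exp (m * (1 + (l + (lM + α) + 116 * h))) * Real.exp (e * (1 + 116 * h)) *
          Real.exp (1 + (u : ℝ) ^ 3 / 4) * Real.exp lM := by
          gcongr
      _ = Real.exp (m * (1 + (l + (lM + α) + 116 * h)) + e * (1 + 116 * h) +
          (1 + (u : ℝ) ^ 3 / 4) + lM) := by
          simp only [← Real.exp_add]
      _ ≤ Real.exp (7 / 8 * (u : ℝ) ^ 3) := by
          apply Real.exp_le_exp.mpr
          have c1 : (m : ℝ) * (l + 2 * N) ≤ m * (N * l) := by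
            gcongr
            nlinarith
          have c2 : (N : ℝ) ≤ m * N := by nlinarith
          have c3 : h ≤ m * h := by nlinarith
          have hub : 0 ≤ (u : ℝ) ^ 2 * β := by positivity
          have c4 : (u : ℝ) ^ 2 * β ≤ (u : ℝ) ^ 2 * (m * β) := by
            have : β ≤ m * β := by nlinarith
            gcongr
          have c5 : (m : ℝ) ≤ m * h := by nlinarith
          have c6 : (e : ℝ) ≤ e * h := by nlinarith
          have c7 : (1 : ℝ) ≤ m * h := by nlinarith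
          have expand : m * (1 + (l + (lM + α) + 116 * h)) + e * (1 + 116 * h) +
              (1 + (u : ℝ) ^ 3 / 4) + lM =
              m + (m * (l + 2 * N) - m * N + N) + m * α + 152 * (m * h) + 36 * h +
                18 * ((u : ℝ) ^ 2 * (m * β)) + 18 * ((u : ℝ) ^ 2 * β) + e + 116 * (e * h) + 1 +
                (u : ℝ) ^ 3 / 4 := by
            rw [hlM]; ring
          rw [expand]
          have hmN2 : m * α + m * (N * l) ≤ (u : ℝ) ^ 3 / 60 := by
            have : m * (α + N * l) = m * α + m * (N * l) := by ring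
            linarith
          linarith
  · have q1 : m * (M * Real.exp α) * Real.exp (116 * h) ≤
        ((⌈m * (M * Real.exp α) * Real.exp (116 * h)⌉₊ : ℕ) : ℝ) := Nat.le_ceil _
    have q2 : Real.exp (116 * h) ≤ ((⌈Real.exp (116 * h)⌉₊ : ℕ) : ℝ) := Nat.le_ceil _
    set Q1 : ℝ := ((⌈m * (M * Real.exp α) * Real.exp (116 * h)⌉₊ : ℕ) : ℝ) with hQ1
    set Q2 : ℝ := ((⌈Real.exp (116 * h)⌉₊ : ℕ) : ℝ) with hQ2
    have hQ1p : 0 < Q1 := by linarith
    have hQ2p : 0 < Q2 := by linarith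
    have hEp : 0 < Real.exp (116 * h) := Real.exp_pos _
    have d1 : m * (M * Real.exp α) / Q1 ≤ Real.exp (-(116 * h)) := by
      rw [div_le_iff₀ hQ1p, Real.exp_neg]
      rw [← div_eq_inv_mul, le_div_iff₀ hEp]
      exact q1
    have d2 : 1 / Q2 ≤ Real.exp (-(116 * h)) := by
      rw [div_le_iff₀ hQ2p, Real.exp_neg, ← div_eq_inv_mul, le_div_iff₀ hEp, one_mul]
      exact q2
    have e1 : (Real.exp (43 * h) * (m * (M * Real.exp α) / Q1 + 1 / Q2)) ≤
        2 * Real.exp (-(73 * h)) := by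
      calc (Real.exp (43 * h) * (m * (M * Real.exp α) / Q1 + 1 / Q2))
          ≤ Real.exp (43 * h) * (Real.exp (-(116 * h)) + Real.exp (-(116 * h))) := by
            gcongr
        _ = 2 * (Real.exp (43 * h) * Real.exp (-(116 * h))) := by ring
        _ = 2 * Real.exp (-(73 * h)) := by
            rw [← Real.exp_add]
            congr 2
            ring
    have e2 : Real.exp (-(73 * h)) = Real.exp (-(71 * h)) * Real.exp (-(2 * h)) := by
      rw [← Real.exp_add]; congr 1; ring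
    have e3 : 144 * (u : ℝ) ^ 2 < Real.exp (2 * h) := by
      have f1 : h + 1 ≤ Real.exp h := Real.add_one_le_exp h
      have f2 : Real.exp (2 * h) = Real.exp h * Real.exp h := by
        rw [two_mul, Real.exp_add]
      rw [f2]
      have f3 : h * h ≤ Real.exp h * Real.exp h := by
        apply mul_self_le_mul_self <;> linarith
      have f4 : 144 * (u : ℝ) ^ 2 < h * h := by
        have g1 : 10 * (u : ℝ) ^ 2 * (10 * (u : ℝ) ^ 2) ≤ h * h := by
          apply mul_self_le_mul_self <;> nlinarith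
        have g2 : (900000000 : ℝ) ≤ (u : ℝ) ^ 2 := by nlinarith
        nlinarith
      linarith
    have e4 : 144 * (u : ℝ) ^ 2 * Real.exp (-(2 * h)) < 1 := by
      rw [Real.exp_neg, ← div_eq_mul_inv, div_lt_one (Real.exp_pos _)]
      exact e3
    have hu3 : ((18 * u ^ 2 : ℕ) : ℝ) = 18 * (u : ℝ) ^ 2 := by push_cast; ring
    rw [hu3]
    have hp : 0 < Real.exp (-(71 * h)) := Real.exp_pos _
    calc 18 * (u : ℝ) ^ 2 * (Real.exp (43 * h) * (m * (M * Real.exp α) / Q1 + 1 / Q2))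
        ≤ 18 * (u : ℝ) ^ 2 * (2 * Real.exp (-(73 * h))) := by gcongr
      _ = Real.exp (-(71 * h)) / 4 * (144 * (u : ℝ) ^ 2 * Real.exp (-(2 * h))) := by
          rw [e2]; ring
      _ < Real.exp (-(71 * h)) / 4 * 1 := by
          apply mul_lt_mul_of_pos_left e4 (by linarith)
      _ = Real.exp (-(71 * h)) / 4 := by ring

end Pool.Agent.Work.MP_f1a024_nt.EX
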