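import Pool.Agent.Work.MP_f1a024_nt.EX.Stmts

set_option autoImplicit false

/-!
# Item REX: the theorem for `t(k)`
-/

namespace Pool.Agent.Work.MP_f1a024_nt.EX

open Real Polynomial MeasureTheory Finset Filter Topology
open scoped Nat
open Pool.Agent.Work.MP_f1a024_nt.HP (evr Ez JJ Qz FF pp)

namespace I_REX

/-- From the equation for `t(n)` to the equation for `G n`. -/
lemma key (n b : ℕ) (hn : 3 ≤ n) (hodd : Odd n) (S : ℝ)
    (h : riemannZeta (2 * n) / riemannZeta n ^ 2 * ((2 * n)! : ℂ) * (S : ℂ) ^ 2 =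
      2 ^ (2 * n - 1) * (bernoulli (2 * n) : ℂ) * b ^ 2) :
    (4 * (n ! : ℝ) * (2 ^ n - 1) * S) ^ 2 = ((b : ℝ) * 2 ^ n * OddG.G n) ^ 2 := by
  have hz0 : riemannZeta n ≠ 0 := riemannZeta_ne_zero_of_one_le_re (by simp; omega)
  have hz2 : riemannZeta (2 * n) ≠ 0 := riemannZeta_ne_zero_of_one_le_re (by
    simp
    have : (3:ℝ) ≤ n := by exact_mod_cast hn
    linarith)
  have hl := OddG.link n (by omega) hodd
  have hch : ((2 * n).choose n : ℂ) * (n.factorial : ℂ) ^ 2 = ((2 * n).factorial : ℂ) := by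
    have := Nat.choose_mul_factorial_mul_factorial (n := 2 * n) (k := n) (by omega)
    rw [show 2 * n - n = n by omega] at this
    rw [← this]
    push_cast
    ring
  have hfac : ((2 * n)! : ℂ) ≠ 0 := by exact_mod_cast (Nat.factorial_pos _).ne'
  have hT : riemannZeta (2 * n) / riemannZeta n ^ 2 * ((2 * n)! : ℂ) ≠ 0 :=
    mul_ne_zero (div_ne_zero hz2 (pow_ne_zero _ hz0)) hfac
  have h2n : ((2:ℂ)) ^ (2 * n - 1) * 2 = 2 ^ n * 2 ^ n := by
    rw [← pow_succ, ← pow_add]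
    congr 1
    omega
  have e1 : riemannZeta (2 * n) / riemannZeta n ^ 2 * ((2 * n)! : ℂ) *
      (4 * (n ! : ℂ) * (2 ^ n - 1) * (S : ℂ)) ^ 2 =
      riemannZeta (2 * n) / riemannZeta n ^ 2 * ((2 * n)! : ℂ) *
      ((b : ℂ) * 2 ^ n * ((OddG.G n : ℝ) : ℂ)) ^ 2 := by
    have l1 : riemannZeta (2 * n) / riemannZeta n ^ 2 * ((2 * n)! : ℂ) *
        (4 * (n ! : ℂ) * (2 ^ n - 1) * (S : ℂ)) ^ 2 =
        (riemannZeta (2 * n) / riemannZeta n ^ 2 * ((2 * n)! : ℂ) * (S : ℂ) ^ 2) *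
        (4 * (n ! : ℂ) * (2 ^ n - 1)) ^ 2 := by ring
    have l2 : riemannZeta (2 * n) / riemannZeta n ^ 2 * ((2 * n)! : ℂ) *
        ((b : ℂ) * 2 ^ n * ((OddG.G n : ℝ) : ℂ)) ^ 2 =
        (riemannZeta (2 * n) / riemannZeta n ^ 2 * ((2 * n).choose n : ℂ) *
          ((OddG.G n : ℝ) : ℂ) ^ 2) * (n ! : ℂ) ^ 2 * (b : ℂ) ^ 2 * (2 ^ n * 2 ^ n) := by
      rw [← hch]
      ring
    rw [l1, l2, h, hl, ← h2n]
    ring
  have e2 := mul_left_cancel₀ hT e1
  exact_mod_cast e2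

lemma c0_le (n N : ℕ) (hN : 2 ≤ N) (hn : n ≤ N) :
    4 * (n ! : ℝ) * (2 ^ n - 1) ≤ Real.exp (3 * (N * Real.log N)) := by
  have hN2 : (2:ℝ) ≤ N := by exact_mod_cast hN
  have hE : Real.exp (N * Real.log N) = (N : ℝ) ^ N := by
    rw [Real.exp_nat_mul, Real.exp_log (by linarith)]
  have h3 : Real.exp (3 * (N * Real.log N)) =
      Real.exp (N * Real.log N) * Real.exp (N * Real.log N) * Real.exp (N * Real.log N) := by
    rw [← Real.exp_add, ← Real.exp_add]
    congr 1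
    ring
  rw [h3, hE]
  have hfac : (n ! : ℝ) ≤ (N : ℝ) ^ N := by
    have h1 : n ! ≤ N ! := Nat.factorial_le hn
    have h2 : N ! ≤ N ^ N := Nat.factorial_le_pow N
    exact_mod_cast h1.trans h2
  have h2n : (2:ℝ) ^ n - 1 ≤ (N : ℝ) ^ N := by
    have e1 : (2:ℝ) ^ n ≤ (N : ℝ) ^ N := by
      calc (2:ℝ) ^ n ≤ 2 ^ N := pow_le_pow_right₀ (by norm_num) hn
        _ ≤ (N : ℝ) ^ N := by gcongr
    linarith
  have h4 : (4:ℝ) ≤ (N : ℝ) ^ N := by
    calc (4:ℝ) = 2 ^ 2 := by norm_num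
      _ ≤ 2 ^ N := pow_le_pow_right₀ (by norm_num) hN
      _ ≤ (N : ℝ) ^ N := by gcongr
  have h2n0 : (0:ℝ) ≤ 2 ^ n - 1 := by
    have : (1:ℝ) ≤ 2 ^ n := one_le_pow₀ (by norm_num)
    linarith
  gcongr

end I_REX

open I_REX in
/-- REX. -/
theorem REX_pf (h1 : S_MAG) : S_REX := by
  intro N L m α hN hLN hm hα hmain ω E hE
  have hN2 : (2:ℝ) ≤ N := by exact_mod_cast hN
  have hlog : 0 < Real.log N := Real.log_pos (by linarith)
  have hNlog : 0 ≤ N * Real.log N := by positivity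
  have hm1 : (1:ℝ) ≤ m := by exact_mod_cast hm
  have hLL : 0 ≤ (L : ℝ) * √L := by positivity
  have hmain' : m * (α + 3 * (N * Real.log N) + N * Real.log N) ≤ 1 / 20000 * (L * √L) := by
    have e1 : m * (α + 3 * (N * Real.log N) + N * Real.log N) ≤
        4 * (m * (α + N * Real.log N)) := by
      have : 0 ≤ m * α := by positivity
      nlinarith
    linarith
  have hres := h1 N L m (α + 3 * (N * Real.log N)) hN hLN hm (by positivity) hmain' ω E ?_
  · refine le_trans ?_ hres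
    have hs : 0 ≤ √(L : ℝ) := Real.sqrt_nonneg _
    refine div_le_div_of_nonneg_left hs (by positivity) ?_
    nlinarith
  · intro k hodd hk3 hk1 hk2 hkE
    obtain ⟨a, b, ha, hb1, hb2, heq⟩ := hE k hodd hk3 hk1 hk2 hkE
    have hcast : (∑ i, (a i : ℂ) * (ω i : ℂ)) = ((∑ i, (a i : ℝ) * ω i : ℝ) : ℂ) := by
      push_cast
      rfl
    rw [hcast] at heq
    have hk := key k b hk3 hodd _ heq
    have hb3 : (b : ℝ) ≤ Real.exp (√L / (20000 * m)) := by
      refine hb2.trans (Real.exp_le_exp.mpr ?_)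
      refine div_le_div_of_nonneg_left (Real.sqrt_nonneg _) (by positivity) ?_
      nlinarith
    set c0 : ℤ := 4 * (k ! : ℤ) * (2 ^ k - 1) with hc0
    have hc0r : (c0 : ℝ) = 4 * (k ! : ℝ) * (2 ^ k - 1) := by
      rw [hc0]
      push_cast
      ring
    have hc0nn : 0 ≤ (c0 : ℝ) := by
      rw [hc0r]
      have : (1:ℝ) ≤ 2 ^ k := one_le_pow₀ (by norm_num)
      have : (0:ℝ) ≤ 2 ^ k - 1 := by linarith
      positivity
    have hbound : ∀ i, (c0 : ℝ) * |(a i : ℝ)| ≤ Real.exp (α + 3 * (N * Real.log N)) := by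
      intro i
      rw [add_comm α, Real.exp_add]
      refine mul_le_mul ?_ (ha i) (abs_nonneg _) (Real.exp_pos _).le
      rw [hc0r]
      exact c0_le k N hN hk2
    rcases sq_eq_sq_iff_eq_or_eq_neg.mp hk with h5 | h5
    · refine ⟨fun i => c0 * a i, b, ?_, hb1, hb3, ?_⟩
      · intro i
        push_cast
        rw [abs_mul, abs_of_nonneg hc0nn]
        exact hbound i
      · push_cast
        rw [← h5, ← hc0r, Finset.mul_sum]
        refine Finset.sum_congr rfl (fun i _ => ?_)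
        ring
    · refine ⟨fun i => -(c0 * a i), b, ?_, hb1, hb3, ?_⟩
      · intro i
        push_cast
        rw [abs_neg, abs_mul, abs_of_nonneg hc0nn]
        exact hbound i
      · push_cast
        have h6 : (b : ℝ) * 2 ^ k * OddG.G k =
            -(4 * (k ! : ℝ) * (2 ^ k - 1) * ∑ i, (a i : ℝ) * ω i) := by linarith
        rw [h6, ← hc0r, Finset.mul_sum, ← Finset.sum_neg_distrib]
        refine Finset.sum_congr rfl (fun i _ => ?_)
        ring

end Pool.Agent.Work.MP_f1a024_nt.EX
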