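import Mathlib
import Pool.Agent.Work.MP_f1a024_nt.EX.Stmts

set_option autoImplicit false

/-! Item SIE (helper4): Siegel's lemma. -/

namespace Pool.Agent.Work.MP_f1a024_nt.EX

open Real Polynomial Finset
open scoped Nat

namespace I_SIE

/-- the polynomial with the coefficients `f i s`, `i ≤ l`, `s < a` -/
noncomputable def pol (ρ a : ℕ) (f : ℕ → ℕ → ℤ) : ℤ[X][X] :=
  ∑ s ∈ range a, monomial s (∑ i ∈ range (ρ + 1), monomial i (f i s))

theorem coeff_pol (ρ a : ℕ) (f : ℕ → ℕ → ℤ) (s i : ℕ) :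
    ((pol ρ a f).coeff s).coeff i = if s < a ∧ i < ρ + 1 then f i s else 0 := by
  unfold pol
  rw [finsetSum_coeff]
  simp only [coeff_monomial]
  rw [Finset.sum_ite_eq' (range a) s]
  by_cases hs : s < a
  · rw [if_pos (Finset.mem_range.2 hs), finsetSum_coeff]
    simp only [coeff_monomial]
    rw [Finset.sum_ite_eq' (range (ρ + 1)) i]
    by_cases hi : i < ρ + 1
    · rw [if_pos (Finset.mem_range.2 hi), if_pos ⟨hs, hi⟩]
    · rw [if_neg (fun h => hi (Finset.mem_range.1 h)), if_neg (fun h => hi h.2)]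
  · rw [if_neg (fun h => hs (Finset.mem_range.1 h)), if_neg (fun h => hs h.1), coeff_zero]

section

attribute [local instance] Matrix.seminormedAddCommGroup

theorem siegel {α β : Type} [Fintype α] [Fintype β] (A : Matrix α β ℤ) (B : ℝ) (hB : 1 ≤ B)
    (hA : ∀ i j, |(A i j : ℝ)| ≤ B) (hm : 0 < Fintype.card α)
    (hn : Fintype.card α < Fintype.card β) :
    ∃ t : β → ℤ, t ≠ 0 ∧ A.mulVec t = 0 ∧ ∀ j, |(t j : ℝ)| ≤ ((Fintype.card β : ℝ) * B) ^
      ((Fintype.card α : ℝ) / ((Fintype.card β : ℝ) - Fintype.card α)) := by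
  obtain ⟨t, ht0, ht1, ht2⟩ := Int.Matrix.exists_ne_zero_int_vec_norm_le A hn hm
  refine ⟨t, ht0, ht1, fun j => ?_⟩
  have h1 : |(t j : ℝ)| ≤ ‖t‖ := by
    have := norm_le_pi_norm t j
    rwa [Int.norm_eq_abs] at this
  have hA2 : ‖A‖ ≤ B := by
    rw [Matrix.norm_le_iff (by linarith)]
    intro i j
    rw [Int.norm_eq_abs]
    exact hA i j
  have hmax : max 1 ‖A‖ ≤ B := max_le hB hA2
  have hnR : (Fintype.card α : ℝ) < (Fintype.card β : ℝ) := by exact_mod_cast hn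
  have h4 : (0 : ℝ) ≤ (Fintype.card β : ℝ) * max 1 ‖A‖ :=
    mul_nonneg (Nat.cast_nonneg _) (le_trans zero_le_one (le_max_left _ _))
  exact h1.trans (ht2.trans (Real.rpow_le_rpow h4 (mul_le_mul_of_nonneg_left hmax (Nat.cast_nonneg _))
    (div_nonneg (Nat.cast_nonneg _) (by linarith))))

end

/-- the entries of the matrix -/
theorem entry {l δ k s i : ℕ} (hl : 1 ≤ l) (hδ : 1 ≤ δ) (hk : k < δ) (hs : s < l) (hi : i ≤ l) :
    ((k.descFactorial s * i ^ (k - s) : ℕ) : ℝ) ≤ (δ : ℝ) ^ l * (l : ℝ) ^ δ := by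
  have h1 : k.descFactorial s ≤ δ ^ l :=
    (Nat.descFactorial_le_pow k s).trans ((Nat.pow_le_pow_left hk.le s).trans (Nat.pow_le_pow_right hδ hs.le))
  have h2 : i ^ (k - s) ≤ l ^ δ :=
    (Nat.pow_le_pow_left hi _).trans (Nat.pow_le_pow_right hl ((Nat.sub_le _ _).trans hk.le))
  have h3 := Nat.mul_le_mul h1 h2
  exact_mod_cast h3

end I_SIE

theorem SIE_pf (h1 : S_PSC) : S_SIE := by
  classical
  intro l δ hl hδ h2
  let A : Matrix (Fin δ) (Fin (l + 1) × Fin l) ℤ := fun k p =>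
    (((k : ℕ).descFactorial (p.2 : ℕ) * (p.1 : ℕ) ^ ((k : ℕ) - (p.2 : ℕ)) : ℕ) : ℤ)
  have hcb : Fintype.card (Fin (l + 1) × Fin l) = l * (l + 1) := by simp [mul_comm]
  have hca : Fintype.card (Fin δ) = δ := by simp
  have hl1 : (1 : ℝ) ≤ l := by exact_mod_cast hl
  have hδ1 : (1 : ℝ) ≤ δ := by exact_mod_cast hδ
  have hB : (1 : ℝ) ≤ (δ : ℝ) ^ l * (l : ℝ) ^ δ :=
    one_le_mul_of_one_le_of_one_le (one_le_pow₀ hδ1) (one_le_pow₀ hl1)
  obtain ⟨t, ht0, ht1, ht2⟩ := I_SIE.siegel A ((δ : ℝ) ^ l * (l : ℝ) ^ δ) hB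
    (by
      intro k p
      have := I_SIE.entry hl hδ k.2 p.2.2 (Nat.lt_succ_iff.1 p.1.2)
      have h3 : ((A k p : ℤ) : ℝ) = (((k : ℕ).descFactorial (p.2 : ℕ) * (p.1 : ℕ) ^ ((k : ℕ) - (p.2 : ℕ)) : ℕ) : ℝ) := by
        change (((((k : ℕ).descFactorial (p.2 : ℕ) * (p.1 : ℕ) ^ ((k : ℕ) - (p.2 : ℕ)) : ℕ) : ℤ)) : ℝ) = _
        exact Int.cast_natCast _
      rw [h3, abs_of_nonneg (Nat.cast_nonneg _)]
      exact this)
    (by rw [hca]; omega) (by rw [hca, hcb]; omega)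
  rw [hca, hcb] at ht2
  set Bd : ℝ := (((l * (l + 1) : ℕ) : ℝ) * ((δ : ℝ) ^ l * (l : ℝ) ^ δ)) ^
    ((δ : ℝ) / (((l * (l + 1) : ℕ) : ℝ) - δ)) with hBd
  let f : ℕ → ℕ → ℤ := fun i s => if h : i < l + 1 ∧ s < l then t (⟨i, h.1⟩, ⟨s, h.2⟩) else 0
  have hf : ∀ (i : Fin (l + 1)) (s : Fin l), f i s = t (i, s) := fun i s => dif_pos ⟨i.2, s.2⟩
  have hc : ∀ s i : ℕ, ((I_SIE.pol l l f).coeff s).coeff i = f i s := by
    intro s i
    rw [I_SIE.coeff_pol]
    by_cases h : s < l ∧ i < l + 1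
    · rw [if_pos h]
    · rw [if_neg h]
      have h' : ¬ (i < l + 1 ∧ s < l) := fun h' => h ⟨h'.2, h'.1⟩
      have h'' : f i s = 0 := by
        simp only [f]
        rw [dif_neg h']
      exact h''.symm
  have hBox : Box l l (I_SIE.pol l l f) := by
    intro s i h
    rw [I_SIE.coeff_pol, if_neg]
    rintro ⟨h3, h4⟩
    omega
  refine ⟨I_SIE.pol l l f, ?_, hBox, ?_, ?_⟩
  · intro h0
    apply ht0
    funext p
    have := hc p.2 p.1
    rw [h0, coeff_zero, coeff_zero, hf] at this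
    exact this.symm
  · rw [PowerSeries.X_pow_dvd_iff]
    intro k hk
    have h3 := h1 l l _ hBox k
    have h4 : (∑ i ∈ range (l + 1), ∑ s ∈ range l,
        (k.descFactorial s : ℚ) * (i : ℚ) ^ (k - s) * (((I_SIE.pol l l f).coeff s).coeff i : ℚ)) = 0 := by
      have h5 : (A.mulVec t) ⟨k, hk⟩ = 0 := by rw [ht1]; rfl
      rw [Matrix.mulVec, dotProduct, Fintype.sum_prod_type] at h5
      have h6 : ((∑ i : Fin (l + 1), ∑ s : Fin l, A ⟨k, hk⟩ (i, s) * t (i, s) : ℤ) : ℚ) = 0 := by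
        rw [h5]; rfl
      rw [← h6]
      push_cast
      rw [← Fin.sum_univ_eq_sum_range (fun i => ∑ s ∈ range l,
        (k.descFactorial s : ℚ) * (i : ℚ) ^ (k - s) * (((I_SIE.pol l l f).coeff s).coeff i : ℚ)) (l + 1)]
      refine Finset.sum_congr rfl fun i _ => ?_
      rw [← Fin.sum_univ_eq_sum_range (fun s =>
        (k.descFactorial s : ℚ) * ((i : ℕ) : ℚ) ^ (k - s) * (((I_SIE.pol l l f).coeff s).coeff (i : ℕ) : ℚ)) l]
      refine Finset.sum_congr rfl fun s _ => ?_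
      rw [hc, hf]
      have h7 : (A ⟨k, hk⟩ (i, s) : ℚ) = (k.descFactorial (s : ℕ) : ℚ) * ((i : ℕ) : ℚ) ^ (k - (s : ℕ)) := by
        change (((k.descFactorial (s : ℕ) * (i : ℕ) ^ (k - (s : ℕ)) : ℕ) : ℤ) : ℚ) = _
        push_cast
        ring
      rw [h7]
    rw [h4] at h3
    have h8 : (k ! : ℚ) ≠ 0 := by exact_mod_cast Nat.factorial_ne_zero k
    exact (mul_eq_zero.1 h3).resolve_left h8
  · have h3 : nm l l (I_SIE.pol l l f) ≤ ∑ i ∈ range (l + 1), ∑ s ∈ range l, Bd := by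
      refine Finset.sum_le_sum fun i hi => Finset.sum_le_sum fun s hs => ?_
      rw [hc]
      have h4 := hf ⟨i, Finset.mem_range.1 hi⟩ ⟨s, Finset.mem_range.1 hs⟩
      change f i s = _ at h4
      rw [h4]
      exact ht2 _
    have h5 : ∑ i ∈ range (l + 1), ∑ s ∈ range l, Bd = (l * (l + 1) : ℝ) * Bd := by
      rw [Finset.sum_const, Finset.sum_const, Finset.card_range, Finset.card_range, nsmul_eq_mul, nsmul_eq_mul]
      push_cast
      ring
    rw [h5] at h3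
    refine h3.trans (le_of_eq ?_)
    rw [hBd]
    push_cast
    rfl

end Pool.Agent.Work.MP_f1a024_nt.EX
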