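import Mathlib
import Pool.Agent.Work.MP_f1a024_nt.EX.Stmts3

set_option autoImplicit false

/-!
Item SPL: the final theorem from REX2, by splitting the window.
-/

namespace Pool.Agent.Work.MP_f1a024_nt.EX

open Real Polynomial MeasureTheory Finset Filter Topology
open scoped Nat
open Pool.Agent.Work.MP_f1a024_nt.HP (evr Ez JJ Qz FF pp)

namespace Spl3

/-- the block `i` -/
theorem pigeon (T : Finset ℕ) (N K q e : ℕ) (hq : 1 ≤ q) (hT : T.card ≤ e) :
    ∃ i < q, q * (T.filter fun n => N ≤ n + K + i * (K + 1) ∧ n + i * (K + 1) ≤ N).card ≤ e := by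
  by_contra hc
  push Not at hc
  set B : ℕ → Finset ℕ := fun i =>
    T.filter fun n => N ≤ n + K + i * (K + 1) ∧ n + i * (K + 1) ≤ N with hB
  have hdis : ∀ i ∈ Finset.range q, ∀ j ∈ Finset.range q, i ≠ j → Disjoint (B i) (B j) := by
    have key : ∀ i j, i < j → Disjoint (B i) (B j) := by
      intro i j hij
      rw [Finset.disjoint_left]
      intro n hn1 hn2
      rw [hB, Finset.mem_filter] at hn1 hn2
      have h1 : (i + 1) * (K + 1) ≤ j * (K + 1) := Nat.mul_le_mul_right _ hij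
      have h2 : (i + 1) * (K + 1) = i * (K + 1) + (K + 1) := by ring
      omega
    intro i _ j _ hij
    rcases Nat.lt_or_gt_of_ne hij with h | h
    · exact key i j h
    · exact (key j i h).symm
  have h1 : ∑ i ∈ Finset.range q, (B i).card ≤ T.card := by
    rw [← Finset.card_biUnion hdis]
    apply Finset.card_le_card
    intro n hn
    rw [Finset.mem_biUnion] at hn
    obtain ⟨i, -, hn⟩ := hn
    exact (Finset.mem_filter.mp hn).1
  have h2 : ∑ i ∈ Finset.range q, (e + 1) ≤ ∑ i ∈ Finset.range q, q * (B i).card :=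
    Finset.sum_le_sum fun i hi => hc i (Finset.mem_range.mp hi)
  rw [Finset.sum_const, Finset.card_range, smul_eq_mul, ← Finset.mul_sum] at h2
  have h3 : e + 1 ≤ ∑ i ∈ Finset.range q, (B i).card := Nat.le_of_mul_le_mul_left h2 hq
  omega

/-- the bounds for `b` -/
theorem bnd (V L K m : ℝ) (hV : 0 < V) (hL : 0 < L) (hK : 0 < K) (hm : 0 < m)
    (h1 : K ≤ 2 * V ^ 2) (h2 : K ≤ 2 * L) :
    max V (V ^ 3 / L) / (10 ^ 11 * m) ≤ V ^ 3 / (10 ^ 10 * (m * K)) := by
  have h3 : max V (V ^ 3 / L) ≤ 2 * V ^ 3 / K := by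
    apply max_le
    · rw [le_div_iff₀ hK]
      nlinarith
    · rw [div_le_div_iff₀ hL hK]
      have h4 : 0 ≤ V ^ 3 := by positivity
      nlinarith
  calc max V (V ^ 3 / L) / (10 ^ 11 * m) ≤ (2 * V ^ 3 / K) / (10 ^ 11 * m) := by gcongr
    _ = (2 / 10) * (V ^ 3 / (10 ^ 10 * (m * K))) := by
      field_simp
    _ ≤ V ^ 3 / (10 ^ 10 * (m * K)) := by
      have : 0 ≤ V ^ 3 / (10 ^ 10 * (m * K)) := by positivity
      linarith

end Spl3

open Spl3 in
/-- SPL -/
theorem SPL3_own (h1 : S_REX3) : S_SPL3 := by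
  intro N L m e α V ω hN hLN hm hα hV hA hB hC
  classical
  have hN1 : (2 : ℝ) ≤ N := by exact_mod_cast hN
  have hm1 : (1 : ℝ) ≤ m := by exact_mod_cast hm
  have he0 : (0 : ℝ) ≤ e := Nat.cast_nonneg _
  have hlam : (1 / 2 : ℝ) ≤ Real.log N := by
    have h2 := Real.log_two_gt_d9
    have h3 : Real.log 2 ≤ Real.log N := Real.log_le_log (by norm_num) hN1
    linarith
  have hlam0 : 0 < Real.log N := by linarith
  have hNl : N * Real.log N ≤ V ^ 3 / 10 ^ 11 := by
    refine le_trans ?_ hA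
    have h2 : 0 ≤ (N : ℝ) * Real.log N := by positivity
    have h3 : 0 ≤ α + N * Real.log N := by linarith
    nlinarith
  have hV0 : 0 < V := by
    rcases hV.lt_or_eq with h | h
    · exact h
    · exfalso
      rw [← h] at hNl
      have h2 : 0 < (N : ℝ) * Real.log N := by positivity
      norm_num at hNl
      linarith
  have hLr0 : (0 : ℝ) ≤ L := Nat.cast_nonneg _
  have hL0 : (0 : ℝ) < L := by
    rcases hLr0.lt_or_eq with h | h
    · exact h
    · exfalso
      rw [← h] at hB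
      have h4 : (0 : ℝ) < Real.log (3 + (0 : ℝ) ^ 2 / V ^ 3) := by
        apply Real.log_pos
        norm_num
      have h2 : 0 < ((m : ℝ) + e) * (V ^ 3 * Real.log (3 + (0 : ℝ) ^ 2 / V ^ 3)) := by positivity
      have h5 : (0 : ℝ) ^ 2 / 10 ^ 11 = 0 := by norm_num
      linarith
  suffices key : ∀ T : Finset ℕ, T.card ≤ e → ∃ n : ℕ, n ∉ T ∧ (Odd n ∧ 3 ≤ n ∧ N ≤ n + L ∧
      n ≤ N ∧ ∀ (a : Fin m → ℤ) (b : ℕ), (∀ i, |(a i : ℝ)| ≤ Real.exp α) → 1 ≤ b →
        (b : ℝ) ≤ Real.exp (max V (V ^ 3 / L) / (10 ^ 11 * m)) →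
        riemannZeta (2 * n) / riemannZeta n ^ 2 * ((2 * n)! : ℂ) *
          (∑ i, (a i : ℂ) * (ω i : ℂ)) ^ 2 ≠ 2 ^ (2 * n - 1) * (bernoulli (2 * n) : ℂ) * b ^ 2) by
    refine ⟨(Finset.range (N + 1)).filter (fun n => Odd n ∧ 3 ≤ n ∧ N ≤ n + L ∧
      n ≤ N ∧ ∀ (a : Fin m → ℤ) (b : ℕ), (∀ i, |(a i : ℝ)| ≤ Real.exp α) → 1 ≤ b →
        (b : ℝ) ≤ Real.exp (max V (V ^ 3 / L) / (10 ^ 11 * m)) →
        riemannZeta (2 * n) / riemannZeta n ^ 2 * ((2 * n)! : ℂ) *
          (∑ i, (a i : ℂ) * (ω i : ℂ)) ^ 2 ≠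
            2 ^ (2 * n - 1) * (bernoulli (2 * n) : ℂ) * b ^ 2), ?_,
      fun n hn => (Finset.mem_filter.mp hn).2⟩
    by_contra hc
    push Not at hc
    obtain ⟨n, hn, hn2⟩ := key _ hc
    apply hn
    rw [Finset.mem_filter]
    exact ⟨Finset.mem_range.mpr (Nat.lt_succ_of_le hn2.2.2.2.1), hn2⟩
  intro T hT
  have hTe : (T.card : ℝ) ≤ e := by exact_mod_cast hT
  rcases le_or_gt (L : ℝ) (2 * V ^ 2) with hcase | hcase
  · -- one block
    obtain ⟨n, hn1, hn2, hn3, hn4, hn5, hn6⟩ := h1 N L m α V ω T hN hLN hm hα hV hcase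
      (hA.trans (by
        have : 0 ≤ V ^ 3 := by positivity
        linarith))
      (by
        have h4 : (0 : ℝ) ≤ Real.log (3 + (L : ℝ) ^ 2 / V ^ 3) := by
          apply Real.log_nonneg
          have : 0 ≤ (L : ℝ) ^ 2 / V ^ 3 := by positivity
          linarith
        have h2 : ((m : ℝ) + T.card) * (V ^ 3 * Real.log (3 + (L : ℝ) ^ 2 / V ^ 3)) ≤
            (m + e) * (V ^ 3 * Real.log (3 + (L : ℝ) ^ 2 / V ^ 3)) := by
          gcongr
        have h3 : (0 : ℝ) ≤ (L : ℝ) ^ 2 := by positivity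
        linarith)
    refine ⟨n, hn1, hn2, hn3, hn4, hn5, fun a b ha hb1 hb2 => hn6 a b ha hb1 (hb2.trans ?_)⟩
    exact Real.exp_le_exp.mpr (bnd V L L m hV0 hL0 hL0 (by linarith) hcase (by linarith))
  · -- many blocks
    have hLN' : (L : ℝ) ≤ N := by exact_mod_cast hLN
    have hVbig : 1000 ≤ V := by
      have h2 : 2 * V ^ 2 * (1 / 2) ≤ V ^ 3 / 10 ^ 11 :=
        calc 2 * V ^ 2 * (1 / 2) ≤ N * Real.log N := by
              apply mul_le_mul _ hlam (by norm_num) (by linarith)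
              linarith
          _ ≤ _ := hNl
      have h3 : V ^ 2 * 10 ^ 11 ≤ V ^ 2 * V := by
        rw [le_div_iff₀ (by norm_num)] at h2
        nlinarith
      have h4 : (10 : ℝ) ^ 11 ≤ V := le_of_mul_le_mul_left h3 (by positivity)
      linarith
    set K : ℕ := ⌈V ^ 2⌉₊ with hK
    have hV2 : (1000 : ℝ) ≤ V ^ 2 := by nlinarith
    have hK1 : V ^ 2 ≤ K := Nat.le_ceil _
    have hK2 : (K : ℝ) < V ^ 2 + 1 := Nat.ceil_lt_add_one (by positivity)
    have hKpos : 1 ≤ K := by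
      have : (1 : ℝ) ≤ K := by linarith
      exact_mod_cast this
    have hKL : K + 1 ≤ L := by
      have : ((K + 1 : ℕ) : ℝ) ≤ L := by
        push_cast
        linarith
      exact_mod_cast this
    set q : ℕ := L / (K + 1) with hq
    have hq1 : 1 ≤ q := (Nat.one_le_div_iff (by omega)).mpr hKL
    have hqL : q * (K + 1) ≤ L := Nat.div_mul_le_self L (K + 1)
    have hqL2 : L < (q + 1) * (K + 1) := by
      have h2 := Nat.div_add_mod L (K + 1)
      have h3 : L % (K + 1) < K + 1 := Nat.mod_lt _ (by omega)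
      have h4 : (q + 1) * (K + 1) = (K + 1) * (L / (K + 1)) + (K + 1) := by rw [hq]; ring
      omega
    obtain ⟨i, hi, hTi⟩ := pigeon T N K q e hq1 hT
    set B : Finset ℕ := T.filter fun n => N ≤ n + K + i * (K + 1) ∧ n + i * (K + 1) ≤ N with hBd
    have hiK : (i + 1) * (K + 1) ≤ L := (Nat.mul_le_mul_right _ hi).trans hqL
    have hiK' : i * (K + 1) + (K + 1) ≤ L := by
      have : (i + 1) * (K + 1) = i * (K + 1) + (K + 1) := by ring
      omega
    set M : ℕ := N - i * (K + 1) with hM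
    have hMN : M + i * (K + 1) = N := by omega
    have hKM : K + 1 ≤ M := by omega
    have hMr : (M : ℝ) ≤ N := by exact_mod_cast (by omega : M ≤ N)
    have hM2 : 2 ≤ M := by omega
    have hMpos : (0 : ℝ) < M := by exact_mod_cast (by omega : 0 < M)
    have hlogM : Real.log M ≤ Real.log N := Real.log_le_log hMpos hMr
    have hlogM0 : 0 ≤ Real.log M := Real.log_nonneg (by exact_mod_cast (by omega : 1 ≤ M))
    have hV3 : 0 ≤ V ^ 3 := by positivity
    have c1 : m * (α + M * Real.log M) ≤ V ^ 3 / 10 ^ 10 := by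
      have h2 : (M : ℝ) * Real.log M ≤ N * Real.log N := by gcongr
      have h3 : (m : ℝ) * (α + M * Real.log M) ≤ m * (α + N * Real.log N) := by gcongr
      linarith
    have hlogK : Real.log (3 + (K : ℝ) ^ 2 / V ^ 3) ≤ Real.log N := by
      have e1 : (K : ℝ) ≤ 2 * V ^ 2 := by linarith
      have e2 : (K : ℝ) ^ 2 ≤ (2 * V ^ 2) ^ 2 := by gcongr
      have e3 : (K : ℝ) ^ 2 / V ^ 3 ≤ 4 * V := by
        rw [div_le_iff₀ (by positivity)]
        nlinarith
      have e4 : 0 ≤ (K : ℝ) ^ 2 / V ^ 3 := by positivity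
      apply Real.log_le_log (by linarith)
      nlinarith
    have c2 : ((m : ℝ) + B.card) * (V ^ 3 * Real.log (3 + (K : ℝ) ^ 2 / V ^ 3)) ≤
        (K : ℝ) ^ 2 / 10 ^ 10 := by
      have hKr : (1 : ℝ) ≤ K := by exact_mod_cast hKpos
      -- the part of `m`
      have d1 : (m : ℝ) * (V ^ 3 * Real.log N) ≤ (K : ℝ) ^ 2 / (2 * 10 ^ 11) := by
        have h2 : (m : ℝ) * (N * Real.log N) ≤ V ^ 3 / 10 ^ 11 := by
          refine le_trans ?_ hA
          gcongr
          linarith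
        have h3 : (2 * V ^ 2) * (m * Real.log N) ≤ V ^ 3 / 10 ^ 11 := by
          refine le_trans ?_ h2
          have h4 : (m : ℝ) * (N * Real.log N) = N * (m * Real.log N) := by ring
          rw [h4]
          apply mul_le_mul_of_nonneg_right _ (by positivity)
          linarith
        have h5 : V ^ 2 * (2 * (m * Real.log N)) ≤ V ^ 2 * (V / 10 ^ 11) := by
          calc V ^ 2 * (2 * (m * Real.log N)) = (2 * V ^ 2) * (m * Real.log N) := by ring
            _ ≤ V ^ 3 / 10 ^ 11 := h3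
            _ = V ^ 2 * (V / 10 ^ 11) := by ring
        have h6 : 2 * (m * Real.log N) ≤ V / 10 ^ 11 := le_of_mul_le_mul_left h5 (by positivity)
        calc (m : ℝ) * (V ^ 3 * Real.log N) = V ^ 3 / 2 * (2 * (m * Real.log N)) := by ring
          _ ≤ V ^ 3 / 2 * (V / 10 ^ 11) := by gcongr
          _ = (V ^ 2) ^ 2 / (2 * 10 ^ 11) := by ring
          _ ≤ (K : ℝ) ^ 2 / (2 * 10 ^ 11) := by gcongr
      -- the part of `e`
      have d2 : (B.card : ℝ) * (V ^ 3 * Real.log N) ≤ 4 * (K : ℝ) ^ 2 / 10 ^ 11 := by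
        have h2 : (q : ℝ) * B.card ≤ e := by exact_mod_cast hTi
        have h3 : (L : ℝ) ≤ 2 * q * (K + 1) := by
          have h4 : (L : ℝ) ≤ ((q + 1 : ℕ) : ℝ) * ((K + 1 : ℕ) : ℝ) := by exact_mod_cast hqL2.le
          push_cast at h4
          have h5 : (1 : ℝ) ≤ q := by exact_mod_cast hq1
          nlinarith
        have hBc : (0 : ℝ) ≤ B.card := Nat.cast_nonneg _
        -- `L * B.card ≤ 2 (K+1) e`
        have h6 : (L : ℝ) * B.card ≤ 2 * (K + 1) * e := by
          calc (L : ℝ) * B.card ≤ (2 * q * (K + 1)) * B.card := by gcongr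
            _ = 2 * (K + 1) * (q * B.card) := by ring
            _ ≤ 2 * (K + 1) * e := by gcongr
        have h7 : (L : ℝ) * ((B.card : ℝ) * (V ^ 3 * Real.log N)) ≤
            L * (4 * (K : ℝ) ^ 2 / 10 ^ 11) := by
          calc (L : ℝ) * ((B.card : ℝ) * (V ^ 3 * Real.log N))
              = (L * B.card) * (V ^ 3 * Real.log N) := by ring
            _ ≤ (2 * (K + 1) * e) * (V ^ 3 * Real.log N) := by gcongr
            _ = 2 * (K + 1) * V ^ 2 * (e * (V * Real.log N)) := by ring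
            _ ≤ 2 * (K + 1) * V ^ 2 * (L / 10 ^ 11) := by gcongr
            _ ≤ 2 * (K + K) * K * (L / 10 ^ 11) := by gcongr
            _ = L * (4 * (K : ℝ) ^ 2 / 10 ^ 11) := by ring
        exact le_of_mul_le_mul_left h7 hL0
      calc ((m : ℝ) + B.card) * (V ^ 3 * Real.log (3 + (K : ℝ) ^ 2 / V ^ 3))
          ≤ ((m : ℝ) + B.card) * (V ^ 3 * Real.log N) := by gcongr
        _ = m * (V ^ 3 * Real.log N) + B.card * (V ^ 3 * Real.log N) := by ring
        _ ≤ (K : ℝ) ^ 2 / (2 * 10 ^ 11) + 4 * (K : ℝ) ^ 2 / 10 ^ 11 := add_le_add d1 d2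
        _ ≤ (K : ℝ) ^ 2 / 10 ^ 10 := by
          have : (0 : ℝ) ≤ (K : ℝ) ^ 2 := by positivity
          linarith
    obtain ⟨n, hn1, hn2, hn3, hn4, hn5, hn6⟩ := h1 M K m α V ω B hM2 (by omega) hm hα hV
      (by linarith) c1 c2
    refine ⟨n, ?_, hn2, hn3, by omega, by omega, fun a b ha hb1 hb2 =>
      hn6 a b ha hb1 (hb2.trans ?_)⟩
    · intro hnT
      apply hn1
      rw [hBd, Finset.mem_filter]
      exact ⟨hnT, by omega, by omega⟩
    · have hKr : (0 : ℝ) < K := by exact_mod_cast (by omega : 0 < K)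
      exact Real.exp_le_exp.mpr (bnd V L K m hV0 hL0 hKr (by linarith) (by linarith)
        (by linarith))

end Pool.Agent.Work.MP_f1a024_nt.EX
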